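import Pool.Agent.H30.NZ.Basic

/-!
# MP_63054e_co, module A: finite combinatorics of complexes
-/

namespace Pool.Agent.H30.NZ

open Finset

/-! ### basic membership lemmas -/

theorem h83_mem_cone {w : ℤ} {K : Cx} {G : Finset ℤ} :
    G ∈ cone w K ↔ ∃ F ∈ K, insert w F = G := by
  unfold cone
  rw [mem_image]

theorem h83_mem_vts {K : Cx} {x : ℤ} : x ∈ vts K ↔ ∃ F ∈ K, x ∈ F := by
  unfold vts
  simp only [mem_biUnion, id]

theorem h83_notMem {K : Cx} {w : ℤ} (hw : w ∉ vts K) {F : Finset ℤ} (hF : F ∈ K) : w ∉ F :=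
  fun h => hw (h83_mem_vts.2 ⟨F, hF, h⟩)

theorem h83_mem_ridges {K : Cx} {G : Finset ℤ} :
    G ∈ ridges K ↔ ∃ F ∈ K, ∃ x ∈ F, F.erase x = G := by
  unfold ridges
  simp only [mem_biUnion, mem_image]

theorem h83_mem_star {K : Cx} {s F : Finset ℤ} : F ∈ star K s ↔ F ∈ K ∧ s ⊆ F := by
  unfold star
  rw [mem_filter]

theorem h83_mem_bd {K : Cx} {G : Finset ℤ} :
    G ∈ bd K ↔ G ∈ ridges K ∧ (star K G).card = 1 := by
  unfold bd
  rw [mem_filter]

theorem h83_star_union {K L : Cx} {s : Finset ℤ} : star (K ∪ L) s = star K s ∪ star L s := by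
  unfold star
  rw [filter_union]

theorem h83_star_mono {K L : Cx} (h : K ⊆ L) {s : Finset ℤ} : star K s ⊆ star L s := by
  unfold star
  exact filter_subset_filter _ h

theorem h83_star_disj {K L : Cx} (h : Disjoint K L) {s : Finset ℤ} :
    Disjoint (star K s) (star L s) := by
  unfold star
  exact disjoint_filter_filter h

theorem h83_ridges_union {K L : Cx} : ridges (K ∪ L) = ridges K ∪ ridges L := by
  ext G
  simp only [mem_union, h83_mem_ridges]
  constructor
  · rintro ⟨F, hF | hF, h⟩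
    · exact Or.inl ⟨F, hF, h⟩
    · exact Or.inr ⟨F, hF, h⟩
  · rintro (⟨F, hF, h⟩ | ⟨F, hF, h⟩)
    · exact ⟨F, Or.inl hF, h⟩
    · exact ⟨F, Or.inr hF, h⟩

theorem h83_ridges_mono {K L : Cx} (h : K ⊆ L) : ridges K ⊆ ridges L := by
  intro G hG
  obtain ⟨F, hF, h1⟩ := h83_mem_ridges.1 hG
  exact h83_mem_ridges.2 ⟨F, h hF, h1⟩

/-- the cardinality of a ridge -/
theorem h83_ridge_card {c : ℕ} {K : Cx} (h : Pure c K) {G : Finset ℤ} (hG : G ∈ ridges K) :
    G.card + 1 = c := by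
  obtain ⟨F, hF, x, hx, rfl⟩ := h83_mem_ridges.1 hG
  rw [card_erase_add_one hx]
  exact h F hF

/-- a facet which contains a set with one element less -/
theorem h83_ridge_of_star {c : ℕ} {K : Cx} (h : Pure c K) {G : Finset ℤ} (hG : G.card + 1 = c)
    (hs : (star K G).Nonempty) : G ∈ ridges K := by
  obtain ⟨F, hF⟩ := hs
  obtain ⟨h1, h2⟩ := h83_mem_star.1 hF
  have h3 : (F \ G).card = 1 := by
    rw [card_sdiff_of_subset h2, h F h1]
    omega
  obtain ⟨x, hx⟩ := card_eq_one.1 h3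
  have hxF : x ∈ F ∧ x ∉ G := by
    have : x ∈ F \ G := by rw [hx]; exact mem_singleton_self x
    exact mem_sdiff.1 this
  refine h83_mem_ridges.2 ⟨F, h1, x, hxF.1, ?_⟩
  ext y
  rw [mem_erase]
  constructor
  · rintro ⟨h4, h5⟩
    by_contra h6
    have : y ∈ F \ G := mem_sdiff.2 ⟨h5, h6⟩
    rw [hx, mem_singleton] at this
    exact h4 this
  · intro h4
    exact ⟨fun h5 => hxF.2 (h5 ▸ h4), h2 h4⟩

theorem h83_star_pos {K : Cx} {G : Finset ℤ} (hG : G ∈ ridges K) : 0 < (star K G).card := by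
  obtain ⟨F, hF, x, hx, rfl⟩ := h83_mem_ridges.1 hG
  exact card_pos.2 ⟨F, h83_mem_star.2 ⟨hF, erase_subset x F⟩⟩

/-- membership in the boundary, for pure complexes -/
theorem h83_mem_bd_pure {c : ℕ} {K : Cx} (h : Pure c K) {G : Finset ℤ} :
    G ∈ bd K ↔ G.card + 1 = c ∧ (star K G).card = 1 := by
  rw [h83_mem_bd]
  constructor
  · rintro ⟨h1, h2⟩
    exact ⟨h83_ridge_card h h1, h2⟩
  · rintro ⟨h1, h2⟩
    refine ⟨h83_ridge_of_star h h1 ?_, h2⟩
    rw [← card_pos]
    omega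

theorem h83_pm_pure {c : ℕ} {K : Cx} (h : Pure c K) (hpm : PM K) {G : Finset ℤ}
    (hG : G.card + 1 = c) : (star K G).card ≤ 2 := by
  by_cases h1 : (star K G).Nonempty
  · exact hpm G (h83_ridge_of_star h hG h1)
  · rw [not_nonempty_iff_eq_empty.1 h1, card_empty]
    omega

theorem mem_vts {K : Cx} {x : ℤ} : x ∈ vts K ↔ Fc K {x} := by
  rw [h83_mem_vts]
  unfold Fc
  simp only [singleton_subset_iff]

theorem fc_mono {K L : Cx} (h : K ⊆ L) {s : Finset ℤ} (hs : Fc K s) : Fc L s := by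
  obtain ⟨F, hF, h1⟩ := hs
  exact ⟨F, h hF, h1⟩

theorem fc_sub {K : Cx} {s t : Finset ℤ} (h : s ⊆ t) (hs : Fc K t) : Fc K s := by
  obtain ⟨F, hF, h1⟩ := hs
  exact ⟨F, hF, h.trans h1⟩

theorem fc_union {K L : Cx} {s : Finset ℤ} : Fc (K ∪ L) s ↔ Fc K s ∨ Fc L s := by
  constructor
  · rintro ⟨F, hF, h1⟩
    rcases mem_union.1 hF with h | h
    · exact Or.inl ⟨F, h, h1⟩
    · exact Or.inr ⟨F, h, h1⟩
  · rintro (h | h)
    · exact fc_mono subset_union_left h
    · exact fc_mono subset_union_right h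

theorem fc_cone {w : ℤ} {K : Cx} {s : Finset ℤ} : Fc (cone w K) s ↔ Fc K (s.erase w) := by
  constructor
  · rintro ⟨G, hG, h1⟩
    obtain ⟨F, hF, rfl⟩ := h83_mem_cone.1 hG
    exact ⟨F, hF, subset_insert_iff.1 h1⟩
  · rintro ⟨F, hF, h1⟩
    exact ⟨insert w F, h83_mem_cone.2 ⟨F, hF, rfl⟩, subset_insert_iff.2 h1⟩

theorem vts_mono {K L : Cx} (h : K ⊆ L) : vts K ⊆ vts L := by
  intro x hx
  rw [mem_vts] at hx ⊢
  exact fc_mono h hx

theorem vts_union {K L : Cx} : vts (K ∪ L) = vts K ∪ vts L := by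
  ext x
  rw [mem_union, mem_vts, mem_vts, mem_vts, fc_union]

theorem mem_vts_cone {w x : ℤ} {K : Cx} :
    x ∈ vts (cone w K) ↔ K.Nonempty ∧ (x = w ∨ x ∈ vts K) := by
  rw [h83_mem_vts, h83_mem_vts]
  constructor
  · rintro ⟨G, hG, hx⟩
    obtain ⟨F, hF, rfl⟩ := h83_mem_cone.1 hG
    rcases mem_insert.1 hx with h | h
    · exact ⟨⟨F, hF⟩, Or.inl h⟩
    · exact ⟨⟨F, hF⟩, Or.inr ⟨F, hF, h⟩⟩
  · rintro ⟨⟨F, hF⟩, h | ⟨F', hF', h⟩⟩
    · exact ⟨insert w F, h83_mem_cone.2 ⟨F, hF, rfl⟩, by rw [h]; exact mem_insert_self w F⟩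
    · exact ⟨insert w F', h83_mem_cone.2 ⟨F', hF', rfl⟩, mem_insert_of_mem h⟩

theorem fc_bd {K : Cx} {s : Finset ℤ} (h : Fc (bd K) s) : Fc K s := by
  obtain ⟨G, hG, h1⟩ := h
  obtain ⟨F, hF, x, hx, rfl⟩ := h83_mem_ridges.1 (h83_mem_bd.1 hG).1
  exact ⟨F, hF, h1.trans (erase_subset x F)⟩

theorem vts_bd {K : Cx} : vts (bd K) ⊆ vts K := by
  intro x hx
  rw [mem_vts] at hx ⊢
  exact fc_bd hx

theorem cone_union {w : ℤ} {K L : Cx} : cone w (K ∪ L) = cone w K ∪ cone w L := by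
  unfold cone
  exact image_union K L

theorem cone_subset {w : ℤ} {K L : Cx} (h : K ⊆ L) : cone w K ⊆ cone w L := by
  unfold cone
  exact image_subset_image h

theorem h83_insert_inj {w : ℤ} {F G : Finset ℤ} (hF : w ∉ F) (hG : w ∉ G)
    (h : insert w F = insert w G) : F = G := by
  rw [← erase_insert hF, ← erase_insert hG, h]

/-- cones, when the apex is new -/
theorem h83_mem_cone_insert {w : ℤ} {K : Cx} (hw : w ∉ vts K) {F : Finset ℤ} (hF : w ∉ F) :
    insert w F ∈ cone w K ↔ F ∈ K := by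
  rw [h83_mem_cone]
  constructor
  · rintro ⟨F', hF', h⟩
    rw [← h83_insert_inj (h83_notMem hw hF') hF h]
    exact hF'
  · intro h
    exact ⟨F, h, rfl⟩

theorem cone_sdiff {w : ℤ} {K L : Cx} (hK : w ∉ vts K) (hL : w ∉ vts L) :
    cone w (K \ L) = cone w K \ cone w L := by
  ext G
  rw [mem_sdiff]
  constructor
  · intro hG
    obtain ⟨F, hF, rfl⟩ := h83_mem_cone.1 hG
    obtain ⟨h1, h2⟩ := mem_sdiff.1 hF
    have hwF := h83_notMem hK h1
    exact ⟨(h83_mem_cone_insert hK hwF).2 h1, fun h => h2 ((h83_mem_cone_insert hL hwF).1 h)⟩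
  · rintro ⟨hG, h2⟩
    obtain ⟨F, hF, rfl⟩ := h83_mem_cone.1 hG
    have hwF := h83_notMem hK hF
    refine h83_mem_cone.2 ⟨F, mem_sdiff.2 ⟨hF, fun h => h2 ?_⟩, rfl⟩
    exact (h83_mem_cone_insert hL hwF).2 h

theorem cone_inj {w : ℤ} {K L : Cx} (hK : w ∉ vts K) (hL : w ∉ vts L) (h : cone w K = cone w L) :
    K = L := by
  ext F
  constructor
  · intro hF
    have hwF := h83_notMem hK hF
    rw [← h83_mem_cone_insert hL hwF, ← h]
    exact (h83_mem_cone_insert hK hwF).2 hF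
  · intro hF
    have hwF := h83_notMem hL hF
    rw [← h83_mem_cone_insert hK hwF, h]
    exact (h83_mem_cone_insert hL hwF).2 hF

theorem pure_mono {c : ℕ} {K L : Cx} (h : K ⊆ L) (hL : Pure c L) : Pure c K :=
  fun F hF => hL F (h hF)

theorem pure_union {c : ℕ} {K L : Cx} (hK : Pure c K) (hL : Pure c L) : Pure c (K ∪ L) := by
  intro F hF
  rcases mem_union.1 hF with h | h
  · exact hK F h
  · exact hL F h

theorem pure_cone {c : ℕ} {w : ℤ} {K : Cx} (h : Pure c K) (hw : w ∉ vts K) :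
    Pure (c + 1) (cone w K) := by
  intro G hG
  obtain ⟨F, hF, rfl⟩ := h83_mem_cone.1 hG
  rw [card_insert_of_notMem (h83_notMem hw hF), h F hF]

theorem pure_bd {c : ℕ} {K : Cx} (h : Pure (c + 1) K) : Pure c (bd K) := by
  intro G hG
  have := h83_ridge_card h (h83_mem_bd.1 hG).1
  omega

theorem pm_mono {K L : Cx} (h : K ⊆ L) (hL : PM L) : PM K := by
  intro G hG
  exact (card_le_card (h83_star_mono h)).trans (hL G (h83_ridges_mono h hG))

/-- the star of `w ∪ G` in a cone -/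
theorem h83_star_cone {w : ℤ} {K : Cx} (hw : w ∉ vts K) {G : Finset ℤ} (hG : w ∉ G) :
    (star (cone w K) (insert w G)).card = (star K G).card := by
  have h1 : star (cone w K) (insert w G) = (star K G).image (fun F => insert w F) := by
    ext H
    rw [h83_mem_star, mem_image]
    constructor
    · rintro ⟨h2, h3⟩
      obtain ⟨F, hF, rfl⟩ := h83_mem_cone.1 h2
      refine ⟨F, h83_mem_star.2 ⟨hF, ?_⟩, rfl⟩
      intro y hy
      have h4 := h3 (mem_insert_of_mem hy)
      rcases mem_insert.1 h4 with h5 | h5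
      · exact absurd (h5 ▸ hy) hG
      · exact h5
    · rintro ⟨F, hF, rfl⟩
      obtain ⟨h2, h3⟩ := h83_mem_star.1 hF
      exact ⟨h83_mem_cone.2 ⟨F, h2, rfl⟩, insert_subset_insert w h3⟩
  rw [h1, card_image_of_injOn]
  intro F hF F' hF' h2
  have a1 := (h83_mem_star.1 (mem_coe.1 hF)).1
  have a2 := (h83_mem_star.1 (mem_coe.1 hF')).1
  exact h83_insert_inj (h83_notMem hw a1) (h83_notMem hw a2) h2

/-- the star of a facet in a cone -/
theorem h83_star_cone_facet {c : ℕ} {w : ℤ} {K : Cx} (h : Pure c K) (hw : w ∉ vts K)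
    {G : Finset ℤ} (hG : w ∉ G) (hc : G.card = c) :
    (star (cone w K) G).card = if G ∈ K then 1 else 0 := by
  have h1 : star (cone w K) G = if G ∈ K then {insert w G} else ∅ := by
    ext H
    rw [h83_mem_star]
    constructor
    · rintro ⟨h2, h3⟩
      obtain ⟨F, hF, rfl⟩ := h83_mem_cone.1 h2
      have h4 : G ⊆ F := by
        intro y hy
        rcases mem_insert.1 (h3 hy) with h5 | h5
        · exact absurd (h5 ▸ hy) hG
        · exact h5
      have h5 : G = F := eq_of_subset_of_card_le h4 (by rw [h F hF, hc])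
      rw [h5, if_pos hF]
      exact mem_singleton_self _
    · intro h2
      by_cases h3 : G ∈ K
      · rw [if_pos h3, mem_singleton] at h2
        rw [h2]
        exact ⟨h83_mem_cone.2 ⟨G, h3, rfl⟩, subset_insert w G⟩
      · rw [if_neg h3] at h2
        exact absurd h2 (notMem_empty H)
  rw [h1]
  split_ifs
  · rfl
  · rfl

theorem bd_cone {c : ℕ} {w : ℤ} {K : Cx} (h : Pure c K) (hw : w ∉ vts K) :
    bd (cone w K) = K ∪ cone w (bd K) := by
  have hp := pure_cone h hw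
  have hwb : w ∉ vts (bd K) := fun h1 => hw (vts_bd h1)
  ext G
  rw [mem_union, h83_mem_bd_pure hp]
  by_cases hG : w ∈ G
  · have hG' : w ∉ G.erase w := notMem_erase w G
    have h1 : G ∉ K := fun h2 => h83_notMem hw h2 hG
    have h2 : G = insert w (G.erase w) := (insert_erase hG).symm
    have h3 : G.card = (G.erase w).card + 1 := (card_erase_add_one hG).symm
    rw [h2, h83_star_cone hw hG', h83_mem_cone_insert hwb hG', ← h2, h3, h83_mem_bd_pure h]
    constructor
    · rintro ⟨h4, h5⟩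
      exact Or.inr ⟨by omega, h5⟩
    · rintro (h4 | ⟨h4, h5⟩)
      · exact absurd h4 h1
      · exact ⟨by omega, h5⟩
  · have h1 : G ∉ cone w (bd K) := by
      intro h2
      obtain ⟨F, hF, rfl⟩ := h83_mem_cone.1 h2
      exact hG (mem_insert_self w F)
    constructor
    · rintro ⟨h2, h3⟩
      have h4 : G.card = c := by omega
      rw [h83_star_cone_facet h hw hG h4] at h3
      by_contra h5
      rw [if_neg (fun h6 => h5 (Or.inl h6))] at h3
      exact absurd h3 (by decide)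
    · rintro (h2 | h2)
      · have h4 : G.card = c := h G h2
        rw [h83_star_cone_facet h hw hG h4, if_pos h2]
        exact ⟨by omega, rfl⟩
      · exact absurd h2 h1

theorem pm_cone {c : ℕ} {w : ℤ} {K : Cx} (h : Pure c K) (hw : w ∉ vts K) (hpm : PM K) :
    PM (cone w K) := by
  have hp := pure_cone h hw
  intro G hG
  have hc := h83_ridge_card hp hG
  by_cases hwG : w ∈ G
  · have h2 : G = insert w (G.erase w) := (insert_erase hwG).symm
    have h3 : G.card = (G.erase w).card + 1 := (card_erase_add_one hwG).symm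
    rw [h2, h83_star_cone hw (notMem_erase w G)]
    exact h83_pm_pure h hpm (by omega)
  · rw [h83_star_cone_facet h hw hwG (by omega)]
    split_ifs <;> omega

theorem bd_union {c : ℕ} {A B : Cx} (hA : Pure c A) (hB : Pure c B) (hd : Disjoint A B)
    (hpm : PM (A ∪ B)) : bd (A ∪ B) = (bd A \ bd B) ∪ (bd B \ bd A) := by
  have hp := pure_union hA hB
  ext G
  rw [mem_union, mem_sdiff, mem_sdiff, h83_mem_bd_pure hp, h83_mem_bd_pure hA,
    h83_mem_bd_pure hB]
  by_cases hc : G.card + 1 = c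
  · have h1 := h83_pm_pure hp hpm hc
    have h2 : (star (A ∪ B) G).card = (star A G).card + (star B G).card := by
      rw [h83_star_union, card_union_of_disjoint (h83_star_disj hd)]
    omega
  · constructor
    · rintro ⟨h1, _⟩
      exact absurd h1 hc
    · rintro (⟨⟨h1, _⟩, _⟩ | ⟨⟨h1, _⟩, _⟩)
      · exact absurd h1 hc
      · exact absurd h1 hc

theorem bd_sdiff {c : ℕ} {K A : Cx} (hK : Pure c K) (hA : A ⊆ K) (hpm : PM K) :
    bd (K \ A) = (bd K \ bd A) ∪ (bd A \ bd K) := by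
  have hpA := pure_mono hA hK
  have hpD : Pure c (K \ A) := pure_mono sdiff_subset hK
  ext G
  rw [mem_union, mem_sdiff, mem_sdiff, h83_mem_bd_pure hK, h83_mem_bd_pure hpA,
    h83_mem_bd_pure hpD]
  by_cases hc : G.card + 1 = c
  · have h1 := h83_pm_pure hK hpm hc
    have h2 : (star K G).card = (star A G).card + (star (K \ A) G).card := by
      rw [← card_union_of_disjoint (h83_star_disj disjoint_sdiff), ← h83_star_union,
        union_sdiff_of_subset hA]
    omega
  · constructor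
    · rintro ⟨h1, _⟩
      exact absurd h1 hc
    · rintro (⟨⟨h1, _⟩, _⟩ | ⟨⟨h1, _⟩, _⟩)
      · exact absurd h1 hc
      · exact absurd h1 hc

/-- the sum of the numbers of facets over a ridge is at most two -/
theorem pm_union {c : ℕ} {A B : Cx} (hA : Pure c A) (hB : Pure c B) (h1 : PM A) (h2 : PM B)
    (h : ∀ G, G ∈ ridges A → G ∈ ridges B → G ∈ bd A ∧ G ∈ bd B) : PM (A ∪ B) := by
  intro G hG
  have hc := h83_ridge_card (pure_union hA hB) hG
  have h3 : (star (A ∪ B) G).card ≤ (star A G).card + (star B G).card := by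
    rw [h83_star_union]
    exact card_union_le _ _
  have a1 := h83_pm_pure hA h1 hc
  have a2 := h83_pm_pure hB h2 hc
  by_cases hA' : (star A G).Nonempty
  · by_cases hB' : (star B G).Nonempty
    · have h4 := h G (h83_ridge_of_star hA hc hA') (h83_ridge_of_star hB hc hB')
      have h5 := (h83_mem_bd.1 h4.1).2
      have h6 := (h83_mem_bd.1 h4.2).2
      omega
    · have h5 : (star B G).card = 0 := by rw [not_nonempty_iff_eq_empty.1 hB', card_empty]
      omega
  · have h5 : (star A G).card = 0 := by rw [not_nonempty_iff_eq_empty.1 hA', card_empty]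
    omega

/-- the main use of normality -/
theorem fc_bd_of_nor {c : ℕ} {K A : Cx} (hK : Pure c K) (hn : Nor K) (hpm : PM K) (hA : A ⊆ K)
    {s : Finset ℤ} (h1 : Fc A s) (h2 : Fc (K \ A) s) : Fc (bd A) s := by
  obtain ⟨F, hF, F', hF', x, hx, hs, hs'⟩ := hn s A hA h1 h2
  obtain ⟨h3, h4⟩ := mem_sdiff.1 hF'
  have hr : F.erase x ∈ ridges A := h83_mem_ridges.2 ⟨F, hF, x, hx, rfl⟩
  have hc := h83_ridge_card (pure_mono hA hK) hr
  have h5 := h83_pm_pure hK hpm hc
  have h6 : (star K (F.erase x)).card = (star A (F.erase x)).card +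
      (star (K \ A) (F.erase x)).card := by
    rw [← card_union_of_disjoint (h83_star_disj disjoint_sdiff), ← h83_star_union,
      union_sdiff_of_subset hA]
  have h7 := h83_star_pos hr
  have h8 : 0 < (star (K \ A) (F.erase x)).card :=
    card_pos.2 ⟨F', h83_mem_star.2 ⟨hF', hs'⟩⟩
  exact ⟨F.erase x, h83_mem_bd.2 ⟨hr, by omega⟩, hs⟩

/-! ### simplices and their boundaries -/

theorem h83_mem_bsimp {F G : Finset ℤ} : G ∈ bsimp F ↔ ∃ x ∈ F, F.erase x = G := by
  unfold bsimp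
  rw [mem_image]

theorem bd_single {F : Finset ℤ} : bd {F} = bsimp F := by
  ext G
  rw [h83_mem_bd, h83_mem_bsimp, h83_mem_ridges]
  constructor
  · rintro ⟨⟨F', hF', h⟩, -⟩
    rw [mem_singleton] at hF'
    subst hF'
    exact h
  · rintro ⟨x, hx, rfl⟩
    refine ⟨⟨F, mem_singleton_self F, x, hx, rfl⟩, ?_⟩
    have : star {F} (F.erase x) = {F} := by
      ext H
      rw [h83_mem_star, mem_singleton]
      constructor
      · exact fun h => h.1
      · rintro rfl
        exact ⟨rfl, erase_subset x H⟩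
    rw [this, card_singleton]

theorem pm_single {F : Finset ℤ} : PM {F} := by
  intro G _
  have h : star {F} G ⊆ {F} := by
    intro H hH
    exact (h83_mem_star.1 hH).1
  have := card_le_card h
  rw [card_singleton] at this
  omega

theorem pm_bsimp {F : Finset ℤ} : PM (bsimp F) := by
  intro G hG
  obtain ⟨H, hH, y, hy, rfl⟩ := h83_mem_ridges.1 hG
  obtain ⟨x, hx, rfl⟩ := h83_mem_bsimp.1 hH
  have h : star (bsimp F) ((F.erase x).erase y) ⊆ {F.erase x, F.erase y} := by
    intro H hH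
    obtain ⟨h1, h2⟩ := h83_mem_star.1 hH
    obtain ⟨z, hz, rfl⟩ := h83_mem_bsimp.1 h1
    rw [mem_insert, mem_singleton]
    by_cases h3 : z = x
    · left
      rw [h3]
    · right
      by_cases h4 : z = y
      · rw [h4]
      · exfalso
        have h5 : z ∈ (F.erase x).erase y := mem_erase.2 ⟨h4, mem_erase.2 ⟨h3, hz⟩⟩
        exact (mem_erase.1 (h2 h5)).1 rfl
  exact (card_le_card h).trans (card_le_two)

theorem bd_bsimp {F : Finset ℤ} (_hF : F.Nonempty) : bd (bsimp F) = ∅ := by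
  rw [eq_empty_iff_forall_notMem]
  intro G hG
  obtain ⟨h1, h2⟩ := h83_mem_bd.1 hG
  obtain ⟨H, hH, y, hy, rfl⟩ := h83_mem_ridges.1 h1
  obtain ⟨x, hx, rfl⟩ := h83_mem_bsimp.1 hH
  have hyF : y ∈ F := (mem_erase.1 hy).2
  have hyx : y ≠ x := (mem_erase.1 hy).1
  have h3 : F.erase x ∈ star (bsimp F) ((F.erase x).erase y) :=
    h83_mem_star.2 ⟨h83_mem_bsimp.2 ⟨x, hx, rfl⟩, erase_subset _ _⟩
  have h4 : F.erase y ∈ star (bsimp F) ((F.erase x).erase y) := by
    refine h83_mem_star.2 ⟨h83_mem_bsimp.2 ⟨y, hyF, rfl⟩, ?_⟩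
    rw [erase_right_comm]
    exact erase_subset _ _
  have h5 := card_le_one.1 h2.le _ h3 _ h4
  have h6 : y ∈ F.erase y := by
    rw [← h5]
    exact hy
  exact (mem_erase.1 h6).1 rfl

/-! ### the antipode -/

theorem h83_mem_ngs {s : Finset ℤ} {x : ℤ} : x ∈ ngs s ↔ -x ∈ s := by
  unfold ngs
  rw [mem_image]
  constructor
  · rintro ⟨y, hy, rfl⟩
    rwa [_root_.neg_neg]
  · intro h
    exact ⟨-x, h, _root_.neg_neg x⟩

theorem ngs_ngs {s : Finset ℤ} : ngs (ngs s) = s := by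
  ext x
  rw [h83_mem_ngs, h83_mem_ngs, _root_.neg_neg]

theorem h83_ngs_inj {s t : Finset ℤ} (h : ngs s = ngs t) : s = t := by
  rw [← ngs_ngs (s := s), h, ngs_ngs]

theorem h83_ngs_card {s : Finset ℤ} : (ngs s).card = s.card := by
  unfold ngs
  exact card_image_of_injective s (fun a b h => neg_inj.1 h)

theorem h83_ngs_subset {s t : Finset ℤ} : ngs s ⊆ ngs t ↔ s ⊆ t := by
  constructor
  · intro h x hx
    have h1 : -x ∈ ngs s := by
      rw [h83_mem_ngs, _root_.neg_neg]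
      exact hx
    have h2 := h h1
    rwa [h83_mem_ngs, _root_.neg_neg] at h2
  · intro h x hx
    rw [h83_mem_ngs] at hx ⊢
    exact h hx

theorem h83_ngs_subset_comm {s t : Finset ℤ} : s ⊆ ngs t ↔ ngs s ⊆ t := by
  rw [← h83_ngs_subset (s := s), ngs_ngs]

theorem h83_ngs_erase {s : Finset ℤ} {x : ℤ} : ngs (s.erase x) = (ngs s).erase (-x) := by
  ext y
  rw [h83_mem_ngs, mem_erase, mem_erase, h83_mem_ngs]
  constructor
  · rintro ⟨h1, h2⟩
    exact ⟨fun h => h1 (by rw [h, _root_.neg_neg]), h2⟩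
  · rintro ⟨h1, h2⟩
    exact ⟨fun h => h1 (by rw [← h, _root_.neg_neg]), h2⟩

theorem h83_ngs_insert {s : Finset ℤ} {x : ℤ} : ngs (insert x s) = insert (-x) (ngs s) := by
  ext y
  rw [h83_mem_ngs, mem_insert, mem_insert, h83_mem_ngs]
  constructor
  · rintro (h | h)
    · left
      rw [← h, _root_.neg_neg]
    · exact Or.inr h
  · rintro (h | h)
    · left
      rw [h, _root_.neg_neg]
    · exact Or.inr h

theorem mem_neg {K : Cx} {F : Finset ℤ} : F ∈ neg K ↔ ngs F ∈ K := by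
  unfold neg
  rw [mem_image]
  constructor
  · rintro ⟨G, hG, rfl⟩
    rwa [ngs_ngs]
  · intro h
    exact ⟨ngs F, h, ngs_ngs⟩

theorem neg_neg {K : Cx} : neg (neg K) = K := by
  ext F
  rw [mem_neg, mem_neg, ngs_ngs]

theorem neg_subset {K L : Cx} : neg K ⊆ neg L ↔ K ⊆ L := by
  constructor
  · intro h F hF
    have h1 : ngs F ∈ neg K := by
      rw [mem_neg, ngs_ngs]
      exact hF
    have h2 := h h1
    rwa [mem_neg, ngs_ngs] at h2
  · intro h F hF
    rw [mem_neg] at hF ⊢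
    exact h hF

theorem neg_union {K L : Cx} : neg (K ∪ L) = neg K ∪ neg L := by
  ext F
  simp only [mem_union, mem_neg]

theorem neg_inter {K L : Cx} : neg (K ∩ L) = neg K ∩ neg L := by
  ext F
  simp only [mem_inter, mem_neg]

theorem neg_sdiff {K L : Cx} : neg (K \ L) = neg K \ neg L := by
  ext F
  simp only [mem_sdiff, mem_neg]

theorem neg_empty : neg ∅ = ∅ := by
  unfold neg
  exact image_empty _

theorem neg_cone {w : ℤ} {K : Cx} : neg (cone w K) = cone (-w) (neg K) := by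
  ext F
  rw [mem_neg, h83_mem_cone, h83_mem_cone]
  constructor
  · rintro ⟨G, hG, h⟩
    refine ⟨ngs G, ?_, ?_⟩
    · rw [mem_neg, ngs_ngs]
      exact hG
    · rw [← h83_ngs_insert, h, ngs_ngs]
  · rintro ⟨G, hG, h⟩
    refine ⟨ngs G, mem_neg.1 hG, ?_⟩
    rw [← h, h83_ngs_insert, _root_.neg_neg]

theorem fc_neg {K : Cx} {s : Finset ℤ} : Fc (neg K) s ↔ Fc K (ngs s) := by
  constructor
  · rintro ⟨F, hF, h⟩
    exact ⟨ngs F, mem_neg.1 hF, h83_ngs_subset.2 h⟩
  · rintro ⟨F, hF, h⟩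
    refine ⟨ngs F, ?_, h83_ngs_subset_comm.2 h⟩
    rw [mem_neg, ngs_ngs]
    exact hF

theorem mem_vts_neg {K : Cx} {x : ℤ} : x ∈ vts (neg K) ↔ -x ∈ vts K := by
  rw [mem_vts, mem_vts, fc_neg]
  have : ngs {x} = {-x} := by
    unfold ngs
    exact image_singleton _ _
  rw [this]

theorem h83_star_neg {K : Cx} {s : Finset ℤ} : star (neg K) s = neg (star K (ngs s)) := by
  ext F
  rw [h83_mem_star, mem_neg, mem_neg, h83_mem_star, h83_ngs_subset]

theorem h83_neg_card {K : Cx} : (neg K).card = K.card := by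
  unfold neg
  exact card_image_of_injective K (fun a b h => h83_ngs_inj h)

theorem h83_ridges_neg {K : Cx} {G : Finset ℤ} : G ∈ ridges (neg K) ↔ ngs G ∈ ridges K := by
  rw [h83_mem_ridges, h83_mem_ridges]
  constructor
  · rintro ⟨F, hF, x, hx, rfl⟩
    refine ⟨ngs F, mem_neg.1 hF, -x, ?_, h83_ngs_erase.symm⟩
    rw [h83_mem_ngs, _root_.neg_neg]
    exact hx
  · rintro ⟨F, hF, x, hx, h⟩
    refine ⟨ngs F, ?_, -x, ?_, ?_⟩
    · rw [mem_neg, ngs_ngs]
      exact hF
    · rw [h83_mem_ngs, _root_.neg_neg]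
      exact hx
    · rw [← h83_ngs_erase, h, ngs_ngs]

theorem bd_neg {K : Cx} : bd (neg K) = neg (bd K) := by
  ext G
  rw [mem_neg, h83_mem_bd, h83_mem_bd, h83_ridges_neg, h83_star_neg, h83_neg_card]

theorem pure_neg {c : ℕ} {K : Cx} (h : Pure c K) : Pure c (neg K) := by
  intro F hF
  rw [← h83_ngs_card]
  exact h _ (mem_neg.1 hF)

theorem pm_neg {K : Cx} (h : PM K) : PM (neg K) := by
  intro G hG
  rw [h83_star_neg, h83_neg_card]
  exact h _ (h83_ridges_neg.1 hG)

theorem nor_neg {K : Cx} (h : Nor K) : Nor (neg K) := by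
  intro s P hP h1 h2
  have hP' : neg P ⊆ K := by
    rw [← neg_subset, neg_neg]
    exact hP
  have h1' : Fc (neg P) (ngs s) := by
    rw [fc_neg, ngs_ngs]
    exact h1
  have h2' : Fc (K \ neg P) (ngs s) := by
    rw [← fc_neg, neg_sdiff, neg_neg]
    exact h2
  obtain ⟨F, hF, F', hF', x, hx, h3, h4⟩ := h (ngs s) (neg P) hP' h1' h2'
  refine ⟨ngs F, mem_neg.1 hF, ngs F', ?_, -x, ?_, ?_, ?_⟩
  · rw [mem_sdiff, mem_neg, ngs_ngs]
    rw [mem_sdiff, mem_neg] at hF'
    exact hF'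
  · rw [h83_mem_ngs, _root_.neg_neg]
    exact hx
  · rw [← h83_ngs_erase, h83_ngs_subset_comm]
    exact h3
  · rw [← h83_ngs_erase, h83_ngs_subset]
    exact h4

theorem disjoint_neg {K L : Cx} : Disjoint (neg K) (neg L) ↔ Disjoint K L := by
  rw [disjoint_iff_inter_eq_empty, disjoint_iff_inter_eq_empty, ← neg_inter]
  constructor
  · intro h
    have h1 := congrArg neg h
    rwa [neg_neg, neg_empty] at h1
  · intro h
    rw [h, neg_empty]

end Pool.Agent.H30.NZ
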