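import Pool.Agent.H30.NZ.PL1b

/-!
# MP_63054e_co: realizations and piecewise linear maps
-/

set_option autoImplicit false

namespace Pool.Agent.H30.NZ

open Finset

theorem pl1_closed_facet (F : Finset ℤ) : IsClosed {x : ℤ → ℝ | (∀ i, 0 ≤ x i) ∧
    (∀ i, i ∉ F → x i = 0) ∧ ∑ i ∈ F, x i = 1} := by
  have h1 : IsClosed {x : ℤ → ℝ | ∀ i, 0 ≤ x i} := by
    rw [Set.setOf_forall]
    exact isClosed_iInter fun i => isClosed_le continuous_const (continuous_apply i)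
  have h2 : IsClosed {x : ℤ → ℝ | ∀ i, i ∉ F → x i = 0} := by
    rw [Set.setOf_forall]
    refine isClosed_iInter fun i => ?_
    by_cases hi : i ∈ F
    · have : {x : ℤ → ℝ | i ∉ F → x i = 0} = Set.univ := by
        ext x
        simp [hi]
      rw [this]
      exact isClosed_univ
    · have : {x : ℤ → ℝ | i ∉ F → x i = 0} = {x : ℤ → ℝ | x i = 0} := by
        ext x
        simp [hi]
      rw [this]
      exact isClosed_eq (continuous_apply i) continuous_const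
  have h3 : IsClosed {x : ℤ → ℝ | ∑ i ∈ F, x i = 1} :=
    isClosed_eq (continuous_finset_sum F fun i _ => continuous_apply i) continuous_const
  exact h1.inter (h2.inter h3)

theorem isClosed_real (K : Cx) : IsClosed (real K) := by
  have h : real K = ⋃ F ∈ K, {x : ℤ → ℝ | (∀ i, 0 ≤ x i) ∧
      (∀ i, i ∉ F → x i = 0) ∧ ∑ i ∈ F, x i = 1} := by
    ext x
    simp only [Set.mem_iUnion, exists_prop, Set.mem_setOf_eq]
    constructor
    · rintro ⟨h0, F, hF, h1, h2⟩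
      exact ⟨F, hF, h0, h1, h2⟩
    · rintro ⟨F, hF, h0, h1, h2⟩
      exact ⟨h0, F, hF, h1, h2⟩
  rw [h]
  exact Set.Finite.isClosed_biUnion (Finset.finite_toSet K) fun F _ => pl1_closed_facet F

theorem real_mono {K L : Cx} (h : K ⊆ L) : real K ⊆ real L := by
  rintro x ⟨h0, F, hF, h1⟩
  exact ⟨h0, F, h hF, h1⟩

theorem real_union (K L : Cx) : real (K ∪ L) = real K ∪ real L := by
  ext x
  constructor
  · rintro ⟨h0, F, hF, h1⟩
    rcases mem_union.mp hF with hF | hF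
    · exact Or.inl ⟨h0, F, hF, h1⟩
    · exact Or.inr ⟨h0, F, hF, h1⟩
  · rintro (h | h)
    · exact real_mono subset_union_left h
    · exact real_mono subset_union_right h

/-- points of `real K` in terms of faces -/
theorem mem_real_iff {K : Cx} {x : ℤ → ℝ} : x ∈ real K ↔ (∀ i, 0 ≤ x i) ∧
    ∃ s, Fc K s ∧ (∀ i, i ∈ s ↔ 0 < x i) ∧ ∑ i ∈ s, x i = 1 := by
  classical
  constructor
  · rintro ⟨h0, F, hF, h1, h2⟩
    refine ⟨h0, F.filter (fun i => 0 < x i), ⟨F, hF, filter_subset _ _⟩, ?_, ?_⟩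
    · intro i
      rw [mem_filter]
      refine ⟨fun h => h.2, fun h => ⟨?_, h⟩⟩
      by_contra hi
      rw [h1 i hi] at h
      exact lt_irrefl _ h
    · rw [← h2]
      apply sum_subset (filter_subset _ _)
      intro i hi hi2
      rw [mem_filter] at hi2
      have : ¬ 0 < x i := fun h => hi2 ⟨hi, h⟩
      exact le_antisymm (not_lt.mp this) (h0 i)
  · rintro ⟨h0, s, ⟨F, hF, hs⟩, h1, h2⟩
    have h3 : ∀ i, i ∉ s → x i = 0 := by
      intro i hi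
      have : ¬ 0 < x i := fun h => hi ((h1 i).mpr h)
      exact le_antisymm (not_lt.mp this) (h0 i)
    refine ⟨h0, F, hF, fun i hi => h3 i (fun h => hi (hs h)), ?_⟩
    rw [← h2]
    symm
    exact sum_subset hs fun i _ hi => h3 i hi

/-- intersections of realizations through faces -/
theorem real_inter {K L M : Cx} (h : ∀ s, Fc K s → Fc L s → Fc M s) :
    real K ∩ real L ⊆ real M := by
  rintro x ⟨hK, hL⟩
  rw [mem_real_iff] at hK hL ⊢
  obtain ⟨h0, s, hs, h1, h2⟩ := hK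
  obtain ⟨-, s', hs', h1', -⟩ := hL
  have : s' = s := by
    ext i
    rw [h1, h1']
  subst this
  exact ⟨h0, s', h s' hs hs', h1, h2⟩

theorem real_zero {K : Cx} {x : ℤ → ℝ} (hx : x ∈ real K) {i : ℤ} (hi : i ∉ vts K) : x i = 0 := by
  obtain ⟨-, F, hF, h1, -⟩ := hx
  exact h1 i fun h => hi (mem_biUnion.mpr ⟨F, hF, h⟩)

theorem real_cone_zero {K : Cx} {w : ℤ} {x : ℤ → ℝ} (hw : w ∉ vts K) :
    x ∈ real (cone w K) ∧ x w = 0 ↔ x ∈ real K := by
  have hwF : ∀ F ∈ K, w ∉ F := fun F hF h => hw (mem_biUnion.mpr ⟨F, hF, h⟩)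
  constructor
  · rintro ⟨⟨h0, F', hF', h1, h2⟩, hw0⟩
    obtain ⟨F, hF, rfl⟩ := mem_image.mp hF'
    refine ⟨h0, F, hF, ?_, ?_⟩
    · intro i hi
      by_cases hiw : i = w
      · rw [hiw, hw0]
      · exact h1 i (by rw [mem_insert]; rintro (h | h); exacts [hiw h, hi h])
    · rw [sum_insert (hwF F hF), hw0, zero_add] at h2
      exact h2
  · intro hx
    refine ⟨?_, real_zero hx hw⟩
    obtain ⟨h0, F, hF, h1, h2⟩ := hx
    refine ⟨h0, insert w F, mem_image_of_mem _ hF, ?_, ?_⟩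
    · intro i hi
      exact h1 i fun h => hi (mem_insert_of_mem h)
    · rw [sum_insert (hwF F hF), h1 w (hwF F hF), zero_add, h2]

theorem plon_mono {f : (ℤ → ℝ) → (ℤ → ℝ)} {X Y : Set (ℤ → ℝ)} (h : PLOn f Y) (hX : X ⊆ Y) :
    PLOn f X := by
  obtain ⟨h1, S, hS, h2⟩ := h
  exact ⟨h1.mono hX, S, hS, fun x hx => h2 x (hX hx)⟩

theorem plon_comp {f g : (ℤ → ℝ) → (ℤ → ℝ)} {X Y : Set (ℤ → ℝ)} (hf : PLOn f X) (hg : PLOn g Y)
    (h : ∀ x ∈ X, f x ∈ Y) : PLOn (fun x => g (f x)) X := by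
  obtain ⟨h1, S, hS, h2⟩ := hf
  obtain ⟨h3, T, hT, h4⟩ := hg
  refine ⟨h3.comp h1 h, Set.image2 (fun B A => B.comp A) T S, hT.image2 _ hS, ?_⟩
  intro x hx
  obtain ⟨A, hA, hA2⟩ := h2 x hx
  obtain ⟨B, hB, hB2⟩ := h4 (f x) (h x hx)
  refine ⟨B.comp A, Set.mem_image2_of_mem hB hA, ?_⟩
  change g (f x) = B (A x)
  rw [hB2, hA2]

theorem plh_refl (X : Set (ℤ → ℝ)) : PLH id id X X := by
  have h : PLOn id X := by
    refine ⟨continuousOn_id, {AffineMap.id ℝ (ℤ → ℝ)}, Set.finite_singleton _, ?_⟩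
    intro x _
    exact ⟨_, rfl, rfl⟩
  exact ⟨h, h, fun _ hx => hx, fun _ hx => hx, fun _ _ => rfl, fun _ _ => rfl⟩

theorem plh_symm {f g : (ℤ → ℝ) → (ℤ → ℝ)} {X Y : Set (ℤ → ℝ)} (h : PLH f g X Y) :
    PLH g f Y X := ⟨h.pg, h.pf, h.mg, h.mf, h.fg, h.gf⟩

theorem plh_trans {f g f' g' : (ℤ → ℝ) → (ℤ → ℝ)} {X Y Z : Set (ℤ → ℝ)} (h : PLH f g X Y)
    (h' : PLH f' g' Y Z) : PLH (fun x => f' (f x)) (fun z => g (g' z)) X Z where
  pf := plon_comp h.pf h'.pf h.mf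
  pg := plon_comp h'.pg h.pg h'.mg
  mf := fun x hx => h'.mf _ (h.mf x hx)
  mg := fun z hz => h.mg _ (h'.mg z hz)
  gf := fun x hx => by
    change g (g' (f' (f x))) = x
    rw [h'.gf _ (h.mf x hx), h.gf x hx]
  fg := fun z hz => by
    change f' (f (g (g' z))) = z
    rw [h.fg _ (h'.mg z hz), h'.fg z hz]

/-- restriction to subsets that correspond to each other -/
theorem plh_restrict {f g : (ℤ → ℝ) → (ℤ → ℝ)} {X Y X' Y' : Set (ℤ → ℝ)} (h : PLH f g X Y)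
    (hX : X' ⊆ X) (hY : Y' ⊆ Y) (h1 : ∀ x ∈ X', f x ∈ Y') (h2 : ∀ y ∈ Y', g y ∈ X') :
    PLH f g X' Y' :=
  ⟨plon_mono h.pf hX, plon_mono h.pg hY, h1, h2, fun x hx => h.gf x (hX hx),
    fun y hy => h.fg y (hY hy)⟩

theorem pl1_congr {f f' : (ℤ → ℝ) → (ℤ → ℝ)} {X : Set (ℤ → ℝ)} (h : PLOn f X)
    (hf : ∀ x ∈ X, f' x = f x) : PLOn f' X := by
  obtain ⟨h1, S, hS, h2⟩ := h
  refine ⟨h1.congr hf, S, hS, fun x hx => ?_⟩
  rw [hf x hx]
  exact h2 x hx

theorem plh_congr {f g f' g' : (ℤ → ℝ) → (ℤ → ℝ)} {X Y : Set (ℤ → ℝ)} (h : PLH f g X Y)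
    (hf : ∀ x ∈ X, f' x = f x) (hg : ∀ y ∈ Y, g' y = g y) : PLH f' g' X Y where
  pf := pl1_congr h.pf hf
  pg := pl1_congr h.pg hg
  mf := fun x hx => by rw [hf x hx]; exact h.mf x hx
  mg := fun y hy => by rw [hg y hy]; exact h.mg y hy
  gf := fun x hx => by rw [hf x hx, hg _ (h.mf x hx), h.gf x hx]
  fg := fun y hy => by rw [hg y hy, hf _ (h.mg y hy), h.fg y hy]

end Pool.Agent.H30.NZ
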