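import Pool.Agent.H30.NZ.Basic

/-!
# Gluing and relabelling piecewise linear homeomorphisms
-/

namespace Pool.Agent.H30.NZ

open Finset

theorem h44_plon_congr {f f' : (ℤ → ℝ) → (ℤ → ℝ)} {X : Set (ℤ → ℝ)} (h : PLOn f X)
    (hf : ∀ x ∈ X, f' x = f x) : PLOn f' X := by
  obtain ⟨h1, S, hS, h2⟩ := h
  refine ⟨h1.congr hf, S, hS, fun x hx => ?_⟩
  obtain ⟨A, hA, h3⟩ := h2 x hx
  exact ⟨A, hA, (hf x hx).trans h3⟩

theorem h44_plon_union {f : (ℤ → ℝ) → (ℤ → ℝ)} {X X' : Set (ℤ → ℝ)} (h : PLOn f X)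
    (h' : PLOn f X') (hX : IsClosed X) (hX' : IsClosed X') : PLOn f (X ∪ X') := by
  obtain ⟨h1, S, hS, h2⟩ := h
  obtain ⟨h1', S', hS', h2'⟩ := h'
  refine ⟨h1.union_of_isClosed h1' hX hX', S ∪ S', hS.union hS', fun x hx => ?_⟩
  rcases hx with hx | hx
  · obtain ⟨A, hA, h3⟩ := h2 x hx
    exact ⟨A, Or.inl hA, h3⟩
  · obtain ⟨A, hA, h3⟩ := h2' x hx
    exact ⟨A, Or.inr hA, h3⟩

open Classical in
/-- gluing -/
theorem plh_glue {f g f' g' : (ℤ → ℝ) → (ℤ → ℝ)} {X Y X' Y' : Set (ℤ → ℝ)}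
    (h : PLH f g X Y) (h' : PLH f' g' X' Y') (hX : IsClosed X) (hY : IsClosed Y)
    (hX' : IsClosed X') (hY' : IsClosed Y') (h1 : ∀ x ∈ X, x ∈ X' → f x = f' x)
    (h2 : ∀ y ∈ Y, y ∈ Y' → g y = g' y) :
    ∃ F G, PLH F G (X ∪ X') (Y ∪ Y') ∧ (∀ x ∈ X, F x = f x) ∧ (∀ x ∈ X', F x = f' x) ∧
      (∀ y ∈ Y, G y = g y) ∧ (∀ y ∈ Y', G y = g' y) := by
  set F : (ℤ → ℝ) → (ℤ → ℝ) := fun x => if x ∈ X then f x else f' x with hF
  set G : (ℤ → ℝ) → (ℤ → ℝ) := fun y => if y ∈ Y then g y else g' y with hG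
  have a1 : ∀ x ∈ X, F x = f x := fun x hx => by simp only [hF, if_pos hx]
  have a2 : ∀ x ∈ X', F x = f' x := fun x hx => by
    by_cases hc : x ∈ X
    · rw [a1 x hc, h1 x hc hx]
    · simp only [hF, if_neg hc]
  have b1 : ∀ y ∈ Y, G y = g y := fun y hy => by simp only [hG, if_pos hy]
  have b2 : ∀ y ∈ Y', G y = g' y := fun y hy => by
    by_cases hc : y ∈ Y
    · rw [b1 y hc, h2 y hc hy]
    · simp only [hG, if_neg hc]
  refine ⟨F, G, ⟨?_, ?_, ?_, ?_, ?_, ?_⟩, a1, a2, b1, b2⟩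
  · exact h44_plon_union (h44_plon_congr h.pf a1) (h44_plon_congr h'.pf a2) hX hX'
  · exact h44_plon_union (h44_plon_congr h.pg b1) (h44_plon_congr h'.pg b2) hY hY'
  · rintro x (hx | hx)
    · rw [a1 x hx]; exact Or.inl (h.mf x hx)
    · rw [a2 x hx]; exact Or.inr (h'.mf x hx)
  · rintro y (hy | hy)
    · rw [b1 y hy]; exact Or.inl (h.mg y hy)
    · rw [b2 y hy]; exact Or.inr (h'.mg y hy)
  · rintro x (hx | hx)
    · rw [a1 x hx, b1 _ (h.mf x hx), h.gf x hx]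
    · rw [a2 x hx, b2 _ (h'.mf x hx), h'.gf x hx]
  · rintro y (hy | hy)
    · rw [b1 y hy, a1 _ (h.mg y hy), h.fg y hy]
    · rw [b2 y hy, a2 _ (h'.mg y hy), h'.fg y hy]

theorem h44_plon_rel (σ : Equiv.Perm ℤ) (X : Set (ℤ → ℝ)) : PLOn (rel σ) X := by
  refine ⟨Continuous.continuousOn ?_, {(LinearMap.funLeft ℝ ℝ σ.symm).toAffineMap},
    Set.finite_singleton _, fun x _ => ⟨_, rfl, ?_⟩⟩
  · exact continuous_pi fun i => continuous_apply (σ.symm i)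
  · rfl

theorem plh_rel {K : Cx} (σ : Equiv.Perm ℤ) :
    PLH (rel σ) (rel σ.symm) (real K) (real (K.image (fun F => F.image σ))) := by
  refine ⟨h44_plon_rel σ _, h44_plon_rel σ.symm _, ?_, ?_, ?_, ?_⟩
  · rintro x ⟨h0, F, hF, h1, h2⟩
    refine ⟨fun i => h0 _, F.image σ, mem_image_of_mem _ hF, fun i hi => ?_, ?_⟩
    · refine h1 _ fun hc => hi (mem_image.2 ⟨σ.symm i, hc, ?_⟩)
      simp
    · rw [sum_image fun a _ b _ hab => σ.injective hab]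
      simpa [rel] using h2
  · rintro y ⟨h0, F', hF', h1, h2⟩
    obtain ⟨F, hF, rfl⟩ := mem_image.1 hF'
    refine ⟨fun i => h0 _, F, hF, fun i hi => ?_, ?_⟩
    · refine h1 _ fun hc => hi ?_
      obtain ⟨j, hj, hji⟩ := mem_image.1 hc
      have : j = i := σ.injective (by simpa using hji)
      rwa [← this]
    · rw [sum_image fun a _ b _ hab => σ.injective hab] at h2
      simpa [rel] using h2
  · intro x _
    funext i
    simp [rel]
  · intro y _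
    funext i
    simp [rel]

end Pool.Agent.H30.NZ
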