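import Pool.Agent.H30.NZ.Basic

/-!
# MP_63054e_co: cones of piecewise linear maps
-/

namespace Pool.Agent.H30.NZ

open Finset Filter Topology

private theorem h12_not_mem {K : Cx} {w : ℤ} (hw : w ∉ vts K) {F : Finset ℤ} (hF : F ∈ K) :
    w ∉ F := by
  intro h
  apply hw
  unfold vts
  rw [Finset.mem_biUnion]
  exact ⟨F, hF, h⟩

private theorem h12_real_w {K : Cx} {w : ℤ} (hw : w ∉ vts K) {x : ℤ → ℝ} (hx : x ∈ real K) :
    x w = 0 := by
  obtain ⟨_, F, hF, h2, _⟩ := hx
  exact h2 w (h12_not_mem hw hF)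

private theorem h12_le_one {K : Cx} {x : ℤ → ℝ} (hx : x ∈ real K) (i : ℤ) : x i ≤ 1 := by
  obtain ⟨h0, F, _, h2, h3⟩ := hx
  by_cases hi : i ∈ F
  · rw [← h3]
    exact Finset.single_le_sum (f := fun j => x j) (fun j _ => h0 j) hi
  · rw [h2 i hi]; exact zero_le_one

/-- the facet and the sum of a point of the cone -/
private theorem h12_cone {K : Cx} {w : ℤ} (hw : w ∉ vts K) {z : ℤ → ℝ}
    (hz : z ∈ real (cone w K)) : ∃ F ∈ K, w ∉ F ∧ (∀ i, i ∉ F → i ≠ w → z i = 0) ∧
      ∑ i ∈ F, z i = 1 - z w := by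
  obtain ⟨h0, F', hF', h2, h3⟩ := hz
  unfold cone at hF'
  rw [Finset.mem_image] at hF'
  obtain ⟨F, hF, rfl⟩ := hF'
  have hwF := h12_not_mem hw hF
  refine ⟨F, hF, hwF, fun i hi hiw => h2 i ?_, ?_⟩
  · rw [Finset.mem_insert]
    rintro (h | h)
    · exact hiw h
    · exact hi h
  · rw [Finset.sum_insert hwF] at h3
    linarith

private theorem h12_base {K : Cx} {w : ℤ} (hw : w ∉ vts K) {z : ℤ → ℝ}
    (hz : z ∈ real (cone w K)) (h1 : z w ≠ 1) :
    (1 - z w)⁻¹ • (Function.update z w 0) ∈ real K := by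
  obtain ⟨F, hF, hwF, h2, h3⟩ := h12_cone hw hz
  have h0 := hz.1
  have hpos : 0 < 1 - z w := by
    have : z w ≤ 1 := h12_le_one hz w
    rcases this.lt_or_eq with h | h
    · linarith
    · exact absurd h h1
  have hinv : 0 < (1 - z w)⁻¹ := inv_pos.2 hpos
  refine ⟨fun i => ?_, F, hF, fun i hi => ?_, ?_⟩
  · rw [Pi.smul_apply, smul_eq_mul]
    refine mul_nonneg hinv.le ?_
    by_cases hi : i = w
    · subst hi; rw [Function.update_self]
    · rw [Function.update_of_ne hi]; exact h0 i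
  · rw [Pi.smul_apply, smul_eq_mul]
    by_cases hiw : i = w
    · subst hiw; rw [Function.update_self, mul_zero]
    · rw [Function.update_of_ne hiw, h2 i hi hiw, mul_zero]
  · have : ∑ i ∈ F, ((1 - z w)⁻¹ • (Function.update z w 0)) i = (1 - z w)⁻¹ * ∑ i ∈ F, z i := by
      rw [Finset.mul_sum]
      refine Finset.sum_congr rfl fun i hi => ?_
      rw [Pi.smul_apply, smul_eq_mul, Function.update_of_ne]
      rintro rfl
      exact hwF hi
    rw [this, h3, inv_mul_cancel₀ hpos.ne']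

private theorem h12_apex {K : Cx} {w : ℤ} (hw : w ∉ vts K) {z : ℤ → ℝ}
    (hz : z ∈ real (cone w K)) (h1 : z w = 1) : z = Pi.single w 1 := by
  obtain ⟨F, hF, hwF, h2, h3⟩ := h12_cone hw hz
  rw [h1, sub_self] at h3
  have h0 := hz.1
  have h4 := (Finset.sum_eq_zero_iff_of_nonneg (fun i _ => h0 i)).1 h3
  funext i
  by_cases hi : i = w
  · subst hi; rw [Pi.single_eq_same, h1]
  · rw [Pi.single_eq_of_ne hi]
    by_cases hiF : i ∈ F
    · exact h4 i hiF
    · exact h2 i hiF hi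

private theorem h12_mem {K : Cx} {w : ℤ} (hw : w ∉ vts K) {x : ℤ → ℝ} (hx : x ∈ real K)
    {t : ℝ} (h0 : 0 ≤ t) (h1 : t ≤ 1) :
    (1 - t) • x + t • (Pi.single w (1 : ℝ) : ℤ → ℝ) ∈ real (cone w K) := by
  obtain ⟨hx0, F, hF, h2, h3⟩ := hx
  have hwF := h12_not_mem hw hF
  have hv : ∀ i, i ≠ w → ((1 - t) • x + t • (Pi.single w (1 : ℝ) : ℤ → ℝ)) i = (1 - t) * x i := by
    intro i hi
    rw [Pi.add_apply, Pi.smul_apply, Pi.smul_apply, Pi.single_eq_of_ne hi]
    simp
  have hvw : ((1 - t) • x + t • (Pi.single w (1 : ℝ) : ℤ → ℝ)) w = t := by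
    rw [Pi.add_apply, Pi.smul_apply, Pi.smul_apply, Pi.single_eq_same, h2 w hwF]
    simp
  refine ⟨fun i => ?_, insert w F, ?_, fun i hi => ?_, ?_⟩
  · by_cases hi : i = w
    · subst hi; rw [hvw]; exact h0
    · rw [hv i hi]; exact mul_nonneg (by linarith) (hx0 i)
  · unfold cone
    exact Finset.mem_image_of_mem _ hF
  · rw [Finset.mem_insert, not_or] at hi
    rw [hv i hi.1, h2 i hi.2, mul_zero]
  · rw [Finset.sum_insert hwF, hvw]
    have : ∑ i ∈ F, ((1 - t) • x + t • (Pi.single w (1 : ℝ) : ℤ → ℝ)) i = (1 - t) * ∑ i ∈ F, x i := by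
      rw [Finset.mul_sum]
      refine Finset.sum_congr rfl fun i hi => hv i ?_
      rintro rfl
      exact hwF hi
    rw [this, h3]
    ring

private theorem h12_single {K : Cx} {w : ℤ} (hK : K.Nonempty) (hw : w ∉ vts K) :
    (Pi.single w (1 : ℝ) : ℤ → ℝ) ∈ real (cone w K) := by
  obtain ⟨F, hF⟩ := hK
  have hwF := h12_not_mem hw hF
  refine ⟨fun i => ?_, insert w F, ?_, fun i hi => ?_, ?_⟩
  · by_cases hi : i = w
    · subst hi; rw [Pi.single_eq_same]; exact zero_le_one
    · rw [Pi.single_eq_of_ne hi]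
  · unfold cone
    exact Finset.mem_image_of_mem _ hF
  · rw [Finset.mem_insert, not_or] at hi
    rw [Pi.single_eq_of_ne hi.1]
  · rw [Finset.sum_insert hwF, Pi.single_eq_same, Finset.sum_eq_zero, add_zero]
    intro i hi
    rw [Pi.single_eq_of_ne]
    rintro rfl
    exact hwF hi

theorem cnf_zero {f : (ℤ → ℝ) → (ℤ → ℝ)} {w : ℤ} {z : ℤ → ℝ} (h : z w = 0) :
    cnf w f z = f z := by
  unfold cnf
  rw [if_neg (by rw [h]; exact zero_ne_one), h, sub_zero, inv_one, one_smul, one_smul, zero_smul,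
    add_zero]
  congr 1
  rw [← h, Function.update_eq_self]

private theorem h12_upd (w : ℤ) (z : ℤ → ℝ) :
    Function.update z w 0 + z w • (Pi.single w (1 : ℝ) : ℤ → ℝ) = z := by
  funext i
  rw [Pi.add_apply, Pi.smul_apply]
  by_cases hi : i = w
  · subst hi; rw [Function.update_self, Pi.single_eq_same]; simp
  · rw [Function.update_of_ne hi, Pi.single_eq_of_ne hi]; simp

theorem cnf_of_id {K : Cx} {f : (ℤ → ℝ) → (ℤ → ℝ)} {w : ℤ} (hw : w ∉ vts K)
    (h : ∀ x ∈ real K, f x = x) : ∀ z ∈ real (cone w K), cnf w f z = z := by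
  intro z hz
  unfold cnf
  by_cases h1 : z w = 1
  · rw [if_pos h1]
    exact (h12_apex hw hz h1).symm
  · rw [if_neg h1, h _ (h12_base hw hz h1), smul_smul, mul_inv_cancel₀ (sub_ne_zero.2 (Ne.symm h1)),
      one_smul]
    exact h12_upd w z

private theorem h12_maps {K L : Cx} {f : (ℤ → ℝ) → (ℤ → ℝ)} {w : ℤ}
    (hf : ∀ x ∈ real K, f x ∈ real L) (hL : L.Nonempty) (hwK : w ∉ vts K) (hwL : w ∉ vts L) :
    ∀ z ∈ real (cone w K), cnf w f z ∈ real (cone w L) := by
  intro z hz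
  unfold cnf
  by_cases h1 : z w = 1
  · rw [if_pos h1]
    exact h12_single hL hwL
  · rw [if_neg h1]
    exact h12_mem hwL (hf _ (h12_base hwK hz h1)) (hz.1 w) (h12_le_one hz w)

private theorem h12_inv {K L : Cx} {f g : (ℤ → ℝ) → (ℤ → ℝ)} {w : ℤ}
    (hf : ∀ x ∈ real K, f x ∈ real L) (hg : ∀ x ∈ real K, g (f x) = x)
    (hwK : w ∉ vts K) (hwL : w ∉ vts L) :
    ∀ z ∈ real (cone w K), cnf w g (cnf w f z) = z := by
  intro z hz
  by_cases h1 : z w = 1
  · have h2 : cnf w f z = Pi.single w 1 := by unfold cnf; rw [if_pos h1]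
    rw [h2]
    unfold cnf
    rw [if_pos (by rw [Pi.single_eq_same])]
    exact (h12_apex hwK hz h1).symm
  · have hb := h12_base hwK hz h1
    set y := (1 - z w)⁻¹ • (Function.update z w 0) with hy
    have h2 : cnf w f z = (1 - z w) • f y + z w • Pi.single w 1 := by unfold cnf; rw [if_neg h1]
    have hne : 1 - z w ≠ 0 := sub_ne_zero.2 (Ne.symm h1)
    have hfw : f y w = 0 := h12_real_w hwL (hf y hb)
    have h3 : cnf w f z w = z w := by
      rw [h2, Pi.add_apply, Pi.smul_apply, Pi.smul_apply, Pi.single_eq_same, hfw]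
      simp
    have h4 : Function.update (cnf w f z) w 0 = (1 - z w) • f y := by
      funext i
      by_cases hi : i = w
      · subst hi; rw [Function.update_self, Pi.smul_apply, hfw, smul_zero]
      · rw [Function.update_of_ne hi, h2, Pi.add_apply, Pi.smul_apply, Pi.smul_apply,
          Pi.single_eq_of_ne hi, smul_zero, add_zero]
    have h5 : cnf w g (cnf w f z) = (1 - z w) • g ((1 - z w)⁻¹ • ((1 - z w) • f y)) +
        z w • Pi.single w 1 := by
      conv_lhs => unfold cnf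
      rw [if_neg (by
        have : (if z w = 1 then (Pi.single w 1 : ℤ → ℝ) else
          (1 - z w) • f ((1 - z w)⁻¹ • Function.update z w 0) + z w • Pi.single w 1) w = z w := h3
        rw [this]; exact h1)]
      have e1 : (if z w = 1 then (Pi.single w 1 : ℤ → ℝ) else
          (1 - z w) • f ((1 - z w)⁻¹ • Function.update z w 0) + z w • Pi.single w 1) =
          cnf w f z := rfl
      rw [e1, h3, h4]
    rw [h5, smul_smul, inv_mul_cancel₀ hne, one_smul, hg y hb, hy, smul_smul,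
      mul_inv_cancel₀ hne, one_smul]
    exact h12_upd w z

/-- the linear projection that kills the coordinate `w` -/
private noncomputable def h12_P (w : ℤ) : (ℤ → ℝ) →ₗ[ℝ] (ℤ → ℝ) :=
  LinearMap.id - (LinearMap.proj w : (ℤ → ℝ) →ₗ[ℝ] ℝ).smulRight (Pi.single w (1 : ℝ))

private theorem h12_P_apply (w : ℤ) (z : ℤ → ℝ) : h12_P w z = Function.update z w 0 := by
  have h := h12_upd w z
  unfold h12_P
  rw [LinearMap.sub_apply, LinearMap.id_apply, LinearMap.smulRight_apply, LinearMap.proj_apply]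
  rw [sub_eq_iff_eq_add]
  exact h.symm

/-- the linear part of the extension -/
private noncomputable def h12_L (w : ℤ) (A : (ℤ → ℝ) →ᵃ[ℝ] (ℤ → ℝ)) :
    (ℤ → ℝ) →ₗ[ℝ] (ℤ → ℝ) :=
  A.linear ∘ₗ h12_P w + (LinearMap.proj w : (ℤ → ℝ) →ₗ[ℝ] ℝ).smulRight
    ((Pi.single w (1 : ℝ) : ℤ → ℝ) - A 0)

/-- the affine extension of `A` to the cone -/
private noncomputable def h12_A (w : ℤ) (A : (ℤ → ℝ) →ᵃ[ℝ] (ℤ → ℝ)) :
    (ℤ → ℝ) →ᵃ[ℝ] (ℤ → ℝ) where
  toFun z := h12_L w A z + A 0
  linear := h12_L w A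
  map_vadd' p v := by
    rw [vadd_eq_add, vadd_eq_add, map_add, add_assoc]

private theorem h12_A_apply (w : ℤ) (A : (ℤ → ℝ) →ᵃ[ℝ] (ℤ → ℝ)) (z : ℤ → ℝ) (h1 : z w ≠ 1) :
    h12_A w A z = (1 - z w) • A ((1 - z w)⁻¹ • (Function.update z w 0)) +
      z w • (Pi.single w (1 : ℝ) : ℤ → ℝ) := by
  have hne : 1 - z w ≠ 0 := sub_ne_zero.2 (Ne.symm h1)
  have hA : A ((1 - z w)⁻¹ • (Function.update z w 0)) =
      (1 - z w)⁻¹ • A.linear (Function.update z w 0) + A 0 := by
    have := A.linearMap_vsub ((1 - z w)⁻¹ • (Function.update z w 0)) 0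
    rw [vsub_eq_sub, sub_zero, vsub_eq_sub, map_smul] at this
    rw [this]; abel
  rw [hA, smul_add, smul_smul, mul_inv_cancel₀ hne, one_smul]
  have e : h12_A w A z = h12_L w A z + A 0 := rfl
  rw [e]
  unfold h12_L
  rw [LinearMap.add_apply,
    LinearMap.comp_apply, h12_P_apply, LinearMap.smulRight_apply, LinearMap.proj_apply, smul_sub,
    sub_smul, one_smul]
  abel

private theorem h12_cont {K L : Cx} {f : (ℤ → ℝ) → (ℤ → ℝ)} {w : ℤ}
    (hc : ContinuousOn f (real K)) (hf : ∀ x ∈ real K, f x ∈ real L) (hwK : w ∉ vts K) :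
    ContinuousOn (cnf w f) (real (cone w K)) := by
  intro z0 hz0
  have hcw : Continuous (fun z : ℤ → ℝ => z w) := continuous_apply w
  by_cases h1 : z0 w = 1
  · -- the apex
    unfold ContinuousWithinAt
    rw [tendsto_pi_nhds]
    intro i
    have hval : cnf w f z0 = Pi.single w 1 := by unfold cnf; rw [if_pos h1]
    rw [hval]
    have hb : ∀ z ∈ real (cone w K), |cnf w f z i - (Pi.single w (1 : ℝ) : ℤ → ℝ) i| ≤
        2 * |1 - z w| := by
      intro z hz
      by_cases h2 : z w = 1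
      · have : cnf w f z = Pi.single w 1 := by unfold cnf; rw [if_pos h2]
        rw [this, sub_self, abs_zero]; positivity
      · have h3 : cnf w f z = (1 - z w) • f ((1 - z w)⁻¹ • (Function.update z w 0)) +
            z w • Pi.single w 1 := by unfold cnf; rw [if_neg h2]
        have hm := hf _ (h12_base hwK hz h2)
        have hm1 := h12_le_one hm i
        have hm0 := hm.1 i
        rw [h3, Pi.add_apply, Pi.smul_apply, Pi.smul_apply, smul_eq_mul, smul_eq_mul]
        have hs0 : 0 ≤ (Pi.single w (1 : ℝ) : ℤ → ℝ) i := by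
          by_cases hi : i = w
          · subst hi; rw [Pi.single_eq_same]; exact zero_le_one
          · rw [Pi.single_eq_of_ne hi]
        have hs1 : (Pi.single w (1 : ℝ) : ℤ → ℝ) i ≤ 1 := by
          by_cases hi : i = w
          · subst hi; rw [Pi.single_eq_same]
          · rw [Pi.single_eq_of_ne hi]; exact zero_le_one
        have e : (1 - z w) * f ((1 - z w)⁻¹ • (Function.update z w 0)) i +
            z w * (Pi.single w (1 : ℝ) : ℤ → ℝ) i - (Pi.single w (1 : ℝ) : ℤ → ℝ) i =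
            (1 - z w) * (f ((1 - z w)⁻¹ • (Function.update z w 0)) i -
              (Pi.single w (1 : ℝ) : ℤ → ℝ) i) := by ring
        rw [e, abs_mul, mul_comm]
        refine mul_le_mul_of_nonneg_right ?_ (abs_nonneg _)
        rw [abs_le]
        constructor <;> linarith
    have hlim : Tendsto (fun z : ℤ → ℝ => 2 * |1 - z w|) (𝓝[real (cone w K)] z0) (𝓝 0) := by
      have h4 : Continuous (fun z : ℤ → ℝ => 2 * |1 - z w|) := by fun_prop
      have h5 := h4.tendsto z0
      have e0 : 2 * |1 - z0 w| = 0 := by rw [h1, sub_self, abs_zero, mul_zero]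
      rw [e0] at h5
      exact h5.mono_left nhdsWithin_le_nhds
    rw [tendsto_iff_norm_sub_tendsto_zero]
    refine squeeze_zero' (Eventually.of_forall fun z => norm_nonneg _) ?_ hlim
    filter_upwards [self_mem_nhdsWithin] with z hz
    rw [Real.norm_eq_abs]
    exact hb z hz
  · have hne : 1 - z0 w ≠ 0 := sub_ne_zero.2 (Ne.symm h1)
    have hopen : ∀ᶠ z in 𝓝[real (cone w K)] z0, z w ≠ 1 := by
      have : ∀ᶠ z in 𝓝 z0, z w ≠ 1 := hcw.continuousAt.eventually_ne h1
      exact this.filter_mono nhdsWithin_le_nhds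
    have hform : ContinuousWithinAt (fun z : ℤ → ℝ =>
        (1 - z w) • f ((1 - z w)⁻¹ • (Function.update z w 0)) +
          z w • (Pi.single w (1 : ℝ) : ℤ → ℝ))
        (real (cone w K) ∩ {z | z w ≠ 1}) z0 := by
      have hs : Continuous fun z : ℤ → ℝ => 1 - z w := by fun_prop
      have hu : Continuous fun z : ℤ → ℝ => Function.update z w (0 : ℝ) :=
        continuous_id.update w continuous_const
      have hy : ContinuousAt (fun z : ℤ → ℝ => (1 - z w)⁻¹ • (Function.update z w (0 : ℝ))) z0 :=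
        (hs.continuousAt.inv₀ hne).smul hu.continuousAt
      have hmt : Set.MapsTo (fun z : ℤ → ℝ => (1 - z w)⁻¹ • (Function.update z w (0 : ℝ)))
          (real (cone w K) ∩ {z | z w ≠ 1}) (real K) := fun z hz => h12_base hwK hz.1 hz.2
      have h6 : ContinuousWithinAt f (real K) ((fun z : ℤ → ℝ =>
          (1 - z w)⁻¹ • (Function.update z w (0 : ℝ))) z0) := hc _ (h12_base hwK hz0 h1)
      have hfy : ContinuousWithinAt (fun z : ℤ → ℝ =>
          f ((1 - z w)⁻¹ • (Function.update z w 0))) (real (cone w K) ∩ {z | z w ≠ 1}) z0 :=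
        ContinuousWithinAt.comp (g := f) (f := fun z : ℤ → ℝ =>
          (1 - z w)⁻¹ • (Function.update z w (0 : ℝ))) (t := real K) h6 hy.continuousWithinAt hmt
      have h7 : ContinuousWithinAt (fun z : ℤ → ℝ =>
          (1 - z w) • f ((1 - z w)⁻¹ • (Function.update z w 0)))
          (real (cone w K) ∩ {z | z w ≠ 1}) z0 := hs.continuousWithinAt.smul hfy
      have h8 : Continuous fun z : ℤ → ℝ => z w • (Pi.single w (1 : ℝ) : ℤ → ℝ) := by fun_prop
      exact h7.add h8.continuousWithinAt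
    have hmem : {z : ℤ → ℝ | z w ≠ 1} ∈ 𝓝 z0 := hcw.continuousAt.eventually_ne h1
    have hform' : ContinuousWithinAt (fun z : ℤ → ℝ =>
        (1 - z w) • f ((1 - z w)⁻¹ • (Function.update z w 0)) +
          z w • (Pi.single w (1 : ℝ) : ℤ → ℝ))
        (real (cone w K)) z0 := by
      rwa [continuousWithinAt_inter hmem] at hform
    refine hform'.congr_of_eventuallyEq ?_ ?_
    · filter_upwards [hopen] with z hz
      unfold cnf
      rw [if_neg hz]
    · unfold cnf
      rw [if_neg h1]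

private theorem h12_plon {K L : Cx} {f : (ℤ → ℝ) → (ℤ → ℝ)} {w : ℤ}
    (hp : PLOn f (real K)) (hf : ∀ x ∈ real K, f x ∈ real L) (hwK : w ∉ vts K) :
    PLOn (cnf w f) (real (cone w K)) := by
  obtain ⟨hc, S, hS, hSf⟩ := hp
  refine ⟨h12_cont hc hf hwK, insert (AffineMap.const ℝ (ℤ → ℝ) (Pi.single w (1 : ℝ) : ℤ → ℝ))
    (h12_A w '' S), (hS.image _).insert _, fun z hz => ?_⟩
  by_cases h1 : z w = 1
  · refine ⟨_, Set.mem_insert _ _, ?_⟩
    unfold cnf
    rw [if_pos h1, AffineMap.const_apply]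
  · obtain ⟨A, hA, hfA⟩ := hSf _ (h12_base hwK hz h1)
    refine ⟨h12_A w A, Set.mem_insert_of_mem _ (Set.mem_image_of_mem _ hA), ?_⟩
    rw [h12_A_apply w A z h1, ← hfA]
    unfold cnf
    rw [if_neg h1]

theorem plh_cn {K L : Cx} {f g : (ℤ → ℝ) → (ℤ → ℝ)} {w : ℤ} (h : PLH f g (real K) (real L))
    (hK : K.Nonempty) (hL : L.Nonempty) (hwK : w ∉ vts K) (hwL : w ∉ vts L) :
    PLH (cnf w f) (cnf w g) (real (cone w K)) (real (cone w L)) where
  pf := h12_plon h.pf h.mf hwK
  pg := h12_plon h.pg h.mg hwL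
  mf := h12_maps h.mf hL hwK hwL
  mg := h12_maps h.mg hK hwL hwK
  gf := h12_inv h.mf h.gf hwK hwL
  fg := h12_inv h.mg h.fg hwL hwK

end Pool.Agent.H30.NZ
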