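import Pool.Agent.H30.NZ.Basic

/-!
# MP_63054e_co: the elementary subdivision maps
-/

namespace Pool.Agent.H30.NZ

open Finset

/-- The affine map `x ↦ x + x j • c`. -/
noncomputable def h23_tr (j : ℤ) (c : ℤ → ℝ) : (ℤ → ℝ) →ᵃ[ℝ] (ℤ → ℝ) :=
  (LinearMap.id + (LinearMap.proj (R := ℝ) (φ := fun _ : ℤ => ℝ) j).smulRight c).toAffineMap

theorem h23_tr_apply (j : ℤ) (c x : ℤ → ℝ) : h23_tr j c x = x + x j • c := by
  simp [h23_tr]

theorem h23_plon {f : (ℤ → ℝ) → (ℤ → ℝ)} {X : Set (ℤ → ℝ)} (hf : Continuous f)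
    (T : Finset ℤ) (c : ℤ → ℝ) (h : ∀ x ∈ X, ∃ j ∈ T, f x = x + x j • c) : PLOn f X := by
  refine ⟨hf.continuousOn, (fun j => h23_tr j c) '' (T : Set ℤ), (T.finite_toSet).image _, ?_⟩
  intro x hx
  obtain ⟨j, hj, hfx⟩ := h x hx
  exact ⟨h23_tr j c, ⟨j, hj, rfl⟩, by rw [h23_tr_apply, hfx]⟩

theorem sub2_id {a b v : ℤ} {x : ℤ → ℝ} (h0 : ∀ i, 0 ≤ x i) (h : x a = 0 ∨ x b = 0) :
    sub2 a b v x = x := by
  have hm : min (x a) (x b) = 0 := by
    rcases h with h | h
    · rw [h]; exact min_eq_left (h0 b)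
    · rw [h]; exact min_eq_right (h0 a)
  unfold sub2
  rw [hm]
  simp

theorem weld2_id {a b v : ℤ} {x : ℤ → ℝ} (h : x v = 0) : weld2 a b v x = x := by
  unfold weld2
  rw [h]
  simp

theorem h23_sub2_apply (a b v : ℤ) (x : ℤ → ℝ) (i : ℤ) :
    sub2 a b v x i = x i - min (x a) (x b) * ((if i = a then 1 else 0) + (if i = b then 1 else 0))
      + 2 * min (x a) (x b) * (if i = v then 1 else 0) := by
  simp only [sub2, Pi.add_apply, Pi.sub_apply, Pi.smul_apply, smul_eq_mul, Pi.single_apply]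

theorem h23_weld2_apply (a b v : ℤ) (y : ℤ → ℝ) (i : ℤ) :
    weld2 a b v y i = y i - y v * (if i = v then 1 else 0)
      + y v / 2 * ((if i = a then 1 else 0) + (if i = b then 1 else 0)) := by
  simp only [weld2, Pi.add_apply, Pi.sub_apply, Pi.smul_apply, smul_eq_mul, Pi.single_apply]

theorem h23_mem_cone2 {a b : ℤ} {K : Cx} {F : Finset ℤ} (h : F ∈ cone a (cone b K)) :
    ∃ G ∈ K, F = insert a (insert b G) := by
  simp only [cone, mem_image] at h
  obtain ⟨F', ⟨G, hG, rfl⟩, rfl⟩ := h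
  exact ⟨G, hG, rfl⟩

theorem h23_cone2_mem {a b : ℤ} {K : Cx} {G : Finset ℤ} (h : G ∈ K) :
    insert a (insert b G) ∈ cone a (cone b K) := by
  simp only [cone, mem_image]
  exact ⟨insert b G, ⟨G, h, rfl⟩, rfl⟩

theorem h23_not_mem {K : Cx} {G : Finset ℤ} (hG : G ∈ K) {w : ℤ} (hw : w ∉ vts K) : w ∉ G := by
  intro h
  apply hw
  simp only [vts, mem_biUnion, id]
  exact ⟨G, hG, h⟩

/-- the data of a point of a double cone -/
theorem h23_real_cone2 {K : Cx} {a b : ℤ} (hab : a ≠ b) (ha : a ∉ vts K) (hb : b ∉ vts K)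
    {x : ℤ → ℝ} (hx : x ∈ real (cone a (cone b K))) : (∀ i, 0 ≤ x i) ∧ ∃ G ∈ K,
      (∀ i, i ≠ a → i ≠ b → i ∉ G → x i = 0) ∧ x a + (x b + ∑ i ∈ G, x i) = 1 := by
  obtain ⟨h0, F, hF, hz, hs⟩ := hx
  obtain ⟨G, hG, rfl⟩ := h23_mem_cone2 hF
  refine ⟨h0, G, hG, ?_, ?_⟩
  · intro i h1 h2 h3
    apply hz
    simp only [mem_insert, not_or]
    exact ⟨h1, h2, h3⟩
  · have hbG : b ∉ G := h23_not_mem hG hb
    have haG : a ∉ insert b G := by
      simp only [mem_insert, not_or]
      exact ⟨hab, h23_not_mem hG ha⟩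
    rw [sum_insert haG, sum_insert hbG] at hs
    exact hs

theorem h23_real_cone2_mk {K : Cx} {a b : ℤ} (hab : a ≠ b) (ha : a ∉ vts K) (hb : b ∉ vts K)
    {x : ℤ → ℝ} (h0 : ∀ i, 0 ≤ x i) {G : Finset ℤ} (hG : G ∈ K)
    (hz : ∀ i, i ≠ a → i ≠ b → i ∉ G → x i = 0) (hs : x a + (x b + ∑ i ∈ G, x i) = 1) :
    x ∈ real (cone a (cone b K)) := by
  refine ⟨h0, insert a (insert b G), h23_cone2_mem hG, ?_, ?_⟩
  · intro i hi
    simp only [mem_insert, not_or] at hi
    exact hz i hi.1 hi.2.1 hi.2.2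
  · have hbG : b ∉ G := h23_not_mem hG hb
    have haG : a ∉ insert b G := by
      simp only [mem_insert, not_or]
      exact ⟨hab, h23_not_mem hG ha⟩
    rw [sum_insert haG, sum_insert hbG]
    exact hs

theorem h23_real_union {K L : Cx} {x : ℤ → ℝ} : x ∈ real (K ∪ L) ↔ x ∈ real K ∨ x ∈ real L := by
  constructor
  · rintro ⟨h0, F, hF, hz, hs⟩
    rcases mem_union.1 hF with h | h
    · exact Or.inl ⟨h0, F, h, hz, hs⟩
    · exact Or.inr ⟨h0, F, h, hz, hs⟩
  · rintro (⟨h0, F, hF, hz, hs⟩ | ⟨h0, F, hF, hz, hs⟩)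
    · exact ⟨h0, F, mem_union_left _ hF, hz, hs⟩
    · exact ⟨h0, F, mem_union_right _ hF, hz, hs⟩

theorem plh_sub2 {K : Cx} {a b v : ℤ} (hab : a ≠ b) (hav : a ≠ v) (hbv : b ≠ v)
    (ha : a ∉ vts K) (hb : b ∉ vts K) (hv : v ∉ vts K) :
    PLH (sub2 a b v) (weld2 a b v) (real (cone a (cone b K)))
      (real (cone a (cone v K) ∪ cone b (cone v K))) := by
  have e1 : ∀ x : ℤ → ℝ, sub2 a b v x = x + min (x a) (x b) •
      (-(Pi.single a 1 + Pi.single b 1) + (2 : ℝ) • Pi.single v 1 : ℤ → ℝ) := by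
    intro x
    funext i
    rw [h23_sub2_apply]
    simp only [Pi.add_apply, Pi.neg_apply, Pi.smul_apply, smul_eq_mul, Pi.single_apply]
    ring
  have e2 : ∀ y : ℤ → ℝ, weld2 a b v y = y + y v •
      (-(Pi.single v 1) + (2⁻¹ : ℝ) • (Pi.single a 1 + Pi.single b 1) : ℤ → ℝ) := by
    intro x
    funext i
    rw [h23_weld2_apply]
    simp only [Pi.add_apply, Pi.neg_apply, Pi.smul_apply, smul_eq_mul, Pi.single_apply]
    ring
  have c1 : Continuous (sub2 a b v) := by
    have : sub2 a b v = fun x : ℤ → ℝ => x + min (x a) (x b) •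
      (-(Pi.single a 1 + Pi.single b 1) + (2 : ℝ) • Pi.single v 1 : ℤ → ℝ) := funext e1
    rw [this]
    fun_prop
  have c2 : Continuous (weld2 a b v) := by
    have : weld2 a b v = fun y : ℤ → ℝ => y + y v •
      (-(Pi.single v 1) + (2⁻¹ : ℝ) • (Pi.single a 1 + Pi.single b 1) : ℤ → ℝ) := funext e2
    rw [this]
    fun_prop
  refine ⟨?_, ?_, ?_, ?_, ?_, ?_⟩
  · refine h23_plon c1 {a, b} (-(Pi.single a 1 + Pi.single b 1) +
      (2 : ℝ) • Pi.single v 1 : ℤ → ℝ) (fun x _ => ?_)
    rcases le_total (x a) (x b) with h | h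
    · exact ⟨a, by simp, by rw [e1 x, min_eq_left h]⟩
    · exact ⟨b, by simp, by rw [e1 x, min_eq_right h]⟩
  · exact h23_plon c2 {v} _ (fun x _ => ⟨v, by simp, e2 x⟩)
  · intro x hx
    obtain ⟨h0, G, hG, hz, hs⟩ := h23_real_cone2 hab ha hb hx
    have hxv : x v = 0 := hz v hav.symm hbv.symm (h23_not_mem hG hv)
    have haG := h23_not_mem hG ha
    have hbG := h23_not_mem hG hb
    have hvG := h23_not_mem hG hv
    have hsum : ∑ i ∈ G, sub2 a b v x i = ∑ i ∈ G, x i := by
      apply sum_congr rfl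
      intro i hi
      have h1 : i ≠ a := fun h => haG (h ▸ hi)
      have h2 : i ≠ b := fun h => hbG (h ▸ hi)
      have h3 : i ≠ v := fun h => hvG (h ▸ hi)
      rw [h23_sub2_apply]
      simp [h1, h2, h3]
    have va : sub2 a b v x a = x a - min (x a) (x b) := by
      rw [h23_sub2_apply]; simp [hab, hav]
    have vb : sub2 a b v x b = x b - min (x a) (x b) := by
      rw [h23_sub2_apply]; simp [hab.symm, hbv]
    have vv : sub2 a b v x v = 2 * min (x a) (x b) := by
      rw [h23_sub2_apply]; simp [hav.symm, hbv.symm, hxv]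
    have hm0 : 0 ≤ min (x a) (x b) := le_min (h0 a) (h0 b)
    have hother : ∀ i, i ≠ a → i ≠ b → i ≠ v → sub2 a b v x i = x i := by
      intro i h1 h2 h3
      rw [h23_sub2_apply]
      simp [h1, h2, h3]
    have hnn : ∀ i, 0 ≤ sub2 a b v x i := by
      intro i
      by_cases h1 : i = a
      · rw [h1, va]; linarith [min_le_left (x a) (x b)]
      by_cases h2 : i = b
      · rw [h2, vb]; linarith [min_le_right (x a) (x b)]
      by_cases h3 : i = v
      · rw [h3, vv]; linarith
      rw [hother i h1 h2 h3]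
      exact h0 i
    rw [h23_real_union]
    rcases le_total (x a) (x b) with h | h
    · right
      refine h23_real_cone2_mk hbv hb hv hnn hG ?_ ?_
      · intro i h1 h2 h3
        by_cases h4 : i = a
        · rw [h4, va, min_eq_left h, sub_self]
        · rw [hother i h4 h1 h2]
          exact hz i h4 h1 h3
      · rw [vb, vv, hsum, min_eq_left h]
        linarith
    · left
      refine h23_real_cone2_mk hav ha hv hnn hG ?_ ?_
      · intro i h1 h2 h3
        by_cases h4 : i = b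
        · rw [h4, vb, min_eq_right h, sub_self]
        · rw [hother i h1 h4 h2]
          exact hz i h1 h4 h3
      · rw [va, vv, hsum, min_eq_right h]
        linarith
  · intro y hy
    rw [h23_real_union] at hy
    have key : (∀ i, 0 ≤ y i) ∧ ∃ G ∈ K, (∀ i, i ≠ a → i ≠ b → i ≠ v → i ∉ G → y i = 0) ∧
        y a + (y b + (y v + ∑ i ∈ G, y i)) = 1 := by
      rcases hy with hy | hy
      · obtain ⟨h0, G, hG, hz, hs⟩ := h23_real_cone2 hav ha hv hy
        have : y b = 0 := hz b hab.symm hbv (h23_not_mem hG hb)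
        exact ⟨h0, G, hG, fun i h1 _ h3 h4 => hz i h1 h3 h4, by rw [this]; linarith⟩
      · obtain ⟨h0, G, hG, hz, hs⟩ := h23_real_cone2 hbv hb hv hy
        have : y a = 0 := hz a hab hav (h23_not_mem hG ha)
        exact ⟨h0, G, hG, fun i _ h2 h3 h4 => hz i h2 h3 h4, by rw [this]; linarith⟩
    obtain ⟨h0, G, hG, hz, hs⟩ := key
    have haG := h23_not_mem hG ha
    have hbG := h23_not_mem hG hb
    have hvG := h23_not_mem hG hv
    have hsum : ∑ i ∈ G, weld2 a b v y i = ∑ i ∈ G, y i := by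
      apply sum_congr rfl
      intro i hi
      have h1 : i ≠ a := fun h => haG (h ▸ hi)
      have h2 : i ≠ b := fun h => hbG (h ▸ hi)
      have h3 : i ≠ v := fun h => hvG (h ▸ hi)
      rw [h23_weld2_apply]
      simp [h1, h2, h3]
    have va : weld2 a b v y a = y a + y v / 2 := by
      rw [h23_weld2_apply]; simp [hab, hav]
    have vb : weld2 a b v y b = y b + y v / 2 := by
      rw [h23_weld2_apply]; simp [hab.symm, hbv]
    have vv : weld2 a b v y v = 0 := by
      rw [h23_weld2_apply]; simp [hav.symm, hbv.symm]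
    have hother : ∀ i, i ≠ a → i ≠ b → i ≠ v → weld2 a b v y i = y i := by
      intro i h1 h2 h3
      rw [h23_weld2_apply]
      simp [h1, h2, h3]
    have hv0 := h0 v
    refine h23_real_cone2_mk hab ha hb ?_ hG ?_ ?_
    · intro i
      by_cases h1 : i = a
      · rw [h1, va]; linarith [h0 a]
      by_cases h2 : i = b
      · rw [h2, vb]; linarith [h0 b]
      by_cases h3 : i = v
      · rw [h3, vv]
      rw [hother i h1 h2 h3]
      exact h0 i
    · intro i h1 h2 h3
      by_cases h4 : i = v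
      · rw [h4, vv]
      · rw [hother i h1 h2 h4]
        exact hz i h1 h2 h4 h3
    · rw [va, vb, hsum]
      linarith
  · intro x hx
    obtain ⟨h0, G, hG, hz, hs⟩ := h23_real_cone2 hab ha hb hx
    have hxv : x v = 0 := hz v hav.symm hbv.symm (h23_not_mem hG hv)
    funext i
    rw [h23_weld2_apply, h23_sub2_apply, h23_sub2_apply]
    by_cases h1 : i = a
    · subst h1; simp [hab, hav, hav.symm, hbv.symm, hxv]
    by_cases h2 : i = b
    · subst h2; simp [hab.symm, hav.symm, hbv, hbv.symm, hxv]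
    by_cases h3 : i = v
    · subst h3; simp [hav.symm, hbv.symm, hxv]
    simp [h1, h2, h3]
  · intro y hy
    rw [h23_real_union] at hy
    have key : (∀ i, 0 ≤ y i) ∧ (y a = 0 ∨ y b = 0) := by
      rcases hy with hy | hy
      · obtain ⟨h0, G, hG, hz, hs⟩ := h23_real_cone2 hav ha hv hy
        exact ⟨h0, Or.inr (hz b hab.symm hbv (h23_not_mem hG hb))⟩
      · obtain ⟨h0, G, hG, hz, hs⟩ := h23_real_cone2 hbv hb hv hy
        exact ⟨h0, Or.inl (hz a hab hav (h23_not_mem hG ha))⟩
    obtain ⟨h0, hor⟩ := key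
    have va : weld2 a b v y a = y a + y v / 2 := by
      rw [h23_weld2_apply]; simp [hab, hav]
    have vb : weld2 a b v y b = y b + y v / 2 := by
      rw [h23_weld2_apply]; simp [hab.symm, hbv]
    have hm : min (weld2 a b v y a) (weld2 a b v y b) = y v / 2 := by
      rw [va, vb]
      rcases hor with h | h
      · rw [h, zero_add]; exact min_eq_left (by linarith [h0 b])
      · rw [h, zero_add]; exact min_eq_right (by linarith [h0 a])
    funext i
    rw [h23_sub2_apply, hm, h23_weld2_apply]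
    by_cases h1 : i = a
    · subst h1; simp [hab, hav]
    by_cases h2 : i = b
    · subst h2; simp [hab.symm, hbv]
    by_cases h3 : i = v
    · subst h3; simp [hav.symm, hbv.symm]; ring
    simp [h1, h2, h3]

/-- The indicator of a finite set. -/
noncomputable def h23_ind (F : Finset ℤ) : ℤ → ℝ := fun i => if i ∈ F then 1 else 0

theorem plh_simplex {F : Finset ℤ} {u : ℤ} (hF : F.Nonempty) (hu : u ∉ F) :
    ∃ f g, PLH f g (real {F}) (real (cone u (bsimp F))) ∧ ∀ x ∈ real (bsimp F), f x = x := by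
  have hc0 : (0 : ℝ) < (F.card : ℝ) := by exact_mod_cast hF.card_pos
  have hc : (F.card : ℝ) ≠ 0 := hc0.ne'
  let m : (ℤ → ℝ) → ℝ := fun x => F.inf' hF x
  let cf : ℤ → ℝ := -h23_ind F + (F.card : ℝ) • Pi.single u 1
  let cg : ℤ → ℝ := -Pi.single u 1 + (F.card : ℝ)⁻¹ • h23_ind F
  let f : (ℤ → ℝ) → (ℤ → ℝ) := fun x => x + m x • cf
  let g : (ℤ → ℝ) → (ℤ → ℝ) := fun y => y + y u • cg
  have fF : ∀ x : ℤ → ℝ, ∀ i ∈ F, f x i = x i - m x := by
    intro x i hi
    have hiu : i ≠ u := fun h => hu (h ▸ hi)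
    simp only [f, cf, h23_ind, Pi.add_apply, Pi.smul_apply, Pi.neg_apply, smul_eq_mul,
      Pi.single_apply, if_pos hi, if_neg hiu]
    ring
  have fu : ∀ x : ℤ → ℝ, f x u = x u + F.card * m x := by
    intro x
    simp only [f, cf, h23_ind, Pi.add_apply, Pi.smul_apply, Pi.neg_apply, smul_eq_mul,
      Pi.single_apply, if_neg hu, if_true]
    ring
  have fo : ∀ x : ℤ → ℝ, ∀ i, i ∉ F → i ≠ u → f x i = x i := by
    intro x i hi hiu
    simp only [f, cf, h23_ind, Pi.add_apply, Pi.smul_apply, Pi.neg_apply, smul_eq_mul,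
      Pi.single_apply, if_neg hi, if_neg hiu]
    ring
  have gF : ∀ y : ℤ → ℝ, ∀ i ∈ F, g y i = y i + y u / F.card := by
    intro x i hi
    have hiu : i ≠ u := fun h => hu (h ▸ hi)
    simp only [g, cg, h23_ind, Pi.add_apply, Pi.smul_apply, Pi.neg_apply, smul_eq_mul,
      Pi.single_apply, if_pos hi, if_neg hiu]
    ring
  have gu : ∀ y : ℤ → ℝ, g y u = 0 := by
    intro x
    simp only [g, cg, h23_ind, Pi.add_apply, Pi.smul_apply, Pi.neg_apply, smul_eq_mul,
      Pi.single_apply, if_neg hu, if_true]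
    ring
  have go : ∀ y : ℤ → ℝ, ∀ i, i ∉ F → i ≠ u → g y i = y i := by
    intro x i hi hiu
    simp only [g, cg, h23_ind, Pi.add_apply, Pi.smul_apply, Pi.neg_apply, smul_eq_mul,
      Pi.single_apply, if_neg hi, if_neg hiu]
    ring
  have cm : Continuous m := by
    simp only [m]
    exact Continuous.finset_inf'_apply hF (fun i _ => continuous_apply i)
  have hcf : Continuous f := by
    simp only [f]
    exact continuous_id.add (cm.smul continuous_const)
  have hcg : Continuous g := by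
    simp only [g]
    exact continuous_id.add ((continuous_apply u).smul continuous_const)
  have hmex : ∀ x : ℤ → ℝ, ∃ j ∈ F, m x = x j := fun x => exists_mem_eq_inf' hF x
  have hmle : ∀ x : ℤ → ℝ, ∀ i ∈ F, m x ≤ x i := fun x i hi => inf'_le x hi
  have hm0 : ∀ x : ℤ → ℝ, (∀ i, 0 ≤ x i) → ∀ j ∈ F, x j = 0 → m x = 0 := by
    intro x h0 j hj hxj
    apply le_antisymm
    · rw [← hxj]; exact hmle x j hj
    · obtain ⟨k, hk, hmk⟩ := hmex x
      rw [hmk]; exact h0 k
  -- points of the cone over the boundary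
  have hcone : ∀ y ∈ real (cone u (bsimp F)), (∀ i, 0 ≤ y i) ∧ ∃ j ∈ F, y j = 0 ∧
      (∀ i, i ∉ F → i ≠ u → y i = 0) ∧ y u + ∑ i ∈ F, y i = 1 := by
    rintro y ⟨h0, E, hE, hz, hs⟩
    simp only [cone, bsimp, mem_image] at hE
    obtain ⟨E', ⟨j, hj, rfl⟩, rfl⟩ := hE
    have hju : j ≠ u := fun h => hu (h ▸ hj)
    have hyj : y j = 0 := by
      apply hz
      simp [hju]
    refine ⟨h0, j, hj, hyj, ?_, ?_⟩
    · intro i h1 h2
      apply hz
      simp [h1, h2]
    · have huE : u ∉ F.erase j := fun h => hu (mem_of_mem_erase h)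
      rw [sum_insert huE] at hs
      rw [← add_sum_erase F y hj, hyj, zero_add]
      exact hs
  refine ⟨f, g, ⟨?_, ?_, ?_, ?_, ?_, ?_⟩, ?_⟩
  · refine h23_plon hcf F cf (fun x _ => ?_)
    obtain ⟨j, hj, hmj⟩ := hmex x
    exact ⟨j, hj, by simp only [f, hmj]⟩
  · exact h23_plon hcg {u} cg (fun x _ => ⟨u, by simp, rfl⟩)
  · rintro x ⟨h0, E, hE, hz, hs⟩
    rw [mem_singleton] at hE
    subst hE
    obtain ⟨j, hj, hmj⟩ := hmex x
    have hju : j ≠ u := fun h => hu (h ▸ hj)
    have hm00 : 0 ≤ m x := by rw [hmj]; exact h0 j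
    have hxu : x u = 0 := hz u hu
    refine ⟨?_, insert u (E.erase j), ?_, ?_, ?_⟩
    · intro i
      by_cases hi : i ∈ E
      · rw [fF x i hi]; linarith [hmle x i hi]
      by_cases hiu : i = u
      · rw [hiu, fu, hxu]; positivity
      rw [fo x i hi hiu]; exact h0 i
    · simp only [cone, bsimp, mem_image]
      exact ⟨E.erase j, ⟨j, hj, rfl⟩, rfl⟩
    · intro i hi
      simp only [mem_insert, mem_erase, not_or, not_and] at hi
      by_cases hiE : i ∈ E
      · have : i = j := by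
          by_contra hne
          exact hi.2 hne hiE
        rw [fF x i hiE, hmj, this, sub_self]
      · rw [fo x i hiE hi.1]; exact hz i hiE
    · have huE : u ∉ E.erase j := fun h => hu (mem_of_mem_erase h)
      rw [sum_insert huE]
      have h1 : f x j + ∑ i ∈ E.erase j, f x i = ∑ i ∈ E, f x i := add_sum_erase E (f x) hj
      have h2 : ∑ i ∈ E, f x i = 1 - E.card * m x := by
        rw [sum_congr rfl (fun i hi => fF x i hi), sum_sub_distrib, hs]
        simp
      have h3 : f x j = 0 := by rw [fF x j hj, hmj, sub_self]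
      rw [fu, hxu]
      linarith
  · intro y hy
    obtain ⟨h0, j, hj, hyj, hz, hs⟩ := hcone y hy
    refine ⟨?_, F, mem_singleton_self F, ?_, ?_⟩
    · intro i
      by_cases hi : i ∈ F
      · rw [gF y i hi]
        have := h0 i
        have := h0 u
        positivity
      by_cases hiu : i = u
      · rw [hiu, gu]
      rw [go y i hi hiu]; exact h0 i
    · intro i hi
      by_cases hiu : i = u
      · rw [hiu, gu]
      rw [go y i hi hiu]; exact hz i hi hiu
    · rw [sum_congr rfl (fun i hi => gF y i hi), sum_add_distrib]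
      simp only [sum_const, nsmul_eq_mul]
      field_simp
      linarith
  · rintro x ⟨h0, E, hE, hz, hs⟩
    rw [mem_singleton] at hE
    subst hE
    have hxu : x u = 0 := hz u hu
    funext i
    by_cases hi : i ∈ E
    · rw [gF _ i hi, fF x i hi, fu, hxu]
      field_simp
      ring
    by_cases hiu : i = u
    · rw [hiu, gu, hxu]
    rw [go _ i hi hiu, fo x i hi hiu]
  · intro y hy
    obtain ⟨h0, j, hj, hyj, hz, hs⟩ := hcone y hy
    have hmg : m (g y) = y u / F.card := by
      apply le_antisymm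
      · have := hmle (g y) j hj
        rw [gF y j hj, hyj, zero_add] at this
        exact this
      · obtain ⟨k, hk, hmk⟩ := hmex (g y)
        rw [hmk, gF y k hk]
        linarith [h0 k]
    funext i
    by_cases hi : i ∈ F
    · rw [fF _ i hi, gF y i hi, hmg]; ring
    by_cases hiu : i = u
    · rw [hiu, fu, gu, hmg, zero_add]
      field_simp
    rw [fo _ i hi hiu, go y i hi hiu]
  · rintro x ⟨h0, E, hE, hz, hs⟩
    simp only [bsimp, mem_image] at hE
    obtain ⟨j, hj, rfl⟩ := hE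
    have hxj : x j = 0 := hz j (by simp)
    have hmx : m x = 0 := hm0 x h0 j hj hxj
    simp only [f, hmx, zero_smul, add_zero]

end Pool.Agent.H30.NZ
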