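import Pool.Agent.H30.NZ.Comb
import Pool.Agent.H30.NZ.PL1
import Pool.Agent.H30.NZ.PL1b
import Pool.Agent.H30.NZ.PL2
import Pool.Agent.H30.NZ.PL3

/-!
# Balls: change of the apex, antipodes, simplices, cones
-/

namespace Pool.Agent.H30.NZ

open Finset

theorem bo_not_mem {K : Cx} {F : Finset ℤ} {x : ℤ} (hx : x ∉ vts K) (hF : F ∈ K) : x ∉ F := by
  intro h
  apply hx
  unfold vts
  rw [Finset.mem_biUnion]
  exact ⟨F, hF, h⟩

/-- An inclusion of faces gives an inclusion of realizations. -/
theorem bo_real_le {K L : Cx} (h : ∀ s, Fc K s → Fc L s) : real K ⊆ real L :=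
  fun _ hx => real_inter (K := K) (L := K) (M := L) (fun s h1 _ => h s h1) ⟨hx, hx⟩

theorem bo_real_bd_le (K : Cx) : real (bd K) ⊆ real K := bo_real_le (fun _ hs => fc_bd hs)

theorem bo_cone_comm (a b : ℤ) (K : Cx) : cone a (cone b K) = cone b (cone a K) := by
  unfold cone
  rw [Finset.image_image, Finset.image_image]
  congr 1
  funext F
  exact Finset.insert_comm a b F

theorem bo_image_swap {K : Cx} {a b : ℤ} (ha : a ∉ vts K) (hb : b ∉ vts K) {F : Finset ℤ}
    (hF : F ∈ K) : F.image (Equiv.swap a b) = F := by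
  have h1 := bo_not_mem ha hF
  have h2 := bo_not_mem hb hF
  have h : ∀ x ∈ F, Equiv.swap a b x = id x := by
    intro x hx
    exact Equiv.swap_apply_of_ne_of_ne (fun h => h1 (h ▸ hx)) (fun h => h2 (h ▸ hx))
  rw [Finset.image_congr h, Finset.image_id]

theorem bo_image_cone {K : Cx} {a b : ℤ} (ha : a ∉ vts K) (hb : b ∉ vts K) :
    (cone a K).image (fun F => F.image (Equiv.swap a b)) = cone b K := by
  unfold cone
  rw [Finset.image_image]
  apply Finset.image_congr
  intro F hF
  simp only [Function.comp]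
  rw [Finset.image_insert, bo_image_swap ha hb hF, Equiv.swap_apply_left]

theorem bo_rel_id {a b : ℤ} {x : ℤ → ℝ} (h : x a = x b) : rel (Equiv.swap a b) x = x := by
  funext i
  unfold rel
  rw [Equiv.symm_swap]
  by_cases h1 : i = a
  · rw [h1, Equiv.swap_apply_left, h]
  · by_cases h2 : i = b
    · rw [h2, Equiv.swap_apply_right, h]
    · rw [Equiv.swap_apply_of_ne_of_ne h1 h2]

theorem ball_of_exists {B : Cx} {u : ℤ} (hu : u ∉ vts B) {f g : (ℤ → ℝ) → (ℤ → ℝ)}
    (h : PLH f g (real B) (real (cone u (bd B)))) (hid : ∀ x ∈ real (bd B), f x = x) :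
    Ball B := by
  intro u' hu'
  have h1 : u ∉ vts (bd B) := fun h => hu (vts_bd h)
  have h2 : u' ∉ vts (bd B) := fun h => hu' (vts_bd h)
  have h3 := plh_rel (K := cone u (bd B)) (Equiv.swap u u')
  rw [bo_image_cone h1 h2] at h3
  refine ⟨_, _, plh_trans h h3, ?_⟩
  intro x hx
  show rel (Equiv.swap u u') (f x) = x
  rw [hid x hx]
  exact bo_rel_id (by rw [real_zero hx h1, real_zero hx h2])

theorem bo_image_neg (K : Cx) : K.image (fun F => F.image (Equiv.neg ℤ)) = neg K := by
  unfold neg ngs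
  rfl

theorem ball_neg {B : Cx} (h : Ball B) : Ball (neg B) := by
  intro u hu
  have hu' : -u ∉ vts B := fun h => hu (mem_vts_neg.mpr h)
  obtain ⟨f, g, hfg, hid⟩ := h (-u) hu'
  have h1 := plh_rel (K := B) (Equiv.neg ℤ)
  rw [bo_image_neg] at h1
  have h3 := plh_rel (K := cone (-u) (bd B)) (Equiv.neg ℤ)
  rw [bo_image_neg, neg_cone, _root_.neg_neg, ← bd_neg] at h3
  have h4 := plh_rel (K := bd B) (Equiv.neg ℤ)
  rw [bo_image_neg, ← bd_neg] at h4
  refine ⟨_, _, plh_trans (plh_trans (plh_symm h1) hfg) h3, ?_⟩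
  intro x hx
  show rel (Equiv.neg ℤ) (f (rel (Equiv.neg ℤ).symm x)) = x
  rw [hid _ (h4.mg x hx)]
  exact h4.fg x hx

theorem ball_simplex {F : Finset ℤ} (hF : F.Nonempty) : Ball {F} := by
  intro u hu
  have hu' : u ∉ F := bo_not_mem hu (Finset.mem_singleton_self F)
  obtain ⟨f, g, h, hid⟩ := plh_simplex hF hu'
  rw [bd_single]
  exact ⟨f, g, h, hid⟩

theorem ball_cone_closed {S : Cx} {w : ℤ} (hw : w ∉ vts S) (hb : bd (cone w S) = S) :
    Ball (cone w S) := by
  intro u hu
  have hu' : u ∉ vts S := by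
    intro h
    apply hu
    rw [mem_vts_cone]
    refine ⟨?_, Or.inr h⟩
    unfold vts at h
    rw [Finset.mem_biUnion] at h
    obtain ⟨F, hF, _⟩ := h
    exact ⟨F, hF⟩
  have h3 := plh_rel (K := cone w S) (Equiv.swap w u)
  rw [bo_image_cone hw hu'] at h3
  rw [hb]
  refine ⟨_, _, h3, ?_⟩
  intro x hx
  exact bo_rel_id (by rw [real_zero hx hw, real_zero hx hu'])

theorem ball_cone {D : Cx} {w : ℤ} (hD : Ball D) (hne : D.Nonempty) (hbne : (bd D).Nonempty)
    (hw : w ∉ vts D) (hb : bd (cone w D) = D ∪ cone w (bd D)) : Ball (cone w D) := by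
  obtain ⟨u, hu⟩ := Infinite.exists_notMem_finset (insert w (vts D))
  obtain ⟨v, hv⟩ := Infinite.exists_notMem_finset (insert u (insert w (vts D)))
  simp only [Finset.mem_insert, not_or] at hu hv
  obtain ⟨huw, huD⟩ := hu
  obtain ⟨hvu, hvw, hvD⟩ := hv
  have hwK : w ∉ vts (bd D) := fun h => hw (vts_bd h)
  have huK : u ∉ vts (bd D) := fun h => huD (vts_bd h)
  have hvK : v ∉ vts (bd D) := fun h => hvD (vts_bd h)
  obtain ⟨f, g, hfg, hid⟩ := hD v hvD
  have hgid : ∀ x ∈ real (bd D), g x = x := by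
    intro x hx
    have h := hfg.gf x (bo_real_bd_le D hx)
    rwa [hid x hx] at h
  have hwvK : w ∉ vts (cone v (bd D)) := by
    rw [mem_vts_cone]
    rintro ⟨_, h | h⟩
    · exact hvw h.symm
    · exact hwK h
  have huvK : u ∉ vts (cone v (bd D)) := by
    rw [mem_vts_cone]
    rintro ⟨_, h | h⟩
    · exact hvu h.symm
    · exact huK h
  have hvKne : (cone v (bd D)).Nonempty := by
    unfold cone
    exact hbne.image _
  -- the three maps
  have p1 : PLH (cnf w f) (cnf w g) (real (cone w D)) (real (cone w (cone v (bd D)))) :=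
    plh_cn hfg hne hvKne hw hwvK
  have p2 : PLH (sub2 w v u) (weld2 w v u) (real (cone w (cone v (bd D))))
      (real (cone w (cone u (bd D))) ∪ real (cone u (cone v (bd D)))) := by
    have h := plh_sub2 (K := bd D) (a := w) (b := v) (v := u) (Ne.symm hvw) (Ne.symm huw) hvu
      hwK hvK huK
    rw [real_union, bo_cone_comm v u] at h
    exact h
  have p3 : PLH (cnf u g) (cnf u f) (real (cone u (cone v (bd D)))) (real (cone u D)) :=
    plh_cn (plh_symm hfg) hvKne hne huvK huD
  have e1 : real (cone w (cone u (bd D))) ∩ real (cone u (cone v (bd D))) ⊆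
      real (cone u (bd D)) := by
    apply real_inter
    intro s h1 h2
    rw [fc_cone, fc_cone] at h1
    rw [fc_cone, fc_cone] at h2
    rw [fc_cone]
    obtain ⟨F, hF, hFs⟩ := h1
    obtain ⟨F', hF', hFs'⟩ := h2
    refine ⟨F, hF, ?_⟩
    intro x hx
    rw [Finset.mem_erase] at hx
    apply hFs
    rw [Finset.mem_erase, Finset.mem_erase]
    refine ⟨hx.1, ?_, hx.2⟩
    intro hxw
    subst hxw
    exact bo_not_mem hwK hF' (hFs' (by
      rw [Finset.mem_erase, Finset.mem_erase]
      exact ⟨Ne.symm hvw, hx.1, hx.2⟩))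
  have e2 : real (cone w (cone u (bd D))) ∩ real (cone u D) ⊆ real (cone u (bd D)) := by
    apply real_inter
    intro s h1 h2
    rw [fc_cone, fc_cone] at h1
    rw [fc_cone] at h2
    rw [fc_cone]
    obtain ⟨F, hF, hFs⟩ := h1
    obtain ⟨F', hF', hFs'⟩ := h2
    refine ⟨F, hF, ?_⟩
    intro x hx
    have hx' := hx
    rw [Finset.mem_erase] at hx
    apply hFs
    rw [Finset.mem_erase, Finset.mem_erase]
    refine ⟨hx.1, ?_, hx.2⟩
    intro hxw
    subst hxw
    exact bo_not_mem hw hF' (hFs' hx')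
  obtain ⟨F, G, hFG, hF1, hF2, _, _⟩ := plh_glue (plh_refl (real (cone w (cone u (bd D))))) p3
    (isClosed_real _) (isClosed_real _) (isClosed_real _) (isClosed_real _)
    (fun x hx hx' => (cnf_of_id huK hgid x (e1 ⟨hx, hx'⟩)).symm)
    (fun x hx hx' => (cnf_of_id huK hid x (e2 ⟨hx, hx'⟩)).symm)
  have huB : u ∉ vts (cone w D) := by
    rw [mem_vts_cone]
    rintro ⟨_, h | h⟩
    · exact huw h
    · exact huD h
  have etot : real (cone w (cone u (bd D))) ∪ real (cone u D) =
      real (cone u (bd (cone w D))) := by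
    rw [hb, cone_union, real_union, Set.union_comm, bo_cone_comm u w]
  have ptot := plh_trans (plh_trans p1 p2) hFG
  rw [etot] at ptot
  refine ball_of_exists huB ptot ?_
  intro x hx
  rw [hb, real_union] at hx
  show F (sub2 w v u (cnf w f x)) = x
  rcases hx with hx | hx
  · -- points of `D`
    have hxw : x w = 0 := real_zero hx hw
    rw [cnf_zero hxw]
    have hfx := hfg.mf x hx
    have hfw : f x w = 0 := real_zero hfx hwvK
    have hfu : f x u = 0 := real_zero hfx huvK
    rw [sub2_id (mem_real_iff.mp hfx).1 (Or.inl hfw)]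
    have hfx' : f x ∈ real (cone u (cone v (bd D))) := by
      refine bo_real_le ?_ hfx
      intro s hs
      rw [fc_cone]
      exact fc_sub (Finset.erase_subset _ _) hs
    rw [hF2 _ hfx', cnf_zero hfu]
    exact hfg.gf x hx
  · -- points of the cone over the boundary
    rw [cnf_of_id hwK hid x hx]
    have hxv : x v = 0 := by
      apply real_zero hx
      rw [mem_vts_cone]
      rintro ⟨_, h | h⟩
      · exact hvw h
      · exact hvK h
    rw [sub2_id (mem_real_iff.mp hx).1 (Or.inr hxv)]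
    have hx' : x ∈ real (cone w (cone u (bd D))) := by
      refine bo_real_le ?_ hx
      intro s hs
      rw [fc_cone] at hs ⊢
      rw [fc_cone]
      exact fc_sub (Finset.erase_subset _ _) hs
    rw [hF1 _ hx']
    rfl

end Pool.Agent.H30.NZ
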