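import Pool.Agent.H30.NZ.Comb
import Pool.Agent.H30.NZ.PL1
import Pool.Agent.H30.NZ.PL2
import Pool.Agent.H30.NZ.PL3
import Pool.Agent.H30.NZ.BallOps1

/-!
# MP_63054e_co: cutting a ball along a disk in its boundary
-/

namespace Pool.Agent.H30.NZ

open Finset

private theorem h50_cone_comm (a b : ℤ) (K : Cx) : cone a (cone b K) = cone b (cone a K) := by
  unfold cone
  rw [Finset.image_image, Finset.image_image]
  congr 1
  funext F
  exact Finset.insert_comm a b F

private theorem h50_notMem_cone {a u : ℤ} {K : Cx} (h : u ∉ vts K) (hne : u ≠ a) :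
    u ∉ vts (cone a K) := by
  rw [mem_vts_cone]
  rintro ⟨_, h1 | h1⟩
  · exact hne h1
  · exact h h1

private theorem h50_cone_nonempty {a : ℤ} {K : Cx} (h : K.Nonempty) : (cone a K).Nonempty := by
  unfold cone
  exact h.image _

private theorem h50_fc_notMem {K : Cx} {s : Finset ℤ} {a : ℤ} (h : Fc K s) (ha : a ∉ vts K) :
    a ∉ s := by
  intro has
  apply ha
  rw [mem_vts]
  exact fc_sub (Finset.singleton_subset_iff.mpr has) h

private theorem h50_image_cone {a b : ℤ} {K : Cx} (ha : a ∉ vts K) (hb : b ∉ vts K) :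
    (cone a K).image (fun F => F.image (Equiv.swap a b)) = cone b K := by
  unfold cone
  rw [Finset.image_image]
  apply Finset.image_congr
  intro F hF
  have hF' : Fc K F := ⟨F, hF, subset_rfl⟩
  have h1 : a ∉ F := h50_fc_notMem hF' ha
  have h2 : b ∉ F := h50_fc_notMem hF' hb
  simp only [Function.comp_apply, Finset.image_insert, Equiv.swap_apply_left]
  congr 1
  conv_rhs => rw [← Finset.image_id (s := F)]
  apply Finset.image_congr
  intro x hx
  have hx1 : x ≠ a := fun h => h1 (h ▸ hx)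
  have hx2 : x ≠ b := fun h => h2 (h ▸ hx)
  simp [Equiv.swap_apply_of_ne_of_ne hx1 hx2]

private theorem h50_rel_id {a b : ℤ} {x : ℤ → ℝ} (ha : x a = 0) (hb : x b = 0) :
    rel (Equiv.swap a b) x = x := by
  funext i
  unfold rel
  rw [Equiv.symm_swap]
  by_cases h1 : i = a
  · subst h1
    rw [Equiv.swap_apply_left, ha, hb]
  · by_cases h2 : i = b
    · subst h2
      rw [Equiv.swap_apply_right, ha, hb]
    · rw [Equiv.swap_apply_of_ne_of_ne h1 h2]

private theorem h50_real_cone {a : ℤ} {K : Cx} {x : ℤ → ℝ} (ha : a ∉ vts K) (hx : x ∈ real K) :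
    x ∈ real (cone a K) := ((real_cone_zero ha).mpr hx).1

private theorem h50_psi {E E' K : Cx} {w v v' : ℤ} (hne : E.Nonempty) (hne' : E'.Nonempty)
    (hKne : K.Nonempty) (hwE : w ∉ vts E) (hwE' : w ∉ vts E')
    (hvK : v ∉ vts K) (hvK' : v' ∉ vts K) (hvv : v ≠ v') (hvw : v ≠ w) (hvw' : v' ≠ w)
    {f g f' g' : (ℤ → ℝ) → (ℤ → ℝ)} (h : PLH f g (real E) (real (cone v K)))
    (hid : ∀ x ∈ real K, f x = x)
    (h' : PLH f' g' (real E') (real (cone v' K))) (hid' : ∀ x ∈ real K, f' x = x)
    (h1 : ∀ s, Fc E s → Fc E' s → Fc K s) (hKE : ∀ s, Fc K s → Fc E s)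
    (hKE' : ∀ s, Fc K s → Fc E' s) :
    ∃ P Q, PLH P Q (real (cone w (E ∪ E'))) (real (cone w E')) ∧ (∀ x ∈ real E', P x = x) ∧
      (∀ x ∈ real E, P x ∈ real (cone w K)) ∧ (∀ y ∈ real (cone w K), Q y ∈ real E) := by
  have hwK : w ∉ vts K := by
    intro hw
    rw [mem_vts] at hw
    apply hwE
    rw [mem_vts]
    exact hKE _ hw
  have hRE : ∀ x ∈ real K, x ∈ real E := by
    intro x hx
    have := @real_inter K K E (fun s hs _ => hKE s hs)
    exact this ⟨hx, hx⟩
  have hRE' : ∀ x ∈ real K, x ∈ real E' := by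
    intro x hx
    have := @real_inter K K E' (fun s hs _ => hKE' s hs)
    exact this ⟨hx, hx⟩
  have gid : ∀ x ∈ real K, g x = x := by
    intro x hx
    have h2 := h.gf x (hRE x hx)
    rwa [hid x hx] at h2
  have gid' : ∀ x ∈ real K, g' x = x := by
    intro x hx
    have h2 := h'.gf x (hRE' x hx)
    rwa [hid' x hx] at h2
  have hwvK : w ∉ vts (cone v K) := h50_notMem_cone hwK (Ne.symm hvw)
  have hwvK' : w ∉ vts (cone v' K) := h50_notMem_cone hwK (Ne.symm hvw')
  have a1 := plh_cn h hne (h50_cone_nonempty hKne) hwE hwvK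
  have a2 := plh_cn h' hne' (h50_cone_nonempty hKne) hwE' hwvK'
  obtain ⟨F, G, hFG, hF1, hF2, hG1, hG2⟩ := plh_glue a1 a2 (isClosed_real _) (isClosed_real _)
    (isClosed_real _) (isClosed_real _) (by
      intro x hx hx'
      have hxK : x ∈ real (cone w K) := by
        apply @real_inter (cone w E) (cone w E') (cone w K) _ x ⟨hx, hx'⟩
        intro s hs hs'
        rw [fc_cone] at hs hs' ⊢
        exact h1 _ hs hs'
      rw [cnf_of_id hwK hid x hxK, cnf_of_id hwK hid' x hxK]) (by
      intro x hx hx'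
      have hxK : x ∈ real (cone w K) := by
        apply @real_inter (cone w (cone v K)) (cone w (cone v' K)) (cone w K) _ x ⟨hx, hx'⟩
        intro s hs hs'
        rw [fc_cone, fc_cone] at hs hs'
        rw [fc_cone]
        have hv' : v' ∉ s.erase w := by
          intro hmem
          exact h50_fc_notMem hs hvK' (Finset.mem_erase.mpr ⟨Ne.symm hvv, hmem⟩)
        rwa [Finset.erase_eq_of_notMem hv'] at hs'
      rw [cnf_of_id hwK gid x hxK, cnf_of_id hwK gid' x hxK])
  have b := plh_symm (plh_sub2 (K := K) hvv hvw hvw' hvK hvK' hwK)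
  have c := plh_rel (K := cone v (cone v' K)) (Equiv.swap v w)
  rw [h50_image_cone (h50_notMem_cone hvK hvv) (h50_notMem_cone hwK (Ne.symm hvw'))] at c
  have d := plh_symm a2
  have hX : real (cone w (E ∪ E')) = real (cone w E) ∪ real (cone w E') := by
    rw [cone_union, real_union]
  have hY : real (cone v (cone w K) ∪ cone v' (cone w K)) =
      real (cone w (cone v K)) ∪ real (cone w (cone v' K)) := by
    rw [real_union, h50_cone_comm v w, h50_cone_comm v' w]
  rw [hY] at b
  have tot := plh_trans (plh_trans (plh_trans hFG b) c) d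
  rw [← hX] at tot
  refine ⟨_, _, tot, ?_, ?_, ?_⟩
  · intro x hx
    have hx1 : x w = 0 := real_zero hx hwE'
    have hx2 : x ∈ real (cone w E') := h50_real_cone hwE' hx
    have hy : f' x ∈ real (cone v' K) := h'.mf x hx
    have hy1 : f' x w = 0 := real_zero hy hwvK'
    have hy2 : f' x v = 0 := real_zero hy (h50_notMem_cone hvK hvv)
    show cnf w g' (rel (Equiv.swap v w) (weld2 v v' w (F x))) = x
    rw [hF2 x hx2, cnf_zero hx1, weld2_id hy1, h50_rel_id hy2 hy1, cnf_zero hy1, h'.gf x hx]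
  · intro x hx
    have hx1 : x w = 0 := real_zero hx hwE
    have hx2 : x ∈ real (cone w E) := h50_real_cone hwE hx
    have hy : f x ∈ real (cone v K) := h.mf x hx
    have hy1 : f x w = 0 := real_zero hy hwvK
    show cnf w g' (rel (Equiv.swap v w) (weld2 v v' w (F x))) ∈ real (cone w K)
    rw [hF1 x hx2, cnf_zero hx1, weld2_id hy1]
    have hz : rel (Equiv.swap v w) (f x) ∈ real (cone w K) := by
      have c' := plh_rel (K := cone v K) (Equiv.swap v w)
      rw [h50_image_cone hvK hwK] at c'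
      exact c'.mf _ hy
    rw [cnf_of_id hwK gid' _ hz]
    exact hz
  · intro y hy
    show G (sub2 v v' w (rel (Equiv.swap v w).symm (cnf w f' y))) ∈ real E
    rw [cnf_of_id hwK hid' _ hy]
    have hz : rel (Equiv.swap v w).symm y ∈ real (cone v K) := by
      have c' := plh_rel (K := cone v K) (Equiv.swap v w)
      rw [h50_image_cone hvK hwK] at c'
      exact c'.mg _ hy
    generalize rel (Equiv.swap v w).symm y = z at hz
    rw [sub2_id hz.1 (Or.inr (real_zero hz (h50_notMem_cone hvK' (Ne.symm hvv))))]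
    rw [hG1 z (h50_real_cone hwvK hz), cnf_zero (real_zero hz hwvK)]
    exact h.mg z hz

theorem ball_cut {N E E' : Cx} {w : ℤ} (hQ : Ball (N ∪ cone w (E ∪ E'))) (hE : Ball E)
    (hE' : Ball E') (hne : E.Nonempty) (hne' : E'.Nonempty) (hbb : bd E' = bd E)
    (hbne : (bd E).Nonempty)
    (hw : w ∉ vts N) (hw' : w ∉ vts (E ∪ E'))
    (h1 : ∀ s, Fc E s → Fc E' s → Fc (bd E) s)
    (h2 : ∀ s, Fc N s → Fc (E ∪ E') s → Fc E' s)
    (hEQ : E ⊆ bd (N ∪ cone w (E ∪ E')))
    (h3 : ∀ G ∈ bd (N ∪ cone w (E ∪ E')), G ∉ E → Fc N G ∨ Fc E' G)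
    (hbd : bd (N ∪ cone w E') = (bd (N ∪ cone w (E ∪ E')) \ E) ∪ cone w (bd E)) :
    Ball (N ∪ cone w E') := by
  classical
  have hwE : w ∉ vts E := fun h => hw' (vts_mono Finset.subset_union_left h)
  have hwE' : w ∉ vts E' := fun h => hw' (vts_mono Finset.subset_union_right h)
  obtain ⟨v, hv⟩ := Infinite.exists_notMem_finset (insert w (vts E ∪ vts E'))
  obtain ⟨v', hv'⟩ := Infinite.exists_notMem_finset (insert v (insert w (vts E ∪ vts E')))
  simp only [Finset.mem_insert, Finset.mem_union, not_or] at hv hv'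
  obtain ⟨f, g, hfg, hid⟩ := hE v hv.2.1
  obtain ⟨f', g', hfg', hid'⟩ := hE' v' hv'.2.2.2
  rw [hbb] at hfg' hid'
  obtain ⟨P, R, hPR, hP1, hP2, hR1⟩ := h50_psi (w := w) hne hne' hbne hwE hwE'
    (fun h => hv.2.1 (vts_bd h)) (fun h => hv'.2.2.1 (vts_bd h)) (Ne.symm hv'.1) hv.1 hv'.2.1
    hfg hid hfg' hid' h1 (fun s hs => fc_bd hs) (fun s hs => fc_bd (hbb ▸ hs))
  have hE'cone : ∀ x ∈ real E', x ∈ real (cone w E') := fun x hx => h50_real_cone hwE' hx
  have hE'coneL : ∀ x ∈ real E', x ∈ real (cone w (E ∪ E')) := fun x hx =>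
    h50_real_cone hw' (real_mono Finset.subset_union_right hx)
  have hR2 : ∀ y ∈ real E', R y = y := by
    intro y hy
    have h4 := hPR.gf y (hE'coneL y hy)
    rwa [hP1 y hy] at h4
  -- the map Theta
  obtain ⟨T, T', hT, hT1, hT2, hT3, hT4⟩ := plh_glue (plh_refl (real N)) hPR (isClosed_real _)
    (isClosed_real _) (isClosed_real _) (isClosed_real _) (by
      intro x hx hx'
      have hxE : x ∈ real E' := by
        apply @real_inter N (cone w (E ∪ E')) E' _ x ⟨hx, hx'⟩
        intro s hs hs'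
        have hws : w ∉ s := h50_fc_notMem hs hw
        rw [fc_cone, Finset.erase_eq_of_notMem hws] at hs'
        exact h2 s hs hs'
      rw [hP1 x hxE]
      rfl) (by
      intro x hx hx'
      have hxE : x ∈ real E' := by
        apply @real_inter N (cone w E') E' _ x ⟨hx, hx'⟩
        intro s hs hs'
        have hws : w ∉ s := h50_fc_notMem hs hw
        rw [fc_cone, Finset.erase_eq_of_notMem hws] at hs'
        exact hs'
      rw [hR2 x hxE]
      rfl)
  rw [← real_union, ← real_union] at hT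
  -- the restriction of Theta to the boundary
  have hsplit : ∀ x ∈ real (bd (N ∪ cone w (E ∪ E')) \ E), x ∈ real N ∨ x ∈ real E' := by
    rintro x ⟨hx0, G, hG, hx1, hx2⟩
    rw [Finset.mem_sdiff] at hG
    rcases h3 G hG.1 hG.2 with ⟨M, hM, hGM⟩ | ⟨M, hM, hGM⟩
    · left
      refine ⟨hx0, M, hM, fun i hi => hx1 i (fun h => hi (hGM h)), ?_⟩
      rw [← hx2]
      exact (Finset.sum_subset hGM (fun i _ hi => hx1 i hi)).symm
    · right
      refine ⟨hx0, M, hM, fun i hi => hx1 i (fun h => hi (hGM h)), ?_⟩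
      rw [← hx2]
      exact (Finset.sum_subset hGM (fun i _ hi => hx1 i hi)).symm
  have hTid : ∀ x ∈ real (bd (N ∪ cone w (E ∪ E')) \ E), T x = x := by
    intro x hx
    rcases hsplit x hx with h | h
    · rw [hT1 x h]
      rfl
    · rw [hT2 x (hE'coneL x h), hP1 x h]
  have hT'id : ∀ x ∈ real (bd (N ∪ cone w (E ∪ E')) \ E), T' x = x := by
    intro x hx
    rcases hsplit x hx with h | h
    · rw [hT3 x h]
      rfl
    · rw [hT4 x (hE'cone x h), hR2 x h]
  have hXX : real (bd (N ∪ cone w (E ∪ E'))) =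
      real (bd (N ∪ cone w (E ∪ E')) \ E) ∪ real E := by
    rw [← real_union, Finset.sdiff_union_of_subset hEQ]
  have hYY : real (bd (N ∪ cone w E')) =
      real (bd (N ∪ cone w (E ∪ E')) \ E) ∪ real (cone w (bd E)) := by
    rw [hbd, real_union]
  have hbdsub : ∀ K : Cx, real (bd K) ⊆ real K := by
    intro K x hx
    exact @real_inter (bd K) (bd K) K (fun s hs _ => fc_bd hs) x ⟨hx, hx⟩
  have hTbd : PLH T T' (real (bd (N ∪ cone w (E ∪ E')))) (real (bd (N ∪ cone w E'))) := by
    apply plh_restrict hT (hbdsub _) (hbdsub _)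
    · intro x hx
      rw [hXX] at hx
      rw [hYY]
      rcases hx with hx | hx
      · left
        rw [hTid x hx]
        exact hx
      · right
        rw [hT2 x (h50_real_cone hw' (real_mono Finset.subset_union_left hx))]
        exact hP2 x hx
    · intro y hy
      rw [hYY] at hy
      rw [hXX]
      rcases hy with hy | hy
      · left
        rw [hT'id y hy]
        exact hy
      · right
        have hy' : y ∈ real (cone w E') := by
          apply @real_inter (cone w (bd E)) (cone w (bd E)) (cone w E') _ y ⟨hy, hy⟩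
          intro s hs _
          rw [fc_cone] at hs ⊢
          rw [← hbb] at hs
          exact fc_bd hs
        rw [hT4 y hy']
        exact hR1 y hy
  -- the conclusion
  obtain ⟨u, hu⟩ := Infinite.exists_notMem_finset
    (vts (N ∪ cone w (E ∪ E')) ∪ vts (N ∪ cone w E'))
  simp only [Finset.mem_union, not_or] at hu
  obtain ⟨F, G, hFG, hFid⟩ := hQ u hu.1
  have hne1 : (bd (N ∪ cone w (E ∪ E'))).Nonempty := hne.mono hEQ
  have hne2 : (bd (N ∪ cone w E')).Nonempty := by
    rw [hbd]
    exact (h50_cone_nonempty hbne).mono Finset.subset_union_right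
  have hcn := plh_cn hTbd hne1 hne2 (fun h => hu.1 (vts_bd h)) (fun h => hu.2 (vts_bd h))
  refine ball_of_exists hu.2 (plh_trans (plh_trans (plh_symm hT) hFG) hcn) ?_
  intro y hy
  show cnf u T (F (T' y)) = y
  have h4 : T' y ∈ real (bd (N ∪ cone w (E ∪ E'))) := hTbd.mg y hy
  rw [hFid _ h4, cnf_zero (real_zero h4 (fun h => hu.1 (vts_bd h)))]
  exact hT.fg y (hbdsub _ hy)

end Pool.Agent.H30.NZ
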