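import Pool.Agent.H30.NZ.Comb
import Pool.Agent.H30.NZ.PL1
import Pool.Agent.H30.NZ.PL2
import Pool.Agent.H30.NZ.PL3
import Pool.Agent.H30.NZ.BallOps1

/-!
# MP_63054e_co: adding a cone to a ball, replacing a ball by the cone over its boundary
-/

namespace Pool.Agent.H30.NZ

open Finset

private theorem h50b_notMem_cone {a u : ℤ} {K : Cx} (h : u ∉ vts K) (hne : u ≠ a) :
    u ∉ vts (cone a K) := by
  rw [mem_vts_cone]
  rintro ⟨_, h1 | h1⟩
  · exact hne h1
  · exact h h1

private theorem h50b_cone_nonempty {a : ℤ} {K : Cx} (h : K.Nonempty) : (cone a K).Nonempty := by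
  unfold cone
  exact h.image _

private theorem h50b_fc_notMem {K : Cx} {s : Finset ℤ} {a : ℤ} (h : Fc K s) (ha : a ∉ vts K) :
    a ∉ s := by
  intro has
  apply ha
  rw [mem_vts]
  exact fc_sub (Finset.singleton_subset_iff.mpr has) h

private theorem h50b_real_cone {a : ℤ} {K : Cx} {x : ℤ → ℝ} (ha : a ∉ vts K) (hx : x ∈ real K) :
    x ∈ real (cone a K) := ((real_cone_zero ha).mpr hx).1

private theorem h50b_real_fc {K L : Cx} (h : ∀ s, Fc K s → Fc L s) {x : ℤ → ℝ}
    (hx : x ∈ real K) : x ∈ real L :=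
  @real_inter K K L (fun s hs _ => h s hs) x ⟨hx, hx⟩

theorem ball_rep {Q A : Cx} {w : ℤ} (hQ : Ball Q) (hA : Ball A) (hs : A ⊆ Q)
    (hne : (bd A).Nonempty) (hw : w ∉ vts Q)
    (hbd : bd ((Q \ A) ∪ cone w (bd A)) = bd Q)
    (h1 : ∀ s, Fc A s → Fc (Q \ A) s → Fc (bd A) s) (h2 : ∀ G ∈ bd Q, Fc A G → Fc (bd A) G) :
    Ball ((Q \ A) ∪ cone w (bd A)) := by
  classical
  have hwA : w ∉ vts A := fun h => hw (vts_mono hs h)
  have hwbA : w ∉ vts (bd A) := fun h => hwA (vts_bd h)
  have hwQA : w ∉ vts (Q \ A) := fun h => hw (vts_mono Finset.sdiff_subset h)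
  obtain ⟨f, g, hfg, hid⟩ := hA w hwA
  have hbA : ∀ x ∈ real (bd A), x ∈ real A := fun x hx => h50b_real_fc (fun s hs => fc_bd hs) hx
  have gid : ∀ x ∈ real (bd A), g x = x := by
    intro x hx
    have h4 := hfg.gf x (hbA x hx)
    rwa [hid x hx] at h4
  obtain ⟨T, T', hT, hT1, hT2, hT3, hT4⟩ := plh_glue (plh_refl (real (Q \ A))) hfg
    (isClosed_real _) (isClosed_real _) (isClosed_real _) (isClosed_real _) (by
      intro x hx hx'
      have hxE : x ∈ real (bd A) := @real_inter A (Q \ A) (bd A) h1 x ⟨hx', hx⟩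
      rw [hid x hxE]
      rfl) (by
      intro x hx hx'
      have hxE : x ∈ real (bd A) := (real_cone_zero hwbA).mp ⟨hx', real_zero hx hwQA⟩
      rw [gid x hxE]
      rfl)
  have hQA : Q \ A ∪ A = Q := Finset.sdiff_union_of_subset hs
  rw [← real_union, ← real_union, hQA] at hT
  have hTid : ∀ x ∈ real (bd Q), T x = x := by
    rintro x ⟨hx0, G, hG, hx1, hx2⟩
    obtain ⟨M, hM, hGM⟩ : Fc Q G := fc_bd ⟨G, hG, subset_rfl⟩
    by_cases hMA : M ∈ A
    · obtain ⟨M', hM', hGM'⟩ := h2 G hG ⟨M, hMA, hGM⟩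
      have hx : x ∈ real (bd A) := by
        refine ⟨hx0, M', hM', fun i hi => hx1 i (fun h => hi (hGM' h)), ?_⟩
        rw [← hx2]
        exact (Finset.sum_subset hGM' (fun i _ hi => hx1 i hi)).symm
      rw [hT2 x (hbA x hx), hid x hx]
    · have hx : x ∈ real (Q \ A) := by
        refine ⟨hx0, M, Finset.mem_sdiff.mpr ⟨hM, hMA⟩, fun i hi => hx1 i (fun h => hi (hGM h)),
          ?_⟩
        rw [← hx2]
        exact (Finset.sum_subset hGM (fun i _ hi => hx1 i hi)).symm
      rw [hT1 x hx]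
      rfl
  have hT'id : ∀ x ∈ real (bd Q), T' x = x := by
    intro x hx
    have h4 := hT.gf x (h50b_real_fc (fun s hs => fc_bd hs) hx)
    rwa [hTid x hx] at h4
  obtain ⟨u, hu⟩ := Infinite.exists_notMem_finset (vts Q ∪ vts ((Q \ A) ∪ cone w (bd A)))
  simp only [Finset.mem_union, not_or] at hu
  obtain ⟨F, G, hFG, hFid⟩ := hQ u hu.1
  have htot := plh_trans (plh_symm hT) hFG
  rw [← hbd] at htot
  refine ball_of_exists hu.2 htot ?_
  intro x hx
  rw [hbd] at hx
  show F (T' x) = x
  rw [hT'id x hx, hFid x hx]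

/-- The map Phi. -/
private theorem h50b_phi {B K : Cx} {u v w : ℤ} (hne : B.Nonempty) (hKne : K.Nonempty)
    (huB : u ∉ vts B) (hwB : w ∉ vts B) (huw : u ≠ w) (huv : u ≠ v) (hwv : w ≠ v)
    (huK : u ∉ vts K) (hwK : w ∉ vts K) (hvK : v ∉ vts K)
    {f g : (ℤ → ℝ) → (ℤ → ℝ)} (h : PLH f g (real B) (real (cone v K)))
    (hid : ∀ x ∈ real K, f x = x) (hKB : ∀ s, Fc K s → Fc B s) :
    ∃ P R, PLH P R (real (cone u B ∪ cone w B)) (real (cone u (cone w K))) ∧
      (∀ x ∈ real (cone u K), P x = x) ∧ (∀ x ∈ real (cone w K), P x = x) := by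
  have hKB' : ∀ x ∈ real K, x ∈ real B := fun x hx => h50b_real_fc hKB hx
  have huvK : u ∉ vts (cone v K) := h50b_notMem_cone huK huv
  have hwvK : w ∉ vts (cone v K) := h50b_notMem_cone hwK hwv
  have a1 := plh_cn h hne (h50b_cone_nonempty hKne) huB huvK
  have a2 := plh_cn h hne (h50b_cone_nonempty hKne) hwB hwvK
  obtain ⟨F, G, hFG, hF1, hF2, hG1, hG2⟩ := plh_glue a1 a2 (isClosed_real _) (isClosed_real _)
    (isClosed_real _) (isClosed_real _) (by
      intro x hx hx'
      have hx1 : x w = 0 := real_zero hx (h50b_notMem_cone hwB (Ne.symm huw))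
      have hx2 : x u = 0 := real_zero hx' (h50b_notMem_cone huB huw)
      rw [cnf_zero hx1, cnf_zero hx2]) (by
      intro x hx hx'
      have hx1 : x w = 0 := real_zero hx (h50b_notMem_cone hwvK (Ne.symm huw))
      have hx2 : x u = 0 := real_zero hx' (h50b_notMem_cone huvK huw)
      rw [cnf_zero hx1, cnf_zero hx2])
  have b := plh_symm (plh_sub2 (K := K) huw huv hwv huK hwK hvK)
  have hX : real (cone u B ∪ cone w B) = real (cone u B) ∪ real (cone w B) := real_union _ _
  rw [real_union] at b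
  rw [← hX] at hFG
  refine ⟨_, _, plh_trans hFG b, ?_, ?_⟩
  · intro x hx
    show weld2 u w v (F x) = x
    have hx' : x ∈ real (cone u B) := by
      apply h50b_real_fc _ hx
      intro s hs
      rw [fc_cone] at hs ⊢
      exact hKB _ hs
    rw [hF1 x hx', cnf_of_id huK hid x hx]
    exact weld2_id (real_zero hx (h50b_notMem_cone hvK (Ne.symm huv)))
  · intro x hx
    show weld2 u w v (F x) = x
    have hx' : x ∈ real (cone w B) := by
      apply h50b_real_fc _ hx
      intro s hs
      rw [fc_cone] at hs ⊢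
      exact hKB _ hs
    rw [hF2 x hx', cnf_of_id hwK hid x hx]
    exact weld2_id (real_zero hx (h50b_notMem_cone hvK (Ne.symm hwv)))

theorem ball_add {B B' : Cx} {w : ℤ} (hB : Ball B) (hB' : Ball B') (hs : B' ⊆ bd B)
    (hne : B'.Nonempty) (hbne : (bd B').Nonempty) (hw : w ∉ vts B)
    (hbd : bd (B ∪ cone w B') = (bd B \ B') ∪ cone w (bd B'))
    (h1 : ∀ s, Fc B' s → Fc (bd B \ B') s → Fc (bd B') s) : Ball (B ∪ cone w B') := by
  classical
  obtain ⟨u, hu⟩ := Infinite.exists_notMem_finset (insert w (vts B ∪ vts (B ∪ cone w B')))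
  obtain ⟨v, hv⟩ := Infinite.exists_notMem_finset (insert u (insert w (vts B)))
  simp only [Finset.mem_insert, Finset.mem_union, not_or] at hu hv
  obtain ⟨huw, huB, huN⟩ := hu
  obtain ⟨hvu, hvw, hvB⟩ := hv
  -- vertices
  have hsub1 : vts (bd B) ⊆ vts B := vts_bd
  have hsub2 : vts B' ⊆ vts B := (vts_mono hs).trans hsub1
  have hsub3 : vts (bd B') ⊆ vts B := vts_bd.trans hsub2
  have hsub4 : vts (bd B \ B') ⊆ vts B := (vts_mono Finset.sdiff_subset).trans hsub1
  obtain ⟨f, g, hfg, hid⟩ := hB u huB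
  obtain ⟨f', g', hfg', hid'⟩ := hB' v (fun h => hvB (hsub2 h))
  have hbB : ∀ x ∈ real (bd B), x ∈ real B := fun x hx => h50b_real_fc (fun s hs => fc_bd hs) hx
  have gid : ∀ x ∈ real (bd B), g x = x := by
    intro x hx
    have h4 := hfg.gf x (hbB x hx)
    rwa [hid x hx] at h4
  have hB'bd : ∀ x ∈ real B', x ∈ real (bd B) := fun x hx => real_mono hs hx
  -- the map T1
  obtain ⟨T, T', hT, hT1, hT2, hT3, hT4⟩ := plh_glue hfg (plh_refl (real (cone w B')))
    (isClosed_real _) (isClosed_real _) (isClosed_real _) (isClosed_real _) (by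
      intro x hx hx'
      have hxE : x ∈ real B' :=
        (real_cone_zero (fun h => hw (hsub2 h))).mp ⟨hx', real_zero hx hw⟩
      rw [hid x (hB'bd x hxE)]
      rfl) (by
      intro x hx hx'
      have hu' : u ∉ vts (cone w B') := h50b_notMem_cone (fun h => huB (hsub2 h)) huw
      have hxE : x ∈ real (bd B) :=
        (real_cone_zero (fun h => huB (hsub1 h))).mp ⟨hx, real_zero hx' hu'⟩
      rw [gid x hxE]
      rfl)
  rw [← real_union, ← real_union] at hT
  -- the map Phi
  obtain ⟨P, R, hPR, hP1, hP2⟩ := h50b_phi (u := u) (v := v) (w := w) hne hbne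
    (fun h => huB (hsub2 h)) (fun h => hw (hsub2 h)) huw (Ne.symm hvu) (Ne.symm hvw)
    (fun h => huB (hsub3 h)) (fun h => hw (hsub3 h)) (fun h => hvB (hsub3 h)) hfg' hid'
    (fun s hs => fc_bd hs)
  have hcu : ∀ x ∈ real (cone u (bd B')), x ∈ real (cone u B' ∪ cone w B') := by
    intro x hx
    apply h50b_real_fc _ hx
    intro s hs
    rw [fc_union]
    left
    rw [fc_cone] at hs ⊢
    exact fc_bd hs
  have hcw : ∀ x ∈ real (cone w (bd B')), x ∈ real (cone u B' ∪ cone w B') := by
    intro x hx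
    apply h50b_real_fc _ hx
    intro s hs
    rw [fc_union]
    right
    rw [fc_cone] at hs ⊢
    exact fc_bd hs
  have hR1 : ∀ x ∈ real (cone u (bd B')), R x = x := by
    intro x hx
    have h4 := hPR.gf x (hcu x hx)
    rwa [hP1 x hx] at h4
  have hwd : w ∉ vts (bd B \ B') := fun h => hw (hsub4 h)
  obtain ⟨S, S', hS, hS1, hS2, hS3, hS4⟩ := plh_glue (plh_refl (real (cone u (bd B \ B')))) hPR
    (isClosed_real _) (isClosed_real _) (isClosed_real _) (isClosed_real _) (by
      intro x hx hx'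
      have hxE : x ∈ real (cone u (bd B')) := by
        apply @real_inter (cone u (bd B \ B')) (cone u B' ∪ cone w B') (cone u (bd B')) _ x
          ⟨hx, hx'⟩
        intro s hs hs'
        rw [fc_cone] at hs
        rw [fc_union, fc_cone, fc_cone] at hs'
        rw [fc_cone]
        rcases hs' with hs' | hs'
        · exact h1 _ hs' hs
        · have hws : w ∉ s := by
            intro hmem
            exact h50b_fc_notMem hs hwd (Finset.mem_erase.mpr ⟨Ne.symm huw, hmem⟩)
          rw [Finset.erase_eq_of_notMem hws] at hs'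
          have hus : u ∉ s := h50b_fc_notMem hs' (fun h => huB (hsub2 h))
          rw [Finset.erase_eq_of_notMem hus] at hs ⊢
          exact h1 _ hs' hs
      rw [hP1 x hxE]
      rfl) (by
      intro x hx hx'
      have hxE : x ∈ real (cone u (bd B')) := by
        apply @real_inter (cone u (bd B \ B')) (cone u (cone w (bd B'))) (cone u (bd B')) _ x
          ⟨hx, hx'⟩
        intro s hs hs'
        rw [fc_cone] at hs
        rw [fc_cone, fc_cone] at hs'
        rw [fc_cone]
        have hws : w ∉ s.erase u := h50b_fc_notMem hs hwd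
        rwa [Finset.erase_eq_of_notMem hws] at hs'
      rw [hR1 x hxE]
      rfl)
  have hmid : real (cone u (bd B) ∪ cone w B') =
      real (cone u (bd B \ B')) ∪ real (cone u B' ∪ cone w B') := by
    rw [← real_union, ← Finset.union_assoc, ← cone_union, Finset.sdiff_union_of_subset hs]
  rw [← hmid, ← real_union, ← cone_union, ← hbd] at hS
  refine ball_of_exists huN (plh_trans hT hS) ?_
  intro x hx
  show S (T x) = x
  rw [hbd, real_union] at hx
  rcases hx with hx | hx
  · have hx1 : x ∈ real (bd B) := real_mono Finset.sdiff_subset hx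
    rw [hT1 x (hbB x hx1), hid x hx1,
      hS1 x (h50b_real_cone (fun h => huB (hsub4 h)) hx)]
    rfl
  · have hx1 : x ∈ real (cone w B') := by
      apply h50b_real_fc _ hx
      intro s hs
      rw [fc_cone] at hs ⊢
      exact fc_bd hs
    have hTx : T x = x := by
      rw [hT2 x hx1]
      rfl
    rw [hTx, hS2 x (hcw x hx), hP2 x hx]

end Pool.Agent.H30.NZ
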