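import Pool.Agent.H30.NZ.NorRep

/-!
# Normality of the operations (module NorOps)
-/

namespace Pool.Agent.H30.NZ
open Finset

theorem nor_single {F : Finset ℤ} : Nor {F} := by
  intro s P hP h1 h2
  obtain ⟨G, hG, -⟩ := h1
  obtain ⟨G', hG', -⟩ := h2
  obtain ⟨h3, h4⟩ := Finset.mem_sdiff.1 hG'
  rw [Finset.mem_singleton] at h3
  have h5 := Finset.mem_singleton.1 (hP hG)
  rw [h5] at hG
  rw [h3] at h4
  exact absurd hG h4

theorem nor_bsimp {F : Finset ℤ} : Nor (bsimp F) := by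
  intro s P hP h1 h2
  obtain ⟨G, hG, hsG⟩ := h1
  obtain ⟨G', hG', hsG'⟩ := h2
  obtain ⟨a, ha, rfl⟩ := Finset.mem_image.1 (hP hG)
  obtain ⟨b, hb, rfl⟩ := Finset.mem_image.1 (Finset.mem_sdiff.1 hG').1
  have hab : b ≠ a := fun hh => (Finset.mem_sdiff.1 hG').2 (hh ▸ hG)
  refine ⟨F.erase a, hG, F.erase b, hG', b, Finset.mem_erase.2 ⟨hab, hb⟩, ?_, ?_⟩
  · intro x hx
    exact Finset.mem_erase.2 ⟨(Finset.mem_erase.1 (hsG' hx)).1, hsG hx⟩
  · exact Finset.erase_subset_erase _ (Finset.erase_subset _ _)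

theorem nor_cone {c : ℕ} {w : ℤ} {K : Cx} (_hK : Pure c K) (hw : w ∉ vts K) (hn : Nor K) :
    Nor (cone w K) := by
  intro s P hP h1 h2
  have her : ∀ G, s ⊆ insert w G → s.erase w ⊆ G := by
    intro G hG y hy
    obtain ⟨hy1, hy2⟩ := Finset.mem_erase.1 hy
    exact (Finset.mem_insert.1 (hG hy2)).resolve_left hy1
  obtain ⟨F, hF, hsF⟩ := h1
  obtain ⟨F', hF', hsF'⟩ := h2
  obtain ⟨hF1', hF2'⟩ := Finset.mem_sdiff.1 hF'
  obtain ⟨G, hG, rfl⟩ := Finset.mem_image.1 (hP hF)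
  obtain ⟨G', hG', rfl⟩ := Finset.mem_image.1 hF1'
  obtain ⟨R, hR, R', hR', h3, h4, x, hx, h5, h6⟩ := h40_cone_adj (P := P) (s := s) hn hw
    ⟨G, Finset.mem_filter.2 ⟨hG, hF⟩, her G hsF⟩
    ⟨G', Finset.mem_sdiff.2 ⟨hG', fun hh => hF2' (Finset.mem_filter.1 hh).2⟩, her G' hsF'⟩
  exact ⟨_, h3, _, Finset.mem_sdiff.2 ⟨Finset.mem_image_of_mem _ hR', h4⟩, x, hx, h5, h6⟩

theorem nor_add {c : ℕ} {B B' : Cx} {w : ℤ} (hB : Pure (c + 1) B) (hs : B' ⊆ bd B)
    (hw : w ∉ vts B) (h1 : Nor B) (h2 : Nor B') : Nor (B ∪ cone w B') := by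
  have hw' : w ∉ vts B' := fun hh => hw (vts_bd (vts_mono hs hh))
  have hp' : Pure c B' := pure_mono hs (pure_bd hB)
  apply h40_nor_red (pure_union hB (pure_cone hp' hw')) hw hw' h2
  intro s P hws hP hPs hPs' hno
  set P0 := P.filter (fun F => s ⊆ F) with hP0
  have hins : ∀ R, s ⊆ insert w R → s ⊆ R := by
    intro R hR y hy
    exact (Finset.mem_insert.1 (hR hy)).resolve_left (fun h3 => hws (h3 ▸ hy))
  have p0 : P0 ⊆ B := by
    intro F hF
    obtain ⟨hF1, hF2⟩ := Finset.mem_filter.1 hF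
    rcases Finset.mem_union.1 (hP hF1) with hh | hh
    · exact hh
    · obtain ⟨R, hR, rfl⟩ := Finset.mem_image.1 hh
      exact absurd hF1 (hno R hR (hins R hF2))
  have f0 : Fc P0 s := by
    obtain ⟨F, hF, hsF⟩ := hPs
    exact ⟨F, Finset.mem_filter.2 ⟨hF, hsF⟩, hsF⟩
  by_cases f1 : Fc (B \ P0) s
  · obtain ⟨F, hF, F', hF', x, hx, h3, h4⟩ := h1 s P0 p0 f0 f1
    obtain ⟨hF1', hF2'⟩ := Finset.mem_sdiff.1 hF'
    exact ⟨F, (Finset.mem_filter.1 hF).1, F', Finset.mem_sdiff.2 ⟨Finset.mem_union_left _ hF1',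
      fun hh => hF2' (Finset.mem_filter.2 ⟨hh, h3.trans h4⟩)⟩, x, hx, h3, h4⟩
  · obtain ⟨H, hH, hsH⟩ := hPs'
    obtain ⟨hH1, hH2⟩ := Finset.mem_sdiff.1 hH
    rcases Finset.mem_union.1 hH1 with hh | hh
    · exfalso
      exact f1 ⟨H, Finset.mem_sdiff.2 ⟨hh, fun h5 => hH2 (Finset.mem_filter.1 h5).1⟩, hsH⟩
    · obtain ⟨R, hR, rfl⟩ := Finset.mem_image.1 hh
      have hsR := hins R hsH
      obtain ⟨F, hF, h6⟩ := Finset.mem_biUnion.1 (Finset.mem_filter.1 (hs hR)).1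
      obtain ⟨x, hx, rfl⟩ := Finset.mem_image.1 h6
      have hFP : F ∈ P0 := by
        by_contra h7
        exact f1 ⟨F, Finset.mem_sdiff.2 ⟨hF, h7⟩, hsR.trans (Finset.erase_subset _ _)⟩
      exact ⟨F, (Finset.mem_filter.1 hFP).1, _, hH, x, hx, hsR, Finset.subset_insert _ _⟩

/-- the boundary of a cone -/
theorem nor_cone_bd {c : ℕ} {w : ℤ} {D : Cx} (hD : Pure c D) (hw : w ∉ vts D) (hn : Nor D)
    (hb : Nor (bd D)) : Nor (D ∪ cone w (bd D)) := by
  cases c with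
  | zero =>
    have e : bd D = ∅ := by
      rw [Finset.eq_empty_iff_forall_notMem]
      intro G hG
      obtain ⟨F, hF, h6⟩ := Finset.mem_biUnion.1 (Finset.mem_filter.1 hG).1
      obtain ⟨x, hx, -⟩ := Finset.mem_image.1 h6
      rw [Finset.card_eq_zero.1 (hD F hF)] at hx
      exact absurd hx (Finset.notMem_empty x)
    rw [e]
    have e2 : D ∪ cone w ∅ = D := by
      change D ∪ Finset.image _ ∅ = D
      rw [Finset.image_empty, Finset.union_empty]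
    rw [e2]
    exact hn
  | succ c => exact nor_add hD (Finset.Subset.refl _) hw hn hb

theorem nor_susp {c : ℕ} {a b : ℤ} {S : Cx} (hS : Pure c S) (ha : a ∉ vts S) (hb : b ∉ vts S)
    (hn : Nor S) : Nor (cone a S ∪ cone b S) := by
  have hc := nor_cone hS ha hn
  by_cases hab : b = a
  · rw [hab, Finset.union_self]
    exact hc
  have hbM : b ∉ vts (cone a S) := by
    rw [mem_vts_cone]
    rintro ⟨-, hh | hh⟩
    · exact hab hh
    · exact hb hh
  apply h40_nor_red (pure_union (pure_cone hS ha) (pure_cone hS hb)) hbM hb hn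
  intro s P hbs hP hPs hPs' hno
  have hins : ∀ R, s ⊆ insert b R → s ⊆ R := by
    intro R hR y hy
    exact (Finset.mem_insert.1 (hR hy)).resolve_left (fun h3 => hbs (h3 ▸ hy))
  obtain ⟨F, hF, hsF⟩ := hPs
  have hFa : F ∈ cone a S := by
    rcases Finset.mem_union.1 (hP hF) with hh | hh
    · exact hh
    · obtain ⟨R, hR, rfl⟩ := Finset.mem_image.1 hh
      exact absurd hF (hno R hR (hins R hsF))
  by_cases has : a ∈ s
  · set P0 := P.filter (fun F => s ⊆ F) with hP0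
    have hall : ∀ H ∈ cone a S ∪ cone b S, s ⊆ H → H ∈ cone a S := by
      intro H hH hsH
      rcases Finset.mem_union.1 hH with hh | hh
      · exact hh
      · obtain ⟨R, hR, rfl⟩ := Finset.mem_image.1 hh
        exact absurd (mem_vts.2 ⟨R, hR, Finset.singleton_subset_iff.2 (hins R hsH has)⟩) ha
    have p0 : P0 ⊆ cone a S := by
      intro H hH
      obtain ⟨h3, h4⟩ := Finset.mem_filter.1 hH
      exact hall H (hP h3) h4
    obtain ⟨H, hH, hsH⟩ := hPs'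
    obtain ⟨hH1, hH2⟩ := Finset.mem_sdiff.1 hH
    obtain ⟨F1, hF1, F', hF', x, hx, h3, h4⟩ := hc s P0 p0
      ⟨F, Finset.mem_filter.2 ⟨hF, hsF⟩, hsF⟩
      ⟨H, Finset.mem_sdiff.2 ⟨hall H hH1 hsH, fun hh => hH2 (Finset.mem_filter.1 hh).1⟩, hsH⟩
    obtain ⟨hF1', hF2'⟩ := Finset.mem_sdiff.1 hF'
    exact ⟨F1, (Finset.mem_filter.1 hF1).1, F', Finset.mem_sdiff.2 ⟨Finset.mem_union_left _ hF1',
      fun hh => hF2' (Finset.mem_filter.2 ⟨hh, h3.trans h4⟩)⟩, x, hx, h3, h4⟩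
  · obtain ⟨R, hR, rfl⟩ := Finset.mem_image.1 hFa
    have haR : a ∉ R := fun hh => ha (mem_vts.2 ⟨R, hR, Finset.singleton_subset_iff.2 hh⟩)
    have hsR : s ⊆ R := by
      intro y hy
      exact (Finset.mem_insert.1 (hsF hy)).resolve_left (fun h3 => has (h3 ▸ hy))
    refine ⟨insert a R, hF, insert b R, Finset.mem_sdiff.2 ⟨Finset.mem_union_right _
      (Finset.mem_image_of_mem _ hR), hno R hR hsR⟩, a, Finset.mem_insert_self _ _, ?_, ?_⟩
    · rw [Finset.erase_insert haR]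
      exact hsR
    · rw [Finset.erase_insert haR]
      exact Finset.subset_insert _ _

end Pool.Agent.H30.NZ
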