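import Pool.Agent.H30.NZ.Basic

/-!
# MP_63054e_co: PM and boundary for the three operations
-/

namespace Pool.Agent.H30.NZ

open Finset

private theorem o_mem_star {K : Cx} {s F : Finset ℤ} : F ∈ star K s ↔ F ∈ K ∧ s ⊆ F := by
  simp [star]

private theorem o_not_mem {K : Cx} {w : ℤ} (hw : w ∉ vts K) {F : Finset ℤ} (hF : F ∈ K) :
    w ∉ F := fun h => hw (by simp only [vts, mem_biUnion]; exact ⟨F, hF, h⟩)

private theorem o_mem_ridges {K : Cx} {G : Finset ℤ} :
    G ∈ ridges K ↔ ∃ F ∈ K, ∃ x ∈ F, F.erase x = G := by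
  simp [ridges]

private theorem o_mem_ridges' {c : ℕ} {K : Cx} (h : Pure (c + 1) K) {G : Finset ℤ} :
    G ∈ ridges K ↔ G.card = c ∧ (star K G).Nonempty := by
  rw [o_mem_ridges]
  constructor
  · rintro ⟨F, hF, x, hx, rfl⟩
    refine ⟨?_, F, o_mem_star.mpr ⟨hF, erase_subset _ _⟩⟩
    rw [card_erase_of_mem hx, h F hF]
    rfl
  · rintro ⟨hc, F, hF⟩
    rw [o_mem_star] at hF
    have h1 : G.card < F.card := by
      rw [hc, h F hF.1]
      exact Nat.lt_succ_self c
    obtain ⟨x, hx, hxG⟩ : ∃ x ∈ F, x ∉ G := by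
      by_contra hcon
      push Not at hcon
      exact absurd (card_le_card (show F ⊆ G from hcon)) (by omega)
    refine ⟨F, hF.1, x, hx, ?_⟩
    symm
    refine eq_of_subset_of_card_le (fun y hy => ?_) ?_
    · exact mem_erase.mpr ⟨fun he => hxG (he ▸ hy), hF.2 hy⟩
    · rw [card_erase_of_mem hx, h F hF.1, hc]
      exact le_of_eq rfl

private theorem o_mem_bd {c : ℕ} {K : Cx} (h : Pure (c + 1) K) {G : Finset ℤ} :
    G ∈ bd K ↔ G.card = c ∧ (star K G).card = 1 := by
  rw [bd, mem_filter, o_mem_ridges' h]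
  constructor
  · rintro ⟨⟨h1, _⟩, h2⟩
    exact ⟨h1, h2⟩
  · rintro ⟨h1, h2⟩
    exact ⟨⟨h1, card_pos.mp (by omega)⟩, h2⟩

private theorem o_pm_iff {c : ℕ} {K : Cx} (h : Pure (c + 1) K) :
    PM K ↔ ∀ G : Finset ℤ, G.card = c → (star K G).card ≤ 2 := by
  constructor
  · intro hpm G hG
    by_cases hn : (star K G).Nonempty
    · exact hpm G ((o_mem_ridges' h).mpr ⟨hG, hn⟩)
    · rw [not_nonempty_iff_eq_empty] at hn
      rw [hn]
      simp
  · intro hpm G hG
    exact hpm G ((o_mem_ridges' h).mp hG).1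

private theorem o_star_union {A B : Cx} (h : Disjoint A B) (G : Finset ℤ) :
    (star (A ∪ B) G).card = (star A G).card + (star B G).card := by
  unfold star
  rw [filter_union, card_union_of_disjoint (disjoint_filter_filter h)]

private theorem o_star_cone_not {c : ℕ} {K : Cx} {w : ℤ} {G : Finset ℤ} (h : Pure c K)
    (hG : G.card = c) (hw : w ∉ G) :
    (star (cone w K) G).card = if G ∈ K then 1 else 0 := by
  have key : ∀ F ∈ K, G ⊆ insert w F → F = G := by
    intro F hF hs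
    symm
    refine eq_of_subset_of_card_le (fun y hy => ?_) (by rw [h F hF, hG])
    rcases mem_insert.mp (hs hy) with h1 | h1
    · exact absurd (h1 ▸ hy) hw
    · exact h1
  split_ifs with hm
  · rw [card_eq_one]
    refine ⟨insert w G, ?_⟩
    ext F
    rw [o_mem_star, cone, mem_image, mem_singleton]
    constructor
    · rintro ⟨⟨F', hF', rfl⟩, hs⟩
      rw [key F' hF' hs]
    · rintro rfl
      exact ⟨⟨G, hm, rfl⟩, subset_insert _ _⟩
  · rw [card_eq_zero, eq_empty_iff_forall_notMem]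
    intro F hF
    rw [o_mem_star, cone, mem_image] at hF
    obtain ⟨⟨F', hF', rfl⟩, hs⟩ := hF
    exact hm (key F' hF' hs ▸ hF')

private theorem o_star_cone_mem {K : Cx} {w : ℤ} {R : Finset ℤ} (hw : w ∉ vts K) (hR : w ∉ R) :
    (star (cone w K) (insert w R)).card = (star K R).card := by
  have h1 : star (cone w K) (insert w R) = (star K R).image (fun F => insert w F) := by
    ext F
    rw [o_mem_star, cone, mem_image, mem_image]
    constructor
    · rintro ⟨⟨F', hF', rfl⟩, hs⟩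
      refine ⟨F', o_mem_star.mpr ⟨hF', fun y hy => ?_⟩, rfl⟩
      rcases mem_insert.mp (hs (mem_insert_of_mem hy)) with h1 | h1
      · exact absurd (h1 ▸ hy) hR
      · exact h1
    · rintro ⟨F', hF', rfl⟩
      rw [o_mem_star] at hF'
      exact ⟨⟨F', hF'.1, rfl⟩, insert_subset_insert _ hF'.2⟩
  rw [h1, card_image_of_injOn]
  intro F hF F' hF' he
  have h2 := (o_mem_star.mp (mem_coe.mp hF)).1
  have h3 := (o_mem_star.mp (mem_coe.mp hF')).1
  have h4 : (insert w F).erase w = (insert w F').erase w := by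
    simp only at he
    rw [he]
  rwa [erase_insert (o_not_mem hw h2), erase_insert (o_not_mem hw h3)] at h4

private theorem o_star_zero {K : Cx} {w : ℤ} {G : Finset ℤ} (hw : w ∉ vts K) (hG : w ∈ G) :
    (star K G).card = 0 := by
  rw [card_eq_zero, eq_empty_iff_forall_notMem]
  intro F hF
  rw [o_mem_star] at hF
  exact o_not_mem hw hF.1 (hF.2 hG)

private theorem o_disj {K L : Cx} {w : ℤ} (hw : w ∉ vts K) : Disjoint K (cone w L) := by
  rw [disjoint_left]
  intro F hF hF'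
  rw [cone, mem_image] at hF'
  obtain ⟨F', _, rfl⟩ := hF'
  exact o_not_mem hw hF (mem_insert_self _ _)

private theorem o_vts_mono {K L : Cx} (h : K ⊆ L) {w : ℤ} (hw : w ∉ vts L) : w ∉ vts K := by
  intro hK
  simp only [vts, mem_biUnion] at hK hw
  obtain ⟨F, hF, hx⟩ := hK
  exact hw ⟨F, h hF, hx⟩

private theorem o_vts_bd {K : Cx} {w : ℤ} (hw : w ∉ vts K) : w ∉ vts (bd K) := by
  intro hK
  simp only [vts, mem_biUnion, id] at hK hw
  obtain ⟨G, hG, hx⟩ := hK
  rw [bd, mem_filter, o_mem_ridges] at hG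
  obtain ⟨⟨F, hF, x, _, rfl⟩, _⟩ := hG
  exact hw ⟨F, hF, mem_of_mem_erase hx⟩

private theorem o_pure_bd {c : ℕ} {K : Cx} (h : Pure (c + 1) K) : Pure c (bd K) :=
  fun _ hG => ((o_mem_bd h).mp hG).1

private theorem o_pure_cone {c : ℕ} {w : ℤ} {K : Cx} (h : Pure c K) (hw : w ∉ vts K) :
    Pure (c + 1) (cone w K) := by
  intro F hF
  rw [cone, mem_image] at hF
  obtain ⟨F', hF', rfl⟩ := hF
  rw [card_insert_of_notMem (o_not_mem hw hF'), h F' hF']

private theorem o_mem_cone {K : Cx} {w : ℤ} {G : Finset ℤ} (hw : w ∉ vts K) :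
    G ∈ cone w K ↔ w ∈ G ∧ G.erase w ∈ K := by
  rw [cone, mem_image]
  constructor
  · rintro ⟨F, hF, rfl⟩
    exact ⟨mem_insert_self _ _, by rwa [erase_insert (o_not_mem hw hF)]⟩
  · rintro ⟨h1, h2⟩
    exact ⟨_, h2, insert_erase h1⟩

/-- The numbers of facets of `B ∪ cone w B'` over a ridge. -/
private theorem o_count {c : ℕ} {B B' : Cx} {w : ℤ} (hB' : Pure c B')
    (hw : w ∉ vts B) (hw' : w ∉ vts B') {G : Finset ℤ} (hG : G.card = c) :
    (w ∉ G → (star (B ∪ cone w B') G).card = (star B G).card + if G ∈ B' then 1 else 0) ∧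
      (w ∈ G → (star (B ∪ cone w B') G).card = (star B' (G.erase w)).card) := by
  constructor
  · intro h
    rw [o_star_union (o_disj hw), o_star_cone_not hB' hG h]
  · intro h
    rw [o_star_union (o_disj hw), o_star_zero hw h, Nat.zero_add]
    conv_lhs => rw [← insert_erase h]
    exact o_star_cone_mem hw' (notMem_erase w G)

private theorem o_pure_un {c : ℕ} {K L : Cx} (hK : Pure c K) (hL : Pure c L) : Pure c (K ∪ L) := by
  intro F hF
  rcases mem_union.mp hF with h | h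
  · exact hK F h
  · exact hL F h

private theorem o_card_erase {c : ℕ} {G : Finset ℤ} {w : ℤ} (hG : G.card = c) (h : w ∈ G) :
    ∃ c', c = c' + 1 ∧ (G.erase w).card = c' := by
  have h1 := card_erase_add_one h
  exact ⟨(G.erase w).card, by omega, rfl⟩

theorem pm_add {c : ℕ} {B B' : Cx} {w : ℤ} (hB : Pure (c + 1) B) (hs : B' ⊆ bd B)
    (hw : w ∉ vts B) (h1 : PM B) (h2 : PM B') : PM (B ∪ cone w B') := by
  have hB' : Pure c B' := fun F hF => o_pure_bd hB F (hs hF)
  have hw' : w ∉ vts B' := o_vts_mono hs (o_vts_bd hw)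
  rw [o_pm_iff (o_pure_un hB (o_pure_cone hB' hw'))]
  intro G hG
  obtain ⟨hc1, hc2⟩ := o_count hB' hw hw' hG
  by_cases h : w ∈ G
  · rw [hc2 h]
    obtain ⟨c', rfl, hc'⟩ := o_card_erase hG h
    exact (o_pm_iff hB').mp h2 _ hc'
  · rw [hc1 h]
    split_ifs with hm
    · rw [((o_mem_bd hB).mp (hs hm)).2]
    · exact (o_pm_iff hB).mp h1 G hG

theorem bd_add {c : ℕ} {B B' : Cx} {w : ℤ} (hB : Pure (c + 1) B) (hs : B' ⊆ bd B)
    (hw : w ∉ vts B) (h1 : PM B) (h2 : PM B') :
    bd (B ∪ cone w B') = (bd B \ B') ∪ cone w (bd B') := by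
  have hB' : Pure c B' := fun F hF => o_pure_bd hB F (hs hF)
  have hw' : w ∉ vts B' := o_vts_mono hs (o_vts_bd hw)
  ext G
  rw [o_mem_bd (o_pure_un hB (o_pure_cone hB' hw')), mem_union, mem_sdiff,
    o_mem_cone (o_vts_bd hw'), o_mem_bd hB]
  by_cases h : w ∈ G
  · constructor
    · rintro ⟨hG, hst⟩
      rw [(o_count hB' hw hw' hG).2 h] at hst
      obtain ⟨c', rfl, hc'⟩ := o_card_erase hG h
      exact Or.inr ⟨h, (o_mem_bd hB').mpr ⟨hc', hst⟩⟩
    · rintro (⟨⟨_, h3⟩, _⟩ | ⟨_, h4⟩)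
      · rw [o_star_zero hw h] at h3
        omega
      · obtain ⟨F, hF, x, hx, he⟩ := o_mem_ridges.mp (mem_filter.mp h4).1
        have hcF := hB' F hF
        have h5 := card_erase_add_one hx
        rw [he] at h5
        have h6 := card_erase_add_one h
        have hG : G.card = c := by omega
        refine ⟨hG, ?_⟩
        rw [(o_count hB' hw hw' hG).2 h]
        exact (mem_filter.mp h4).2
  · constructor
    · rintro ⟨hG, hst⟩
      rw [(o_count hB' hw hw' hG).1 h] at hst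
      left
      by_cases hm : G ∈ B'
      · rw [if_pos hm, ((o_mem_bd hB).mp (hs hm)).2] at hst
        omega
      · rw [if_neg hm] at hst
        exact ⟨⟨hG, by omega⟩, hm⟩
    · rintro (⟨⟨hG, h3⟩, hm⟩ | ⟨h3, _⟩)
      · refine ⟨hG, ?_⟩
        rw [(o_count hB' hw hw' hG).1 h, if_neg hm, h3]
      · exact absurd h3 h

private theorem o_bd_zero {K : Cx} (h : Pure 0 K) : bd K = ∅ := by
  rw [eq_empty_iff_forall_notMem]
  intro G hG
  obtain ⟨F, hF, x, hx, _⟩ := o_mem_ridges.mp (mem_filter.mp hG).1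
  have := card_pos.mpr ⟨x, hx⟩
  have := h F hF
  omega

private theorem o_cone_empty (w : ℤ) : cone w ∅ = ∅ := by simp [cone]

private theorem o_star_sdiff {Q A : Cx} (hA : A ⊆ Q) (G : Finset ℤ) :
    (star Q G).card = (star (Q \ A) G).card + (star A G).card := by
  rw [← o_star_union disjoint_sdiff_self_left, sdiff_union_of_subset hA]

theorem pm_rep {c : ℕ} {Q A : Cx} {w : ℤ} (hQ : Pure c Q) (hA : A ⊆ Q) (hw : w ∉ vts Q)
    (h1 : PM Q) (h2 : PM (bd A)) : PM ((Q \ A) ∪ cone w (bd A)) := by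
  obtain rfl | ⟨c', rfl⟩ : c = 0 ∨ ∃ c', c = c' + 1 := by
    cases c
    · exact Or.inl rfl
    · exact Or.inr ⟨_, rfl⟩
  · rw [o_bd_zero (fun F hF => hQ F (hA hF)), o_cone_empty, union_empty]
    intro G hG
    obtain ⟨F, hF, x, hx, _⟩ := o_mem_ridges.mp hG
    have := card_pos.mpr ⟨x, hx⟩
    have := hQ F (mem_sdiff.mp hF).1
    omega
  have hAp : Pure (c' + 1) A := fun F hF => hQ F (hA hF)
  have hS : Pure (c' + 1) (Q \ A) := fun F hF => hQ F (mem_sdiff.mp hF).1
  have hwS : w ∉ vts (Q \ A) := o_vts_mono sdiff_subset hw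
  have hwA : w ∉ vts (bd A) := o_vts_bd (o_vts_mono hA hw)
  rw [o_pm_iff (o_pure_un hS (o_pure_cone (o_pure_bd hAp) hwA))]
  intro G hG
  obtain ⟨hc1, hc2⟩ := o_count (o_pure_bd hAp) hwS hwA hG
  have h3 := (o_pm_iff hQ).mp h1 G hG
  have h4 := o_star_sdiff hA G
  by_cases h : w ∈ G
  · rw [hc2 h]
    obtain ⟨c'', rfl, hc'⟩ := o_card_erase hG h
    exact (o_pm_iff (o_pure_bd hAp)).mp h2 _ hc'
  · rw [hc1 h]
    split_ifs with hm
    · have := ((o_mem_bd hAp).mp hm).2
      omega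
    · omega

theorem bd_rep {c : ℕ} {Q A : Cx} {w : ℤ} (hQ : Pure c Q) (hA : A ⊆ Q) (hw : w ∉ vts Q)
    (h1 : PM Q) (h2 : PM (bd A)) (h3 : bd (bd A) = ∅) :
    bd ((Q \ A) ∪ cone w (bd A)) = bd Q := by
  obtain rfl | ⟨c', rfl⟩ : c = 0 ∨ ∃ c', c = c' + 1 := by
    cases c
    · exact Or.inl rfl
    · exact Or.inr ⟨_, rfl⟩
  · rw [o_bd_zero (fun F hF => hQ F (hA hF)), o_cone_empty, union_empty, o_bd_zero hQ,
      o_bd_zero (fun F hF => hQ F (mem_sdiff.mp hF).1)]
  have hAp : Pure (c' + 1) A := fun F hF => hQ F (hA hF)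
  have hS : Pure (c' + 1) (Q \ A) := fun F hF => hQ F (mem_sdiff.mp hF).1
  have hwS : w ∉ vts (Q \ A) := o_vts_mono sdiff_subset hw
  have hwA : w ∉ vts (bd A) := o_vts_bd (o_vts_mono hA hw)
  ext G
  rw [o_mem_bd (o_pure_un hS (o_pure_cone (o_pure_bd hAp) hwA)), o_mem_bd hQ]
  refine and_congr_right fun hG => ?_
  obtain ⟨hc1, hc2⟩ := o_count (o_pure_bd hAp) hwS hwA hG
  have h5 := (o_pm_iff hQ).mp h1 G hG
  have h4 := o_star_sdiff hA G
  by_cases h : w ∈ G
  · rw [hc2 h, o_star_zero hw h]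
    obtain ⟨c'', rfl, hc'⟩ := o_card_erase hG h
    have h6 : G.erase w ∉ bd (bd A) := by
      rw [h3]
      exact notMem_empty _
    rw [o_mem_bd (o_pure_bd hAp)] at h6
    constructor
    · intro h7
      exact absurd ⟨hc', h7⟩ h6
    · intro h7
      omega
  · rw [hc1 h]
    split_ifs with hm
    · have := ((o_mem_bd hAp).mp hm).2
      omega
    · rw [o_mem_bd hAp] at hm
      have h6 : (star A G).card ≠ 1 := fun h7 => hm ⟨hG, h7⟩
      omega

theorem bd_cut {c : ℕ} {N E E' : Cx} {w : ℤ} (hQ : Pure (c + 1) (N ∪ cone w (E ∪ E')))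
    (hpm : PM (N ∪ cone w (E ∪ E'))) (hd : Disjoint E E') (hL : bd (E ∪ E') = ∅)
    (hE : E ⊆ bd (N ∪ cone w (E ∪ E'))) (hw : w ∉ vts N) (hw' : w ∉ vts (E ∪ E')) :
    bd (N ∪ cone w E') = (bd (N ∪ cone w (E ∪ E')) \ E) ∪ cone w (bd E) := by
  have hN : Pure (c + 1) N := fun F hF => hQ F (mem_union_left _ hF)
  have hEE : Pure c (E ∪ E') := by
    intro F hF
    have h1 := hQ (insert w F) (mem_union_right _ (mem_image_of_mem _ hF))
    rw [card_insert_of_notMem (o_not_mem hw' hF)] at h1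
    omega
  have hEp : Pure c E := fun F hF => hEE F (mem_union_left _ hF)
  have hEp' : Pure c E' := fun F hF => hEE F (mem_union_right _ hF)
  have hwE : w ∉ vts E := o_vts_mono subset_union_left hw'
  have hwE' : w ∉ vts E' := o_vts_mono subset_union_right hw'
  ext G
  rw [o_mem_bd (o_pure_un hN (o_pure_cone hEp' hwE')), mem_union, mem_sdiff,
    o_mem_cone (o_vts_bd hwE), o_mem_bd hQ]
  by_cases h : w ∈ G
  · by_cases hG : G.card = c
    · have h1 := (o_count hEp' hw hwE' hG).2 h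
      have h2 := (o_count hEE hw hw' hG).2 h
      have h3 := (o_pm_iff hQ).mp hpm G hG
      have h4 := o_star_union hd (G.erase w)
      obtain ⟨c', rfl, hc'⟩ := o_card_erase hG h
      have h6 : G.erase w ∉ bd (E ∪ E') := by
        rw [hL]
        exact notMem_empty _
      rw [o_mem_bd hEE] at h6
      have h7 : (star (E ∪ E') (G.erase w)).card ≠ 1 := fun h8 => h6 ⟨hc', h8⟩
      rw [o_mem_bd hEp]
      constructor
      · rintro ⟨_, h8⟩
        right
        refine ⟨h, hc', ?_⟩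
        omega
      · rintro (⟨⟨_, h8⟩, _⟩ | ⟨_, _, h8⟩)
        · omega
        · refine ⟨hG, ?_⟩
          omega
    · constructor
      · rintro ⟨h1, _⟩
        exact absurd h1 hG
      · rintro (⟨⟨h1, _⟩, _⟩ | ⟨_, h4⟩)
        · exact absurd h1 hG
        · exfalso
          obtain ⟨F, hF, x, hx, he⟩ := o_mem_ridges.mp (mem_filter.mp h4).1
          have hcF := hEp F hF
          have h5 := card_erase_add_one hx
          rw [he] at h5
          have h6 := card_erase_add_one h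
          exact hG (by omega)
  · constructor
    · rintro ⟨hG, hst⟩
      have h1 := (o_count hEp' hw hwE' hG).1 h
      have h2 := (o_count hEE hw hw' hG).1 h
      have hGE : G ∉ E := by
        intro hm
        have h3 := ((o_mem_bd hQ).mp (hE hm)).2
        rw [if_pos (mem_union_left _ hm)] at h2
        rw [if_neg (disjoint_left.mp hd hm)] at h1
        omega
      have h4 : (G ∈ E ∪ E') ↔ G ∈ E' := by
        rw [mem_union]
        exact ⟨fun h5 => h5.resolve_left hGE, Or.inr⟩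
      left
      refine ⟨⟨hG, ?_⟩, hGE⟩
      simp only [h4] at h2
      omega
    · rintro (⟨⟨hG, h3⟩, hGE⟩ | ⟨h3, _⟩)
      · have h1 := (o_count hEp' hw hwE' hG).1 h
        have h2 := (o_count hEE hw hw' hG).1 h
        have h4 : (G ∈ E ∪ E') ↔ G ∈ E' := by
          rw [mem_union]
          exact ⟨fun h5 => h5.resolve_left hGE, Or.inr⟩
        simp only [h4] at h2
        exact ⟨hG, by omega⟩
      · exact absurd h3 h

end Pool.Agent.H30.NZ
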