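import Pool.Agent.H30.NZ.Comb
import Pool.Agent.H30.NZ.Ops
import Pool.Agent.H30.NZ.NorOps
import Pool.Agent.H30.NZ.BallOps1
import Pool.Agent.H30.NZ.BallOps2
import Pool.Agent.H30.NZ.BallCut

/-!
# Operations on good balls
-/

namespace Pool.Agent.H30.NZ

open Finset

theorem go_pos {c : ℕ} {B : Cx} (hB : Good c B) : 1 ≤ c := by
  obtain ⟨G, hG⟩ := hB.bne
  obtain ⟨F, hF, hGF⟩ := mem_biUnion.1 (mem_filter.1 hG).1
  obtain ⟨x, hx, -⟩ := mem_image.1 hGF
  rw [← hB.pure F hF]
  exact card_pos.2 ⟨x, hx⟩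

theorem go_cone_ne {w : ℤ} {K : Cx} (h : K.Nonempty) : (cone w K).Nonempty := h.image _

theorem go_cone_empty (w : ℤ) : cone w ∅ = ∅ := rfl

theorem go_star_one {K : Cx} {G F F' : Finset ℤ} (hG : G ∈ bd K) (hF : F ∈ K) (hF' : F' ∈ K)
    (h : G ⊆ F) (h' : G ⊆ F') : F = F' := by
  have h1 := (mem_filter.1 hG).2
  exact (card_eq_one.1 h1).elim fun H hH => by
    have h2 : F ∈ star K G := mem_filter.2 ⟨hF, h⟩
    have h3 : F' ∈ star K G := mem_filter.2 ⟨hF', h'⟩
    rw [hH, mem_singleton] at h2 h3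
    rw [h2, h3]

theorem good_neg {c : ℕ} {B : Cx} (h : Good c B) : Good c (neg B) where
  ne := h.ne.image _
  pure := pure_neg h.pure
  pm := pm_neg h.pm
  nor := nor_neg h.nor
  bne := by rw [bd_neg]; exact h.bne.image _
  bpm := by rw [bd_neg]; exact pm_neg h.bpm
  bnor := by rw [bd_neg]; exact nor_neg h.bnor
  bbd := by rw [bd_neg, bd_neg, h.bbd]; exact neg_empty
  ball := ball_neg h.ball

theorem good_simplex {F : Finset ℤ} (hF : F.Nonempty) : Good F.card {F} where
  ne := singleton_nonempty F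
  pure := fun G hG => by rw [mem_singleton.1 hG]
  pm := pm_single
  nor := nor_single
  bne := by rw [bd_single]; exact hF.image _
  bpm := by rw [bd_single]; exact pm_bsimp
  bnor := by rw [bd_single]; exact nor_bsimp
  bbd := by rw [bd_single]; exact bd_bsimp hF
  ball := ball_simplex hF

theorem good_cone {c : ℕ} {D : Cx} {w : ℤ} (hD : Good c D) (hw : w ∉ vts D) :
    Good (c + 1) (cone w D) := by
  have hb := bd_cone hD.pure hw
  obtain ⟨c', rfl⟩ : ∃ c', c = c' + 1 := ⟨c - 1, by have := go_pos hD; omega⟩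
  have hbb : bd (D ∪ cone w (bd D)) = (bd D \ bd D) ∪ cone w (bd (bd D)) :=
    bd_add hD.pure (Subset.refl _) hw hD.pm hD.bpm
  exact
    { ne := go_cone_ne hD.ne
      pure := pure_cone hD.pure hw
      pm := pm_cone hD.pure hw hD.pm
      nor := nor_cone hD.pure hw hD.nor
      bne := by rw [hb]; exact hD.ne.mono subset_union_left
      bpm := by rw [hb]; exact pm_add hD.pure (Subset.refl _) hw hD.pm hD.bpm
      bnor := by rw [hb]; exact nor_cone_bd hD.pure hw hD.nor hD.bnor
      bbd := by rw [hb, hbb, hD.bbd, sdiff_self, go_cone_empty]; rfl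
      ball := ball_cone hD.ball hD.ne hD.bne hw hb }

theorem good_cone_closed {c : ℕ} {S : Cx} {w : ℤ} (hne : S.Nonempty) (_hc : 1 ≤ c)
    (hp : Pure c S) (hpm : PM S) (hn : Nor S) (hb : bd S = ∅) (hw : w ∉ vts S) :
    Good (c + 1) (cone w S) := by
  have hb' : bd (cone w S) = S := by
    rw [bd_cone hp hw, hb, go_cone_empty, union_empty]
  exact
    { ne := go_cone_ne hne
      pure := pure_cone hp hw
      pm := pm_cone hp hw hpm
      nor := nor_cone hp hw hn
      bne := by rw [hb']; exact hne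
      bpm := by rw [hb']; exact hpm
      bnor := by rw [hb']; exact hn
      bbd := by rw [hb', hb]
      ball := ball_cone_closed hw hb' }

theorem good_add {c : ℕ} {B B' : Cx} {w : ℤ} (hB : Good (c + 1) B) (hB' : Good c B')
    (hs : B' ⊆ bd B) (hw : w ∉ vts B) : Good (c + 1) (B ∪ cone w B') := by
  have hwb : w ∉ vts (bd B) := fun h => hw (vts_bd h)
  have hw' : w ∉ vts B' := fun h => hwb (vts_mono hs h)
  have hbd := bd_add hB.pure hs hw hB.pm hB'.pm
  have hpb : Pure c (bd B) := pure_bd hB.pure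
  exact
    { ne := hB.ne.mono subset_union_left
      pure := pure_union hB.pure (pure_cone hB'.pure hw')
      pm := pm_add hB.pure hs hw hB.pm hB'.pm
      nor := nor_add hB.pure hs hw hB.nor hB'.nor
      bne := by rw [hbd]; exact (go_cone_ne hB'.bne).mono subset_union_right
      bpm := by rw [hbd]; exact pm_rep hpb hs hwb hB.bpm hB'.bpm
      bnor := by rw [hbd]; exact nor_rep hpb hB.bpm hs hwb hB.bnor hB'.bnor
      bbd := by rw [hbd, bd_rep hpb hs hwb hB.bpm hB'.bpm hB'.bbd, hB.bbd]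
      ball := ball_add hB.ball hB'.ball hs hB'.ne hB'.bne hw hbd
        (fun s h1 h2 => fc_bd_of_nor hpb hB.bnor hB.bpm hs h1 h2) }

theorem good_rep {c : ℕ} {Q A : Cx} {w : ℤ} (hQ : Good c Q) (hA : Good c A) (hs : A ⊆ Q)
    (hw : w ∉ vts Q) : Good c ((Q \ A) ∪ cone w (bd A)) := by
  obtain ⟨c', rfl⟩ : ∃ c', c = c' + 1 := ⟨c - 1, by have := go_pos hQ; omega⟩
  have hwA : w ∉ vts A := fun h => hw (vts_mono hs h)
  have hwbA : w ∉ vts (bd A) := fun h => hwA (vts_bd h)
  have hbd := bd_rep hQ.pure hs hw hQ.pm hA.bpm hA.bbd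
  exact
    { ne := (go_cone_ne hA.bne).mono subset_union_right
      pure := pure_union (pure_mono sdiff_subset hQ.pure) (pure_cone (pure_bd hA.pure) hwbA)
      pm := pm_rep hQ.pure hs hw hQ.pm hA.bpm
      nor := nor_rep hQ.pure hQ.pm hs hw hQ.nor hA.bnor
      bne := by rw [hbd]; exact hQ.bne
      bpm := by rw [hbd]; exact hQ.bpm
      bnor := by rw [hbd]; exact hQ.bnor
      bbd := by rw [hbd]; exact hQ.bbd
      ball := ball_rep hQ.ball hA.ball hs hA.bne hw hbd
        (fun s h1 h2 => fc_bd_of_nor hQ.pure hQ.nor hQ.pm hs h1 h2)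
        (fun G hG hGA => by
          obtain ⟨F, hF, hGF⟩ := hGA
          refine ⟨G, ?_, Subset.refl _⟩
          have hGc : G.card = c' := pure_bd hQ.pure G hG
          have hFc : F.card = c' + 1 := hA.pure F hF
          have hFG : (F \ G).card = 1 := by
            rw [card_sdiff_of_subset hGF, hGc, hFc]; omega
          obtain ⟨x, hx⟩ := card_eq_one.1 hFG
          have hxF : x ∈ F \ G := by rw [hx]; exact mem_singleton_self x
          have hGe : F.erase x = G := by
            rw [← sdiff_singleton_eq_erase, ← hx, Finset.sdiff_sdiff_eq_self hGF]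
          refine mem_filter.2 ⟨mem_biUnion.2 ⟨F, hF, mem_image.2 ⟨x, (mem_sdiff.1 hxF).1, hGe⟩⟩, ?_⟩
          rw [card_eq_one]
          refine ⟨F, ?_⟩
          ext H
          rw [mem_singleton]
          constructor
          · intro hH
            have hH' := mem_filter.1 hH
            exact go_star_one hG (hs hH'.1) (hs hF) hH'.2 hGF
          · rintro rfl
            exact mem_filter.2 ⟨hF, hGF⟩) }

/-- The apex of a cone over a closed complex is not a vertex of the boundary. -/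
theorem go_apex {N L : Cx} {w : ℤ} (hL : bd L = ∅) (hw : w ∉ vts N) (hw' : w ∉ vts L) :
    w ∉ vts (bd (N ∪ cone w L)) := by
  intro h
  obtain ⟨G, hG, hwG⟩ := mem_biUnion.1 h
  have hwG : w ∈ G := hwG
  obtain ⟨F, hF, hGF⟩ := mem_biUnion.1 (mem_filter.1 hG).1
  obtain ⟨x, hx, rfl⟩ := mem_image.1 hGF
  have hxw : w ≠ x := ne_of_mem_erase hwG
  have hwF : w ∈ F := mem_of_mem_erase hwG
  rcases mem_union.1 hF with hFN | hFL
  · exact hw (mem_biUnion.2 ⟨F, hFN, hwF⟩)
  obtain ⟨H, hH, rfl⟩ := mem_image.1 hFL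
  have hwH : w ∉ H := fun h => hw' (mem_biUnion.2 ⟨H, hH, h⟩)
  have hxH : x ∈ H := (mem_insert.1 hx).resolve_left (Ne.symm hxw)
  have hR : H.erase x ∈ ridges L := mem_biUnion.2 ⟨H, hH, mem_image.2 ⟨x, hxH, rfl⟩⟩
  have hnb : H.erase x ∉ bd L := by rw [hL]; exact notMem_empty _
  have hcard : (star L (H.erase x)).card ≠ 1 := fun h => hnb (mem_filter.2 ⟨hR, h⟩)
  have hmem : H ∈ star L (H.erase x) := mem_filter.2 ⟨hH, erase_subset _ _⟩
  have hgt : 1 < (star L (H.erase x)).card := by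
    have := card_pos.2 ⟨H, hmem⟩
    omega
  obtain ⟨H', hH', hne⟩ := exists_mem_ne hgt H
  have hH'' := mem_filter.1 hH'
  have hwH' : w ∉ H' := fun h => hw' (mem_biUnion.2 ⟨H', hH''.1, h⟩)
  have h1 : insert w H = insert w H' := by
    refine go_star_one hG hF (mem_union_right _ (mem_image.2 ⟨H', hH''.1, rfl⟩))
      (erase_subset _ _) ?_
    intro y hy
    rcases mem_insert.1 (mem_of_mem_erase hy) with rfl | hyH
    · exact mem_insert_self _ _
    · exact mem_insert_of_mem (hH''.2 (mem_erase.2 ⟨ne_of_mem_erase hy, hyH⟩))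
  apply hne
  have h2 := congrArg (fun s => s.erase w) h1
  simp only [erase_insert hwH, erase_insert hwH'] at h2
  exact h2.symm

theorem good_cut {c : ℕ} {N E E' : Cx} {w : ℤ} (hQ : Good (c + 1) (N ∪ cone w (E ∪ E')))
    (hE : Good c E) (hE' : Good c E') (hd : Disjoint E E') (hL : bd (E ∪ E') = ∅)
    (hLn : Nor (E ∪ E')) (hLp : PM (E ∪ E')) (hEQ : E ⊆ bd (N ∪ cone w (E ∪ E')))
    (hw : w ∉ vts N) (hw' : w ∉ vts (E ∪ E')) : Good (c + 1) (N ∪ cone w E') := by
  have hsub : N ∪ cone w E' ⊆ N ∪ cone w (E ∪ E') :=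
    union_subset_union (Subset.refl _) (cone_subset subset_union_right)
  have hbd := bd_cut hQ.pure hQ.pm hd hL hEQ hw hw'
  have hwb := go_apex hL hw hw'
  have hpb : Pure c (bd (N ∪ cone w (E ∪ E'))) := pure_bd hQ.pure
  have hbb : bd E' = bd E := by
    have h1 := bd_union hE.pure hE'.pure hd hLp
    rw [hL] at h1
    have h2 := union_eq_empty.1 h1.symm
    exact Subset.antisymm (sdiff_eq_empty_iff_subset.1 h2.2) (sdiff_eq_empty_iff_subset.1 h2.1)
  have hNw : ∀ F ∈ N, w ∉ F := fun F hF h => hw (mem_biUnion.2 ⟨F, hF, h⟩)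
  have hLw : ∀ F ∈ E ∪ E', w ∉ F := fun F hF h => hw' (mem_biUnion.2 ⟨F, hF, h⟩)
  exact
    { ne := (go_cone_ne hE'.ne).mono subset_union_right
      pure := pure_mono hsub hQ.pure
      pm := pm_mono hsub hQ.pm
      nor := nor_cut hQ.pure hQ.pm hQ.nor hE'.nor hEQ hw hw'
      bne := by rw [hbd]; exact (go_cone_ne hE.bne).mono subset_union_right
      bpm := by rw [hbd]; exact pm_rep hpb hEQ hwb hQ.bpm hE.bpm
      bnor := by rw [hbd]; exact nor_rep hpb hQ.bpm hEQ hwb hQ.bnor hE.bnor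
      bbd := by rw [hbd, bd_rep hpb hEQ hwb hQ.bpm hE.bpm hE.bbd, hQ.bbd]
      ball := ball_cut hQ.ball hE.ball hE'.ball hE.ne hE'.ne hbb hE.bne hw hw'
        (fun s h1 h2 => by
          have hp : Pure c (E ∪ E') := pure_union hE.pure hE'.pure
          have h3 : (E ∪ E') \ E = E' := by
            rw [union_sdiff_left]
            exact sdiff_eq_self_of_disjoint hd.symm
          exact fc_bd_of_nor hp hLn hLp subset_union_left h1 (by rw [h3]; exact h2))
        (fun s h1 h2 => by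
          rcases fc_union.1 h2 with h3 | h3
          swap
          · exact h3
          obtain ⟨F₀, hF₀, hs₀⟩ := h1
          have hws : w ∉ s := fun h => hNw F₀ hF₀ (hs₀ h)
          obtain ⟨G₀, hG₀, hsG₀⟩ := h3
          have hPs : Fc (cone w E) s := ⟨insert w G₀, mem_image.2 ⟨G₀, hG₀, rfl⟩,
            hsG₀.trans (subset_insert _ _)⟩
          have hPs' : Fc ((N ∪ cone w (E ∪ E')) \ cone w E) s := by
            refine ⟨F₀, mem_sdiff.2 ⟨mem_union_left _ hF₀, ?_⟩, hs₀⟩
            intro h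
            obtain ⟨H, -, hH⟩ := mem_image.1 h
            exact hNw F₀ hF₀ (by rw [← hH]; exact mem_insert_self _ _)
          obtain ⟨F, hF, F', hF', x, hx, hsx, hxF'⟩ := hQ.nor s (cone w E)
            ((cone_subset subset_union_left).trans subset_union_right) hPs hPs'
          obtain ⟨G, hG, rfl⟩ := mem_image.1 hF
          have hwG : w ∉ G := hLw G (mem_union_left _ hG)
          have hF'' := mem_sdiff.1 hF'
          have hxw : x ≠ w := by
            rintro rfl
            rw [erase_insert hwG] at hxF'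
            have h5 := go_star_one (hEQ hG)
              (mem_union_right _ (cone_subset subset_union_left hF)) hF''.1
              (subset_insert _ _) hxF'
            exact hF''.2 (h5 ▸ hF)
          have hwF' : w ∈ F' := hxF' (mem_erase.2 ⟨Ne.symm hxw, mem_insert_self _ _⟩)
          rcases mem_union.1 hF''.1 with h6 | h6
          · exact absurd hwF' (hNw F' h6)
          obtain ⟨G', hG', rfl⟩ := mem_image.1 h6
          rcases mem_union.1 hG' with h7 | h7
          · exact absurd (mem_image.2 ⟨G', h7, rfl⟩) hF''.2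
          refine ⟨G', h7, fun y hy => ?_⟩
          rcases mem_insert.1 (hxF' (hsx hy)) with rfl | h8
          · exact absurd hy hws
          · exact h8)
        hEQ
        (fun G hG hGE => by
          have hwG : w ∉ G := fun h => hwb (mem_biUnion.2 ⟨G, hG, h⟩)
          obtain ⟨F, hF, hGF⟩ := mem_biUnion.1 (mem_filter.1 hG).1
          obtain ⟨x, hx, rfl⟩ := mem_image.1 hGF
          rcases mem_union.1 hF with h5 | h5
          · exact Or.inl ⟨F, h5, erase_subset _ _⟩
          right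
          obtain ⟨H, hH, rfl⟩ := mem_image.1 h5
          have hwH : w ∉ H := hLw H hH
          have hxw : x = w := by
            by_contra hne
            exact hwG (mem_erase.2 ⟨Ne.symm hne, mem_insert_self _ _⟩)
          subst hxw
          rw [erase_insert hwH] at hGE ⊢
          rcases mem_union.1 hH with h6 | h6
          · exact absurd h6 hGE
          · exact ⟨H, h6, Subset.refl _⟩)
        hbd }

theorem good_pattern {c : ℕ} {Q A E B' : Cx} {w w' : ℤ} (hQ : Good (c + 1) Q)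
    (hA : Good (c + 1) A) (hAQ : A ⊆ Q) (hE : Good c E) (hE' : Good c (bd A \ E))
    (hEA : E ⊆ bd A) (hEQ : E ⊆ bd Q) (hB : Good c B') (hBQ : B' ⊆ bd Q) (hBE : Disjoint B' E)
    (hw : w ∉ vts Q) (hw' : w' ∉ vts Q) (hww : w' ≠ w) :
    Good (c + 1) ((Q \ A) ∪ cone w (bd A \ E) ∪ cone w' B') ∧
      bd ((Q \ A) ∪ cone w (bd A \ E) ∪ cone w' B') =
        (((bd Q \ E) ∪ cone w (bd E)) \ B') ∪ cone w' (bd B') := by
  have hwA : w ∉ vts A := fun h => hw (vts_mono hAQ h)
  have hwbA : w ∉ vts (bd A) := fun h => hwA (vts_bd h)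
  have hEE : E ∪ (bd A \ E) = bd A := union_sdiff_of_subset hEA
  have h1 : Good (c + 1) ((Q \ A) ∪ cone w (bd A)) := good_rep hQ hA hAQ hw
  have hbd1 : bd ((Q \ A) ∪ cone w (bd A)) = bd Q :=
    bd_rep hQ.pure hAQ hw hQ.pm hA.bpm hA.bbd
  have hwN : w ∉ vts (Q \ A) := fun h => hw (vts_mono sdiff_subset h)
  have h2 : Good (c + 1) ((Q \ A) ∪ cone w (bd A \ E)) := by
    apply good_cut (E := E)
    · rw [hEE]; exact h1
    · exact hE
    · exact hE'
    · exact disjoint_sdiff
    · rw [hEE]; exact hA.bbd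
    · rw [hEE]; exact hA.bnor
    · rw [hEE]; exact hA.bpm
    · rw [hEE, hbd1]; exact hEQ
    · exact hwN
    · rw [hEE]; exact hwbA
  have hbd2 : bd ((Q \ A) ∪ cone w (bd A \ E)) = (bd Q \ E) ∪ cone w (bd E) := by
    have h3 := bd_cut (c := c) (N := Q \ A) (E := E) (E' := bd A \ E) (w := w)
      (by rw [hEE]; exact h1.pure) (by rw [hEE]; exact h1.pm) disjoint_sdiff
      (by rw [hEE]; exact hA.bbd) (by rw [hEE, hbd1]; exact hEQ) hwN (by rw [hEE]; exact hwbA)
    rw [hEE, hbd1] at h3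
    exact h3
  have hBs : B' ⊆ bd ((Q \ A) ∪ cone w (bd A \ E)) := by
    rw [hbd2]
    intro G hG
    refine mem_union_left _ (mem_sdiff.2 ⟨hBQ hG, fun h => ?_⟩)
    exact (disjoint_left.1 hBE) hG h
  have hw2 : w' ∉ vts ((Q \ A) ∪ cone w (bd A \ E)) := by
    intro h
    rw [vts_union] at h
    rcases mem_union.1 h with h3 | h3
    · exact hw' (vts_mono sdiff_subset h3)
    · rcases (mem_vts_cone.1 h3).2 with h4 | h4
      · exact hww h4
      · exact hw' (vts_mono hAQ (vts_bd (vts_mono sdiff_subset h4)))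
  refine ⟨good_add h2 hB hBs hw2, ?_⟩
  rw [bd_add h2.pure hBs hw2 h2.pm hB.pm, hbd2]

theorem good_pattern0 {c : ℕ} {Q A B' : Cx} {w w' : ℤ} (hQ : Good (c + 1) Q)
    (hA : Good (c + 1) A) (hAQ : A ⊆ Q) (hB : Good c B') (hBQ : B' ⊆ bd Q)
    (hw : w ∉ vts Q) (hw' : w' ∉ vts Q) (hww : w' ≠ w) :
    Good (c + 1) ((Q \ A) ∪ cone w (bd A) ∪ cone w' B') ∧
      bd ((Q \ A) ∪ cone w (bd A) ∪ cone w' B') = (bd Q \ B') ∪ cone w' (bd B') := by
  have h1 : Good (c + 1) ((Q \ A) ∪ cone w (bd A)) := good_rep hQ hA hAQ hw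
  have hbd1 : bd ((Q \ A) ∪ cone w (bd A)) = bd Q :=
    bd_rep hQ.pure hAQ hw hQ.pm hA.bpm hA.bbd
  have hBs : B' ⊆ bd ((Q \ A) ∪ cone w (bd A)) := by rw [hbd1]; exact hBQ
  have hw2 : w' ∉ vts ((Q \ A) ∪ cone w (bd A)) := by
    intro h
    rw [vts_union] at h
    rcases mem_union.1 h with h3 | h3
    · exact hw' (vts_mono sdiff_subset h3)
    · rcases (mem_vts_cone.1 h3).2 with h4 | h4
      · exact hww h4
      · exact hw' (vts_mono hAQ (vts_bd h4))
  refine ⟨good_add h1 hB hBs hw2, ?_⟩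
  rw [bd_add h1.pure hBs hw2 h1.pm hB.pm, hbd1]

end Pool.Agent.H30.NZ
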