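import Pool.Agent.H30.NZ.Basic

/-!
# The cross-polytope and the vertex sets
-/

namespace Pool.Agent.H30.NZ

open Finset

theorem mem_V {m : ℕ} {x : ℤ} : x ∈ V m ↔ x ≠ 0 ∧ |x| ≤ (m : ℤ) := by
  unfold V
  simp only [mem_union, mem_image, mem_range]
  constructor
  · rintro (⟨i, hi, rfl⟩ | ⟨i, hi, rfl⟩)
    · refine ⟨by omega, ?_⟩
      rw [abs_le]; omega
    · refine ⟨by omega, ?_⟩
      rw [abs_le]; omega
  · rintro ⟨h0, h1⟩
    rw [abs_le] at h1
    rcases lt_or_gt_of_ne h0 with h | h
    · right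
      exact ⟨(-x - 1).toNat, by omega, by omega⟩
    · left
      exact ⟨(x - 1).toNat, by omega, by omega⟩

theorem V_mono {m n : ℕ} (h : m ≤ n) : V m ⊆ V n := by
  intro x hx
  rw [mem_V] at hx ⊢
  refine ⟨hx.1, hx.2.trans ?_⟩
  exact_mod_cast h

theorem not_mem_V {m : ℕ} : ((m : ℤ) + 1) ∉ V m ∧ (-((m : ℤ) + 1)) ∉ V m := by
  constructor
  · rw [mem_V, abs_le]; omega
  · rw [mem_V, abs_le]; omega

theorem neg_mem_V {m : ℕ} {x : ℤ} : -x ∈ V m ↔ x ∈ V m := by
  rw [mem_V, mem_V, abs_neg, neg_ne_zero]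

theorem card_V (m : ℕ) : (V m).card = 2 * m := by
  unfold V
  rw [card_union_of_disjoint, card_image_of_injective, card_image_of_injective, card_range]
  · omega
  · intro a b h
    simp only [neg_inj, add_left_inj, Nat.cast_inj] at h
    exact h
  · intro a b h
    simp only [add_left_inj, Nat.cast_inj] at h
    exact h
  · rw [disjoint_left]
    intro x hx hx'
    simp only [mem_image, mem_range] at hx hx'
    obtain ⟨i, _, rfl⟩ := hx
    obtain ⟨j, _, h⟩ := hx'
    omega

theorem mem_cross {m : ℕ} {F : Finset ℤ} : F ∈ cross m ↔ F ⊆ V m ∧ AF F ∧ F.card = m := by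
  unfold cross
  rw [mem_filter, mem_powersetCard]
  tauto

private theorem h24_mem_ngs {s : Finset ℤ} {x : ℤ} : x ∈ ngs s ↔ -x ∈ s := by
  unfold ngs
  rw [mem_image]
  constructor
  · rintro ⟨y, hy, rfl⟩
    rwa [_root_.neg_neg]
  · intro h
    exact ⟨-x, h, _root_.neg_neg x⟩

private theorem h24_card_ngs {s : Finset ℤ} : (ngs s).card = s.card := by
  unfold ngs
  exact card_image_of_injective _ neg_injective

theorem af_ngs {s : Finset ℤ} : AF (ngs s) ↔ AF s := by
  unfold AF
  constructor
  · intro h x hx hx'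
    refine h (-x) (by rw [h24_mem_ngs, _root_.neg_neg]; exact hx) ?_
    rw [h24_mem_ngs, _root_.neg_neg]; exact hx'
  · intro h x hx hx'
    rw [h24_mem_ngs] at hx hx'
    exact h _ hx hx'

theorem ngs_subset_V {m : ℕ} {s : Finset ℤ} : ngs s ⊆ V m ↔ s ⊆ V m := by
  constructor
  · intro h x hx
    rw [← neg_mem_V]
    exact h (by rw [h24_mem_ngs, _root_.neg_neg]; exact hx)
  · intro h x hx
    rw [h24_mem_ngs] at hx
    rw [← neg_mem_V]
    exact h hx

private theorem h24_cr_ngs_ngs {s : Finset ℤ} : ngs (ngs s) = s := by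
  ext x
  rw [h24_mem_ngs, h24_mem_ngs, _root_.neg_neg]

theorem neg_cross (m : ℕ) : neg (cross m) = cross m := by
  ext F
  unfold neg
  rw [mem_image]
  constructor
  · rintro ⟨G, hG, rfl⟩
    rw [mem_cross] at hG ⊢
    exact ⟨ngs_subset_V.2 hG.1, af_ngs.2 hG.2.1, h24_card_ngs.trans hG.2.2⟩
  · intro hF
    refine ⟨ngs F, ?_, h24_cr_ngs_ngs⟩
    rw [mem_cross] at hF ⊢
    exact ⟨ngs_subset_V.2 hF.1, af_ngs.2 hF.2.1, h24_card_ngs.trans hF.2.2⟩

theorem pure_cross (m : ℕ) : Pure m (cross m) := fun _ hF => (mem_cross.1 hF).2.2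

/-- an antipode-free subset of `V m` has at most `m` elements, with equality only if it meets all
pairs -/
private theorem h24_af_card {m : ℕ} {F : Finset ℤ} (h : F ⊆ V m) (ha : AF F) : F.card ≤ m := by
  have h1 : F.card = (F.image (fun x => |x|)).card := by
    rw [card_image_of_injOn]
    intro a haF b hb hab
    simp only at hab
    rcases abs_eq_abs.1 hab with h | h
    · exact h
    · exfalso
      rw [h] at haF
      exact ha b hb haF
  have h2 : F.image (fun x => |x|) ⊆ Finset.Icc (1 : ℤ) m := by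
    intro y hy
    rw [mem_image] at hy
    obtain ⟨x, hx, rfl⟩ := hy
    have := mem_V.1 (h hx)
    rw [mem_Icc]
    exact ⟨by have := abs_pos.2 this.1; omega, this.2⟩
  rw [h1]
  refine (card_le_card h2).trans ?_
  simp

private theorem h24_cross_or {m : ℕ} {F : Finset ℤ} (hF : F ∈ cross m) {x : ℤ} (hx : x ∈ V m) :
    x ∈ F ∨ -x ∈ F := by
  by_contra hcon
  push Not at hcon
  rw [mem_cross] at hF
  have h1 : insert x F ⊆ V m := by
    intro y hy
    rcases mem_insert.1 hy with rfl | hy
    · exact hx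
    · exact hF.1 hy
  have h2 : AF (insert x F) := by
    intro y hy hy'
    have hx0 : x ≠ 0 := (mem_V.1 hx).1
    rcases mem_insert.1 hy with rfl | hy
    · rcases mem_insert.1 hy' with h | hy'
      · exact hx0 (by omega)
      · exact hcon.2 hy'
    · rcases mem_insert.1 hy' with h | hy'
      · exact hcon.2 (by rw [← h, _root_.neg_neg]; exact hy)
      · exact hF.2.1 y hy hy'
  have h3 := h24_af_card h1 h2
  rw [card_insert_of_notMem hcon.1, hF.2.2] at h3
  omega

/-- flipping a vertex of a facet -/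
private theorem h24_cross_flip {m : ℕ} {F : Finset ℤ} (hF : F ∈ cross m) {x : ℤ} (hx : x ∈ F) :
    insert (-x) (F.erase x) ∈ cross m := by
  have hF' := mem_cross.1 hF
  have hxV := hF'.1 hx
  have hx0 : x ≠ 0 := (mem_V.1 hxV).1
  rw [mem_cross]
  refine ⟨?_, ?_, ?_⟩
  · intro y hy
    rcases mem_insert.1 hy with rfl | hy
    · exact neg_mem_V.2 hxV
    · exact hF'.1 (mem_of_mem_erase hy)
  · intro y hy hy'
    rcases mem_insert.1 hy with rfl | hy
    · rw [_root_.neg_neg] at hy'
      rcases mem_insert.1 hy' with h | hy'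
      · omega
      · exact (mem_erase.1 hy').1 rfl
    · rcases mem_insert.1 hy' with h | hy'
      · have : y = x := by omega
        exact (mem_erase.1 hy).1 this
      · exact hF'.2.1 y (mem_of_mem_erase hy) (mem_of_mem_erase hy')
  · rw [card_insert_of_notMem, card_erase_of_mem hx, hF'.2.2]
    · have : 0 < F.card := card_pos.2 ⟨x, hx⟩
      rw [hF'.2.2] at this
      omega
    · intro h
      exact hF'.2.1 x hx (mem_of_mem_erase h)

private theorem h24_cross_star {m : ℕ} {F : Finset ℤ} (hF : F ∈ cross m) {x : ℤ} (hx : x ∈ F) :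
    star (cross m) (F.erase x) = {F, insert (-x) (F.erase x)} := by
  have hF' := mem_cross.1 hF
  have hxV := hF'.1 hx
  have key : ∀ H ∈ cross m, F.erase x ⊆ H → ∀ y ∈ H, y ∉ F.erase x → y = x ∨ y = -x := by
    intro H hH hsub y hy hyn
    have hH' := mem_cross.1 hH
    by_contra hcon
    push Not at hcon
    rcases h24_cross_or hF (hH'.1 hy) with h | h
    · exact hyn (mem_erase.2 ⟨hcon.1, h⟩)
    · have : -y ∈ F.erase x := mem_erase.2 ⟨fun h => hcon.2 (by omega), h⟩
      exact hH'.2.1 y hy (hsub this)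
  ext H
  unfold star
  rw [mem_filter, mem_insert, mem_singleton]
  constructor
  · rintro ⟨hH, hsub⟩
    have hH' := mem_cross.1 hH
    rcases h24_cross_or hH hxV with h | h
    · left
      symm
      apply eq_of_subset_of_card_le
      · intro y hy
        by_cases hyx : y = x
        · rw [hyx]; exact h
        · exact hsub (mem_erase.2 ⟨hyx, hy⟩)
      · rw [hF'.2.2, hH'.2.2]
    · right
      symm
      apply eq_of_subset_of_card_le
      · intro y hy
        rcases mem_insert.1 hy with rfl | hy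
        · exact h
        · exact hsub hy
      · rw [(mem_cross.1 (h24_cross_flip hF hx)).2.2, hH'.2.2]
  · rintro (rfl | rfl)
    · exact ⟨hF, erase_subset _ _⟩
    · exact ⟨h24_cross_flip hF hx, subset_insert _ _⟩

private theorem h24_cross_ridges {m : ℕ} {G : Finset ℤ} (hG : G ∈ ridges (cross m)) :
    ∃ F ∈ cross m, ∃ x ∈ F, G = F.erase x := by
  unfold ridges at hG
  rw [mem_biUnion] at hG
  obtain ⟨F, hF, hG⟩ := hG
  rw [mem_image] at hG
  obtain ⟨x, hx, rfl⟩ := hG
  exact ⟨F, hF, x, hx, rfl⟩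

private theorem h24_cross_star_card {m : ℕ} {G : Finset ℤ} (hG : G ∈ ridges (cross m)) :
    (star (cross m) G).card = 2 := by
  obtain ⟨F, hF, x, hx, rfl⟩ := h24_cross_ridges hG
  rw [h24_cross_star hF hx, card_pair]
  intro h
  have h1 : -x ∈ F := by rw [h]; exact mem_insert_self _ _
  exact (mem_cross.1 hF).2.1 x hx h1

theorem pm_cross (m : ℕ) : PM (cross m) := fun _ hG => (h24_cross_star_card hG).le

theorem bd_cross (m : ℕ) : bd (cross m) = ∅ := by
  unfold bd
  rw [filter_eq_empty_iff]
  intro G hG h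
  rw [h24_cross_star_card hG] at h
  omega

theorem nor_cross (m : ℕ) : Nor (cross m) := by
  intro s P hP h1 h2
  obtain ⟨F, hF, hsF⟩ := h1
  obtain ⟨F', hF', hsF'⟩ := h2
  have hFc := hP hF
  suffices H : ∀ n : ℕ, ∀ F', F' ∈ cross m \ P → s ⊆ F' → (F \ F').card = n →
      ∃ F ∈ P, ∃ F' ∈ cross m \ P, ∃ x ∈ F, s ⊆ F.erase x ∧ F.erase x ⊆ F' from
    H _ F' hF' hsF' rfl
  intro n
  induction n using Nat.strong_induction_on with
  | _ n ih =>
    intro F' hF' hsF' hn
    have hF'c := (mem_sdiff.1 hF').1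
    have hne : ¬ F ⊆ F' := by
      intro hsub
      have : F = F' := eq_of_subset_of_card_le hsub (by
        rw [(mem_cross.1 hFc).2.2, (mem_cross.1 hF'c).2.2])
      exact (mem_sdiff.1 hF').2 (this ▸ hF)
    obtain ⟨x, hx, hx'⟩ := not_subset.1 hne
    have hxV := (mem_cross.1 hFc).1 hx
    have hx0 : x ≠ 0 := (mem_V.1 hxV).1
    have hnx : -x ∈ F' := (h24_cross_or hF'c hxV).resolve_left hx'
    have hnxF : -x ∉ F := (mem_cross.1 hFc).2.1 x hx
    have hF1 : insert x (F'.erase (-x)) ∈ cross m := by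
      have := h24_cross_flip hF'c hnx
      rwa [_root_.neg_neg] at this
    have hs1 : s ⊆ F'.erase (-x) := by
      intro y hy
      refine mem_erase.2 ⟨?_, hsF' hy⟩
      rintro rfl
      exact hnxF (hsF hy)
    have hxn : x ∉ F'.erase (-x) := fun h => hx' (mem_of_mem_erase h)
    by_cases hP1 : insert x (F'.erase (-x)) ∈ P
    · refine ⟨_, hP1, F', hF', x, mem_insert_self _ _, ?_, ?_⟩
      · rw [erase_insert hxn]; exact hs1
      · rw [erase_insert hxn]; exact erase_subset _ _
    · refine ih _ ?_ _ (mem_sdiff.2 ⟨hF1, hP1⟩) (hs1.trans (subset_insert _ _)) rfl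
      rw [← hn]
      apply card_lt_card
      rw [ssubset_iff_of_subset]
      · refine ⟨x, mem_sdiff.2 ⟨hx, hx'⟩, ?_⟩
        rw [mem_sdiff]
        push Not
        intro _
        exact mem_insert_self _ _
      · intro y hy
        rw [mem_sdiff] at hy ⊢
        refine ⟨hy.1, fun hy' => hy.2 ?_⟩
        refine mem_insert_of_mem (mem_erase.2 ⟨?_, hy'⟩)
        rintro rfl
        exact hnxF hy.1

theorem fc_cross {m : ℕ} {s : Finset ℤ} (h : s ⊆ V m) (ha : AF s) : Fc (cross m) s := by
  suffices H : ∀ n : ℕ, ∀ s : Finset ℤ, s ⊆ V m → AF s → m - s.card = n → Fc (cross m) s from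
    H _ s h ha rfl
  intro n
  induction n with
  | zero =>
    intro s h ha hn
    have := h24_af_card h ha
    exact ⟨s, mem_cross.2 ⟨h, ha, by omega⟩, Subset.rfl⟩
  | succ n ih =>
    intro s h ha hn
    -- a pair which `s` does not meet
    have : ∃ x ∈ V m, x ∉ s ∧ -x ∉ s := by
      by_contra hcon
      push Not at hcon
      have h1 : V m ⊆ s ∪ ngs s := by
        intro x hx
        rw [mem_union, h24_mem_ngs]
        by_cases hxs : x ∈ s
        · exact Or.inl hxs
        · exact Or.inr (hcon x hx hxs)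
      have h2 := (card_le_card h1).trans (card_union_le _ _)
      rw [card_V, h24_card_ngs] at h2
      omega
    obtain ⟨x, hx, hxs, hnxs⟩ := this
    have hx0 : x ≠ 0 := (mem_V.1 hx).1
    have := ih (insert x s) ?_ ?_ ?_
    · obtain ⟨F, hF, hsub⟩ := this
      exact ⟨F, hF, (subset_insert _ _).trans hsub⟩
    · intro y hy
      rcases mem_insert.1 hy with rfl | hy
      · exact hx
      · exact h hy
    · intro y hy hy'
      rcases mem_insert.1 hy with rfl | hy
      · rcases mem_insert.1 hy' with h | hy'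
        · exact hx0 (by omega)
        · exact hnxs hy'
      · rcases mem_insert.1 hy' with h | hy'
        · exact hnxs (by rw [← h, _root_.neg_neg]; exact hy)
        · exact ha y hy hy'
    · rw [card_insert_of_notMem hxs]
      omega

theorem cross_nonempty (m : ℕ) : (cross m).Nonempty := by
  obtain ⟨F, hF, _⟩ := fc_cross (m := m) (s := ∅) (empty_subset _) (by intro x hx; simp at hx)
  exact ⟨F, hF⟩

theorem cross_succ (m : ℕ) : cross (m + 1) = cone ((m : ℤ) + 1) (cross m) ∪
    cone (-((m : ℤ) + 1)) (cross m) := by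
  have key : ∀ w : ℤ, w = (m : ℤ) + 1 ∨ w = -((m : ℤ) + 1) → ∀ F, F ∈ cross (m + 1) ∧ w ∈ F ↔
      F ∈ cone w (cross m) := by
    intro w hw F
    have hwV : w ∉ V m := by
      rcases hw with rfl | rfl
      · exact not_mem_V.1
      · exact not_mem_V.2
    have hnwV : -w ∉ V m := by rw [neg_mem_V]; exact hwV
    have hwV' : w ∈ V (m + 1) := by
      rw [mem_V, abs_le]
      rcases hw with rfl | rfl <;> push_cast <;> omega
    have hV : ∀ y, y ∈ V (m + 1) → y ≠ w → y ≠ -w → y ∈ V m := by
      intro y hy h1 h2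
      rw [mem_V, abs_le] at hy ⊢
      push_cast at hy
      rcases hw with rfl | rfl <;> omega
    unfold cone
    rw [mem_image]
    constructor
    · rintro ⟨hF, hwF⟩
      have hF' := mem_cross.1 hF
      refine ⟨F.erase w, ?_, insert_erase hwF⟩
      rw [mem_cross]
      refine ⟨?_, ?_, ?_⟩
      · intro y hy
        refine hV y (hF'.1 (mem_of_mem_erase hy)) (mem_erase.1 hy).1 ?_
        rintro rfl
        exact hF'.2.1 w hwF (mem_of_mem_erase hy)
      · intro y hy hy'
        exact hF'.2.1 y (mem_of_mem_erase hy) (mem_of_mem_erase hy')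
      · rw [card_erase_of_mem hwF, hF'.2.2]
        omega
    · rintro ⟨G, hG, rfl⟩
      have hG' := mem_cross.1 hG
      have hwG : w ∉ G := fun h => hwV (hG'.1 h)
      have hnwG : -w ∉ G := fun h => hnwV (hG'.1 h)
      have hw0 : w ≠ 0 := (mem_V.1 hwV').1
      refine ⟨?_, mem_insert_self _ _⟩
      rw [mem_cross]
      refine ⟨?_, ?_, ?_⟩
      · intro y hy
        rcases mem_insert.1 hy with rfl | hy
        · exact hwV'
        · exact V_mono (Nat.le_succ m) (hG'.1 hy)
      · intro y hy hy'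
        rcases mem_insert.1 hy with rfl | hy
        · rcases mem_insert.1 hy' with h | hy'
          · exact hw0 (by omega)
          · exact hnwG hy'
        · rcases mem_insert.1 hy' with h | hy'
          · exact hnwG (by rw [← h, _root_.neg_neg]; exact hy)
          · exact hG'.2.1 y hy hy'
      · rw [card_insert_of_notMem hwG, hG'.2.2]
  ext F
  rw [mem_union, ← key _ (Or.inl rfl), ← key _ (Or.inr rfl)]
  constructor
  · intro hF
    have hmV : ((m : ℤ) + 1) ∈ V (m + 1) := by
      rw [mem_V, abs_le]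
      push_cast
      omega
    rcases h24_cross_or hF hmV with h | h
    · exact Or.inl ⟨hF, h⟩
    · exact Or.inr ⟨hF, h⟩
  · rintro (h | h)
    · exact h.1
    · exact h.1

end Pool.Agent.H30.NZ
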