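import Pool.Agent.H30.NZ.Comb
import Pool.Agent.H30.NZ.PL1
import Pool.Agent.H30.NZ.PL2
import Pool.Agent.H30.NZ.PL3
import Pool.Agent.H30.NZ.BallOps1
import Pool.Agent.H30.NZ.Cross

/-!
# MP_63054e_co: PL spheres (`isSph_susp`, `isSph_cross`, `isSph_rep`, `isSph_sph`)
-/

namespace Pool.Agent.H30.NZ

open Finset
private theorem s29_real_bd (A : Cx) : real (bd A) ⊆ real A := by
  intro x hx
  rw [mem_real_iff] at hx ⊢
  obtain ⟨h0, s, hs, h1, h2⟩ := hx
  exact ⟨h0, s, fc_bd hs, h1, h2⟩

private theorem s29_vts_bsimp {F : Finset ℤ} {x : ℤ} (hx : x ∈ vts (bsimp F)) : x ∈ F := by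
  obtain ⟨G, hG, hxG⟩ := mem_vts.1 hx
  obtain ⟨y, hy, rfl⟩ := mem_image.1 hG
  exact mem_of_mem_erase (singleton_subset_iff.1 hxG)

private theorem s29_not_vts_bsimp {F : Finset ℤ} {x : ℤ} (hx : x ∉ F) : x ∉ vts (bsimp F) :=
  fun h => hx (s29_vts_bsimp h)

private theorem s29_bsimp_ne {F : Finset ℤ} (hF : F.Nonempty) : (bsimp F).Nonempty := by
  obtain ⟨x, hx⟩ := hF
  exact ⟨F.erase x, mem_image_of_mem _ hx⟩

/-- the boundary of a simplex, split at one vertex -/
private theorem s29_bsimp_insert {F : Finset ℤ} {a : ℤ} (ha : a ∉ F) :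
    cone a (bsimp F) ∪ {F} = bsimp (insert a F) := by
  ext G
  simp only [bsimp, cone, mem_union, mem_image, mem_singleton, mem_insert]
  constructor
  · rintro (⟨_, ⟨x, hx, rfl⟩, rfl⟩ | rfl)
    · refine ⟨x, Or.inr hx, ?_⟩
      rw [erase_insert_of_ne]
      rintro rfl
      exact ha hx
    · exact ⟨a, Or.inl rfl, erase_insert ha⟩
  · rintro ⟨x, rfl | hx, rfl⟩
    · right; exact erase_insert ha
    · left
      refine ⟨_, ⟨x, hx, rfl⟩, ?_⟩
      rw [erase_insert_of_ne]
      rintro rfl
      exact ha hx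

private theorem s29_bsimp_image (F : Finset ℤ) (σ : Equiv.Perm ℤ) :
    (bsimp F).image (fun G => G.image σ) = bsimp (F.image σ) := by
  ext G
  simp only [bsimp, mem_image]
  constructor
  · rintro ⟨_, ⟨x, hx, rfl⟩, rfl⟩
    refine ⟨σ x, ⟨x, hx, rfl⟩, ?_⟩
    rw [image_erase σ.injective]
  · rintro ⟨_, ⟨x, hx, rfl⟩, rfl⟩
    refine ⟨_, ⟨x, hx, rfl⟩, ?_⟩
    rw [image_erase σ.injective]

/-- the model of a sphere can avoid two vertices -/
private theorem s29_avoid {c : ℕ} {S : Cx} (hS : IsSph c S) (a b : ℤ) :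
    ∃ F : Finset ℤ, F.card = c + 1 ∧ a ∉ F ∧ b ∉ F ∧ ∃ f g, PLH f g (real S) (real (bsimp F)) := by
  obtain ⟨F, hF, f, g, hfg⟩ := hS
  set N : ℤ := ∑ x ∈ F, |x| + |a| + |b| + 1 with hN
  have hx : ∀ x ∈ F, |a| < x + N ∧ |b| < x + N := by
    intro x hx
    have h1 : |x| ≤ ∑ x ∈ F, |x| := single_le_sum (f := fun x => |x|) (fun i _ => abs_nonneg i) hx
    have h2 := neg_abs_le x
    have h3 := abs_nonneg a
    have h4 := abs_nonneg b
    constructor <;> omega
  refine ⟨F.image (Equiv.addRight N), ?_, ?_, ?_, ?_⟩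
  · rw [card_image_of_injective _ (Equiv.injective _), hF]
  · intro h
    obtain ⟨x, hxF, hxa⟩ := mem_image.1 h
    have h1 := (hx x hxF).1
    have h2 := le_abs_self a
    simp only [Equiv.coe_addRight] at hxa
    omega
  · intro h
    obtain ⟨x, hxF, hxa⟩ := mem_image.1 h
    have h1 := (hx x hxF).2
    have h2 := le_abs_self b
    simp only [Equiv.coe_addRight] at hxa
    omega
  · have h := plh_trans hfg (plh_rel (K := bsimp F) (Equiv.addRight N))
    rw [s29_bsimp_image] at h
    exact ⟨_, _, h⟩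

theorem isSph_susp {c : ℕ} {S : Cx} {a b : ℤ} (hS : IsSph c S) (hc : 1 ≤ c) (hne : S.Nonempty)
    (ha : a ∉ vts S) (hb : b ∉ vts S) (hab : a ≠ b) : IsSph (c + 1) (cone a S ∪ cone b S) := by
  obtain ⟨F, hF, haF, hbF, f, g, hfg⟩ := s29_avoid hS a b
  have hFne : F.Nonempty := by
    rw [← card_pos]; omega
  have hBne := s29_bsimp_ne hFne
  have haB := s29_not_vts_bsimp haF
  have hbB := s29_not_vts_bsimp hbF
  have hca := plh_cn hfg hne hBne ha haB
  have hcb := plh_cn hfg hne hBne hb hbB
  have hz1 : ∀ {K : Cx}, a ∉ vts K → ∀ x ∈ real (cone b K), x a = 0 := by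
    intro K hK x hx
    refine real_zero hx ?_
    rw [mem_vts_cone]
    rintro ⟨-, h | h⟩
    · exact hab h
    · exact hK h
  have hz2 : ∀ {K : Cx}, b ∉ vts K → ∀ x ∈ real (cone a K), x b = 0 := by
    intro K hK x hx
    refine real_zero hx ?_
    rw [mem_vts_cone]
    rintro ⟨-, h | h⟩
    · exact hab h.symm
    · exact hK h
  -- the suspension of the map
  obtain ⟨F1, G1, h1, -, -, -, -⟩ := plh_glue hca hcb (isClosed_real _) (isClosed_real _)
    (isClosed_real _) (isClosed_real _)
    (fun x hx hx' => by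
      rw [cnf_zero (hz1 ha x hx'), cnf_zero (hz2 hb x hx)])
    (fun x hx hx' => by
      rw [cnf_zero (hz1 haB x hx'), cnf_zero (hz2 hbB x hx)])
  -- the cone over the boundary of the simplex is the simplex
  obtain ⟨f2, g2, h2, h2id⟩ := plh_simplex hFne hbF
  have h2id' : ∀ x ∈ real (bsimp F), g2 x = x := by
    intro x hx
    have hxF : x ∈ real {F} := by
      rw [mem_real_iff] at hx ⊢
      obtain ⟨h0, s, ⟨G, hG, hsG⟩, hs1, hs2⟩ := hx
      obtain ⟨y, hy, rfl⟩ := mem_image.1 hG
      exact ⟨h0, s, ⟨F, mem_singleton_self F, hsG.trans (erase_subset _ _)⟩, hs1, hs2⟩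
    have := h2.gf x hxF
    rwa [h2id x hx] at this
  obtain ⟨F3, G3, h3, -, -, -, -⟩ := plh_glue (plh_refl (real (cone a (bsimp F)))) (plh_symm h2)
    (isClosed_real _) (isClosed_real _) (isClosed_real _) (isClosed_real _)
    (fun x hx hx' => by
      have : x ∈ real (bsimp F) := (real_cone_zero haB).1 ⟨hx, hz1 haB x hx'⟩
      rw [h2id' x this]; rfl)
    (fun x hx hx' => by
      have hxa : x a = 0 := by
        refine real_zero hx' ?_
        intro h
        obtain ⟨G, hG, hs⟩ := mem_vts.1 h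
        rw [mem_singleton.1 hG] at hs
        exact haF (singleton_subset_iff.1 hs)
      have : x ∈ real (bsimp F) := (real_cone_zero haB).1 ⟨hx, hxa⟩
      rw [h2id x this]; rfl)
  rw [← real_union, ← real_union] at h1 h3
  rw [s29_bsimp_insert haF] at h3
  exact ⟨insert a F, by rw [card_insert_of_notMem haF, hF], _, _, plh_trans h1 h3⟩

theorem isSph_cross {m : ℕ} (hm : 1 ≤ m) : IsSph m (cross m) := by
  induction m with
  | zero => omega
  | succ m ih =>
    rcases Nat.eq_zero_or_pos m with rfl | hm'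
    · have h0 : cross 0 = {∅} := by
        ext F
        rw [mem_cross, mem_singleton]
        constructor
        · rintro ⟨-, -, h⟩
          exact card_eq_zero.1 h
        · rintro rfl
          exact ⟨empty_subset _, fun x hx => absurd hx (notMem_empty x), rfl⟩
      have h1 : cross (0 + 1) = bsimp {1, -1} := by
        rw [cross_succ, h0]
        decide
      rw [h1]
      exact ⟨{1, -1}, by decide, id, id, plh_refl _⟩
    · rw [cross_succ]
      have hv : ∀ x, x ∉ V m → x ∉ vts (cross m) := by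
        intro x hx h
        obtain ⟨F, hF, hxF⟩ := mem_vts.1 h
        exact hx ((mem_cross.1 hF).1 (singleton_subset_iff.1 hxF))
      refine isSph_susp (ih hm') hm' (cross_nonempty m) (hv _ not_mem_V.1) (hv _ not_mem_V.2) ?_
      omega

theorem isSph_rep {c : ℕ} {S A : Cx} {w : ℤ} (hS : IsSph c S) (hA : Ball A) (hs : A ⊆ S)
    (hw : w ∉ vts S) (h1 : ∀ s, Fc A s → Fc (S \ A) s → Fc (bd A) s) :
    IsSph c ((S \ A) ∪ cone w (bd A)) := by
  have hwA : w ∉ vts A := fun h => hw (vts_mono hs h)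
  have hwA' : w ∉ vts (S \ A) := fun h => hw (vts_mono sdiff_subset h)
  have hwb : w ∉ vts (bd A) := fun h => hwA (vts_bd h)
  obtain ⟨f, g, hfg, hid⟩ := hA w hwA
  have hid' : ∀ x ∈ real (bd A), g x = x := by
    intro x hx
    have := hfg.gf x (s29_real_bd A hx)
    rwa [hid x hx] at this
  obtain ⟨F1, G1, h2, -, -, -, -⟩ := plh_glue (plh_refl (real (S \ A))) hfg
    (isClosed_real _) (isClosed_real _) (isClosed_real _) (isClosed_real _)
    (fun x hx hx' => by
      have : x ∈ real (bd A) := real_inter h1 ⟨hx', hx⟩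
      rw [hid x this]; rfl)
    (fun x hx hx' => by
      have : x ∈ real (bd A) := (real_cone_zero hwb).1 ⟨hx', real_zero hx hwA'⟩
      rw [hid' x this]; rfl)
  rw [← real_union, ← real_union, sdiff_union_of_subset hs] at h2
  obtain ⟨F, hF, f', g', h3⟩ := hS
  exact ⟨F, hF, _, _, plh_trans (plh_symm h2) h3⟩

theorem isSph_sph {k : ℕ} {C : ℕ → Cx} (hk : 1 ≤ k) (h : SphFacts k C) {m : ℕ}
    (hm : 2 * k ≤ m) : IsSph (2 * k) (sph k C m) := by
  have key : ∀ r, IsSph (2 * k) (sphR k C r) := by
    intro r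
    induction r with
    | zero => exact isSph_cross (by omega)
    | succ r ih =>
      have hm' : 2 * k ≤ 2 * k + r := Nat.le_add_right _ _
      have hsph : sph k C (2 * k + r) = sphR k C r := by
        unfold sph
        rw [Nat.add_sub_cancel_left]
      have hsub := h.sub _ hm'
      have hdisj := h.disj _ hm'
      have hpure := h.pure _ hm'
      have hvert := h.vert _ hm'
      have hsymm := h.symm _ hm'
      have hpm := h.pm _ hm'
      have hnor := h.nor _ hm'
      have hgood := (h.good _ hm').1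
      rw [hsph] at hsub hpure hvert hsymm hpm hnor
      set S := sphR k C r with hSdef
      set A := C (2 * k + r) with hAdef
      set w : ℤ := ((2 * k + r : ℕ) : ℤ) + 1 with hwdef
      have hvts : ∀ x, x ∉ V (2 * k + r) → x ∉ vts S := by
        intro x hx hxS
        obtain ⟨F, hF, hxF⟩ := mem_vts.1 hxS
        exact hx ((hvert F hF).1 (singleton_subset_iff.1 hxF))
      have hw : w ∉ vts S := hvts _ not_mem_V.1
      have hw' : -w ∉ vts S := hvts _ not_mem_V.2
      have hww : -w ≠ w := by omega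
      have hnsub : neg A ⊆ S := by
        rw [← hsymm]
        exact neg_subset.2 hsub
      have hwA : w ∉ vts A := fun hx => hw (vts_mono hsub hx)
      have hwnA : w ∉ vts (neg A) := fun hx => hw (vts_mono hnsub hx)
      have hAS : A ⊆ S \ neg A := by
        intro F hF
        exact mem_sdiff.2 ⟨hsub hF, fun hF' => (disjoint_left.1 hdisj) hF hF'⟩
      -- first replacement
      have h1 : IsSph (2 * k) ((S \ A) ∪ cone w (bd A)) :=
        isSph_rep ih hgood.ball hsub hw (fun s hs1 hs2 => fc_bd_of_nor hpure hnor hpm hsub hs1 hs2)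
      -- second replacement
      have hcone : ∀ G ∈ cone w (bd A), G ∉ neg A := by
        intro G hG hG'
        obtain ⟨R, hR, rfl⟩ := mem_image.1 hG
        exact hwnA (mem_vts.2 ⟨_, hG', singleton_subset_iff.2 (mem_insert_self _ _)⟩)
      have hset : ((S \ A) ∪ cone w (bd A)) \ neg A = (S \ (A ∪ neg A)) ∪ cone w (bd A) := by
        ext G
        simp only [mem_sdiff, mem_union]
        constructor
        · rintro ⟨⟨h1, h2⟩ | h1, h3⟩
          · exact Or.inl ⟨h1, not_or.2 ⟨h2, h3⟩⟩
          · exact Or.inr h1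
        · rintro (⟨h1, h2⟩ | h1)
          · rw [not_or] at h2
            exact ⟨Or.inl ⟨h1, h2.1⟩, h2.2⟩
          · exact ⟨Or.inr h1, hcone G h1⟩
      have hsub2 : neg A ⊆ (S \ A) ∪ cone w (bd A) := by
        intro G hG
        exact mem_union_left _ (mem_sdiff.2 ⟨hnsub hG, fun hG' => (disjoint_left.1 hdisj) hG' hG⟩)
      have hw2 : -w ∉ vts ((S \ A) ∪ cone w (bd A)) := by
        rw [vts_union, mem_union, not_or]
        refine ⟨fun hx => hw' (vts_mono sdiff_subset hx), ?_⟩
        rw [mem_vts_cone]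
        rintro ⟨-, hx | hx⟩
        · exact hww hx
        · exact hw' (vts_mono hsub (vts_bd hx))
      have h2 := isSph_rep h1 (ball_neg hgood.ball) hsub2 hw2 (fun s hs1 hs2 => by
        refine fc_bd_of_nor hpure hnor hpm hnsub hs1 ?_
        rw [hset, fc_union] at hs2
        rcases hs2 with hs2 | hs2
        · refine fc_mono ?_ hs2
          intro G hG
          rw [mem_sdiff, mem_union, not_or] at hG
          exact mem_sdiff.2 ⟨hG.1, hG.2.2⟩
        · rw [fc_cone] at hs2
          have hws : w ∉ s := by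
            intro hx
            exact hwnA (mem_vts.2 (fc_sub (singleton_subset_iff.2 hx) hs1))
          rw [erase_eq_of_notMem hws] at hs2
          exact fc_mono hAS (fc_bd hs2))
      rw [hset, bd_neg, union_assoc] at h2
      exact h2
  exact key _

end Pool.Agent.H30.NZ
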