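import Pool.Agent.H30.NZ.Basic

/-!
# MP_63054e_co: the rim paths as lists
-/

namespace Pool.Agent.H30.NZ

open Finset

theorem h31_mem_V {m : ℕ} {x : ℤ} : x ∈ V m ↔ x ≠ 0 ∧ |x| ≤ (m : ℤ) := by
  unfold V
  rw [mem_union, mem_image, mem_image, abs_le]
  constructor
  · rintro (⟨i, h1, h2⟩ | ⟨i, h1, h2⟩) <;> rw [mem_range] at h1 <;> subst h2 <;>
      refine ⟨?_, ?_, ?_⟩ <;> omega
  · rintro ⟨h1, h2, h3⟩
    rcases lt_or_gt_of_ne h1 with h | h
    · right
      exact ⟨(-x - 1).toNat, by rw [mem_range]; omega, by omega⟩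
    · left
      exact ⟨(x - 1).toNat, by rw [mem_range]; omega, by omega⟩

/-! ### `insAfter` -/

theorem h31_insAfter_ne_nil {a y : ℤ} {l : List ℤ} (h : l ≠ []) : insAfter a y l ≠ [] := by
  cases l with
  | nil => exact absurd rfl h
  | cons b l => unfold insAfter; split <;> simp

theorem h31_insAfter_perm {a y : ℤ} {l : List ℤ} (h : a ∈ l) : (insAfter a y l).Perm (y :: l) := by
  induction l with
  | nil => simp at h
  | cons b l ih =>
    unfold insAfter
    split
    · exact List.Perm.swap _ _ _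
    · rename_i hb
      have h1 : a ∈ l := by
        rcases List.mem_cons.1 h with h | h
        · exact absurd h.symm hb
        · exact h
      exact ((ih h1).cons b).trans (List.Perm.swap _ _ _)

theorem h31_mem_insAfter {a y x : ℤ} {l : List ℤ} (h : a ∈ l) :
    x ∈ insAfter a y l ↔ x = y ∨ x ∈ l := by
  rw [(h31_insAfter_perm h).mem_iff, List.mem_cons]

theorem h31_nodup_insAfter {a y : ℤ} {l : List ℤ} (h : a ∈ l) (hl : l.Nodup) (hy : y ∉ l) :
    (insAfter a y l).Nodup :=
  (h31_insAfter_perm h).nodup_iff.2 (List.nodup_cons.2 ⟨hy, hl⟩)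

theorem h31_insAfter_append {a y : ℤ} {l1 l2 : List ℤ} (h : a ∉ l1) :
    insAfter a y (l1 ++ l2) = l1 ++ insAfter a y l2 := by
  induction l1 with
  | nil => rfl
  | cons b l ih =>
    rw [List.mem_cons, not_or] at h
    have hb : b ≠ a := fun hb => h.1 hb.symm
    rw [List.cons_append, insAfter, if_neg hb, ih h.2, List.cons_append]

theorem h31_insAfter_last {a y c : ℤ} {l : List ℤ} (h : c ≠ a) :
    insAfter a y (l ++ [c]) = insAfter a y l ++ [c] := by
  induction l with
  | nil => simp [insAfter, h]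
  | cons b l ih =>
    rw [List.cons_append, insAfter, insAfter]
    split
    · simp
    · rw [ih, List.cons_append]

theorem h31_insAfter_shape {a y b c : ℤ} {l : List ℤ} (h : c ≠ a) :
    ∃ l', insAfter a y (b :: (l ++ [c])) = b :: (l' ++ [c]) := by
  rw [insAfter]
  split
  · exact ⟨y :: l, by simp⟩
  · exact ⟨insAfter a y l, by rw [h31_insAfter_last h]⟩

/-! ### `nxt` -/

theorem h31_nxt_cons_ne {x b : ℤ} {l : List ℤ} (h : x ≠ b) : nxt x (b :: l) = nxt x l := by
  cases l with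
  | nil => rfl
  | cons c l => rw [nxt, if_neg h.symm]

theorem h31_nxt_cons_self {x c : ℤ} {l : List ℤ} : nxt x (x :: c :: l) = c := by
  rw [nxt, if_pos rfl]

theorem h31_nxt_append {x : ℤ} {l1 l2 : List ℤ} (h : x ∉ l1) : nxt x (l1 ++ l2) = nxt x l2 := by
  induction l1 with
  | nil => rfl
  | cons b l ih =>
    rw [List.mem_cons, not_or] at h
    rw [List.cons_append, h31_nxt_cons_ne h.1, ih h.2]

theorem h31_nxt_insAfter_ne {x a y : ℤ} {l : List ℤ} (hxa : x ≠ a) (hxy : x ≠ y) :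
    nxt x (insAfter a y l) = nxt x l := by
  induction l with
  | nil => rfl
  | cons b l ih =>
    rw [insAfter]
    split
    · rename_i hb
      subst hb
      rw [h31_nxt_cons_ne hxa, h31_nxt_cons_ne hxy, h31_nxt_cons_ne hxa]
    · by_cases hb : x = b
      · subst hb
        cases l with
        | nil => rfl
        | cons c l =>
          rw [insAfter]
          split
          · rw [h31_nxt_cons_self, h31_nxt_cons_self]
          · rw [h31_nxt_cons_self, h31_nxt_cons_self]
      · rw [h31_nxt_cons_ne hb, h31_nxt_cons_ne hb, ih]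

theorem h31_nxt_insAfter_self {a y : ℤ} {l : List ℤ} (h : a ∈ l) :
    nxt a (insAfter a y l) = y := by
  induction l with
  | nil => simp at h
  | cons b l ih =>
    rw [insAfter]
    split
    · rename_i hb
      subst hb
      rw [h31_nxt_cons_self]
    · rename_i hb
      have h1 : a ∈ l := by
        rcases List.mem_cons.1 h with h | h
        · exact absurd h.symm hb
        · exact h
      rw [h31_nxt_cons_ne (Ne.symm hb), ih h1]

theorem h31_nxt_insAfter_new {a y : ℤ} {l : List ℤ} (h : a ∈ l) (hy : y ∉ l) :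
    nxt y (insAfter a y l) = nxt a l := by
  induction l with
  | nil => simp at h
  | cons b l ih =>
    rw [List.mem_cons, not_or] at hy
    rw [insAfter]
    split
    · rename_i hb
      subst hb
      rw [h31_nxt_cons_ne hy.1]
      cases l with
      | nil => rfl
      | cons c l => rw [h31_nxt_cons_self, h31_nxt_cons_self]
    · rename_i hb
      have h1 : a ∈ l := by
        rcases List.mem_cons.1 h with h | h
        · exact absurd h.symm hb
        · exact h
      rw [h31_nxt_cons_ne hy.1, ih h1 hy.2, h31_nxt_cons_ne (Ne.symm hb)]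

/-- decomposition of a list at `a` -/
theorem h31_split {a : ℤ} {l : List ℤ} (h00 : (0 : ℤ) ∉ l) (h0 : nxt a l ∈ l) :
    ∃ l1 l2, l = l1 ++ a :: nxt a l :: l2 ∧ a ∉ l1 := by
  induction l with
  | nil => simp at h0
  | cons b l ih =>
    rw [List.mem_cons, not_or] at h00
    by_cases hb : a = b
    · subst hb
      cases l with
      | nil =>
        exfalso
        rw [nxt] at h0
        simp only [List.mem_cons, List.not_mem_nil, or_false] at h0
        exact h00.1 h0
      | cons c l =>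
        rw [h31_nxt_cons_self]
        exact ⟨[], l, rfl, by simp⟩
    · have h1 : nxt a (b :: l) = nxt a l := h31_nxt_cons_ne hb
      rw [h1] at h0 ⊢
      by_cases h2 : nxt a l ∈ l
      · obtain ⟨l1, l2, h3, h4⟩ := ih h00.2 h2
        refine ⟨b :: l1, l2, ?_, ?_⟩
        · rw [List.cons_append, ← h3]
        · rw [List.mem_cons, not_or]
          exact ⟨hb, h4⟩
      · exfalso
        have h3 : ∀ l' : List ℤ, nxt a l' ∈ l' ∨ nxt a l' = 0 := by
          intro l'
          induction l' with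
          | nil => right; rfl
          | cons d l' ih' =>
            by_cases hd : a = d
            · subst hd
              cases l' with
              | nil => right; rfl
              | cons c l' => left; rw [h31_nxt_cons_self]; simp
            · rw [h31_nxt_cons_ne hd]
              rcases ih' with ih' | ih'
              · left; exact List.mem_cons_of_mem _ ih'
              · right; exact ih'
        rcases h3 l with h4 | h4
        · exact h2 h4
        · rw [h4, List.mem_cons] at h0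
          rcases h0 with h0 | h0
          · exact h00.1 h0
          · exact h00.2 h0

/-! ### `edges` -/

theorem h31_mem_of_edges {l : List ℤ} {e : Finset ℤ} (h : e ∈ edges l) {x : ℤ} (hx : x ∈ e) :
    x ∈ l := by
  induction l with
  | nil => simp [edges] at h
  | cons a l ih =>
    cases l with
    | nil => simp [edges] at h
    | cons b l =>
      rw [edges, mem_insert] at h
      rcases h with h | h
      · subst h
        simp only [mem_insert, mem_singleton] at hx
        rcases hx with hx | hx <;> simp [hx]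
      · exact List.mem_cons_of_mem _ (ih h)

theorem h31_edges_append {a : ℤ} {l1 l3 : List ℤ} :
    edges (l1 ++ a :: l3) = edges (l1 ++ [a]) ∪ edges (a :: l3) := by
  induction l1 with
  | nil => simp [edges]
  | cons b l ih =>
    cases l with
    | nil => simp [edges]
    | cons c l =>
      rw [List.cons_append, List.cons_append, List.cons_append, List.cons_append, edges, edges,
        insert_union]
      congr 1

theorem edges_insAfter {l : List ℤ} (hl : l.Nodup) {a y : ℤ} (h00 : (0 : ℤ) ∉ l)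
    (h0 : nxt a l ∈ l) (hy : y ∉ l) :
    edges (insAfter a y l) = (edges l \ {{a, nxt a l}}) ∪ {{a, y}, {y, nxt a l}} := by
  obtain ⟨l1, l2, h1, h2⟩ := h31_split h00 h0
  set c := nxt a l with hc
  clear_value c
  subst h1
  rw [h31_insAfter_append h2, insAfter, if_pos rfl]
  rw [h31_edges_append, h31_edges_append (l3 := c :: l2)]
  have h3 : edges (a :: y :: c :: l2) = {{a, y}, {y, c}} ∪ edges (c :: l2) := by
    rw [edges, edges]
    ext e
    simp only [mem_insert, mem_union, mem_singleton]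
    tauto
  have h4 : edges (a :: c :: l2) = {{a, c}} ∪ edges (c :: l2) := by
    rw [edges]
    rfl
  rw [h3, h4]
  have hnd := List.nodup_append.1 hl
  have h5 : ({a, c} : Finset ℤ) ∉ edges (l1 ++ [a]) := by
    intro h
    have h6 : c ∈ l1 ++ [a] := h31_mem_of_edges h (by simp)
    rw [List.mem_append, List.mem_singleton] at h6
    rcases h6 with h6 | h6
    · exact hnd.2.2 c h6 c (by simp) rfl
    · have := (List.nodup_cons.1 hnd.2.1).1
      rw [h6] at this
      simp at this
  have h6 : ({a, c} : Finset ℤ) ∉ edges (c :: l2) := by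
    intro h
    have h6 : a ∈ c :: l2 := h31_mem_of_edges h (by simp)
    exact (List.nodup_cons.1 hnd.2.1).1 h6
  ext e
  simp only [mem_union, mem_sdiff, mem_singleton, mem_insert]
  constructor
  · rintro (h | h | h)
    · left
      exact ⟨Or.inl h, fun he => h5 (he ▸ h)⟩
    · right; exact h
    · left
      exact ⟨Or.inr (Or.inr h), fun he => h6 (he ▸ h)⟩
  · rintro (⟨h | h | h, h'⟩ | h)
    · left; exact h
    · exact absurd h h'
    · right; right; exact h
    · right; left; exact h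

theorem h31_edge_nxt {a : ℤ} {l : List ℤ} (h00 : (0 : ℤ) ∉ l) (h0 : nxt a l ∈ l) :
    {a, nxt a l} ∈ edges l := by
  obtain ⟨l1, l2, h1, h2⟩ := h31_split h00 h0
  set c := nxt a l with hc
  clear_value c
  subst h1
  rw [h31_edges_append, edges]
  simp

/-! ### The paths -/

theorem pth_succ (z : ℕ → ℤ) {m : ℕ} (hm : 4 ≤ m) : pth z m =
    insAfter (-1) (-(m : ℤ)) (insAfter (z m) ((m : ℤ) - 1) (pth z (m - 1))) := by
  obtain ⟨k, rfl⟩ := Nat.exists_eq_add_of_le' hm
  rw [pth]
  have h1 : k + 4 - 1 = k + 3 := by omega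
  rw [h1]
  congr 1
  congr 1
  push_cast
  ring

theorem h31_z_mem {z : ℕ → ℤ} (hz : Adm z) {m : ℕ} (hm : 4 ≤ m) :
    z m ∈ V (m - 1) ∧ z m ≠ ((m - 1 : ℕ) : ℤ) ∧ z m ≠ 1 ∧ z m ≠ -1 := by
  rw [h31_mem_V]
  obtain ⟨h4, h5, h6⟩ := hz
  have hc : ((m - 1 : ℕ) : ℤ) = (m : ℤ) - 1 := by push_cast [Nat.cast_sub (show 1 ≤ m by omega)]; ring
  rw [hc]
  rcases Nat.lt_or_ge m 5 with h | h
  · obtain rfl : m = 4 := by omega
    rw [h4]
    norm_num
  rcases Nat.lt_or_ge m 6 with h' | h'
  · obtain rfl : m = 5 := by omega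
    rw [h5]
    norm_num
  · obtain ⟨h7, h8, h9⟩ := h6 m h'
    refine ⟨⟨by omega, ?_⟩, by omega, by omega, by omega⟩
    rw [abs_le]
    constructor <;> omega

theorem pth_basic {z : ℕ → ℤ} (hz : Adm z) {m : ℕ} (hm : 3 ≤ m) : (pth z m).Nodup ∧
    (∀ x, x ∈ pth z m ↔ x ∈ V m ∧ x ≠ m) ∧ ∃ l, pth z m = 2 :: (l ++ [1]) := by
  induction m, hm using Nat.le_induction with
  | base =>
    refine ⟨?_, fun x => ?_, ⟨[-1, -3, -2], rfl⟩⟩
    · show ([2, -1, -3, -2, 1] : List ℤ).Nodup
      decide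
    rw [h31_mem_V]
    simp only [pth, List.mem_cons, List.not_mem_nil, or_false]
    constructor
    · rintro (h | h | h | h | h) <;> subst h <;> norm_num
    · rintro ⟨⟨h1, h2⟩, h3⟩
      rw [abs_le] at h2
      push_cast at h2 h3
      omega
  | succ m hm ih =>
    obtain ⟨hnd, hmem, l, hl⟩ := ih
    have hm1 : 4 ≤ m + 1 := by omega
    obtain ⟨hz1, hz2, hz3, hz4⟩ := h31_z_mem hz hm1
    rw [pth_succ z hm1]
    simp only [Nat.add_sub_cancel] at hz1 hz2 ⊢
    push_cast
    have hA : z (m + 1) ∈ pth z m := (hmem _).2 ⟨hz1, hz2⟩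
    have hB : ((m : ℤ) + 1 - 1) ∉ pth z m := by
      rw [hmem]
      rintro ⟨_, h⟩
      exact h (by ring)
    have hC : (-1 : ℤ) ∈ pth z m := by
      rw [hmem, h31_mem_V]
      refine ⟨⟨by norm_num, ?_⟩, by omega⟩
      norm_num
      omega
    set l1 := insAfter (z (m + 1)) ((m : ℤ) + 1 - 1) (pth z m) with hl1
    have hD : (-1 : ℤ) ∈ l1 := (h31_mem_insAfter hA).2 (Or.inr hC)
    have hnd1 : l1.Nodup := h31_nodup_insAfter hA hnd hB
    have hE : (-((m : ℤ) + 1)) ∉ l1 := by
      rw [hl1, h31_mem_insAfter hA, hmem, h31_mem_V]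
      rintro (h | ⟨⟨h1, h2⟩, h3⟩)
      · omega
      · rw [abs_neg, abs_le] at h2
        omega
    refine ⟨h31_nodup_insAfter hD hnd1 hE, fun x => ?_, ?_⟩
    · rw [h31_mem_insAfter hD, hl1, h31_mem_insAfter hA, hmem, h31_mem_V, h31_mem_V]
      simp only [abs_le]
      push_cast
      constructor
      · rintro (h | h | ⟨⟨h1, h2, h3⟩, h4⟩)
        · subst h; refine ⟨⟨?_, ?_, ?_⟩, ?_⟩ <;> omega
        · subst h; refine ⟨⟨?_, ?_, ?_⟩, ?_⟩ <;> omega
        · refine ⟨⟨?_, ?_, ?_⟩, ?_⟩ <;> omega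
      · rintro ⟨⟨h1, h2, h3⟩, h4⟩
        omega
    · obtain ⟨l', hl'⟩ := h31_insAfter_shape (a := z (m + 1)) (y := (m : ℤ) + 1 - 1) (b := 2)
        (c := 1) (l := l) (Ne.symm hz3)
      obtain ⟨l'', hl''⟩ := h31_insAfter_shape (a := -1) (y := -((m : ℤ) + 1)) (b := 2)
        (c := 1) (l := l') (by norm_num)
      exact ⟨l'', by rw [hl1, hl, hl', hl'']⟩

theorem h31_zero_notMem {z : ℕ → ℤ} (hz : Adm z) {m : ℕ} (hm : 3 ≤ m) : (0 : ℤ) ∉ pth z m := by
  rw [(pth_basic hz hm).2.1, h31_mem_V]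
  simp

theorem neg_edge {z : ℕ → ℤ} (hz : Adm z) {m : ℕ} (hm : 3 ≤ m) :
    {-1, -(m : ℤ)} ∈ edges (pth z m) ∧ nxt (-1) (pth z m) = -(m : ℤ) := by
  have h1 : nxt (-1) (pth z m) = -(m : ℤ) := by
    rcases Nat.lt_or_ge m 4 with h | h
    · obtain rfl : m = 3 := by omega
      rfl
    · rw [pth_succ z h]
      apply h31_nxt_insAfter_self
      obtain ⟨hz1, hz2, hz3, hz4⟩ := h31_z_mem hz h
      obtain ⟨hnd, hmem, _⟩ := pth_basic hz (show 3 ≤ m - 1 by omega)
      rw [h31_mem_insAfter ((hmem _).2 ⟨hz1, hz2⟩), hmem, h31_mem_V]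
      right
      refine ⟨⟨by norm_num, ?_⟩, by omega⟩
      norm_num
      omega
  refine ⟨?_, h1⟩
  have h2 := h31_edge_nxt (a := -1) (h31_zero_notMem hz hm) (by
    rw [h1, (pth_basic hz hm).2.1, h31_mem_V]
    refine ⟨⟨by omega, ?_⟩, by omega⟩
    rw [abs_neg]
    simp)
  rwa [h1] at h2

theorem h31_nxt_mem {x c : ℤ} {l : List ℤ} (hx : x ∈ l ++ [c]) (hc : x ≠ c) :
    nxt x (l ++ [c]) ∈ l ++ [c] := by
  induction l with
  | nil =>
    rw [List.nil_append, List.mem_singleton] at hx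
    exact absurd hx hc
  | cons b l ih =>
    rw [List.cons_append] at hx ⊢
    by_cases hb : x = b
    · subst hb
      cases l with
      | nil =>
        rw [List.nil_append, h31_nxt_cons_self]
        simp
      | cons d l =>
        rw [List.cons_append, h31_nxt_cons_self]
        simp
    · rw [h31_nxt_cons_ne hb]
      refine List.mem_cons_of_mem _ (ih ?_)
      rcases List.mem_cons.1 hx with h | h
      · exact absurd h hb
      · exact h

theorem h31_nxt_pth {z : ℕ → ℤ} (hz : Adm z) {m : ℕ} (hm : 3 ≤ m) {x : ℤ} (hx : x ∈ pth z m)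
    (h1 : x ≠ 1) : nxt x (pth z m) ∈ pth z m := by
  obtain ⟨_, _, l, hl⟩ := pth_basic hz hm
  rw [hl] at hx ⊢
  rw [← List.cons_append] at hx ⊢
  exact h31_nxt_mem hx h1

theorem h31_ne_nxt {x : ℤ} {l : List ℤ} (hl : l.Nodup) (h00 : (0 : ℤ) ∉ l) (h0 : nxt x l ∈ l) :
    x ≠ nxt x l := by
  obtain ⟨l1, l2, h1, h2⟩ := h31_split h00 h0
  intro h
  rw [h1, ← h, List.nodup_append] at hl
  have := (List.nodup_cons.1 hl.2.1).1
  simp at this

theorem h31_z_mem2 {z : ℕ → ℤ} (hz : Adm z) {m : ℕ} (hm : 5 ≤ m) :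
    z m ∈ V (m - 2) ∧ z m ≠ ((m - 2 : ℕ) : ℤ) ∧ z m ≠ z (m - 1) ∧ z m ≠ -((m - 1 : ℕ) : ℤ) := by
  rw [h31_mem_V]
  obtain ⟨h4, h5, h6⟩ := hz
  have hc : ((m - 2 : ℕ) : ℤ) = (m : ℤ) - 2 := by
    push_cast [Nat.cast_sub (show 2 ≤ m by omega)]; ring
  have hc' : ((m - 1 : ℕ) : ℤ) = (m : ℤ) - 1 := by
    push_cast [Nat.cast_sub (show 1 ≤ m by omega)]; ring
  rw [hc, hc']
  rcases Nat.lt_or_ge m 6 with h' | h'
  · obtain rfl : m = 5 := by omega
    rw [h5, show 5 - 1 = 4 from rfl, h4]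
    norm_num
  · obtain ⟨h7, h8, h9⟩ := h6 m h'
    refine ⟨⟨by omega, ?_⟩, by omega, h9, by omega⟩
    rw [abs_le]
    constructor <;> omega

theorem z_edge {z : ℕ → ℤ} (hz : Adm z) {m : ℕ} (hm : 4 ≤ m) :
    {z m, nxt (z m) (pth z (m - 1))} ∈ edges (pth z (m - 1)) ∧
    {z m, nxt (z m) (pth z (m - 1))} ∈ edges (pth z (m - 2)) ∧
    ({z m, nxt (z m) (pth z (m - 1))} : Finset ℤ) ≠ {-1, -((m : ℤ) - 1)} ∧
    z m ≠ nxt (z m) (pth z (m - 1)) ∧ z m ∈ pth z (m - 1) ∧
    nxt (z m) (pth z (m - 1)) ∈ pth z (m - 1) := by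
  obtain ⟨hz1, hz2, hz3, hz4⟩ := h31_z_mem hz hm
  have hm3 : 3 ≤ m - 1 := by omega
  obtain ⟨hnd, hmem, _⟩ := pth_basic hz hm3
  have hA : z m ∈ pth z (m - 1) := (hmem _).2 ⟨hz1, hz2⟩
  have hB := h31_nxt_pth hz hm3 hA hz3
  have h0 := h31_zero_notMem hz hm3
  refine ⟨h31_edge_nxt h0 hB, ?_, ?_, h31_ne_nxt hnd h0 hB, hA, hB⟩
  · rcases Nat.lt_or_ge m 5 with h | h
    · obtain rfl : m = 4 := by omega
      rw [hz.1]
      show ({2, -1} : Finset ℤ) ∈ edges [2, -1, -2, 1]
      rw [edges]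
      exact mem_insert_self _ _
    · obtain ⟨h1, h2, h3, h4⟩ := h31_z_mem2 hz h
      have h5 : nxt (z m) (pth z (m - 1)) = nxt (z m) (pth z (m - 2)) := by
        rw [pth_succ z (show 4 ≤ m - 1 by omega), h31_nxt_insAfter_ne hz4 h4,
          h31_nxt_insAfter_ne h3, show m - 1 - 1 = m - 2 by omega]
        intro h6
        apply h2
        rw [h6]
        omega
      rw [h5]
      have hm2 : 3 ≤ m - 2 := by omega
      have hA' : z m ∈ pth z (m - 2) := ((pth_basic hz hm2).2.1 _).2 ⟨h1, h2⟩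
      exact h31_edge_nxt (h31_zero_notMem hz hm2) (h31_nxt_pth hz hm2 hA' hz3)
  · intro h
    have h1 : z m ∈ ({-1, -((m : ℤ) - 1)} : Finset ℤ) := by
      rw [← h]
      exact mem_insert_self _ _
    rw [mem_insert, mem_singleton] at h1
    rcases h1 with h1 | h1
    · exact hz4 h1
    · rcases Nat.lt_or_ge m 5 with h' | h'
      · obtain rfl : m = 4 := by omega
        rw [hz.1] at h1
        norm_num at h1
      · apply (h31_z_mem2 hz h').2.2.2
        rw [h1]
        omega

theorem edges_pth {z : ℕ → ℤ} (hz : Adm z) {m : ℕ} (hm : 4 ≤ m) :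
    edges (pth z m) = (edges (pth z (m - 1)) \
      {{z m, nxt (z m) (pth z (m - 1))}, {-1, -((m : ℤ) - 1)}}) ∪
      {{z m, (m : ℤ) - 1}, {(m : ℤ) - 1, nxt (z m) (pth z (m - 1))}, {-1, -(m : ℤ)},
        {-(m : ℤ), -((m : ℤ) - 1)}} := by
  have hm3 : 3 ≤ m - 1 := by omega
  obtain ⟨hz1, hz2, hz3, hz4⟩ := h31_z_mem hz hm
  obtain ⟨hnd, hmem, _⟩ := pth_basic hz hm3
  obtain ⟨_, _, _, _, hA, hB⟩ := z_edge hz hm
  have h0 := h31_zero_notMem hz hm3
  have hcm : ((m - 1 : ℕ) : ℤ) = (m : ℤ) - 1 := by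
    push_cast [Nat.cast_sub (show 1 ≤ m by omega)]; ring
  have hC : ((m : ℤ) - 1) ∉ pth z (m - 1) := by
    rw [hmem, hcm]
    rintro ⟨_, h⟩
    exact h rfl
  have hD : (-1 : ℤ) ∈ pth z (m - 1) := by
    rw [hmem, h31_mem_V]
    refine ⟨⟨by norm_num, ?_⟩, by omega⟩
    norm_num
    omega
  have hn : nxt (-1) (pth z (m - 1)) = -((m : ℤ) - 1) := by
    rw [(neg_edge hz hm3).2, hcm]
  have hE : (-((m : ℤ) - 1)) ∈ pth z (m - 1) := by
    rw [← hn]
    exact h31_nxt_pth hz hm3 hD (by norm_num)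
  rw [pth_succ z hm]
  set l1 := insAfter (z m) ((m : ℤ) - 1) (pth z (m - 1)) with hl1
  have hnd1 : l1.Nodup := h31_nodup_insAfter hA hnd hC
  have hn1 : nxt (-1) l1 = -((m : ℤ) - 1) := by
    rw [hl1, h31_nxt_insAfter_ne (Ne.symm hz4) (by omega), hn]
  rw [edges_insAfter hnd1 (by
      rw [hl1, h31_mem_insAfter hA]
      rintro (h | h)
      · omega
      · exact h0 h) (by
      rw [hn1, hl1, h31_mem_insAfter hA]
      exact Or.inr hE) (by
      rw [hl1, h31_mem_insAfter hA, hmem, h31_mem_V, hcm, abs_neg, abs_le]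
      rintro (h | ⟨⟨h1, h2⟩, h3⟩)
      · omega
      · omega)]
  rw [hn1, hl1, edges_insAfter hnd h0 hB hC]
  have hF : ({z m, (m : ℤ) - 1} : Finset ℤ) ≠ {-1, -((m : ℤ) - 1)} := by
    intro h
    have h1 : ((m : ℤ) - 1) ∈ ({-1, -((m : ℤ) - 1)} : Finset ℤ) := by
      rw [← h]
      simp
    rw [mem_insert, mem_singleton] at h1
    omega
  have hG : ({(m : ℤ) - 1, nxt (z m) (pth z (m - 1))} : Finset ℤ) ≠ {-1, -((m : ℤ) - 1)} := by
    intro h
    have h1 : ((m : ℤ) - 1) ∈ ({-1, -((m : ℤ) - 1)} : Finset ℤ) := by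
      rw [← h]
      simp
    rw [mem_insert, mem_singleton] at h1
    omega
  ext e
  simp only [mem_union, mem_sdiff, mem_insert, mem_singleton]
  constructor
  · rintro (⟨⟨h1, h2⟩ | h1 | h1, h3⟩ | h1 | h1)
    · left
      refine ⟨h1, ?_⟩
      rintro (h | h)
      · exact h2 h
      · exact h3 h
    · right; left; exact h1
    · right; right; left; exact h1
    · right; right; right; left; exact h1
    · right; right; right; right; exact h1
  · rintro (⟨h1, h2⟩ | h1 | h1 | h1 | h1)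
    · left
      exact ⟨Or.inl ⟨h1, fun h => h2 (Or.inl h)⟩, fun h => h2 (Or.inr h)⟩
    · left
      refine ⟨Or.inr (Or.inl h1), ?_⟩
      rw [h1]
      exact hF
    · left
      refine ⟨Or.inr (Or.inr h1), ?_⟩
      rw [h1]
      exact hG
    · right; left; exact h1
    · right; right; exact h1

end Pool.Agent.H30.NZ
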