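import Pool.Agent.H30.NZ.Basic
import Pool.Agent.H30.NZ.Cross
import Pool.Agent.H30.NZ.Base1

/-!
# MP_63054e_co: extra lemmas on lists (helper80)
-/

namespace Pool.Agent.H30.NZ

open Finset

/-! ### lists: `insAfter`, `nxt`, `edges` -/

theorem h80_mem_ins {x y : ℤ} : ∀ {l : List ℤ} {u : ℤ},
    u ∈ insAfter x y l ↔ u ∈ l ∨ (u = y ∧ x ∈ l) := by
  intro l
  induction l with
  | nil => intro u; simp [insAfter]
  | cons a l ih =>
    intro u
    by_cases h : a = x
    · simp only [insAfter, h, if_true, List.mem_cons]
      tauto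
    · simp only [insAfter, h, if_false, List.mem_cons, ih]
      have h' : x ≠ a := fun e => h e.symm
      tauto

theorem h80_nodup_ins {x y : ℤ} : ∀ {l : List ℤ}, l.Nodup → y ∉ l → (insAfter x y l).Nodup := by
  intro l
  induction l with
  | nil => intro _ _; simp [insAfter]
  | cons a l ih =>
    intro hl hy
    rw [List.nodup_cons] at hl
    rw [List.mem_cons, not_or] at hy
    by_cases h : a = x
    · simp only [insAfter, h, if_true]
      rw [List.nodup_cons, List.nodup_cons, List.mem_cons, not_or]
      subst h
      exact ⟨⟨fun e => hy.1 e.symm, hl.1⟩, hy.2, hl.2⟩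
    · simp only [insAfter, h, if_false]
      rw [List.nodup_cons, h80_mem_ins, not_or]
      refine ⟨⟨hl.1, fun e => hy.1 e.1.symm⟩, ih hl.2 hy.2⟩

theorem h80_ins_append {x y c : ℤ} (hc : c ≠ x) : ∀ l : List ℤ,
    insAfter x y (l ++ [c]) = insAfter x y l ++ [c] := by
  intro l
  induction l with
  | nil => simp [insAfter, hc]
  | cons a l ih =>
    by_cases h : a = x
    · simp [insAfter, h]
    · simp [insAfter, h, ih]

/-- the shape of the paths -/
theorem h80_ins_shape {x y : ℤ} (hx : x ≠ 1) {l : List ℤ} (hl : ∃ l', l = 2 :: (l' ++ [1])) :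
    ∃ l', insAfter x y l = 2 :: (l' ++ [1]) := by
  obtain ⟨l', rfl⟩ := hl
  by_cases h : (2 : ℤ) = x
  · exact ⟨y :: l', by simp [insAfter, h]⟩
  · refine ⟨insAfter x y l', ?_⟩
    rw [insAfter, if_neg h, h80_ins_append (fun e => hx e.symm)]

theorem h80_nxt_append {a c : ℤ} : ∀ {l : List ℤ}, a ∈ l → nxt a (l ++ [c]) ∈ l ++ [c] := by
  intro l
  induction l with
  | nil => intro h; simp at h
  | cons d l ih =>
    intro h
    cases l with
    | nil =>
      have h1 : a = d := by simpa using h
      subst h1
      simp [nxt]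
    | cons e l =>
      rw [List.cons_append, List.cons_append, nxt]
      by_cases hd : d = a
      · rw [if_pos hd]; simp
      · rw [if_neg hd]
        have h1 : a ∈ e :: l := by
          rcases List.mem_cons.1 h with h1 | h1
          · exact absurd h1.symm hd
          · exact h1
        exact List.mem_cons_of_mem _ (ih h1)

theorem h80_nxt_mem {a : ℤ} {l : List ℤ} (hl : ∃ l', l = 2 :: (l' ++ [1])) (ha : a ∈ l)
    (h1 : a ≠ 1) : nxt a l ∈ l := by
  obtain ⟨l', rfl⟩ := hl
  have h2 : a ∈ 2 :: l' := by
    rw [← List.cons_append, List.mem_append] at ha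
    rcases ha with h | h
    · exact h
    · exact absurd (by simpa using h) h1
  have := h80_nxt_append (c := 1) h2
  rwa [List.cons_append] at this

/-- decomposition at `a` -/
theorem h80_split {a : ℤ} : ∀ {l : List ℤ}, nxt a l ≠ 0 →
    ∃ l1 l2, l = l1 ++ a :: nxt a l :: l2 ∧ a ∉ l1 := by
  intro l
  induction l with
  | nil => intro h; exact absurd rfl h
  | cons d l ih =>
    intro h
    cases l with
    | nil => exact absurd rfl h
    | cons e l =>
      by_cases hd : d = a
      · refine ⟨[], l, ?_, by simp⟩
        subst hd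
        simp [nxt]
      · rw [nxt, if_neg hd] at h ⊢
        obtain ⟨l1, l2, h1, h2⟩ := ih h
        refine ⟨d :: l1, l2, ?_, ?_⟩
        · rw [List.cons_append, ← h1]
        · rw [List.mem_cons, not_or]
          exact ⟨fun e => hd e.symm, h2⟩

theorem h80_ins_split {a y : ℤ} {l2 : List ℤ} : ∀ {l1 : List ℤ}, a ∉ l1 →
    insAfter a y (l1 ++ a :: l2) = l1 ++ a :: y :: l2 := by
  intro l1
  induction l1 with
  | nil => intro _; simp [insAfter]
  | cons d l1 ih =>
    intro h
    rw [List.mem_cons, not_or] at h
    rw [List.cons_append, insAfter, if_neg (fun e => h.1 e.symm), ih h.2, List.cons_append]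

theorem h80_edges_sub : ∀ {l : List ℤ} {e : Finset ℤ}, e ∈ edges l → ∀ x ∈ e, x ∈ l := by
  intro l
  induction l with
  | nil => intro e he; simp [edges] at he
  | cons a l ih =>
    intro e he x hx
    cases l with
    | nil => simp [edges] at he
    | cons b l =>
      rw [edges, mem_insert] at he
      rcases he with rfl | he
      · rcases mem_insert.1 hx with rfl | hx
        · simp
        · rw [mem_singleton] at hx; subst hx; simp
      · exact List.mem_cons_of_mem _ (ih he x hx)

theorem h80_edges_append {a b : ℤ} {l2 : List ℤ} : ∀ l1 : List ℤ,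
    edges (l1 ++ a :: b :: l2) = edges (l1 ++ [a]) ∪ {{a, b}} ∪ edges (b :: l2) := by
  intro l1
  induction l1 with
  | nil => simp [edges]
  | cons c l1 ih =>
    cases l1 with
    | nil =>
      simp only [List.cons_append, List.nil_append, edges]
      ext e
      simp only [mem_insert, mem_union, mem_singleton, notMem_empty]
      tauto
    | cons d l1 =>
      simp only [List.cons_append] at ih ⊢
      rw [edges, ih, edges]
      ext e
      simp only [mem_insert, mem_union, mem_singleton]
      tauto

theorem h80_nxt_edge {a : ℤ} {l : List ℤ} (h00 : (0 : ℤ) ∉ l) (h0 : nxt a l ∈ l) :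
    {a, nxt a l} ∈ edges l ∧ a ∈ l := by
  have hne : nxt a l ≠ 0 := fun h => h00 (h ▸ h0)
  obtain ⟨l1, l2, h1, _⟩ := h80_split hne
  generalize nxt a l = b at *
  subst h1
  rw [h80_edges_append]
  refine ⟨?_, by simp⟩
  simp

theorem h80_nxt_ne {a : ℤ} {l : List ℤ} (hl : l.Nodup) (h00 : (0 : ℤ) ∉ l) (h0 : nxt a l ∈ l) :
    a ≠ nxt a l := by
  have hne : nxt a l ≠ 0 := fun h => h00 (h ▸ h0)
  obtain ⟨l1, l2, h1, _⟩ := h80_split hne
  generalize nxt a l = b at *
  subst h1
  rw [List.nodup_append] at hl
  have hn2 := hl.2.1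
  rw [List.nodup_cons, List.mem_cons, not_or] at hn2
  exact hn2.1.1

theorem h80_nxt_ins_ne {a x y : ℤ} (hx : a ≠ x) (hy : a ≠ y) : ∀ l : List ℤ,
    nxt a (insAfter x y l) = nxt a l := by
  intro l
  induction l with
  | nil => simp [insAfter]
  | cons c l ih =>
    by_cases hc : c = x
    · subst hc
      rw [insAfter, if_pos rfl, nxt, if_neg (fun e => hx e.symm)]
      cases l with
      | nil => simp [nxt]
      | cons d l =>
        rw [nxt, if_neg (fun e => hy e.symm), nxt, if_neg (fun e => hx e.symm)]
    · rw [insAfter, if_neg hc]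
      cases l with
      | nil => simp [insAfter]
      | cons d l =>
        by_cases hd : d = x
        · subst hd
          rw [insAfter, if_pos rfl] at ih ⊢
          by_cases hca : c = a
          · subst hca
            simp [nxt]
          · rw [nxt, if_neg hca, ih]
            rw [nxt, if_neg hca]
        · rw [insAfter, if_neg hd] at ih ⊢
          by_cases hca : c = a
          · subst hca
            simp [nxt]
          · rw [nxt, if_neg hca, ih]
            rw [nxt, if_neg hca]

theorem h80_nxt_ins_self {x y : ℤ} : ∀ {l : List ℤ}, x ∈ l → nxt x (insAfter x y l) = y := by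
  intro l
  induction l with
  | nil => intro h; simp at h
  | cons c l ih =>
    intro h
    by_cases hc : c = x
    · subst hc
      simp [insAfter, nxt]
    · rw [insAfter, if_neg hc]
      have h1 : x ∈ l := by
        rcases List.mem_cons.1 h with h1 | h1
        · exact absurd h1.symm hc
        · exact h1
      have h2 := ih h1
      cases l with
      | nil => simp at h1
      | cons d l =>
        by_cases hd : d = x
        · subst hd
          rw [insAfter, if_pos rfl] at h2 ⊢
          rw [nxt, if_neg hc]
          exact h2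
        · rw [insAfter, if_neg hd] at h2 ⊢
          rw [nxt, if_neg hc]
          exact h2

/-! ### consequences for the paths -/

theorem h80_adm_ne {z : ℕ → ℤ} (hz : Adm z) {m : ℕ} (hm : 4 ≤ m) : z m ≠ 1 ∧ z m ≠ -1 := by
  obtain ⟨h4, h5, h6⟩ := hz
  rcases Nat.lt_or_ge m 6 with h | h
  · have : m = 4 ∨ m = 5 := by omega
    rcases this with rfl | rfl
    · rw [h4]; decide
    · rw [h5]; decide
  · have := h6 m h
    constructor <;> omega

theorem h80_zero_notMem {z : ℕ → ℤ} (hz : Adm z) {m : ℕ} (hm : 3 ≤ m) : (0 : ℤ) ∉ pth z m := by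
  intro h
  exact (mem_V.1 (((pth_basic hz hm).2.1 0).1 h).1).1 rfl

end Pool.Agent.H30.NZ
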