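import Pool.Agent.H30.NZ.Comb
import Pool.Agent.H30.NZ.Ops
import Pool.Agent.H30.NZ.GoodOps
import Pool.Agent.H30.NZ.Cross
import Pool.Agent.H30.NZ.Base1

/-!
# MP_63054e_co: the disks of the base family
-/

namespace Pool.Agent.H30.NZ

open Finset
private theorem h50c_edges_mem : ∀ (l : List ℤ) (F : Finset ℤ), F ∈ edges l → ∀ x ∈ F, x ∈ l
  | [], F, hF, x, hx => by simp [edges] at hF
  | [a], F, hF, x, hx => by simp [edges] at hF
  | a :: b :: l, F, hF, x, hx => by
    rw [edges, Finset.mem_insert] at hF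
    rcases hF with rfl | hF
    · rw [Finset.mem_insert, Finset.mem_singleton] at hx
      rcases hx with rfl | rfl
      · exact List.mem_cons_self
      · exact List.mem_cons_of_mem _ List.mem_cons_self
    · exact List.mem_cons_of_mem _ (h50c_edges_mem (b :: l) F hF x hx)

private theorem h50c_notMem_vts {K : Cx} {x : ℤ} (h : ∀ F ∈ K, x ∉ F) : x ∉ vts K := by
  unfold vts
  rw [Finset.mem_biUnion]
  rintro ⟨F, hF, hx⟩
  exact h F hF hx

private theorem h50c_cone_single (w : ℤ) (F : Finset ℤ) : cone w {F} = {insert w F} := by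
  unfold cone
  rw [Finset.image_singleton]

private theorem h50c_bd_pair {a b : ℤ} (h : a ≠ b) : bd {({a, b} : Finset ℤ)} = {{a}, {b}} := by
  rw [bd_single, bsimp, Finset.image_insert, Finset.image_singleton]
  have h1 : ({a, b} : Finset ℤ).erase a = {b} := by
    ext x
    simp only [Finset.mem_erase, Finset.mem_insert, Finset.mem_singleton]
    constructor
    · rintro ⟨h1, h2 | h2⟩
      · exact absurd h2 h1
      · exact h2
    · rintro rfl
      exact ⟨fun h' => h h'.symm, Or.inr rfl⟩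
  have h2 : ({a, b} : Finset ℤ).erase b = {a} := by
    ext x
    simp only [Finset.mem_erase, Finset.mem_insert, Finset.mem_singleton]
    constructor
    · rintro ⟨h1, h2 | h2⟩
      · exact h2
      · exact absurd h2 h1
    · rintro rfl
      exact ⟨h, Or.inl rfl⟩
  rw [h1, h2, Finset.pair_comm]

private theorem h50c_good_pair {a b : ℤ} (h : a ≠ b) : Good 2 {({a, b} : Finset ℤ)} := by
  have h1 := good_simplex (F := {a, b}) ⟨a, Finset.mem_insert_self _ _⟩
  rwa [Finset.card_pair h] at h1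

theorem good_edges {l : List ℤ} {a b : ℤ} (hl : (a :: (l ++ [b])).Nodup) :
    Good 2 (edges (a :: (l ++ [b]))) ∧ bd (edges (a :: (l ++ [b]))) = {{a}, {b}} := by
  induction l generalizing a with
  | nil =>
    have hab : a ≠ b := by
      rintro rfl
      simp at hl
    have he : edges (a :: ([] ++ [b])) = {({a, b} : Finset ℤ)} := by
      show edges [a, b] = _
      rw [edges, edges]
      rfl
    rw [he]
    exact ⟨h50c_good_pair hab, h50c_bd_pair hab⟩
  | cons c l ih =>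
    have hl' : (c :: (l ++ [b])).Nodup := (List.nodup_cons.mp hl).2
    have ha : a ∉ (c :: (l ++ [b])) := (List.nodup_cons.mp hl).1
    obtain ⟨h1, h2⟩ := ih hl'
    have hcb : c ≠ b := by
      rintro rfl
      have := (List.nodup_cons.mp hl').1
      simp at this
    have hab : a ≠ b := by
      rintro rfl
      apply ha
      simp
    have he : edges (a :: (c :: l ++ [b])) =
        edges (c :: (l ++ [b])) ∪ cone a {({c} : Finset ℤ)} := by
      show edges (a :: c :: (l ++ [b])) = _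
      rw [edges, h50c_cone_single, Finset.insert_eq, Finset.union_comm]
    have hav : a ∉ vts (edges (c :: (l ++ [b]))) :=
      h50c_notMem_vts fun F hF hx => ha (h50c_edges_mem _ F hF a hx)
    have hs : ({({c} : Finset ℤ)} : Cx) ⊆ bd (edges (c :: (l ++ [b]))) := by
      rw [h2]
      simp
    have hg : Good 1 {({c} : Finset ℤ)} := by
      have h3 := good_simplex (F := {c}) ⟨c, Finset.mem_singleton_self _⟩
      rwa [Finset.card_singleton] at h3
    rw [he]
    refine ⟨good_add h1 hg hs hav, ?_⟩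
    rw [bd_add h1.pure hs hav h1.pm hg.pm, h2]
    have h4 : bd {({c} : Finset ℤ)} = {∅} := by
      rw [bd_single, bsimp, Finset.image_singleton]
      congr 1
      ext x
      simp
    rw [h4, h50c_cone_single]
    ext F
    simp only [Finset.mem_union, Finset.mem_sdiff, Finset.mem_insert, Finset.mem_singleton]
    constructor
    · rintro (⟨h5 | h5, h6⟩ | h5)
      · exact absurd h5 h6
      · exact Or.inr h5
      · left
        rw [h5]
        rfl
    · rintro (rfl | rfl)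
      · right
        rfl
      · left
        refine ⟨Or.inr rfl, ?_⟩
        intro h5
        exact hcb (Finset.singleton_injective h5).symm

/-- The first step: the fan. -/
private theorem h50c_fan {l : List ℤ} {a b w : ℤ} (hl : (a :: (l ++ [b])).Nodup)
    (hw : w ∉ a :: (l ++ [b])) :
    Good 3 (cone w (edges (a :: (l ++ [b])))) ∧ bd (cone w (edges (a :: (l ++ [b])))) =
      edges (a :: (l ++ [b])) ∪ {{w, a}, {w, b}} := by
  obtain ⟨h1, h2⟩ := good_edges hl
  have hv : w ∉ vts (edges (a :: (l ++ [b]))) :=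
    h50c_notMem_vts fun F hF hx => hw (h50c_edges_mem _ F hF w hx)
  refine ⟨good_cone h1 hv, ?_⟩
  rw [bd_cone h1.pure hv, h2]
  unfold cone
  rw [Finset.image_insert, Finset.image_singleton]

/-- The second step: an ear. -/
private theorem h50c_ear {B : Cx} {a b w : ℤ} (hB : Good 3 B) (hab : a ≠ b)
    (hs : ({a, b} : Finset ℤ) ∈ bd B) (hw : w ∉ vts B) :
    Good 3 (B ∪ {({w, a, b} : Finset ℤ)}) ∧ bd (B ∪ {({w, a, b} : Finset ℤ)}) =
      (bd B \ {({a, b} : Finset ℤ)}) ∪ {{w, a}, {w, b}} := by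
  have h1 : B ∪ {({w, a, b} : Finset ℤ)} = B ∪ cone w {({a, b} : Finset ℤ)} := by
    rw [h50c_cone_single]
  have hg := h50c_good_pair hab
  rw [h1]
  refine ⟨good_add hB hg (Finset.singleton_subset_iff.mpr hs) hw, ?_⟩
  rw [bd_add hB.pure (Finset.singleton_subset_iff.mpr hs) hw hB.pm hg.pm, h50c_bd_pair hab]
  unfold cone
  rw [Finset.image_insert, Finset.image_singleton]

private theorem h50c_vts_ear {B : Cx} {a b w x : ℤ} (hB : x ∉ vts B) (h1 : x ≠ a) (h2 : x ≠ b)
    (h3 : x ≠ w) : x ∉ vts (B ∪ {({w, a, b} : Finset ℤ)}) := by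
  rw [vts_union, Finset.mem_union]
  rintro (h | h)
  · exact hB h
  · revert h
    apply h50c_notMem_vts
    intro F hF
    rw [Finset.mem_singleton] at hF
    subst hF
    simp [h1, h2, h3]

private theorem h50c_main {z : ℕ → ℤ} (hz : Adm z) {m : ℕ} (hm : 4 ≤ m) :
    Good 3 (GG z m) ∧ bd (GG z m) = edges (pth z m) ∪ {{1, (m : ℤ)}, {(m : ℤ), 2}} := by
  obtain ⟨hnd, hmem, l, hl⟩ := pth_basic hz (m := m - 1) (by omega)
  obtain ⟨he1, -, he3, he4, he5, he6⟩ := z_edge hz hm
  obtain ⟨hn1, -⟩ := neg_edge hz (m := m - 1) (by omega)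
  have hep := edges_pth hz hm
  have hcast : ((m - 1 : ℕ) : ℤ) = (m : ℤ) - 1 := by
    rw [Nat.cast_sub (by omega)]
    norm_num
  rw [hcast] at hn1
  have hm' : (4 : ℤ) ≤ (m : ℤ) := by exact_mod_cast hm
  set z' : ℤ := nxt (z m) (pth z (m - 1)) with hz'
  have hGG : GG z m = (cone (m : ℤ) (edges (pth z (m - 1))) ∪ {({(m : ℤ) - 1, z m, z'} :
      Finset ℤ)}) ∪ {({-(m : ℤ), -1, -((m : ℤ) - 1)} : Finset ℤ)} := by
    have hm3 : m ≠ 3 := by omega
    rw [GG, if_neg hm3, Finset.union_assoc]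
    rfl
  -- vertices of the path
  have hVm : ∀ x ∈ pth z (m - 1), x ≠ (m : ℤ) - 1 ∧ x ≠ m ∧ x ≠ -m := by
    intro x hx
    obtain ⟨h1, h2⟩ := (hmem x).mp hx
    rw [mem_V, hcast] at h1
    rw [hcast] at h2
    refine ⟨h2, ?_, ?_⟩
    · rintro rfl
      have h3 := h1.2
      rw [abs_of_nonneg (by omega)] at h3
      omega
    · rintro rfl
      have h3 := h1.2
      rw [abs_neg, abs_of_nonneg (by omega)] at h3
      omega
  have hwm : (m : ℤ) ∉ 2 :: (l ++ [1]) := by
    rw [← hl]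
    intro h
    exact (hVm _ h).2.1 rfl
  rw [hl] at hnd
  obtain ⟨hg0, hb0⟩ := h50c_fan hnd hwm
  rw [← hl] at hg0 hb0
  have hvtsP : ∀ x, x ∉ pth z (m - 1) → x ∉ vts (edges (pth z (m - 1))) := fun x hx =>
    h50c_notMem_vts fun F hF hxF => hx (h50c_edges_mem _ F hF x hxF)
  have hvB0 : ∀ x, x ∉ pth z (m - 1) → x ≠ m → x ∉ vts (cone (m : ℤ) (edges (pth z (m - 1)))) := by
    intro x hx hxm
    rw [mem_vts_cone]
    rintro ⟨-, h | h⟩
    · exact hxm h
    · exact hvtsP x hx h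
  have hm1P : ((m : ℤ) - 1) ∉ pth z (m - 1) := fun h => (hVm _ h).1 rfl
  have hmnP : (-(m : ℤ)) ∉ pth z (m - 1) := fun h => (hVm _ h).2.2 rfl
  obtain ⟨hg1, hb1⟩ := h50c_ear hg0 he4 (w := (m : ℤ) - 1) (by
    rw [hb0]
    exact Finset.mem_union_left _ he1) (hvB0 _ hm1P (by omega))
  have he2ne : (-1 : ℤ) ≠ -((m : ℤ) - 1) := by omega
  -- the second ear
  have hin : ({-1, -((m : ℤ) - 1)} : Finset ℤ) ∈
      bd (cone (m : ℤ) (edges (pth z (m - 1))) ∪ {({(m : ℤ) - 1, z m, z'} : Finset ℤ)}) := by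
    rw [hb1, hb0]
    apply Finset.mem_union_left
    rw [Finset.mem_sdiff, Finset.mem_singleton]
    exact ⟨Finset.mem_union_left _ hn1, fun h => he3 h.symm⟩
  have hzm : z m ≠ -(m : ℤ) := (hVm _ he5).2.2
  have hzm' : z' ≠ -(m : ℤ) := (hVm _ he6).2.2
  obtain ⟨hg2, hb2⟩ := h50c_ear hg1 he2ne (w := -(m : ℤ)) hin
    (h50c_vts_ear (hvB0 _ hmnP (by omega)) (Ne.symm hzm) (Ne.symm hzm') (by omega))
  rw [hGG]
  refine ⟨hg2, ?_⟩
  rw [hb2, hb1, hb0, hep]
  -- the set identity
  have hmP : ∀ F ∈ edges (pth z (m - 1)), (m : ℤ) ∉ F := fun F hF hx =>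
    (hVm _ (h50c_edges_mem _ F hF _ hx)).2.1 rfl
  have hq1 : ({(m : ℤ), 2} : Finset ℤ) ≠ {z m, z'} := by
    intro h
    apply hmP _ he1
    rw [← h]
    simp
  have hq2 : ({(m : ℤ), 1} : Finset ℤ) ≠ {z m, z'} := by
    intro h
    apply hmP _ he1
    rw [← h]
    simp
  have hq3 : ({(m : ℤ), 2} : Finset ℤ) ≠ {-1, -((m : ℤ) - 1)} := by
    intro h
    apply hmP _ hn1
    rw [← h]
    simp
  have hq4 : ({(m : ℤ), 1} : Finset ℤ) ≠ {-1, -((m : ℤ) - 1)} := by
    intro h
    apply hmP _ hn1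
    rw [← h]
    simp
  have hq0 : ((m : ℤ) - 1) ∉ ({-1, -((m : ℤ) - 1)} : Finset ℤ) := by
    rw [Finset.mem_insert, Finset.mem_singleton]
    omega
  have hq5 : ({(m : ℤ) - 1, z m} : Finset ℤ) ≠ {-1, -((m : ℤ) - 1)} := by
    intro h
    apply hq0
    rw [← h]
    simp
  have hq6 : ({(m : ℤ) - 1, z'} : Finset ℤ) ≠ {-1, -((m : ℤ) - 1)} := by
    intro h
    apply hq0
    rw [← h]
    simp
  rw [Finset.pair_comm (z m) ((m : ℤ) - 1), Finset.pair_comm (-1 : ℤ) (-(m : ℤ)),
    Finset.pair_comm (1 : ℤ) (m : ℤ)]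
  ext F
  simp only [Finset.mem_union, Finset.mem_sdiff, Finset.mem_insert, Finset.mem_singleton]
  constructor
  · rintro (⟨⟨h1 | h1 | h1, h2⟩ | h1 | h1, h3⟩ | h1 | h1)
    · left; left
      exact ⟨h1, by
        rintro (h | h)
        · exact h2 h
        · exact h3 h⟩
    · right; right; exact h1
    · right; left; exact h1
    · left; right; left; exact h1
    · left; right; right; left; exact h1
    · left; right; right; right; left; exact h1
    · left; right; right; right; right; exact h1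
  · rintro ((⟨h1, h2⟩ | h1 | h1 | h1 | h1) | h1 | h1)
    · left
      exact ⟨Or.inl ⟨Or.inl h1, fun h => h2 (Or.inl h)⟩, fun h => h2 (Or.inr h)⟩
    · left
      exact ⟨Or.inr (Or.inl h1), fun h => hq5 (h1 ▸ h)⟩
    · left
      exact ⟨Or.inr (Or.inr h1), fun h => hq6 (h1 ▸ h)⟩
    · right; left; exact h1
    · right; right; exact h1
    · left
      exact ⟨Or.inl ⟨Or.inr (Or.inr h1), fun h => hq2 (h1 ▸ h)⟩, fun h => hq4 (h1 ▸ h)⟩
    · left
      exact ⟨Or.inl ⟨Or.inr (Or.inl h1), fun h => hq1 (h1 ▸ h)⟩, fun h => hq3 (h1 ▸ h)⟩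

/-- the rim -/
theorem bd_GG {z : ℕ → ℤ} (hz : Adm z) {m : ℕ} (hm : 4 ≤ m) :
    bd (GG z m) = edges (pth z m) ∪ {{1, (m : ℤ)}, {(m : ℤ), 2}} := (h50c_main hz hm).2

theorem base_good {z : ℕ → ℤ} (hz : Adm z) {m : ℕ} (hm : 3 ≤ m) : Good 3 (GG z m) := by
  rcases Nat.lt_or_ge m 4 with h | h
  · have hm3 : m = 3 := by omega
    subst hm3
    have hnd : ((2 : ℤ) :: ([-1, -2] ++ [1])).Nodup := by decide
    have hw : (3 : ℤ) ∉ (2 : ℤ) :: ([-1, -2] ++ [1]) := by decide
    obtain ⟨hg0, hb0⟩ := h50c_fan hnd hw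
    have hne : (-1 : ℤ) ≠ -2 := by decide
    obtain ⟨hg1, -⟩ := h50c_ear hg0 hne (w := -3) (by
      rw [hb0]
      decide) (by
      decide)
    have : GG z 3 = cone 3 (edges ((2 : ℤ) :: ([-1, -2] ++ [1]))) ∪
        {({-3, -1, -2} : Finset ℤ)} := by
      rw [GG, if_pos rfl]
      decide
    rw [this]
    exact hg1
  · exact (h50c_main hz h).1

theorem base_goodH {m : ℕ} (hm : 3 ≤ m) : Good 3 (neg (HH m)) := by
  have hm' : (3 : ℤ) ≤ (m : ℤ) := by exact_mod_cast hm
  have h1 : ({-(m : ℤ), -1, -((m : ℤ) - 1)} : Finset ℤ).card = 3 := by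
    rw [Finset.card_insert_of_notMem, Finset.card_pair]
    · omega
    · rw [Finset.mem_insert, Finset.mem_singleton]
      omega
  have h2 := good_simplex (F := {-(m : ℤ), -1, -((m : ℤ) - 1)}) ⟨_, Finset.mem_insert_self _ _⟩
  rw [h1] at h2
  exact good_neg h2

end Pool.Agent.H30.NZ
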