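import Pool.Agent.H30.NZ.Base2a

/-!
# MP_63054e_co: the complements in the base family
-/

namespace Pool.Agent.H30.NZ

open Finset

/-! ### Lists -/

private theorem h12b_app : ∀ (A : List ℤ) (x : ℤ) (C : List ℤ),
    edges (A ++ x :: C) = edges (A ++ [x]) ∪ edges (x :: C)
  | [], x, C => by
    have : edges ([] ++ [x]) = ∅ := rfl
    rw [this, Finset.empty_union]; rfl
  | [a], x, C => by
    show edges (a :: x :: C) = edges (a :: x :: []) ∪ edges (x :: C)
    rw [edges, edges, edges, Finset.insert_union, Finset.empty_union]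
  | a :: b :: A, x, C => by
    show edges (a :: b :: (A ++ x :: C)) = edges (a :: b :: (A ++ [x])) ∪ edges (x :: C)
    have ih := h12b_app (b :: A) x C
    rw [List.cons_append, List.cons_append] at ih
    rw [edges, edges, ih, Finset.insert_union]

private theorem h12b_split : ∀ (l : List ℤ) (F : Finset ℤ), F ∈ edges l →
    ∃ A x y B, l = A ++ x :: y :: B ∧ F = {x, y}
  | [], F, h => by simp [edges] at h
  | [a], F, h => by simp [edges] at h
  | a :: b :: l, F, h => by
    rw [edges, Finset.mem_insert] at h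
    rcases h with rfl | h
    · exact ⟨[], a, b, l, rfl, rfl⟩
    · obtain ⟨A, x, y, B, h1, h2⟩ := h12b_split (b :: l) F h
      exact ⟨a :: A, x, y, B, by rw [h1]; rfl, h2⟩

private theorem h12b_mem : ∀ (l : List ℤ) (F : Finset ℤ), F ∈ edges l → ∀ x ∈ F, x ∈ l
  | [], F, hF, x, hx => by simp [edges] at hF
  | [a], F, hF, x, hx => by simp [edges] at hF
  | a :: b :: l, F, hF, x, hx => by
    rw [edges, Finset.mem_insert] at hF
    rcases hF with rfl | hF
    · rw [Finset.mem_insert, Finset.mem_singleton] at hx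
      rcases hx with rfl | rfl
      · exact List.mem_cons_self
      · exact List.mem_cons_of_mem _ List.mem_cons_self
    · exact List.mem_cons_of_mem _ (h12b_mem (b :: l) F hF x hx)

/-- remove an edge of the path and close it up through `m` -/
private theorem h12b_rot {l : List ℤ} {a b m : ℤ} {F : Finset ℤ}
    (hl : (a :: (l ++ [b])).Nodup) (hm : m ∉ a :: (l ++ [b]))
    (hF : F ∈ edges (a :: (l ++ [b]))) :
    ∃ x y, F = {x, y} ∧
      Good 2 ((edges (a :: (l ++ [b])) \ {F}) ∪ {{b, m}, {m, a}}) ∧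
      bd ((edges (a :: (l ++ [b])) \ {F}) ∪ {{b, m}, {m, a}}) = {{y}, {x}} := by
  obtain ⟨A, x, y, B, h1, h2⟩ := h12b_split _ _ hF
  refine ⟨x, y, h2, ?_⟩
  -- the first part starts with `a`
  obtain ⟨A', hA'⟩ : ∃ A', A ++ [x] = a :: A' := by
    cases A with
    | nil =>
      rw [List.nil_append] at h1
      have h3 := (List.cons.inj h1).1
      exact ⟨[], by rw [h3]; rfl⟩
    | cons c A1 =>
      rw [List.cons_append] at h1
      have h3 := (List.cons.inj h1).1
      exact ⟨A1 ++ [x], by rw [h3]; rfl⟩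
  -- the second part ends with `b`
  obtain ⟨B', hB'⟩ : ∃ B', y :: B = B' ++ [b] := by
    obtain ⟨B', c, hc⟩ : ∃ B' c, y :: B = B' ++ [c] := by
      rcases List.eq_nil_or_concat (y :: B) with h | ⟨B', c, h⟩
      · exact absurd h (List.cons_ne_nil _ _)
      · exact ⟨B', c, by rw [h, List.concat_eq_append]⟩
    have h3 : (a :: l) ++ [b] = (A ++ x :: B') ++ [c] := by
      rw [List.cons_append, h1, hc]
      simp
    have h4 := List.append_inj' h3 rfl
    have h5 : b = c := by simpa using h4.2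
    exact ⟨B', by rw [hc, h5]⟩
  have hnd : (A ++ x :: y :: B).Nodup := h1 ▸ hl
  have hE : edges (a :: (l ++ [b])) = edges (A ++ [x]) ∪ insert {x, y} (edges (y :: B)) := by
    rw [h1, h12b_app]
    rfl
  have hL1 : edges (m :: (A ++ [x])) = insert {m, a} (edges (A ++ [x])) := by
    rw [hA', edges]
  have hL2 : edges ((y :: B) ++ [m]) = edges (y :: B) ∪ {{b, m}} := by
    have e : (y :: B) ++ [m] = B' ++ b :: [m] := by rw [hB']; simp
    rw [e, h12b_app, ← hB']
    rfl
  have hL : edges (y :: ((B ++ m :: A) ++ [x])) =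
      (edges (a :: (l ++ [b])) \ {F}) ∪ {{b, m}, {m, a}} := by
    have e : y :: ((B ++ m :: A) ++ [x]) = (y :: B) ++ m :: (A ++ [x]) := by simp
    rw [e, h12b_app, hL1, hL2, hE, h2]
    have n1 : ({x, y} : Finset ℤ) ∉ edges (A ++ [x]) := by
      intro h
      have h3 : y ∈ A ++ [x] := h12b_mem _ _ h y (by simp)
      have e2 : A ++ x :: y :: B = (A ++ [x]) ++ (y :: B) := by simp
      rw [e2] at hnd
      exact (List.disjoint_of_nodup_append hnd) h3 List.mem_cons_self
    have n2 : ({x, y} : Finset ℤ) ∉ edges (y :: B) := by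
      intro h
      have h3 : x ∈ y :: B := h12b_mem _ _ h x (by simp)
      have e2 := (List.nodup_append.1 hnd).2.1
      exact (List.nodup_cons.1 e2).1 h3
    ext G
    simp only [Finset.mem_union, Finset.mem_sdiff, Finset.mem_insert, Finset.mem_singleton]
    constructor
    · rintro ((h | h) | h | h)
      · exact Or.inl ⟨Or.inr (Or.inr h), fun h' => n2 (h' ▸ h)⟩
      · exact Or.inr (Or.inl h)
      · exact Or.inr (Or.inr h)
      · exact Or.inl ⟨Or.inl h, fun h' => n1 (h' ▸ h)⟩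
    · rintro (⟨h | h | h, h'⟩ | h | h)
      · exact Or.inr (Or.inr h)
      · exact absurd h h'
      · exact Or.inl (Or.inl h)
      · exact Or.inl (Or.inr h)
      · exact Or.inr (Or.inl h)
  have hnd2 : (y :: ((B ++ m :: A) ++ [x])).Nodup := by
    have p : (y :: ((B ++ m :: A) ++ [x])).Perm (m :: (A ++ x :: y :: B)) := by
      have q1 : (y :: ((B ++ m :: A) ++ [x])) = (y :: B) ++ (m :: (A ++ [x])) := by simp
      have q2 : (m :: (A ++ x :: y :: B)) = (m :: (A ++ [x])) ++ (y :: B) := by simp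
      rw [q1, q2]
      exact List.perm_append_comm
    rw [p.nodup_iff, List.nodup_cons, ← h1]
    exact ⟨hm, hl⟩
  obtain ⟨g1, g2⟩ := good_edges hnd2
  rw [hL] at g1 g2
  exact ⟨g1, g2⟩

/-! ### Sets -/

private theorem h12b_notMem_vts {K : Cx} {x : ℤ} (h : ∀ F ∈ K, x ∉ F) : x ∉ vts K := by
  unfold vts
  rw [Finset.mem_biUnion]
  rintro ⟨F, hF, hx⟩
  exact h F hF hx

private theorem h12b_cone_single (w : ℤ) (F : Finset ℤ) : cone w {F} = {insert w F} := by
  unfold cone
  rw [Finset.image_singleton]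

private theorem h12b_bd_pair {a b : ℤ} (h : a ≠ b) : bd {({a, b} : Finset ℤ)} = {{a}, {b}} := by
  rw [bd_single, bsimp, Finset.image_insert, Finset.image_singleton]
  have h1 : ({a, b} : Finset ℤ).erase a = {b} := by
    rw [Finset.erase_insert]
    rw [Finset.mem_singleton]; exact h
  have h2 : ({a, b} : Finset ℤ).erase b = {a} := by
    rw [Finset.pair_comm, Finset.erase_insert]
    rw [Finset.mem_singleton]; exact h.symm
  rw [h1, h2, Finset.pair_comm]

private theorem h12b_good_pair {a b : ℤ} (h : a ≠ b) : Good 2 {({a, b} : Finset ℤ)} := by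
  have h1 := good_simplex (F := {a, b}) ⟨a, Finset.mem_insert_self _ _⟩
  rwa [Finset.card_pair h] at h1

/-- An ear. -/
private theorem h12b_ear {B : Cx} {a b w : ℤ} (hB : Good 3 B) (hab : a ≠ b)
    (hs : ({a, b} : Finset ℤ) ∈ bd B) (hw : w ∉ vts B) :
    Good 3 (B ∪ {({w, a, b} : Finset ℤ)}) ∧ bd (B ∪ {({w, a, b} : Finset ℤ)}) =
      (bd B \ {({a, b} : Finset ℤ)}) ∪ {{w, a}, {w, b}} := by
  have h1 : B ∪ {({w, a, b} : Finset ℤ)} = B ∪ cone w {({a, b} : Finset ℤ)} := by
    rw [h12b_cone_single]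
  have hg := h12b_good_pair hab
  rw [h1]
  refine ⟨good_add hB hg (Finset.singleton_subset_iff.mpr hs) hw, ?_⟩
  rw [bd_add hB.pure (Finset.singleton_subset_iff.mpr hs) hw hB.pm hg.pm, h12b_bd_pair hab]
  unfold cone
  rw [Finset.image_insert, Finset.image_singleton]

private theorem h12b_cone_bsimp {w : ℤ} {G : Finset ℤ} (hw : w ∉ G) :
    cone w (bsimp G) = bsimp (insert w G) \ {G} := by
  ext F
  unfold cone bsimp
  simp only [Finset.mem_image, Finset.mem_sdiff, Finset.mem_singleton, Finset.mem_insert]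
  constructor
  · rintro ⟨_, ⟨x, hx, rfl⟩, rfl⟩
    have hxw : x ≠ w := by rintro rfl; exact hw hx
    refine ⟨⟨x, Or.inr hx, ?_⟩, ?_⟩
    · rw [Finset.erase_insert_of_ne hxw.symm]
    · intro h
      apply hw
      rw [← h]
      exact Finset.mem_insert_self _ _
  · rintro ⟨⟨x, hx | hx, rfl⟩, h⟩
    · subst hx
      rw [Finset.erase_insert hw] at h
      exact absurd rfl h
    · have hxw : x ≠ w := by rintro rfl; exact hw hx
      exact ⟨G.erase x, ⟨x, hx, rfl⟩, by rw [Finset.erase_insert_of_ne hxw.symm]⟩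

private theorem h12b_neg_HH (k : ℕ) : neg (HH k) = {{(k : ℤ), 1, (k : ℤ) - 1}} := by
  unfold neg HH ngs
  rw [Finset.image_singleton]
  congr 1
  rw [Finset.image_insert, Finset.image_insert, Finset.image_singleton]
  rw [_root_.neg_neg, _root_.neg_neg, _root_.neg_neg]

theorem base_P8a {z : ℕ → ℤ} (_hz : Adm z) {m : ℕ} (hm : 4 ≤ m) :
    Good 3 (bd (lift (X3 z) 1 m) \ X3 z 1 m) := by
  obtain ⟨k, rfl⟩ : ∃ k, m = k + 1 := ⟨m - 1, by omega⟩
  have hk : (3 : ℤ) ≤ k := by exact_mod_cast (by omega : 3 ≤ k)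
  have h1 : lift (X3 z) 1 (k + 1) = {insert ((k : ℤ) - 1) {(k : ℤ) + 1, 1, (k : ℤ)}} := by
    show cone ((k : ℤ) + 1) (X3 z 1 k) ∪ cone (-((k : ℤ) + 1)) (neg (X3 z 0 k)) = _
    have e1 : X3 z 1 k = neg (HH k) := rfl
    have e0 : X3 z 0 k = ∅ := rfl
    rw [e1, e0, Pool.Agent.H30.NZ.neg_empty, h12b_neg_HH, h12b_cone_single]
    have e2 : cone (-((k : ℤ) + 1)) ∅ = ∅ := rfl
    rw [e2, Finset.union_empty]
    congr 1
    ext x
    simp only [Finset.mem_insert, Finset.mem_singleton]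
    tauto
  have h2 : X3 z 1 (k + 1) = {{(k : ℤ) + 1, 1, (k : ℤ)}} := by
    have e1 : X3 z 1 (k + 1) = neg (HH (k + 1)) := rfl
    rw [e1, h12b_neg_HH]
    push_cast
    rw [add_sub_cancel_right]
  have hw : ((k : ℤ) - 1) ∉ ({(k : ℤ) + 1, 1, (k : ℤ)} : Finset ℤ) := by
    simp only [Finset.mem_insert, Finset.mem_singleton]
    omega
  have hcard : ({(k : ℤ) + 1, 1, (k : ℤ)} : Finset ℤ).card = 3 := by
    rw [Finset.card_insert_of_notMem, Finset.card_pair]
    · omega
    · rw [Finset.mem_insert, Finset.mem_singleton]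
      omega
  rw [h1, h2, bd_single, ← h12b_cone_bsimp hw]
  have hne : ({(k : ℤ) + 1, 1, (k : ℤ)} : Finset ℤ).Nonempty := ⟨1, by simp⟩
  refine good_cone_closed ?_ (by norm_num) ?_ pm_bsimp nor_bsimp (bd_bsimp hne) ?_
  · unfold bsimp
    exact hne.image _
  · intro F hF
    unfold bsimp at hF
    rw [Finset.mem_image] at hF
    obtain ⟨x, hx, rfl⟩ := hF
    rw [Finset.card_erase_of_mem hx, hcard]
  · refine h12b_notMem_vts fun F hF => ?_
    unfold bsimp at hF
    rw [Finset.mem_image] at hF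
    obtain ⟨x, hx, rfl⟩ := hF
    intro h
    exact hw (Finset.mem_of_mem_erase h)

/-! ### The disks -/

private theorem h12b_GG (z : ℕ → ℤ) {k : ℕ} (hk : 3 ≤ k) :
    GG z (k + 1) = cone ((k : ℤ) + 1) (edges (pth z k)) ∪
      {{(k : ℤ), z (k + 1), nxt (z (k + 1)) (pth z k)}, {-((k : ℤ) + 1), -1, -(k : ℤ)}} := by
  have h3 : k + 1 ≠ 3 := by omega
  rw [GG, if_neg h3]
  have e1 : k + 1 - 1 = k := by omega
  rw [e1]
  push_cast
  rw [add_sub_cancel_right]

private theorem h12b_bdGG {z : ℕ → ℤ} (hz : Adm z) {k : ℕ} (hk : 3 ≤ k) :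
    bd (GG z k) = edges (pth z k) ∪ {{1, (k : ℤ)}, {(k : ℤ), 2}} := by
  rcases Nat.lt_or_ge k 4 with h | h
  · have h3 : k = 3 := by omega
    subst h3
    rw [GG, if_pos rfl]
    show bd {{3, 2, -1}, {3, -1, -2}, {3, -2, 1}, {-3, -1, -2}} =
      edges [2, -1, -3, -2, 1] ∪ {{1, 3}, {3, 2}}
    decide
  · exact bd_GG hz h

private theorem h12b_V3 : ∀ F ∈ ({{3, 2, -1}, {3, -1, -2}, {3, -2, 1}, {-3, -1, -2}} : Cx),
    F ⊆ V 3 := by decide

private theorem h12b_vert {z : ℕ → ℤ} (hz : Adm z) {k : ℕ} (hk : 3 ≤ k) :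
    ∀ F ∈ GG z k, F ⊆ V k := by
  rcases Nat.lt_or_ge k 4 with h | h
  · have h3 : k = 3 := by omega
    subst h3
    rw [GG, if_pos rfl]
    exact h12b_V3
  · obtain ⟨n, rfl⟩ : ∃ n, k = n + 1 := ⟨k - 1, by omega⟩
    have hn : 3 ≤ n := by omega
    have hn' : (3 : ℤ) ≤ n := by exact_mod_cast hn
    obtain ⟨-, hmem, -⟩ := pth_basic hz hn
    obtain ⟨-, -, -, -, he5, he6⟩ := z_edge hz h
    have e1 : n + 1 - 1 = n := by omega
    rw [e1] at he5 he6
    have hP : ∀ x ∈ pth z n, x ∈ V (n + 1) := fun x hx =>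
      V_mono (Nat.le_succ n) ((hmem x).1 hx).1
    have hb : ∀ x : ℤ, x ≠ 0 → |x| ≤ (n : ℤ) + 1 → x ∈ V (n + 1) := by
      intro x h1 h2
      rw [mem_V]
      push_cast
      exact ⟨h1, h2⟩
    rw [h12b_GG z hn]
    intro F hF x hx
    rw [Finset.mem_union] at hF
    rcases hF with hF | hF
    · unfold cone at hF
      rw [Finset.mem_image] at hF
      obtain ⟨G, hG, rfl⟩ := hF
      rw [Finset.mem_insert] at hx
      rcases hx with rfl | hx
      · exact hb _ (by omega) (by rw [abs_of_nonneg (by omega)])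
      · exact hP x (h12b_mem _ _ hG x hx)
    · rw [Finset.mem_insert, Finset.mem_singleton] at hF
      rcases hF with rfl | rfl
      · simp only [Finset.mem_insert, Finset.mem_singleton] at hx
        rcases hx with rfl | rfl | rfl
        · exact hb _ (by omega) (by rw [abs_of_nonneg (by omega)]; omega)
        · exact hP _ he5
        · exact hP _ he6
      · simp only [Finset.mem_insert, Finset.mem_singleton] at hx
        rcases hx with rfl | rfl | rfl
        · exact hb _ (by omega) (by rw [abs_neg, abs_of_nonneg (by omega)])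
        · exact hb _ (by omega) (by rw [abs_neg, abs_one]; omega)
        · exact hb _ (by omega) (by rw [abs_neg, abs_of_nonneg (by omega)]; omega)

private theorem h12b_HHsub {z : ℕ → ℤ} {k : ℕ} (hk : 3 ≤ k) : HH k ⊆ GG z k := by
  rcases Nat.lt_or_ge k 4 with h | h
  · have h3 : k = 3 := by omega
    subst h3
    rw [GG, if_pos rfl]
    decide
  · obtain ⟨n, rfl⟩ : ∃ n, k = n + 1 := ⟨k - 1, by omega⟩
    rw [h12b_GG z (by omega)]
    unfold HH
    rw [Finset.singleton_subset_iff]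
    push_cast
    rw [add_sub_cancel_right]
    simp

private theorem h12b_goodHH {k : ℕ} (hk : 3 ≤ k) : Good 3 (HH k) := by
  have := good_neg (base_goodH (m := k) hk)
  rwa [Pool.Agent.H30.NZ.neg_neg] at this

private theorem h12b_notV {z : ℕ → ℤ} (hz : Adm z) {k : ℕ} (hk : 3 ≤ k) {x : ℤ}
    (hx : x = (k : ℤ) + 1 ∨ x = -((k : ℤ) + 1)) : x ∉ vts (GG z k) := by
  refine h12b_notMem_vts fun F hF h => ?_
  have h1 := h12b_vert hz hk F hF h
  rcases hx with rfl | rfl
  · exact not_mem_V.1 h1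
  · exact not_mem_V.2 h1

private theorem h12b_notC {w : ℤ} {K L : Cx} (h : w ∉ vts K) : K \ cone w L = K := by
  rw [Finset.sdiff_eq_self_iff_disjoint, Finset.disjoint_left]
  intro F hF hF2
  unfold cone at hF2
  rw [Finset.mem_image] at hF2
  obtain ⟨G, -, rfl⟩ := hF2
  apply h
  unfold vts
  rw [Finset.mem_biUnion]
  exact ⟨_, hF, Finset.mem_insert_self _ _⟩

private theorem h12b_disjC {w : ℤ} {K L : Cx} (h : w ∉ vts K) : Disjoint K (cone w L) := by
  rw [← Finset.sdiff_eq_self_iff_disjoint]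
  exact h12b_notC h

private theorem h12b_bd2 {z : ℕ → ℤ} (hz : Adm z) {k : ℕ} (hk : 3 ≤ k) :
    bd (lift (X3 z) 2 (k + 1)) = (GG z k \ HH k) ∪ cone (-((k : ℤ) + 1)) (bd (HH k)) ∪
      cone ((k : ℤ) + 1) (bd (GG z k)) := by
  have hG := base_good hz hk
  have hH := h12b_goodHH hk
  have hw1 := h12b_notV hz hk (Or.inl rfl : (k : ℤ) + 1 = (k : ℤ) + 1 ∨ _)
  have hw2 := h12b_notV hz hk (Or.inr rfl : _ ∨ -((k : ℤ) + 1) = -((k : ℤ) + 1))
  have h1 : lift (X3 z) 2 (k + 1) = cone ((k : ℤ) + 1) (GG z k) ∪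
      cone (-((k : ℤ) + 1)) (HH k) := by
    show cone ((k : ℤ) + 1) (X3 z 2 k) ∪ cone (-((k : ℤ) + 1)) (neg (X3 z 1 k)) = _
    have e1 : X3 z 1 k = neg (HH k) := rfl
    have e2 : X3 z 2 k = GG z k := rfl
    rw [e1, e2, Pool.Agent.H30.NZ.neg_neg]
  have hbc := bd_cone hG.pure hw1
  have hs : HH k ⊆ bd (cone ((k : ℤ) + 1) (GG z k)) := by
    rw [hbc]
    exact (h12b_HHsub hk).trans Finset.subset_union_left
  have hw3 : -((k : ℤ) + 1) ∉ vts (cone ((k : ℤ) + 1) (GG z k)) := by
    rw [mem_vts_cone]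
    rintro ⟨-, h | h⟩
    · have : (0 : ℤ) ≤ k := Int.natCast_nonneg k
      omega
    · exact hw2 h
  rw [h1, bd_add (pure_cone hG.pure hw1) hs hw3 (pm_cone hG.pure hw1 hG.pm) hH.pm, hbc,
    Finset.union_sdiff_distrib]
  have hwH : (k : ℤ) + 1 ∉ vts (HH k) := fun h => hw1 (vts_mono (h12b_HHsub hk) h)
  have h2 : cone ((k : ℤ) + 1) (bd (GG z k)) \ HH k = cone ((k : ℤ) + 1) (bd (GG z k)) := by
    rw [Finset.sdiff_eq_self_iff_disjoint]
    exact (h12b_disjC hwH).symm
  rw [h2, Finset.union_right_comm]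

theorem base_P9 {z : ℕ → ℤ} (hz : Adm z) {m : ℕ} (hm : 4 ≤ m) :
    Good 3 (bd (lift (X3 z) 2 m) \ X3 z 1 m) := by
  obtain ⟨k, rfl⟩ : ∃ k, m = k + 1 := ⟨m - 1, by omega⟩
  have hk3 : 3 ≤ k := by omega
  have hk : (3 : ℤ) ≤ k := by exact_mod_cast hk3
  have hG := base_good hz hk3
  have hH := h12b_goodHH hk3
  have hw1 := h12b_notV hz hk3 (Or.inl rfl : (k : ℤ) + 1 = (k : ℤ) + 1 ∨ _)
  have hw2 := h12b_notV hz hk3 (Or.inr rfl : _ ∨ -((k : ℤ) + 1) = -((k : ℤ) + 1))
  have hX : X3 z 1 (k + 1) = cone ((k : ℤ) + 1) {{1, (k : ℤ)}} := by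
    have e1 : X3 z 1 (k + 1) = neg (HH (k + 1)) := rfl
    rw [e1, h12b_neg_HH, h12b_cone_single]
    push_cast
    rw [add_sub_cancel_right]
  obtain ⟨hnd, hmem, l, hl⟩ := pth_basic hz hk3
  have hkP : (k : ℤ) ∉ pth z k := fun h => ((hmem _).1 h).2 rfl
  -- the path
  have hpath : bd (GG z k) \ {{1, (k : ℤ)}} = edges ((k : ℤ) :: ((2 :: l) ++ [1])) := by
    rw [h12b_bdGG hz hk3]
    have e : edges ((k : ℤ) :: ((2 :: l) ++ [1])) = insert {(k : ℤ), 2} (edges (pth z k)) := by
      rw [hl]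
      rfl
    rw [e]
    ext F
    simp only [Finset.mem_union, Finset.mem_sdiff, Finset.mem_insert, Finset.mem_singleton]
    constructor
    · rintro ⟨h | h | h, h'⟩
      · exact Or.inr h
      · exact absurd h h'
      · exact Or.inl h
    · rintro (h | h)
      · refine ⟨Or.inr (Or.inr h), fun h' => ?_⟩
        rw [h] at h'
        have : (2 : ℤ) ∈ ({1, (k : ℤ)} : Finset ℤ) := by rw [← h']; simp
        simp only [Finset.mem_insert, Finset.mem_singleton] at this
        omega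
      · refine ⟨Or.inl h, fun h' => hkP (h12b_mem _ _ h _ ?_)⟩
        rw [h']; simp
  have hnd' : ((k : ℤ) :: ((2 :: l) ++ [1])).Nodup := by
    rw [List.nodup_cons]
    have e : ((2 : ℤ) :: l) ++ [1] = pth z k := by rw [hl]; rfl
    rw [e]
    exact ⟨hkP, hnd⟩
  have hgp := (good_edges hnd').1
  rw [← hpath] at hgp
  have key := (good_pattern0 hG hH (h12b_HHsub hk3) hgp Finset.sdiff_subset hw2 hw1
    (by omega : (k : ℤ) + 1 ≠ -((k : ℤ) + 1))).1
  have he : bd (lift (X3 z) 2 (k + 1)) \ X3 z 1 (k + 1) =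
      (GG z k \ HH k) ∪ cone (-((k : ℤ) + 1)) (bd (HH k)) ∪
        cone ((k : ℤ) + 1) (bd (GG z k) \ {{1, (k : ℤ)}}) := by
    rw [h12b_bd2 hz hk3, hX, Finset.union_sdiff_distrib, Finset.union_sdiff_distrib]
    have a1 : (k : ℤ) + 1 ∉ vts (GG z k \ HH k) := fun h =>
      hw1 (vts_mono Finset.sdiff_subset h)
    have a2 : (k : ℤ) + 1 ∉ vts (cone (-((k : ℤ) + 1)) (bd (HH k))) := by
      rw [mem_vts_cone]
      rintro ⟨-, h | h⟩
      · omega
      · exact hw1 (vts_mono (h12b_HHsub hk3) (vts_bd h))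
    have a3 : (k : ℤ) + 1 ∉ vts (bd (GG z k)) := fun h => hw1 (vts_bd h)
    have a4 : (k : ℤ) + 1 ∉ vts ({{1, (k : ℤ)}} : Cx) := by
      refine h12b_notMem_vts fun F hF h => ?_
      rw [Finset.mem_singleton] at hF
      subst hF
      simp only [Finset.mem_insert, Finset.mem_singleton] at h
      omega
    rw [h12b_notC a1, h12b_notC a2, ← cone_sdiff a3 a4]
  rw [he]
  exact key

/-! ### P8 for `j = 2` -/

/-- the fan over the closed-up path -/
private theorem h12b_fan {l : List ℤ} {a b m n : ℤ} {F : Finset ℤ}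
    (hl : (a :: (l ++ [b])).Nodup) (hm : m ∉ a :: (l ++ [b])) (hn : n ∉ a :: (l ++ [b]))
    (hnm : n ≠ m) (hF : F ∈ edges (a :: (l ++ [b]))) :
    ∃ x y, F = {x, y} ∧
      Good 3 (cone n ((edges (a :: (l ++ [b])) \ {F}) ∪ {{b, m}, {m, a}})) ∧
      bd (cone n ((edges (a :: (l ++ [b])) \ {F}) ∪ {{b, m}, {m, a}})) =
        ((edges (a :: (l ++ [b])) \ {F}) ∪ {{b, m}, {m, a}}) ∪ {{n, y}, {n, x}} := by
  obtain ⟨x, y, h1, h2, h3⟩ := h12b_rot hl hm hF
  have hv : n ∉ vts ((edges (a :: (l ++ [b])) \ {F}) ∪ {{b, m}, {m, a}}) := by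
    refine h12b_notMem_vts fun G hG h => ?_
    have ha : a ∈ a :: (l ++ [b]) := List.mem_cons_self
    have hb : b ∈ a :: (l ++ [b]) := by simp
    simp only [Finset.mem_union, Finset.mem_sdiff, Finset.mem_insert,
      Finset.mem_singleton] at hG
    rcases hG with ⟨hG, -⟩ | rfl | rfl
    · exact hn (h12b_mem _ _ hG n h)
    · simp only [Finset.mem_insert, Finset.mem_singleton] at h
      rcases h with rfl | h
      · exact hn hb
      · exact hnm h
    · simp only [Finset.mem_insert, Finset.mem_singleton] at h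
      rcases h with h | rfl
      · exact hnm h
      · exact hn ha
  refine ⟨x, y, h1, good_cone h2 hv, ?_⟩
  rw [bd_cone h2.pure hv, h3]
  congr 1
  unfold cone
  rw [Finset.image_insert, Finset.image_singleton]

private theorem h12b_P8b3 {z : ℕ → ℤ} (hz : Adm z) :
    Good 3 (bd (lift (X3 z) 2 4) \ X3 z 2 4) := by
  have h4 : z 4 = 2 := hz.1
  have hX : X3 z 2 4 = cone 4 (edges [2, -1, -3, -2, 1]) ∪ {{3, 2, -1}, {-4, -1, -3}} := by
    have e1 : X3 z 2 4 = GG z 4 := rfl
    have e2 := h12b_GG z (k := 3) le_rfl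
    rw [e1, e2, h4]
    rfl
  have hb := h12b_bd2 hz (k := 3) le_rfl
  have hG : GG z 3 = {{3, 2, -1}, {3, -1, -2}, {3, -2, 1}, {-3, -1, -2}} := by
    rw [GG, if_pos rfl]
  have hH : HH 3 = {{-3, -1, -2}} := rfl
  have he : bd (lift (X3 z) 2 4) \ X3 z 2 4 =
      (cone 3 (edges ((-1 : ℤ) :: ([-2, 1, 4] ++ [2]))) ∪ {({-4, -1, -2} : Finset ℤ)}) ∪
        {({-3, -4, -2} : Finset ℤ)} := by
    have hb' : bd (lift (X3 z) 2 4) = (GG z 3 \ HH 3) ∪ cone (-4) (bd (HH 3)) ∪
      cone 4 (bd (GG z 3)) := hb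
    rw [hb', hX, hG, hH]
    decide
  have hnd : ((-1 : ℤ) :: ([-2, 1, 4] ++ [2])).Nodup := by decide
  obtain ⟨g1, g2⟩ := good_edges hnd
  have hw : (3 : ℤ) ∉ vts (edges ((-1 : ℤ) :: ([-2, 1, 4] ++ [2]))) := by decide
  have k1 := good_cone g1 hw
  have k2 := bd_cone g1.pure hw
  obtain ⟨k3, k4⟩ := h12b_ear (w := -4) k1 (by decide : (-1 : ℤ) ≠ -2)
    (by rw [k2, g2]; decide) (by decide)
  obtain ⟨k5, -⟩ := h12b_ear (w := -3) k3 (by decide : (-4 : ℤ) ≠ -2)
    (by rw [k4, k2, g2]; decide) (by decide)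
  rw [he]
  exact k5

private theorem h12b_c3 (a b c : ℤ) : (insert a {b, c} : Finset ℤ) = insert c {b, a} := by
  ext u
  simp only [Finset.mem_insert, Finset.mem_singleton]
  tauto

private theorem h12b_c2 (a b c : ℤ) : (insert a {b, c} : Finset ℤ) = insert b {a, c} :=
  Finset.insert_comm a b {c}

private theorem h12b_c1 (a b c : ℤ) : (insert a {b, c} : Finset ℤ) = insert a {c, b} := by
  rw [Finset.pair_comm]

private theorem h12b_P8bn {z : ℕ → ℤ} (hz : Adm z) {n : ℕ} (hn : 3 ≤ n) :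
    Good 3 (bd (lift (X3 z) 2 (n + 2)) \ X3 z 2 (n + 2)) := by
  have hn' : (3 : ℤ) ≤ n := by exact_mod_cast hn
  obtain ⟨hnd, hmem, l, hl⟩ := pth_basic hz hn
  obtain ⟨-, hmem1, -⟩ := pth_basic hz (m := n + 1) (by omega)
  obtain ⟨f1, f2, f3, f4, f5, f6⟩ := z_edge hz (m := n + 2) (by omega)
  obtain ⟨r1, -, r3, r4, r5, r6⟩ := z_edge hz (m := n + 1) (by omega)
  have hep := edges_pth hz (m := n + 1) (by omega)
  obtain ⟨hn1, -⟩ := neg_edge hz hn
  have e1 : n + 2 - 1 = n + 1 := by omega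
  have e2 : n + 2 - 2 = n := by omega
  have e3 : n + 1 - 1 = n := by omega
  rw [e1] at f1 f3 f4 f5 f6
  rw [e1, e2] at f2
  rw [e3] at r1 r3 r4 r5 r6 hep
  push_cast at f3 r3 hep
  rw [add_sub_cancel_right] at r3 hep
  -- bounds for the vertices of the paths
  have hP : ∀ x ∈ pth z n, x ≤ (n : ℤ) - 1 ∧ -(n : ℤ) ≤ x := by
    intro x hx
    obtain ⟨h1, h2⟩ := (hmem x).1 hx
    rw [mem_V] at h1
    have h3 := abs_le.1 h1.2
    exact ⟨by omega, h3.1⟩
  have hP1 : ∀ x ∈ pth z (n + 1), x ≤ (n : ℤ) ∧ -((n : ℤ) + 1) ≤ x := by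
    intro x hx
    obtain ⟨h1, h2⟩ := (hmem1 x).1 hx
    rw [mem_V] at h1
    push_cast at h1 h2
    have h3 := abs_le.1 h1.2
    exact ⟨by omega, h3.1⟩
  set p' : ℤ := nxt (z (n + 2)) (pth z (n + 1)) with hp'
  set p : ℤ := z (n + 2) with hp
  set r' : ℤ := nxt (z (n + 1)) (pth z n) with hr'
  set r : ℤ := z (n + 1) with hr
  have bp : p ≤ (n : ℤ) - 1 ∧ -(n : ℤ) ≤ p := hP p (h12b_mem _ _ f2 p (by simp))
  have bp' : p' ≤ (n : ℤ) - 1 ∧ -(n : ℤ) ≤ p' := hP p' (h12b_mem _ _ f2 p' (by simp))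
  have br := hP r r5
  have br' := hP r' r6
  have hEP : ∀ G ∈ edges (pth z n), ∀ x ∈ G, x ≤ (n : ℤ) - 1 ∧ -(n : ℤ) ≤ x :=
    fun G hG x hx => hP x (h12b_mem _ _ hG x hx)
  have hEP1 : ∀ G ∈ edges (pth z (n + 1)), ∀ x ∈ G, x ≤ (n : ℤ) ∧ -((n : ℤ) + 1) ≤ x :=
    fun G hG x hx => hP1 x (h12b_mem _ _ hG x hx)
  -- the removed edge is different from the two others
  have q1 : ({r, r'} : Finset ℤ) ≠ {p, p'} := by
    intro h
    rw [← h, hep] at f1
    simp only [Finset.mem_union, Finset.mem_sdiff, Finset.mem_insert, Finset.mem_singleton] at f1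
    rcases f1 with ⟨-, h1⟩ | h1 | h1 | h1 | h1
    · exact h1 (by simp)
    · have : (n : ℤ) ∈ ({r, r'} : Finset ℤ) := by rw [h1]; simp
      simp only [Finset.mem_insert, Finset.mem_singleton] at this
      omega
    · have : (n : ℤ) ∈ ({r, r'} : Finset ℤ) := by rw [h1]; simp
      simp only [Finset.mem_insert, Finset.mem_singleton] at this
      omega
    · have : -((n : ℤ) + 1) ∈ ({r, r'} : Finset ℤ) := by rw [h1]; simp
      simp only [Finset.mem_insert, Finset.mem_singleton] at this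
      omega
    · have : -((n : ℤ) + 1) ∈ ({r, r'} : Finset ℤ) := by rw [h1]; simp
      simp only [Finset.mem_insert, Finset.mem_singleton] at this
      omega
  have q2 : ({-1, -(n : ℤ)} : Finset ℤ) ≠ {p, p'} := by
    intro h
    rw [← h, hep] at f1
    simp only [Finset.mem_union, Finset.mem_sdiff, Finset.mem_insert, Finset.mem_singleton] at f1
    rcases f1 with ⟨-, h1⟩ | h1 | h1 | h1 | h1
    · exact h1 (by simp)
    · have : (n : ℤ) ∈ ({-1, -(n : ℤ)} : Finset ℤ) := by rw [h1]; simp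
      simp only [Finset.mem_insert, Finset.mem_singleton] at this
      omega
    · have : (n : ℤ) ∈ ({-1, -(n : ℤ)} : Finset ℤ) := by rw [h1]; simp
      simp only [Finset.mem_insert, Finset.mem_singleton] at this
      omega
    · have : -((n : ℤ) + 1) ∈ ({-1, -(n : ℤ)} : Finset ℤ) := by rw [h1]; simp
      simp only [Finset.mem_insert, Finset.mem_singleton] at this
      omega
    · have : -((n : ℤ) + 1) ∈ ({-1, -(n : ℤ)} : Finset ℤ) := by rw [h1]; simp
      simp only [Finset.mem_insert, Finset.mem_singleton] at this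
      omega
  -- the fan
  have hmP : (n : ℤ) + 2 ∉ pth z n := fun h => by have := (hP _ h).1; omega
  have hkP : (n : ℤ) + 1 ∉ pth z n := fun h => by have := (hP _ h).1; omega
  obtain ⟨x, y, -, c1, c2⟩ := h12b_fan (l := l) (a := 2) (b := 1) (m := (n : ℤ) + 2)
    (n := (n : ℤ) + 1) (F := {p, p'}) (hl ▸ hnd) (hl ▸ hmP) (hl ▸ hkP) (by omega) (hl ▸ f2)
  rw [← hl] at c1 c2
  set E' : Cx := (edges (pth z n) \ {{p, p'}}) ∪ {{1, (n : ℤ) + 2}, {(n : ℤ) + 2, 2}} with hE'
  have mE' : ∀ G, G ∈ E' ↔ (G ∈ edges (pth z n) ∧ G ≠ {p, p'}) ∨ G = {1, (n : ℤ) + 2} ∨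
      G = {(n : ℤ) + 2, 2} := by
    intro G
    rw [hE']
    simp only [Finset.mem_union, Finset.mem_sdiff, Finset.mem_insert, Finset.mem_singleton]
  have vC : ∀ w : ℤ, w ≠ (n : ℤ) + 1 → w ≠ (n : ℤ) + 2 → w ≠ 1 → w ≠ 2 → w ∉ pth z n →
      w ∉ vts (cone ((n : ℤ) + 1) E') := by
    intro w w1 w2 w3 w4 w5
    rw [mem_vts_cone]
    rintro ⟨-, h | h⟩
    · exact w1 h
    · revert h
      refine h12b_notMem_vts fun G hG h => ?_
      rcases (mE' G).1 hG with ⟨hG, -⟩ | rfl | rfl
      · exact w5 (h12b_mem _ _ hG w h)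
      · simp only [Finset.mem_insert, Finset.mem_singleton] at h
        rcases h with h | h
        · exact w3 h
        · exact w2 h
      · simp only [Finset.mem_insert, Finset.mem_singleton] at h
        rcases h with h | h
        · exact w2 h
        · exact w4 h
  have vE : ∀ (B : Cx) (w u a b : ℤ), u ∉ vts B → u ≠ w → u ≠ a → u ≠ b →
      u ∉ vts (B ∪ {({w, a, b} : Finset ℤ)}) := by
    intro B w u a b h1 h2 h3 h4
    rw [vts_union, Finset.mem_union]
    rintro (h | h)
    · exact h1 h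
    · revert h
      refine h12b_notMem_vts fun G hG h => ?_
      rw [Finset.mem_singleton] at hG
      subst hG
      simp only [Finset.mem_insert, Finset.mem_singleton] at h
      rcases h with h | h | h
      · exact h2 h
      · exact h3 h
      · exact h4 h
  -- first ear
  have i1 : ({r, r'} : Finset ℤ) ∈ bd (cone ((n : ℤ) + 1) E') := by
    rw [c2]
    exact Finset.mem_union_left _ ((mE' _).2 (Or.inl ⟨r1, q1⟩))
  have nP : (n : ℤ) ∉ pth z n := fun h => by have := (hP _ h).1; omega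
  have v1 := vC (n : ℤ) (by omega) (by omega) (by omega) (by omega) nP
  obtain ⟨c3, c4⟩ := h12b_ear c1 r4 i1 v1
  -- second ear
  have q3 : ({-1, -(n : ℤ)} : Finset ℤ) ≠ {r, r'} := fun h => r3 h.symm
  have i2 : ({-1, -(n : ℤ)} : Finset ℤ) ∈ bd (cone ((n : ℤ) + 1) E' ∪
      {({(n : ℤ), r, r'} : Finset ℤ)}) := by
    rw [c4, c2]
    refine Finset.mem_union_left _ ?_
    rw [Finset.mem_sdiff, Finset.mem_singleton]
    exact ⟨Finset.mem_union_left _ ((mE' _).2 (Or.inl ⟨hn1, q2⟩)), q3⟩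
  have mP2 : -((n : ℤ) + 2) ∉ pth z n := fun h => by have := (hP _ h).2; omega
  have v2 := vE _ (n : ℤ) (-((n : ℤ) + 2)) r r' (vC (-((n : ℤ) + 2)) (by omega) (by omega)
    (by omega) (by omega) mP2) (by omega) (by omega) (by omega)
  obtain ⟨c5, c6⟩ := h12b_ear c3 (by omega : (-1 : ℤ) ≠ -(n : ℤ)) i2 v2
  -- third ear
  have i3 : ({-((n : ℤ) + 2), -(n : ℤ)} : Finset ℤ) ∈ bd (cone ((n : ℤ) + 1) E' ∪
      {({(n : ℤ), r, r'} : Finset ℤ)} ∪ {({-((n : ℤ) + 2), -1, -(n : ℤ)} : Finset ℤ)}) := by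
    rw [c6]
    refine Finset.mem_union_right _ ?_
    simp
  have mP1 : -((n : ℤ) + 1) ∉ pth z n := fun h => by have := (hP _ h).2; omega
  have v3 := vE _ (-((n : ℤ) + 2)) (-((n : ℤ) + 1)) (-1) (-(n : ℤ))
    (vE _ (n : ℤ) (-((n : ℤ) + 1)) r r' (vC (-((n : ℤ) + 1)) (by omega) (by omega)
    (by omega) (by omega) mP1) (by omega) (by omega) (by omega)) (by omega) (by omega) (by omega)
  obtain ⟨c7, -⟩ := h12b_ear c5 (by omega : -((n : ℤ) + 2) ≠ -(n : ℤ)) i3 v3
  -- the set identity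
  have hb := h12b_bd2 hz (k := n + 1) (by omega)
  have hX : X3 z 2 (n + 2) = cone ((n : ℤ) + 2) (edges (pth z (n + 1))) ∪
      {{(n : ℤ) + 1, p, p'}, {-((n : ℤ) + 2), -1, -((n : ℤ) + 1)}} := by
    have e5 : X3 z 2 (n + 2) = GG z (n + 1 + 1) := rfl
    rw [e5, h12b_GG z (by omega : 3 ≤ n + 1)]
    push_cast
    have e6 : (n : ℤ) + 1 + 1 = (n : ℤ) + 2 := by ring
    rw [e6]
  have hG : GG z (n + 1) = cone ((n : ℤ) + 1) (edges (pth z n)) ∪
      {{(n : ℤ), r, r'}, {-((n : ℤ) + 1), -1, -(n : ℤ)}} := h12b_GG z hn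
  have hH : HH (n + 1) = {{-((n : ℤ) + 1), -1, -(n : ℤ)}} := by
    unfold HH
    push_cast
    rw [add_sub_cancel_right]
  have hbG : bd (GG z (n + 1)) = edges (pth z (n + 1)) ∪
      {{1, (n : ℤ) + 1}, {(n : ℤ) + 1, 2}} := by
    rw [h12b_bdGG hz (by omega : 3 ≤ n + 1)]
    push_cast
    rfl
  have hbH : bd (HH (n + 1)) = {{-1, -(n : ℤ)}, {-((n : ℤ) + 1), -(n : ℤ)},
      {-((n : ℤ) + 1), -1}} := by
    rw [hH, bd_single, bsimp, Finset.image_insert, Finset.image_insert, Finset.image_singleton]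
    have t1 : ({-((n : ℤ) + 1), -1, -(n : ℤ)} : Finset ℤ).erase (-((n : ℤ) + 1)) =
        {-1, -(n : ℤ)} := by
      rw [Finset.erase_insert]
      simp only [Finset.mem_insert, Finset.mem_singleton]
      omega
    have t2 : ({-((n : ℤ) + 1), -1, -(n : ℤ)} : Finset ℤ).erase (-1) =
        {-((n : ℤ) + 1), -(n : ℤ)} := by
      ext u
      simp only [Finset.mem_erase, Finset.mem_insert, Finset.mem_singleton]
      constructor
      · rintro ⟨h1, h2 | h2 | h2⟩
        · exact Or.inl h2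
        · exact absurd h2 h1
        · exact Or.inr h2
      · rintro (h | h)
        · exact ⟨by omega, Or.inl h⟩
        · exact ⟨by omega, Or.inr (Or.inr h)⟩
    have t3 : ({-((n : ℤ) + 1), -1, -(n : ℤ)} : Finset ℤ).erase (-(n : ℤ)) =
        {-((n : ℤ) + 1), -1} := by
      ext u
      simp only [Finset.mem_erase, Finset.mem_insert, Finset.mem_singleton]
      constructor
      · rintro ⟨h1, h2 | h2 | h2⟩
        · exact Or.inl h2
        · exact Or.inr h2
        · exact absurd h2 h1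
      · rintro (h | h)
        · exact ⟨by omega, Or.inl h⟩
        · exact ⟨by omega, Or.inr (Or.inl h)⟩
    rw [t1, t2, t3]
  have hb' : bd (lift (X3 z) 2 (n + 2)) = (GG z (n + 1) \ HH (n + 1)) ∪
      cone (-((n : ℤ) + 2)) (bd (HH (n + 1))) ∪ cone ((n : ℤ) + 2) (bd (GG z (n + 1))) := by
    have e5 : bd (lift (X3 z) 2 (n + 2)) = bd (lift (X3 z) 2 (n + 1 + 1)) := rfl
    rw [e5, hb]
    push_cast
    have e6 : (n : ℤ) + 1 + 1 = (n : ℤ) + 2 := by ring
    rw [e6]
  have he : bd (lift (X3 z) 2 (n + 2)) \ X3 z 2 (n + 2) =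
      cone ((n : ℤ) + 1) E' ∪ {({(n : ℤ), r, r'} : Finset ℤ)} ∪
        {({-((n : ℤ) + 2), -1, -(n : ℤ)} : Finset ℤ)} ∪
        {({-((n : ℤ) + 1), -((n : ℤ) + 2), -(n : ℤ)} : Finset ℤ)} := by
    -- membership in the removed set
    have mX : ∀ G, G ∈ X3 z 2 (n + 2) ↔ (∃ G' ∈ edges (pth z (n + 1)),
        insert ((n : ℤ) + 2) G' = G) ∨ G = {(n : ℤ) + 1, p, p'} ∨
        G = {-((n : ℤ) + 2), -1, -((n : ℤ) + 1)} := by
      intro G
      rw [hX]
      unfold cone
      simp only [Finset.mem_union, Finset.mem_image, Finset.mem_insert, Finset.mem_singleton]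
    rw [hb', hbG, hbH, hH, hG]
    ext G
    rw [Finset.mem_sdiff, mX]
    unfold cone
    simp only [Finset.mem_union, Finset.mem_sdiff, Finset.mem_image, Finset.mem_insert,
      Finset.mem_singleton]
    constructor
    · rintro ⟨(⟨(⟨G', hG', rfl⟩ | rfl | rfl), hne⟩ | ⟨G', rfl | rfl | rfl, rfl⟩) |
        ⟨G', hG' | rfl | rfl, rfl⟩, hX'⟩
      · left; left; left
        refine ⟨G', (mE' _).2 (Or.inl ⟨hG', ?_⟩), rfl⟩
        rintro rfl
        exact hX' (Or.inr (Or.inl rfl))
      · left; left; right; rfl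
      · exact absurd rfl hne
      · left; right; rfl
      · right
        exact h12b_c2 _ _ _
      · exfalso
        apply hX'
        right; right
        exact h12b_c1 _ _ _
      · exact absurd (Or.inl ⟨G', hG', rfl⟩) hX'
      · left; left; left
        exact ⟨{1, (n : ℤ) + 2}, (mE' _).2 (Or.inr (Or.inl rfl)), h12b_c3 _ _ _⟩
      · left; left; left
        exact ⟨{(n : ℤ) + 2, 2}, (mE' _).2 (Or.inr (Or.inr rfl)), h12b_c2 _ _ _⟩
    · rintro (((⟨G', hG', rfl⟩ | rfl) | rfl) | rfl)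
      · rcases (mE' _).1 hG' with ⟨hG, hne⟩ | rfl | rfl
        · -- a triangle of the fan
          have hb1 := hEP G' hG
          have a1 : (n : ℤ) + 1 ∉ G' := fun h => by have := (hb1 _ h).1; omega
          have a2 : (n : ℤ) + 2 ∉ insert ((n : ℤ) + 1) G' := by
            rw [Finset.mem_insert]
            rintro (h | h)
            · omega
            · have := (hb1 _ h).1; omega
          refine ⟨Or.inl (Or.inl ⟨Or.inl ⟨G', hG, rfl⟩, ?_⟩), ?_⟩
          · intro h
            have : (n : ℤ) + 1 ∈ ({-((n : ℤ) + 1), -1, -(n : ℤ)} : Finset ℤ) := by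
              rw [← h]; exact Finset.mem_insert_self _ _
            simp only [Finset.mem_insert, Finset.mem_singleton] at this
            omega
          · rintro (⟨G'', -, h⟩ | h | h)
            · exact a2 (h ▸ Finset.mem_insert_self _ _)
            · apply hne
              have h1 : (insert ((n : ℤ) + 1) G').erase ((n : ℤ) + 1) =
                ({(n : ℤ) + 1, p, p'} : Finset ℤ).erase ((n : ℤ) + 1) := by rw [h]
              rw [Finset.erase_insert a1, Finset.erase_insert] at h1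
              · exact h1
              · simp only [Finset.mem_insert, Finset.mem_singleton]
                omega
            · have : (n : ℤ) + 1 ∈ ({-((n : ℤ) + 2), -1, -((n : ℤ) + 1)} : Finset ℤ) := by
                rw [← h]; exact Finset.mem_insert_self _ _
              simp only [Finset.mem_insert, Finset.mem_singleton] at this
              omega
        · refine ⟨Or.inr ⟨{1, (n : ℤ) + 1}, Or.inr (Or.inl rfl), h12b_c3 _ _ _⟩, ?_⟩
          · rintro (⟨G'', hG'', h⟩ | h | h)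
            · have h1 : (n : ℤ) + 1 ∈ insert ((n : ℤ) + 2) G'' := by rw [h]; simp
              rw [Finset.mem_insert] at h1
              rcases h1 with h1 | h1
              · omega
              · have := (hEP1 _ hG'' _ h1).1
                omega
            · have : (n : ℤ) + 2 ∈ ({(n : ℤ) + 1, p, p'} : Finset ℤ) := by rw [← h]; simp
              simp only [Finset.mem_insert, Finset.mem_singleton] at this
              omega
            · have : (n : ℤ) + 2 ∈ ({-((n : ℤ) + 2), -1, -((n : ℤ) + 1)} : Finset ℤ) := by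
                rw [← h]; simp
              simp only [Finset.mem_insert, Finset.mem_singleton] at this
              omega
        · refine ⟨Or.inr ⟨{(n : ℤ) + 1, 2}, Or.inr (Or.inr rfl), h12b_c2 _ _ _⟩, ?_⟩
          · rintro (⟨G'', hG'', h⟩ | h | h)
            · have h1 : (n : ℤ) + 1 ∈ insert ((n : ℤ) + 2) G'' := by rw [h]; simp
              rw [Finset.mem_insert] at h1
              rcases h1 with h1 | h1
              · omega
              · have := (hEP1 _ hG'' _ h1).1
                omega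
            · have : (n : ℤ) + 2 ∈ ({(n : ℤ) + 1, p, p'} : Finset ℤ) := by rw [← h]; simp
              simp only [Finset.mem_insert, Finset.mem_singleton] at this
              omega
            · have : (n : ℤ) + 2 ∈ ({-((n : ℤ) + 2), -1, -((n : ℤ) + 1)} : Finset ℤ) := by
                rw [← h]; simp
              simp only [Finset.mem_insert, Finset.mem_singleton] at this
              omega
      · -- the first ear
        refine ⟨Or.inl (Or.inl ⟨Or.inr (Or.inl rfl), ?_⟩), ?_⟩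
        · intro h
          have : (n : ℤ) ∈ ({-((n : ℤ) + 1), -1, -(n : ℤ)} : Finset ℤ) := by rw [← h]; simp
          simp only [Finset.mem_insert, Finset.mem_singleton] at this
          omega
        · rintro (⟨G'', -, h⟩ | h | h)
          · have h1 : (n : ℤ) + 2 ∈ ({(n : ℤ), r, r'} : Finset ℤ) := by rw [← h]; simp
            simp only [Finset.mem_insert, Finset.mem_singleton] at h1
            omega
          · have h1 : (n : ℤ) + 1 ∈ ({(n : ℤ), r, r'} : Finset ℤ) := by rw [h]; simp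
            simp only [Finset.mem_insert, Finset.mem_singleton] at h1
            omega
          · have h1 : -((n : ℤ) + 2) ∈ ({(n : ℤ), r, r'} : Finset ℤ) := by rw [h]; simp
            simp only [Finset.mem_insert, Finset.mem_singleton] at h1
            omega
      · -- the second ear
        refine ⟨Or.inl (Or.inr ⟨_, Or.inl rfl, rfl⟩), ?_⟩
        rintro (⟨G'', -, h⟩ | h | h)
        · have h1 : (n : ℤ) + 2 ∈ ({-((n : ℤ) + 2), -1, -(n : ℤ)} : Finset ℤ) := by
            rw [← h]; simp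
          simp only [Finset.mem_insert, Finset.mem_singleton] at h1
          omega
        · have h1 : (n : ℤ) + 1 ∈ ({-((n : ℤ) + 2), -1, -(n : ℤ)} : Finset ℤ) := by
            rw [h]; simp
          simp only [Finset.mem_insert, Finset.mem_singleton] at h1
          omega
        · have h1 : -((n : ℤ) + 1) ∈ ({-((n : ℤ) + 2), -1, -(n : ℤ)} : Finset ℤ) := by
            rw [h]; simp
          simp only [Finset.mem_insert, Finset.mem_singleton] at h1
          omega
      · -- the third ear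
        refine ⟨Or.inl (Or.inr ⟨_, Or.inr (Or.inl rfl), h12b_c2 _ _ _⟩), ?_⟩
        · rintro (⟨G'', -, h⟩ | h | h)
          · have h1 : (n : ℤ) + 2 ∈ ({-((n : ℤ) + 1), -((n : ℤ) + 2), -(n : ℤ)} : Finset ℤ) := by
              rw [← h]; simp
            simp only [Finset.mem_insert, Finset.mem_singleton] at h1
            omega
          · have h1 : (n : ℤ) + 1 ∈ ({-((n : ℤ) + 1), -((n : ℤ) + 2), -(n : ℤ)} : Finset ℤ) := by
              rw [h]; simp
            simp only [Finset.mem_insert, Finset.mem_singleton] at h1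
            omega
          · have h1 : (-1 : ℤ) ∈ ({-((n : ℤ) + 1), -((n : ℤ) + 2), -(n : ℤ)} : Finset ℤ) := by
              rw [h]; simp
            simp only [Finset.mem_insert, Finset.mem_singleton] at h1
            omega
  rw [he]
  exact c7

theorem base_P8b {z : ℕ → ℤ} (hz : Adm z) {m : ℕ} (hm : 4 ≤ m) :
    Good 3 (bd (lift (X3 z) 2 m) \ X3 z 2 m) := by
  rcases Nat.lt_or_ge m 5 with h | h
  · have h4 : m = 4 := by omega
    subst h4
    exact h12b_P8b3 hz
  · obtain ⟨n, rfl⟩ : ∃ n, m = n + 2 := ⟨m - 2, by omega⟩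
    exact h12b_P8bn hz (by omega)

end Pool.Agent.H30.NZ
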