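import Pool.Agent.H30.NZ.Comb
import Pool.Agent.H30.NZ.Ops
import Pool.Agent.H30.NZ.GoodOps
import Pool.Agent.H30.NZ.Cross
import Pool.Agent.H30.NZ.Base1
import Pool.Agent.H30.NZ.Base2a
import Pool.Agent.H30.NZ.Base2b

/-!
# MP_63054e_co: the base family
-/

namespace Pool.Agent.H30.NZ

open Finset

/-! ### concrete sets -/

theorem h23_GG3 (z : ℕ → ℤ) : GG z 3 = {{3, 2, -1}, {3, -1, -2}, {3, -2, 1}, {-3, -1, -2}} := by
  simp [GG]

theorem h23_bdGG3 : bd ({{3, 2, -1}, {3, -1, -2}, {3, -2, 1}, {-3, -1, -2}} : Cx) =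
    edges [2, -1, -3, -2, 1] ∪ {{1, 3}, {3, 2}} := by
  decide

theorem h23_cross3a : cross 3 \ {{3, 1, 2}} =
    cone (-3) (cross 2) ∪ cone 3 (edges [2, -1, -2, 1]) := by
  decide +kernel

theorem h23_cross3b : cross 3 \ {{3, 2, -1}, {3, -1, -2}, {3, -2, 1}, {-3, -1, -2}} =
    cone (-3) (edges [-1, 2, 1, -2]) ∪ cone 3 {{1, 2}} := by
  decide +kernel

theorem h23_negHH (m : ℕ) : neg (HH m) = {{(m : ℤ), 1, (m : ℤ) - 1}} := by
  simp [neg, HH, ngs]

theorem h23_X0 (z : ℕ → ℤ) (m : ℕ) : X3 z 0 m = ∅ := by simp [X3]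
theorem h23_X1 (z : ℕ → ℤ) (m : ℕ) : X3 z 1 m = {{(m : ℤ), 1, (m : ℤ) - 1}} := by
  rw [← h23_negHH]; simp [X3]
theorem h23_X1' (z : ℕ → ℤ) (m : ℕ) : X3 z 1 m = neg (HH m) := by simp [X3]
theorem h23_X2 (z : ℕ → ℤ) (m : ℕ) : X3 z 2 m = GG z m := by simp [X3]

/-! ### edges of lists -/

theorem h23_edges_sub : ∀ (l : List ℤ), ∀ e ∈ edges l, ∀ x ∈ e, x ∈ l
  | [] => by intro e he; simp [edges] at he
  | [_] => by intro e he; simp [edges] at he
  | a :: b :: l => by
    intro e he x hx
    rw [edges, mem_insert] at he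
    rcases he with rfl | he
    · simp only [mem_insert, mem_singleton] at hx
      rcases hx with rfl | rfl <;> simp
    · exact List.mem_cons_of_mem _ (h23_edges_sub (b :: l) e he x hx)

theorem h23_edges_cover : ∀ (l : List ℤ), 2 ≤ l.length → ∀ x ∈ l, ∃ e ∈ edges l, x ∈ e
  | [] => by intro h; simp at h
  | [_] => by intro h; simp at h
  | a :: b :: l => by
    intro _ x hx
    rcases List.mem_cons.1 hx with rfl | hx
    · exact ⟨{x, b}, by rw [edges]; exact mem_insert_self _ _, by simp⟩
    · cases l with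
      | nil =>
        simp only [List.mem_singleton] at hx
        subst hx
        exact ⟨{a, x}, by rw [edges]; exact mem_insert_self _ _, by simp⟩
      | cons c l =>
        obtain ⟨e, he, hxe⟩ := h23_edges_cover (b :: c :: l) (by simp) x hx
        exact ⟨e, by rw [edges]; exact mem_insert_of_mem he, hxe⟩

theorem h23_mem_V {m : ℕ} {x : ℤ} : x ∈ V m ↔ x ≠ 0 ∧ |x| ≤ (m : ℤ) := mem_V

theorem h23_pth_len {z : ℕ → ℤ} (hz : Adm z) {m : ℕ} (hm : 3 ≤ m) : 2 ≤ (pth z m).length := by
  obtain ⟨_, _, l, hl⟩ := pth_basic hz hm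
  rw [hl]; simp

theorem h23_edges_V {z : ℕ → ℤ} (hz : Adm z) {m : ℕ} (hm : 2 ≤ m) :
    ∀ e ∈ edges (pth z m), e ⊆ V m := by
  intro e he
  rcases Nat.lt_or_ge m 3 with h | h
  · have : m = 2 := by omega
    subst this
    have h2 : ∀ e ∈ edges [2, -1, -2, 1], e ⊆ V 2 := by decide
    exact h2 e (by simpa [pth] using he)
  · intro x hx
    exact ((pth_basic hz h).2.1 x).1 (h23_edges_sub _ e he x hx) |>.1

theorem h23_af_pair {a b : ℤ} (ha : a ≠ 0) (hb : b ≠ 0) (hab : a ≠ -b) : AF {a, b} := by
  intro x hx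
  simp only [mem_insert, mem_singleton] at hx
  simp only [mem_insert, mem_singleton, not_or]
  rcases hx with rfl | rfl
  · exact ⟨by omega, by omega⟩
  · exact ⟨by omega, by omega⟩

theorem h23_af_edges {z : ℕ → ℤ} (hz : Adm z) : ∀ m : ℕ, 2 ≤ m → ∀ e ∈ edges (pth z m), AF e := by
  intro m
  induction m with
  | zero => intro h; omega
  | succ m ih =>
    intro hm e he
    rcases Nat.lt_or_ge m 3 with h | h
    · interval_cases m
      · omega
      · have h2 : ∀ e ∈ edges [2, -1, -2, 1], AF e := by decide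
        exact h2 e (by simpa [pth] using he)
      · have h2 : ∀ e ∈ edges [2, -1, -3, -2, 1], AF e := by decide
        exact h2 e (by simpa [pth] using he)
    · have hed := edges_pth hz (m := m + 1) (by omega)
      obtain ⟨_, hz2, _, hz4, _, _⟩ := z_edge hz (m := m + 1) (by omega)
      simp only [Nat.add_sub_cancel, Nat.cast_add, Nat.cast_one, add_sub_cancel_right] at hed hz2
      have hsub := h23_edges_V hz (m := m + 1 - 2) (by omega) _ hz2
      have h1 := h23_mem_V.1 (hsub (mem_insert_self _ _))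
      have h2 := h23_mem_V.1 (hsub (mem_insert_of_mem (mem_singleton_self _)))
      have hcast : ((m + 1 - 2 : ℕ) : ℤ) = (m : ℤ) - 1 := by
        have : m + 1 - 2 = m - 1 := by omega
        rw [this]; push_cast [Nat.cast_sub (by omega : 1 ≤ m)]; ring
      rw [hcast] at h1 h2
      have hm3 : (3 : ℤ) ≤ m := by exact_mod_cast h
      rw [hed, mem_union, mem_sdiff] at he
      rcases he with he | he
      · exact ih (by omega) e he.1
      · simp only [mem_insert, mem_singleton] at he
        have b1 := abs_le.1 h1.2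
        have b2 := abs_le.1 h2.2
        rcases he with rfl | rfl | rfl | rfl
        · exact h23_af_pair h1.1 (by omega) (by omega)
        · exact h23_af_pair (by omega) h2.1 (by omega)
        · exact h23_af_pair (by omega) (by omega) (by omega)
        · exact h23_af_pair (by omega) (by omega) (by omega)

theorem h23_af_insert {w : ℤ} {e : Finset ℤ} (hw : 0 < w) (he : AF e) (h : ∀ x ∈ e, |x| < w) :
    AF (insert w e) := by
  intro x hx
  simp only [mem_insert] at hx
  simp only [mem_insert, not_or]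
  rcases hx with rfl | hx
  · refine ⟨by omega, fun hn => ?_⟩
    have := h _ hn
    rw [abs_neg, abs_of_pos hw] at this
    exact lt_irrefl _ this
  · have := abs_lt.1 (h x hx)
    exact ⟨by omega, he x hx⟩

/-- facets of `GG`, `4 ≤ m` -/
theorem h23_GG_facets {z : ℕ → ℤ} {m : ℕ} (hm : 4 ≤ m) {F : Finset ℤ} : F ∈ GG z m ↔
    (∃ e ∈ edges (pth z (m - 1)), insert (m : ℤ) e = F) ∨
    F = {(m : ℤ) - 1, z m, nxt (z m) (pth z (m - 1))} ∨ F = {-(m : ℤ), -1, -((m : ℤ) - 1)} := by
  have h3 : m ≠ 3 := by omega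
  simp only [GG, if_neg h3, cone, mem_union, mem_image, mem_insert, mem_singleton]

theorem h23_V_abs {m : ℕ} {x : ℤ} (h : x ∈ V m) : x ≠ 0 ∧ |x| ≤ (m : ℤ) := h23_mem_V.1 h

theorem h23_GG_vert {z : ℕ → ℤ} (hz : Adm z) {m : ℕ} (hm : 3 ≤ m) :
    ∀ F ∈ GG z m, F ⊆ V m ∧ AF F := by
  intro F hF
  rcases Nat.lt_or_ge m 4 with h | h
  · have : m = 3 := by omega
    subst this
    rw [h23_GG3] at hF
    have h2 : ∀ F ∈ ({{3, 2, -1}, {3, -1, -2}, {3, -2, 1}, {-3, -1, -2}} : Cx),
        F ⊆ V 3 ∧ AF F := by decide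
    exact h2 F hF
  · have hm4 : (4 : ℤ) ≤ m := by exact_mod_cast h
    rw [h23_GG_facets h] at hF
    have hc1 : ((m - 1 : ℕ) : ℤ) = (m : ℤ) - 1 := by
      push_cast [Nat.cast_sub (by omega : 1 ≤ m)]; ring
    have hc2 : ((m - 2 : ℕ) : ℤ) = (m : ℤ) - 2 := by
      push_cast [Nat.cast_sub (by omega : 2 ≤ m)]; ring
    rcases hF with ⟨e, he, rfl⟩ | rfl | rfl
    · have hsub := h23_edges_V hz (m := m - 1) (by omega) e he
      have hab : ∀ x ∈ e, x ≠ 0 ∧ |x| ≤ (m : ℤ) - 1 := fun x hx => by
        have := h23_V_abs (hsub hx); rwa [hc1] at this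
      refine ⟨?_, h23_af_insert (by omega) (h23_af_edges hz (m - 1) (by omega) e he)
        (fun x hx => by have := (hab x hx).2; omega)⟩
      intro x hx
      rw [mem_insert] at hx
      rw [h23_mem_V]
      rcases hx with rfl | hx
      · exact ⟨by omega, by rw [abs_of_nonneg (by omega)]⟩
      · exact ⟨(hab x hx).1, by have := (hab x hx).2; omega⟩
    · obtain ⟨_, hz2, _, _, _, _⟩ := z_edge hz h
      have hsub := h23_edges_V hz (m := m - 2) (by omega) _ hz2
      have hab : ∀ x ∈ ({z m, nxt (z m) (pth z (m - 1))} : Finset ℤ),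
          x ≠ 0 ∧ |x| ≤ (m : ℤ) - 2 := fun x hx => by
        have := h23_V_abs (hsub hx); rwa [hc2] at this
      refine ⟨?_, h23_af_insert (by omega) (h23_af_edges hz (m - 2) (by omega) _ hz2)
        (fun x hx => by have := (hab x hx).2; omega)⟩
      intro x hx
      rw [mem_insert] at hx
      rw [h23_mem_V]
      rcases hx with rfl | hx
      · exact ⟨by omega, by rw [abs_of_nonneg (by omega)]; omega⟩
      · exact ⟨(hab x hx).1, by have := (hab x hx).2; omega⟩
    · constructor
      · intro x hx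
        simp only [mem_insert, mem_singleton] at hx
        rw [h23_mem_V]
        rcases hx with rfl | rfl | rfl
        · exact ⟨by omega, by rw [abs_neg, abs_of_nonneg (by omega)]⟩
        · exact ⟨by omega, by rw [abs_neg, abs_one]; omega⟩
        · exact ⟨by omega, by rw [abs_neg, abs_of_nonneg (by omega)]; omega⟩
      · intro x hx
        simp only [mem_insert, mem_singleton] at hx
        simp only [mem_insert, mem_singleton, not_or]
        rcases hx with rfl | rfl | rfl
        · exact ⟨by omega, by omega, by omega⟩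
        · exact ⟨by omega, by omega, by omega⟩
        · exact ⟨by omega, by omega, by omega⟩

theorem h23_X1_vert (m : ℕ) (hm : 3 ≤ m) :
    ∀ F ∈ ({{(m : ℤ), 1, (m : ℤ) - 1}} : Cx), F ⊆ V m ∧ AF F := by
  intro F hF
  rw [mem_singleton] at hF
  subst hF
  have hm3 : (3 : ℤ) ≤ m := by exact_mod_cast hm
  constructor
  · intro x hx
    simp only [mem_insert, mem_singleton] at hx
    rw [h23_mem_V]
    rcases hx with rfl | rfl | rfl
    · exact ⟨by omega, by rw [abs_of_nonneg (by omega)]⟩
    · exact ⟨by omega, by rw [abs_one]; omega⟩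
    · exact ⟨by omega, by rw [abs_of_nonneg (by omega)]; omega⟩
  · intro x hx
    simp only [mem_insert, mem_singleton] at hx
    simp only [mem_insert, mem_singleton, not_or]
    rcases hx with rfl | rfl | rfl
    · exact ⟨by omega, by omega, by omega⟩
    · exact ⟨by omega, by omega, by omega⟩
    · exact ⟨by omega, by omega, by omega⟩

/-- boundary of `GG`, all `3 ≤ m` -/
theorem h23_bd_GG {z : ℕ → ℤ} (hz : Adm z) {m : ℕ} (hm : 3 ≤ m) :
    bd (GG z m) = edges (pth z m) ∪ {{1, (m : ℤ)}, {(m : ℤ), 2}} := by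
  rcases Nat.lt_or_ge m 4 with h | h
  · have : m = 3 := by omega
    subst this
    rw [h23_GG3, h23_bdGG3]
    rfl
  · exact bd_GG hz h

theorem h23_HH_sub {z : ℕ → ℤ} {m : ℕ} (hm : 3 ≤ m) : HH m ⊆ GG z m := by
  rcases Nat.lt_or_ge m 4 with h | h
  · have : m = 3 := by omega
    subst this
    rw [h23_GG3]
    decide
  · intro F hF
    simp only [HH, mem_singleton] at hF
    rw [h23_GG_facets h]
    exact Or.inr (Or.inr hF)

/-- the vertices of the boundary of `GG` -/
theorem h23_bd_GG_vert {z : ℕ → ℤ} (hz : Adm z) {m : ℕ} (hm : 3 ≤ m) {x : ℤ} (hx : x ∈ V m) :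
    ∃ e ∈ bd (GG z m), x ∈ e := by
  rw [h23_bd_GG hz hm]
  by_cases h : x = m
  · exact ⟨{1, (m : ℤ)}, by simp, by simp [h]⟩
  · have := ((pth_basic hz hm).2.1 x).2 ⟨hx, h⟩
    obtain ⟨e, he, hxe⟩ := h23_edges_cover _ (h23_pth_len hz hm) x this
    exact ⟨e, mem_union_left _ he, hxe⟩

theorem h23_fc_of_bd {K : Cx} {s : Finset ℤ} (h : Fc (bd K) s) : Fc K s := fc_bd h

theorem h23_HH_neg {m : ℕ} {F : Finset ℤ} (hF : F ∈ HH m) {x : ℤ} (hx : 0 < x) (hm : 2 ≤ m) :
    x ∉ F := by
  simp only [HH, mem_singleton] at hF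
  subst hF
  have hm2 : (2 : ℤ) ≤ m := by exact_mod_cast hm
  simp only [mem_insert, mem_singleton, not_or]
  exact ⟨by omega, by omega, by omega⟩

theorem h23_third {z : ℕ → ℤ} (hz : Adm z) {m : ℕ} (hm : 3 ≤ m) :
    {(m : ℤ), z (m + 1), nxt (z (m + 1)) (pth z m)} ∈ GG z m := by
  rcases Nat.lt_or_ge m 4 with h | h
  · have : m = 3 := by omega
    subst this
    rw [h23_GG3]
    have h4 : z (3 + 1) = 2 := hz.1
    rw [h4]
    show ({((3 : ℕ) : ℤ), 2, nxt 2 [2, -1, -3, -2, 1]} : Finset ℤ) ∈ _
    decide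
  · have hz2 := (z_edge hz (m := m + 1) (by omega)).2.1
    rw [h23_GG_facets h]
    left
    refine ⟨{z (m + 1), nxt (z (m + 1)) (pth z m)}, ?_, rfl⟩
    have h1 : m + 1 - 2 = m - 1 := by omega
    have h2 : m + 1 - 1 = m := by omega
    rw [h1, h2] at hz2
    exact hz2

theorem h23_lift1 {z : ℕ → ℤ} (_ : Adm z) {m : ℕ} (hm : 3 ≤ m) :
    bd (lift (X3 z) 1 (m + 1)) = {{(m : ℤ), 1, (m : ℤ) - 1}} ∪
      cone ((m : ℤ) + 1) (bsimp {(m : ℤ), 1, (m : ℤ) - 1}) := by
  have h0 : lift (X3 z) 1 (m + 1) = cone ((m : ℤ) + 1) {{(m : ℤ), 1, (m : ℤ) - 1}} := by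
    show cone ((m : ℤ) + 1) (X3 z 1 m) ∪ cone (-((m : ℤ) + 1)) (neg (X3 z 0 m)) = _
    rw [h23_X0, h23_X1]
    simp [neg, cone]
  have hm3 : (3 : ℤ) ≤ m := by exact_mod_cast hm
  have hp : Pure 3 ({{(m : ℤ), 1, (m : ℤ) - 1}} : Cx) := by
    have := (base_goodH (m := m) hm).pure
    rwa [h23_negHH] at this
  have hw : (m : ℤ) + 1 ∉ vts ({{(m : ℤ), 1, (m : ℤ) - 1}} : Cx) := by
    simp only [vts, singleton_biUnion, id, mem_insert, mem_singleton, not_or]
    exact ⟨by omega, by omega, by omega⟩
  rw [h0, bd_cone hp hw, bd_single]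

theorem h23_lift2 {z : ℕ → ℤ} (hz : Adm z) {m : ℕ} (hm : 3 ≤ m) :
    bd (lift (X3 z) 2 (m + 1)) = ((GG z m ∪ cone ((m : ℤ) + 1) (bd (GG z m))) \ HH m) ∪
      cone (-((m : ℤ) + 1)) (bsimp {-(m : ℤ), -1, -((m : ℤ) - 1)}) := by
  have h0 : lift (X3 z) 2 (m + 1) = cone ((m : ℤ) + 1) (GG z m) ∪
      cone (-((m : ℤ) + 1)) (HH m) := by
    show cone ((m : ℤ) + 1) (X3 z 2 m) ∪ cone (-((m : ℤ) + 1)) (neg (X3 z 1 m)) = _
    rw [h23_X2, h23_X1', neg_neg]
  have hm3 : (3 : ℤ) ≤ m := by exact_mod_cast hm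
  have hg : Good 3 (GG z m) := base_good hz hm
  have hw : (m : ℤ) + 1 ∉ vts (GG z m) := by
    intro h
    rw [mem_vts] at h
    obtain ⟨F, hF, hs⟩ := h
    have := h23_V_abs ((h23_GG_vert hz hm F hF).1 (singleton_subset_iff.1 hs))
    rw [abs_of_nonneg (by omega)] at this
    omega
  have hbc := bd_cone hg.pure hw
  have hB : Pure 4 (cone ((m : ℤ) + 1) (GG z m)) := pure_cone hg.pure hw
  have hw' : -((m : ℤ) + 1) ∉ vts (cone ((m : ℤ) + 1) (GG z m)) := by
    intro h
    rw [mem_vts_cone] at h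
    rcases h.2 with h | h
    · omega
    · rw [mem_vts] at h
      obtain ⟨F, hF, hs⟩ := h
      have := h23_V_abs ((h23_GG_vert hz hm F hF).1 (singleton_subset_iff.1 hs))
      rw [abs_neg, abs_of_nonneg (by omega)] at this
      omega
  have hs : HH m ⊆ bd (cone ((m : ℤ) + 1) (GG z m)) := by
    rw [hbc]
    exact (h23_HH_sub hm).trans subset_union_left
  have hpm : PM (cone ((m : ℤ) + 1) (GG z m)) := pm_cone hg.pure hw hg.pm
  have hpm' : PM (HH m) := by
    unfold HH; exact pm_single
  rw [h0, bd_add hB hs hw' hpm hpm', hbc]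
  congr 2
  unfold HH
  exact bd_single

theorem base_P10 {z : ℕ → ℤ} {j : ℕ} (h1 : 1 ≤ j) (h2 : j ≤ 2) : Good 3 (cross 3 \ X3 z j 3) := by
  rcases Nat.lt_or_ge j 2 with h | h
  · have : j = 1 := by omega
    subst this
    rw [h23_X1]
    have e : (cross 3 \ {{((3 : ℕ) : ℤ), 1, ((3 : ℕ) : ℤ) - 1}} : Cx) = cross 3 \ {{3, 1, 2}} := rfl
    rw [e, h23_cross3a]
    have hE : Good 2 (edges [2, -1, -2, 1]) :=
      (good_edges (l := [-1, -2]) (a := 2) (b := 1) (by decide)).1
    exact good_add (c := 2) (good_cone_closed (cross_nonempty 2) (by norm_num) (pure_cross 2)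
      (pm_cross 2) (nor_cross 2) (bd_cross 2) (by decide)) hE (by decide) (by decide)
  · have : j = 2 := by omega
    subst this
    rw [h23_X2, h23_GG3, h23_cross3b]
    have hE : Good 2 (edges [-1, 2, 1, -2]) :=
      (good_edges (l := [2, 1]) (a := -1) (b := -2) (by decide)).1
    have hs : Good 2 ({{1, 2}} : Cx) := by
      have h := good_simplex (F := ({1, 2} : Finset ℤ)) (by decide)
      rwa [show ({1, 2} : Finset ℤ).card = 2 from by decide] at h
    exact good_add (c := 2) (good_cone hE (by decide)) hs (by decide) (by decide)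

theorem base_fam {z : ℕ → ℤ} (hz : Adm z) : Fam 3 1 (X3 z) := by
  have hj : ∀ j : ℕ, 1 ≤ j → j ≤ 1 + 1 → j = 1 ∨ j = 2 := by intro j h1 h2; omega
  refine ⟨h23_X0 z, ?_, ?_, ?_, ?_, ?_, ?_, ?_, ?_, ?_, ?_⟩
  · -- P1
    intro j m h1 h2 hm
    rcases hj j h1 h2 with rfl | rfl
    · refine ⟨?_, ?_⟩
      · rw [h23_X1']; exact (base_goodH hm).pure
      · rw [h23_X1]; exact h23_X1_vert m hm
    · rw [h23_X2]
      exact ⟨(base_good hz hm).pure, h23_GG_vert hz hm⟩
  · -- P2
    intro j m h1 h2 hm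
    rcases hj j h1 h2 with rfl | rfl
    · show neg (X3 z 0 m) ⊆ _
      rw [h23_X0]; simp [neg]
    · show neg (X3 z 1 m) ⊆ _
      rw [h23_X1', h23_X2, neg_neg]
      exact h23_HH_sub hm
  · -- P3
    intro j m h1 h2 hm
    rcases hj j h1 h2 with rfl | rfl
    · show Disjoint _ (X3 z 0 m)
      rw [h23_X0]; exact disjoint_empty_right _
    · show Disjoint _ (X3 z 1 m)
      rw [h23_X2, h23_X1, disjoint_singleton_right]
      intro hF
      rcases Nat.lt_or_ge m 4 with h | h
      · have : m = 3 := by omega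
        subst this
        rw [h23_GG3] at hF
        revert hF
        decide
      · have hm4 : (4 : ℤ) ≤ m := by exact_mod_cast h
        have hc1 : ((m - 1 : ℕ) : ℤ) = (m : ℤ) - 1 := by
          push_cast [Nat.cast_sub (by omega : 1 ≤ m)]; ring
        rw [h23_GG_facets h] at hF
        rcases hF with ⟨e, he, hF⟩ | hF | hF
        · -- `m - 1` is not in the path
          have h5 : (m : ℤ) - 1 ∈ insert (m : ℤ) e := by rw [hF]; simp
          rw [mem_insert] at h5
          rcases h5 with h5 | h5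
          · omega
          · have := ((pth_basic hz (m := m - 1) (by omega)).2.1 _).1 (h23_edges_sub _ e he _ h5)
            exact this.2 hc1.symm
        · have h5 : (m : ℤ) ∈ ({(m : ℤ) - 1, z m, nxt (z m) (pth z (m - 1))} : Finset ℤ) := by
            rw [← hF]; simp
          obtain ⟨_, hz2, _, _, _, _⟩ := z_edge hz h
          have hc2 : ((m - 2 : ℕ) : ℤ) = (m : ℤ) - 2 := by
            push_cast [Nat.cast_sub (by omega : 2 ≤ m)]; ring
          rw [mem_insert] at h5
          rcases h5 with h5 | h5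
          · omega
          · have := h23_V_abs (h23_edges_V hz (m := m - 2) (by omega) _ hz2 h5)
            rw [hc2, abs_of_nonneg (by omega)] at this
            omega
        · have h5 : (m : ℤ) ∈ ({-(m : ℤ), -1, -((m : ℤ) - 1)} : Finset ℤ) := by
            rw [← hF]; simp
          simp only [mem_insert, mem_singleton] at h5
          omega
  · -- P4
    intro j m h1 h2 hm s hs ha hc
    rcases hj j h1 h2 with rfl | rfl
    · have : s = ∅ := by
        rw [← card_eq_zero]; omega
      subst this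
      rw [h23_X1]
      exact ⟨_, mem_singleton_self _, empty_subset _⟩
    · rw [h23_X2]
      apply h23_fc_of_bd
      rcases s.eq_empty_or_nonempty with rfl | ⟨x, hx⟩
      · obtain ⟨e, he⟩ := (base_good hz hm).bne
        exact ⟨e, he, empty_subset _⟩
      · obtain ⟨e, he, hxe⟩ := h23_bd_GG_vert hz hm (hs hx)
        refine ⟨e, he, ?_⟩
        have h5 : s.card = 1 := by
          have := card_pos.2 ⟨x, hx⟩
          omega
        obtain ⟨y, rfl⟩ := card_eq_one.1 h5
        rw [mem_singleton] at hx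
        subst hx
        exact singleton_subset_iff.2 hxe
  · -- P5
    intro j m h1 h2 hm s hs hc
    rcases hj j h1 h2 with rfl | rfl
    · rw [h23_X1] at hs ⊢
      obtain ⟨F, hF, hsF⟩ := hs
      rw [mem_singleton] at hF
      have hFc : F.card = 3 := by
        have := (base_goodH (m := m) hm).pure
        rw [h23_negHH] at this
        exact this F (by rw [hF]; exact mem_singleton_self _)
      rw [← hF, bd_single]
      have hne : ∃ x ∈ F, x ∉ s := by
        by_contra hcon
        push Not at hcon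
        have : F.card ≤ s.card := card_le_card hcon
        omega
      obtain ⟨x, hx, hxs⟩ := hne
      refine ⟨F.erase x, ?_, ?_⟩
      · simp only [bsimp, mem_image]; exact ⟨x, hx, rfl⟩
      · intro y hy
        rw [mem_erase]
        exact ⟨fun h => hxs (h ▸ hy), hsF hy⟩
    · rw [h23_X2] at hs ⊢
      rcases s.eq_empty_or_nonempty with rfl | ⟨x, hx⟩
      · obtain ⟨e, he⟩ := (base_good hz hm).bne
        exact ⟨e, he, empty_subset _⟩
      · obtain ⟨F, hF, hsF⟩ := hs
        obtain ⟨e, he, hxe⟩ := h23_bd_GG_vert hz hm ((h23_GG_vert hz hm F hF).1 (hsF hx))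
        refine ⟨e, he, ?_⟩
        have h5 : s.card = 1 := by
          have := card_pos.2 ⟨x, hx⟩
          omega
        obtain ⟨y, rfl⟩ := card_eq_one.1 h5
        rw [mem_singleton] at hx
        subst hx
        exact singleton_subset_iff.2 hxe
  · -- P6
    intro j m h1 h2 hm
    rcases hj j h1 h2 with rfl | rfl
    · rw [h23_X1']; exact base_goodH hm
    · rw [h23_X2]; exact base_good hz hm
  · -- P7
    intro j m' h1 h2 hm'
    obtain ⟨m, rfl⟩ : ∃ m, m' = m + 1 := ⟨m' - 1, by omega⟩
    have hm : 3 ≤ m := by omega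
    have hm3 : (3 : ℤ) ≤ m := by exact_mod_cast hm
    rcases hj j h1 h2 with rfl | rfl
    · refine ⟨?_, ?_⟩
      · rw [h23_lift1 hz hm, h23_X1]
        intro F hF
        rw [mem_singleton] at hF
        subst hF
        apply mem_union_right
        simp only [cone, bsimp, mem_image]
        refine ⟨({(m : ℤ), 1, (m : ℤ) - 1} : Finset ℤ).erase ((m : ℤ) - 1),
          ⟨(m : ℤ) - 1, by simp, rfl⟩, ?_⟩
        ext x
        simp only [mem_insert, mem_erase, mem_singleton]
        push_cast
        constructor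
        · rintro (h | ⟨h, h5 | h5 | h5⟩)
          · exact Or.inl h
          · right; right; omega
          · right; left; exact h5
          · exact absurd h5 h
        · rintro (h | h | h)
          · exact Or.inl h
          · right; exact ⟨by omega, Or.inr (Or.inl h)⟩
          · right; exact ⟨by omega, Or.inl (by omega)⟩
      · show X3 z 0 (m + 1) ⊆ _
        rw [h23_X0]; exact empty_subset _
    · have hcone : ∀ e ∈ bd (GG z m), insert ((m : ℤ) + 1) e ∈
          bd (lift (X3 z) 2 (m + 1)) := by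
        intro e he
        rw [h23_lift2 hz hm]
        apply mem_union_left
        rw [mem_sdiff]
        refine ⟨mem_union_right _ ?_, fun h => ?_⟩
        · simp only [cone, mem_image]; exact ⟨e, he, rfl⟩
        · exact h23_HH_neg h (x := (m : ℤ) + 1) (by omega) (by omega) (mem_insert_self _ _)
      refine ⟨?_, ?_⟩
      · rw [h23_X2]
        intro F hF
        rw [h23_GG_facets (by omega)] at hF
        have hc1 : (((m + 1 : ℕ) : ℤ)) = (m : ℤ) + 1 := by push_cast; ring
        rw [hc1, Nat.add_sub_cancel] at hF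
        rcases hF with ⟨e, he, rfl⟩ | rfl | rfl
        · apply hcone
          rw [h23_bd_GG hz hm]
          exact mem_union_left _ he
        · rw [h23_lift2 hz hm]
          apply mem_union_left
          rw [mem_sdiff]
          have e1 : (m : ℤ) + 1 - 1 = m := by ring
          rw [e1]
          refine ⟨mem_union_left _ (h23_third hz hm), fun h => ?_⟩
          exact h23_HH_neg h (x := (m : ℤ)) (by omega) (by omega) (mem_insert_self _ _)
        · rw [h23_lift2 hz hm]
          apply mem_union_right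
          simp only [cone, bsimp, mem_image]
          refine ⟨({-(m : ℤ), -1, -((m : ℤ) - 1)} : Finset ℤ).erase (-((m : ℤ) - 1)),
            ⟨-((m : ℤ) - 1), by simp, rfl⟩, ?_⟩
          ext x
          simp only [mem_insert, mem_erase, mem_singleton]
          constructor
          · rintro (h | ⟨h, h5 | h5 | h5⟩)
            · exact Or.inl h
            · right; right; omega
            · right; left; exact h5
            · exact absurd h5 h
          · rintro (h | h | h)
            · exact Or.inl h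
            · right; exact ⟨by omega, Or.inr (Or.inl h)⟩
            · right; exact ⟨by omega, Or.inl (by omega)⟩
      · show X3 z 1 (m + 1) ⊆ _
        rw [h23_X1]
        intro F hF
        rw [mem_singleton] at hF
        subst hF
        have h5 : insert ((m : ℤ) + 1) ({1, (m : ℤ)} : Finset ℤ) ∈
            bd (lift (X3 z) 2 (m + 1)) := by
          apply hcone
          rw [h23_bd_GG hz hm]
          apply mem_union_right
          simp
        have e2 : ({((m + 1 : ℕ) : ℤ), 1, ((m + 1 : ℕ) : ℤ) - 1} : Finset ℤ) =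
            insert ((m : ℤ) + 1) ({1, (m : ℤ)} : Finset ℤ) := by
          have e3 : ((m + 1 : ℕ) : ℤ) - 1 = m := by push_cast; ring
          rw [e3]; push_cast; rfl
        rw [e2]; exact h5
  · -- P8
    intro j m h1 h2 hm
    rcases hj j h1 h2 with rfl | rfl
    · exact base_P8a hz (by omega)
    · exact base_P8b hz (by omega)
  · -- P9
    intro j m h1 h2 hm
    have : j = 2 := by omega
    subst this
    exact base_P9 hz (by omega)
  · -- P10
    intro j h1 h2
    exact base_P10 h1 (by omega)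

end Pool.Agent.H30.NZ
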