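import Mathlib

/-!
# MP_63054e_co: basic definitions

A complex is given by the finite set of its facets; vertices are integers, the antipode is `-`.
-/

namespace Pool.Agent.H30.NZ

open Finset

/-- A complex, given by its facets. -/
abbrev Cx := Finset (Finset ℤ)

/-- `s` is a face of the complex with facets `K`. -/
def Fc (K : Cx) (s : Finset ℤ) : Prop := ∃ F ∈ K, s ⊆ F

/-- The vertices of `K`. -/
def vts (K : Cx) : Finset ℤ := K.biUnion id

/-- The cone with apex `w`. -/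
def cone (w : ℤ) (K : Cx) : Cx := K.image (fun F => insert w F)

/-- The antipodal set. -/
def ngs (s : Finset ℤ) : Finset ℤ := s.image (fun x => -x)

/-- The antipodal complex. -/
def neg (K : Cx) : Cx := K.image ngs

/-- All facets have `c` vertices. -/
def Pure (c : ℕ) (K : Cx) : Prop := ∀ F ∈ K, F.card = c

/-- The facets of `K` containing `s`. -/
def star (K : Cx) (s : Finset ℤ) : Cx := K.filter (fun F => s ⊆ F)

/-- The ridges of `K`: facets minus one vertex. -/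
def ridges (K : Cx) : Cx := K.biUnion (fun F => F.image (fun x => F.erase x))

/-- The boundary: ridges in exactly one facet. -/
def bd (K : Cx) : Cx := (ridges K).filter (fun G => (star K G).card = 1)

/-- Every ridge lies in at most two facets. -/
def PM (K : Cx) : Prop := ∀ G ∈ ridges K, (star K G).card ≤ 2

/-- Normality: the star of every face is strongly connected. -/
def Nor (K : Cx) : Prop := ∀ (s : Finset ℤ) (P : Cx), P ⊆ K → Fc P s → Fc (K \ P) s →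
  ∃ F ∈ P, ∃ F' ∈ K \ P, ∃ x ∈ F, s ⊆ F.erase x ∧ F.erase x ⊆ F'

/-- The geometric realization, in `ℤ → ℝ`. -/
def real (K : Cx) : Set (ℤ → ℝ) :=
  {x | (∀ i, 0 ≤ x i) ∧ ∃ F ∈ K, (∀ i, i ∉ F → x i = 0) ∧ ∑ i ∈ F, x i = 1}

/-- `f` is piecewise linear on `X`: continuous, with values chosen from finitely many
affine maps. -/
def PLOn (f : (ℤ → ℝ) → (ℤ → ℝ)) (X : Set (ℤ → ℝ)) : Prop :=
  ContinuousOn f X ∧
    ∃ S : Set ((ℤ → ℝ) →ᵃ[ℝ] (ℤ → ℝ)), S.Finite ∧ ∀ x ∈ X, ∃ A ∈ S, f x = A x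

/-- `f : X → Y` is a piecewise linear homeomorphism with inverse `g`. -/
structure PLH (f g : (ℤ → ℝ) → (ℤ → ℝ)) (X Y : Set (ℤ → ℝ)) : Prop where
  pf : PLOn f X
  pg : PLOn g Y
  mf : ∀ x ∈ X, f x ∈ Y
  mg : ∀ y ∈ Y, g y ∈ X
  gf : ∀ x ∈ X, g (f x) = x
  fg : ∀ y ∈ Y, f (g y) = y

/-- `B` is, relative to its boundary, the cone over its boundary. -/
def Ball (B : Cx) : Prop := ∀ u, u ∉ vts B →
  ∃ f g, PLH f g (real B) (real (cone u (bd B))) ∧ ∀ x ∈ real (bd B), f x = x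

/-- Good balls (facets with `c` vertices). -/
structure Good (c : ℕ) (B : Cx) : Prop where
  ne : B.Nonempty
  pure : Pure c B
  pm : PM B
  nor : Nor B
  bne : (bd B).Nonempty
  bpm : PM (bd B)
  bnor : Nor (bd B)
  bbd : bd (bd B) = ∅
  ball : Ball B

/-- The vertex set `{±1, …, ±m}`. -/
def V (m : ℕ) : Finset ℤ :=
  (Finset.range m).image (fun i : ℕ => (i : ℤ) + 1) ∪
    (Finset.range m).image (fun i : ℕ => -((i : ℤ) + 1))

/-- Antipode-free sets. -/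
def AF (s : Finset ℤ) : Prop := ∀ x ∈ s, -x ∉ s

instance (s : Finset ℤ) : Decidable (AF s) := by unfold AF; infer_instance

/-- The boundary of the cross-polytope with vertices `V m`. -/
def cross (m : ℕ) : Cx := ((V m).powersetCard m).filter (fun s => AF s)

/-- The lift of a family. -/
def lift (X : ℕ → ℕ → Cx) (j : ℕ) : ℕ → Cx
  | 0 => ∅
  | m + 1 => cone ((m : ℤ) + 1) (X j m) ∪ cone (-((m : ℤ) + 1)) (neg (X (j - 1) m))

/-- The spheres: start with the cross-polytope with `2 k` pairs, then replace `± C m` by cones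
with apices `± (m + 1)`; `sphR k C r` has `m = 2 k + r` pairs of vertices. -/
def sphR (k : ℕ) (C : ℕ → Cx) : ℕ → Cx
  | 0 => cross (2 * k)
  | r + 1 => (sphR k C r \ (C (2 * k + r) ∪ neg (C (2 * k + r)))) ∪
      (cone (((2 * k + r : ℕ) : ℤ) + 1) (bd (C (2 * k + r))) ∪
        cone (-(((2 * k + r : ℕ) : ℤ) + 1)) (neg (bd (C (2 * k + r)))))

/-- The sphere with `m` pairs of vertices (`m ≥ 2 k`). -/
def sph (k : ℕ) (C : ℕ → Cx) (m : ℕ) : Cx := sphR k C (m - 2 * k)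

/-- Add the top member `sph \ Y k` with index `k + 1`. -/
def addTop (k : ℕ) (Y : ℕ → ℕ → Cx) (j m : ℕ) : Cx :=
  if j = k + 1 then sph k (Y k) m \ Y k m else Y j m

/-- The invariants of the construction; facets have `c` vertices, members have indices
`1, …, t + 1`. -/
structure Fam (c t : ℕ) (X : ℕ → ℕ → Cx) : Prop where
  zero : ∀ m, X 0 m = ∅
  P1 : ∀ j m, 1 ≤ j → j ≤ t + 1 → c ≤ m → Pure c (X j m) ∧ ∀ F ∈ X j m, F ⊆ V m ∧ AF F
  P2 : ∀ j m, 1 ≤ j → j ≤ t + 1 → c ≤ m → neg (X (j - 1) m) ⊆ X j m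
  P3 : ∀ j m, 1 ≤ j → j ≤ t + 1 → c ≤ m → Disjoint (X j m) (X (j - 1) m)
  P4 : ∀ j m, 1 ≤ j → j ≤ t + 1 → c ≤ m → ∀ s, s ⊆ V m → AF s → s.card + 1 ≤ j → Fc (X j m) s
  P5 : ∀ j m, 1 ≤ j → j ≤ t + 1 → c ≤ m → ∀ s, Fc (X j m) s → s.card + j ≤ c →
    Fc (bd (X j m)) s
  P6 : ∀ j m, 1 ≤ j → j ≤ t + 1 → c ≤ m → Good c (X j m)
  P7 : ∀ j m, 1 ≤ j → j ≤ t + 1 → c + 1 ≤ m → X j m ⊆ bd (lift X j m) ∧
    X (j - 1) m ⊆ bd (lift X j m)
  P8 : ∀ j m, 1 ≤ j → j ≤ t + 1 → c + 1 ≤ m → Good c (bd (lift X j m) \ X j m)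
  P9 : ∀ j m, 2 ≤ j → j ≤ t + 1 → c + 1 ≤ m → Good c (bd (lift X j m) \ X (j - 1) m)
  P10 : ∀ j, 1 ≤ j → j ≤ t + 1 → Good c (cross c \ X j c)

/-- The facets of the boundary of a simplex. -/
def bsimp (F : Finset ℤ) : Cx := F.image (fun x => F.erase x)

/-- `|K|` is PL homeomorphic to the boundary of a simplex with `c + 1` vertices. -/
def IsSph (c : ℕ) (K : Cx) : Prop := ∃ F : Finset ℤ, F.card = c + 1 ∧
  ∃ f g, PLH f g (real K) (real (bsimp F))

/-- The link of a vertex. -/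
def lk (K : Cx) (v : ℤ) : Cx := (K.filter (fun F => v ∈ F)).image (fun F => F.erase v)

/-- Insert `y` right after `x` in a list. -/
def insAfter (x y : ℤ) : List ℤ → List ℤ
  | [] => []
  | a :: l => if a = x then a :: y :: l else a :: insAfter x y l

/-- The edges of a path given as a list. -/
def edges : List ℤ → Cx
  | [] => ∅
  | [_] => ∅
  | a :: b :: l => insert {a, b} (edges (b :: l))

/-- The rim path: `pth z m` runs from `2` to `1` through `V m \ {m}` (for `m ≥ 3`);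
`z m` is the vertex after which `m - 1` is inserted. -/
def pth (z : ℕ → ℤ) : ℕ → List ℤ
  | 0 => []
  | 1 => []
  | 2 => [2, -1, -2, 1]
  | 3 => [2, -1, -3, -2, 1]
  | m + 4 => insAfter (-1) (-((m : ℤ) + 4)) (insAfter (z (m + 4)) ((m : ℤ) + 3) (pth z (m + 3)))

/-- The vertex following `x` in a list. -/
def nxt (x : ℤ) : List ℤ → ℤ
  | [] => 0
  | [_] => 0
  | a :: b :: l => if a = x then b else nxt x (b :: l)

/-- Admissible sequences: `z 4 = 2`, `z 5 = -2`, and for `m ≥ 6`, `2 ≤ z m ≤ m - 3`,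
`z m ≠ z (m - 1)`. -/
def Adm (z : ℕ → ℤ) : Prop := z 4 = 2 ∧ z 5 = -2 ∧
  ∀ m : ℕ, 6 ≤ m → 2 ≤ z m ∧ z m + 3 ≤ (m : ℤ) ∧ z m ≠ z (m - 1)

/-- The triangle `H_m`. -/
def HH (m : ℕ) : Cx := {{-(m : ℤ), -1, -((m : ℤ) - 1)}}

/-- The disks `G_m`. -/
def GG (z : ℕ → ℤ) (m : ℕ) : Cx :=
  if m = 3 then {{3, 2, -1}, {3, -1, -2}, {3, -2, 1}, {-3, -1, -2}}
  else cone (m : ℤ) (edges (pth z (m - 1))) ∪
    {{(m : ℤ) - 1, z m, nxt (z m) (pth z (m - 1))}, {-(m : ℤ), -1, -((m : ℤ) - 1)}}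

/-- The base family (triangles, `c = 3`, `t = 1`). -/
def X3 (z : ℕ → ℤ) (j m : ℕ) : Cx :=
  if j = 1 then neg (HH m) else if j = 2 then GG z m else ∅

/-- The tower of families: `XX z s` has `c = 2 s + 3`, `t = s + 1`. -/
def XX (z : ℕ → ℤ) : ℕ → ℕ → ℕ → Cx
  | 0 => X3 z
  | s + 1 => lift (addTop (s + 2) (lift (XX z s)))

/-- The final spheres, `k ≥ 2`: facets of `SS z k n`. -/
def SS (z : ℕ → ℤ) (k n : ℕ) : Cx := sph k (lift (XX z (k - 2)) k) n

/-- The cone of a map. -/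
noncomputable def cnf (w : ℤ) (f : (ℤ → ℝ) → (ℤ → ℝ)) (z : ℤ → ℝ) : ℤ → ℝ :=
  if z w = 1 then Pi.single w 1
  else (1 - z w) • f ((1 - z w)⁻¹ • (Function.update z w 0)) + z w • Pi.single w 1

/-- Subdivision of the edge `a b` with the new vertex `v`. -/
noncomputable def sub2 (a b v : ℤ) (x : ℤ → ℝ) : ℤ → ℝ :=
  x - min (x a) (x b) • (Pi.single a 1 + Pi.single b 1) + (2 * min (x a) (x b)) • Pi.single v 1

/-- The inverse of `sub2`. -/
noncomputable def weld2 (a b v : ℤ) (y : ℤ → ℝ) : ℤ → ℝ :=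
  y - y v • Pi.single v 1 + (y v / 2) • (Pi.single a 1 + Pi.single b 1)

/-- Relabelling of the vertices. -/
def rel (σ : Equiv.Perm ℤ) (x : ℤ → ℝ) : ℤ → ℝ := fun i => x (σ.symm i)

/-- Iterated link. -/
def lkl (K : Cx) : List ℤ → Cx
  | [] => K
  | v :: l => lkl (lk K v) l

/-- The list `n, n - 1, …` of length `r`. -/
def dn (n : ℕ) : ℕ → List ℤ
  | 0 => []
  | r + 1 => (n : ℤ) :: dn (n - 1) r

/-- The faces of the complex with facets `K`. -/
def dwn (K : Cx) : Finset (Finset ℤ) := K.biUnion Finset.powerset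

/-- All facts about the spheres (with `C = lift X k`, `k = t + 1`). -/
structure SphFacts (k : ℕ) (C : ℕ → Cx) : Prop where
  sub : ∀ m, 2 * k ≤ m → C m ⊆ sph k C m
  disj : ∀ m, 2 * k ≤ m → Disjoint (C m) (neg (C m))
  pure : ∀ m, 2 * k ≤ m → Pure (2 * k) (sph k C m)
  vert : ∀ m, 2 * k ≤ m → ∀ F ∈ sph k C m, F ⊆ V m ∧ AF F
  symm : ∀ m, 2 * k ≤ m → neg (sph k C m) = sph k C m
  pm : ∀ m, 2 * k ≤ m → PM (sph k C m)
  nor : ∀ m, 2 * k ≤ m → Nor (sph k C m)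
  closed : ∀ m, 2 * k ≤ m → bd (sph k C m) = ∅
  nbr : ∀ m, 2 * k ≤ m → ∀ s, s ⊆ V m → AF s → s.card ≤ k → Fc (sph k C m \ C m) s
  good : ∀ m, 2 * k ≤ m → Good (2 * k) (C m) ∧ Good (2 * k) (sph k C m \ C m)

end Pool.Agent.H30.NZ
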