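import Pool.Agent.H30.NZ.Basic

/-!
# MP_63054e_co: the notions of the statement

Vertex labels are integers; the vertex set is `{±1, …, ±n}`; the antipode of `v` is `-v`.
-/

namespace Pool.Agent.H30.NZ

open Finset

/-- A finite abstract simplicial complex with integer vertex labels, given by its faces. -/
def IsComplex (D : Finset (Finset ℤ)) : Prop := ∅ ∈ D ∧ ∀ s ∈ D, ∀ t, t ⊆ s → t ∈ D

/-- The vertices of a complex. -/
def Verts (D : Finset (Finset ℤ)) : Set ℤ := {v | {v} ∈ D}

/-- Centrally symmetric complex with the `2 n` vertices `±1, …, ±n`: the antipodal map sends faces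
to faces and no face contains a vertex together with its antipode. -/
def IsCS (n : ℕ) (D : Finset (Finset ℤ)) : Prop :=
  IsComplex D ∧ Verts D = {v : ℤ | v ≠ 0 ∧ |v| ≤ (n : ℤ)} ∧ (∀ s ∈ D, s.image (fun v => -v) ∈ D) ∧
    ∀ s ∈ D, ∀ v ∈ s, -v ∉ s

/-- Every `k`-set of vertices without antipodal pairs is a face. -/
def CSNeighborly (k n : ℕ) (D : Finset (Finset ℤ)) : Prop :=
  ∀ s : Finset ℤ, (∀ v ∈ s, v ≠ 0 ∧ |v| ≤ (n : ℤ)) → (∀ v ∈ s, -v ∉ s) → s.card = k → s ∈ D

/-- The geometric realization (barycentric coordinates): the points of `ℤ → ℝ` with nonnegative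
coordinates of sum one whose support is contained in a face. -/
def Realization (D : Finset (Finset ℤ)) : Set (ℤ → ℝ) :=
  {x | (∀ i, 0 ≤ x i) ∧ ∃ s ∈ D, (∀ i, i ∉ s → x i = 0) ∧ ∑ i ∈ s, x i = 1}

/-- `X` and `Y` are PL homeomorphic: there is a homeomorphism `f : X → Y` with inverse `g` such
that `f` and `g` are piecewise linear (continuous and with values chosen from finitely many affine
maps, see `PLOn`). -/
def PLHomeomorphic (X Y : Set (ℤ → ℝ)) : Prop := ∃ f g, PLH f g X Y

/-- The boundary complex of the `(d + 1)`-simplex with vertices `0, …, d + 1`. -/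
def simplexBoundary (d : ℕ) : Finset (Finset ℤ) :=
  (((Finset.range (d + 2)).image (fun i : ℕ => (i : ℤ))).powerset).erase
    ((Finset.range (d + 2)).image (fun i : ℕ => (i : ℤ)))

/-- Combinatorial `d`-spheres. -/
def IsCombSphere (d : ℕ) (D : Finset (Finset ℤ)) : Prop :=
  PLHomeomorphic (Realization D) (Realization (simplexBoundary d))

/-- Isomorphism of complexes: a bijection of the vertex sets which maps faces exactly onto
faces. -/
def Isom (D D' : Finset (Finset ℤ)) : Prop :=
  ∃ φ : ℤ → ℤ, Set.BijOn φ (Verts D) (Verts D') ∧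
    (∀ s ∈ D, s.image φ ∈ D') ∧ ∀ t ∈ D', ∃ s ∈ D, s.image φ = t

end Pool.Agent.H30.NZ
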