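import Pool.Agent.H30.NZ.Basic
import Pool.Agent.H30.NZ.Stmt

/-!
# MP_63054e_co: counting
-/

namespace Pool.Agent.H30.NZ
open Finset

/-- The admissible sequence given by a sequence of choices. -/
private def h13Z (c : ℕ → ℕ) : ℕ → ℤ
  | 0 => 0
  | 1 => 0
  | 2 => 0
  | 3 => 0
  | 4 => 2
  | 5 => -2
  | 6 => 2
  | i + 7 => if ((c i : ℤ) + 2) < h13Z c (i + 6) then (c i : ℤ) + 2 else (c i : ℤ) + 3

private theorem h13Z_succ (c : ℕ → ℕ) (i : ℕ) : h13Z c (i + 7) =
    if ((c i : ℤ) + 2) < h13Z c (i + 6) then (c i : ℤ) + 2 else (c i : ℤ) + 3 := by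
  rw [h13Z]

private theorem h13Z_adm (c : ℕ → ℕ) (hc : ∀ i, c i ≤ i) : Adm (h13Z c) := by
  refine ⟨rfl, rfl, ?_⟩
  intro m hm
  rcases Nat.lt_or_ge m 7 with h | h
  · have h6 : m = 6 := by omega
    subst h6
    refine ⟨?_, ?_, ?_⟩
    · change (2 : ℤ) ≤ 2
      exact le_rfl
    · change (2 : ℤ) + 3 ≤ ((6 : ℕ) : ℤ)
      norm_num
    · change (2 : ℤ) ≠ -2
      norm_num
  · obtain ⟨i, rfl⟩ : ∃ i, m = i + 7 := ⟨m - 7, by omega⟩
    have hci : (c i : ℤ) ≤ (i : ℤ) := by exact_mod_cast hc i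
    have h0 : (0 : ℤ) ≤ (c i : ℤ) := Int.natCast_nonneg _
    have h1 : i + 7 - 1 = i + 6 := by omega
    rw [h1, h13Z_succ]
    push_cast
    split_ifs with h2
    · refine ⟨by omega, by omega, by omega⟩
    · refine ⟨by omega, by omega, by omega⟩

private theorem h13Z_inj (c c' : ℕ → ℕ) (r : ℕ)
    (h : ∀ i, 4 ≤ i → i ≤ r + 6 → h13Z c i = h13Z c' i) : ∀ i, i < r → c i = c' i := by
  intro i hi
  have h1 := h (i + 7) (by omega) (by omega)
  have h2 := h (i + 6) (by omega) (by omega)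
  rw [h13Z_succ, h13Z_succ, h2] at h1
  have h3 : (c i : ℤ) = (c' i : ℤ) := by
    split_ifs at h1 with h4 h5 h5
    · omega
    · omega
    · omega
    · omega
  exact_mod_cast h3

/-- `r !` admissible sequences which differ in `[4, r + 6]` -/
theorem exists_adm (r : ℕ) : ∃ Z : ((i : Fin r) → Fin (i + 1)) → (ℕ → ℤ), (∀ c, Adm (Z c)) ∧
    ∀ c c', (∀ i, 4 ≤ i → i ≤ r + 6 → Z c i = Z c' i) → c = c' := by
  classical
  refine ⟨fun c => h13Z (fun i => if h : i < r then ((c ⟨i, h⟩ : Fin (i + 1)) : ℕ) else 0),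
    ?_, ?_⟩
  · intro c
    apply h13Z_adm
    intro i
    by_cases h : i < r
    · rw [dif_pos h]
      exact Nat.lt_succ_iff.1 (c ⟨i, h⟩).2
    · rw [dif_neg h]
      exact Nat.zero_le i
  · intro c c' h
    have h1 := h13Z_inj _ _ r h
    funext i
    have h2 := h1 i.1 i.2
    simp only [i.2, dif_pos] at h2
    exact Fin.ext h2

/-- K4: abstract pigeonhole -/
theorem many_classes {ι α β : Type} [Fintype ι] [DecidableEq β] (T : ι → α)
    (R : α → α → Prop) (hR : Equivalence R) (M : ℕ) (S : Finset β)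
    (hS : S.card ≤ M)
    (tag : ∀ i j, R (T i) (T j) → β) (htag : ∀ i j h, tag i j h ∈ S)
    (hinj : ∀ i i' j h h', tag i j h = tag i' j h' → i = i') :
    ∃ J : Finset ι, Fintype.card ι ≤ M * J.card ∧ ∀ i ∈ J, ∀ j ∈ J, R (T i) (T j) → i = j := by
  classical
  let s : Setoid ι :=
    { r := fun i j => R (T i) (T j)
      iseqv := ⟨fun i => hR.refl _, fun h => hR.symm h, fun h h' => hR.trans h h'⟩ }
  let f : ι → ι := fun i => (Quotient.mk s i).out
  have hf : ∀ i, R (T (f i)) (T i) := fun i => Quotient.mk_out (s := s) i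
  refine ⟨Finset.univ.image f, ?_, ?_⟩
  · refine Finset.card_le_mul_card_image Finset.univ M ?_
    intro j hj
    refine le_trans ?_ hS
    refine Finset.card_le_card_of_injOn
      (fun i => if h : R (T i) (T j) then tag i j h else tag j j (hR.refl _)) ?_ ?_
    · intro i hi
      have h1 : f i = j := (Finset.mem_filter.1 hi).2
      have h2 : R (T i) (T j) := by
        rw [← h1]
        exact hR.symm (hf i)
      simp only [dif_pos h2]
      exact htag _ _ _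
    · intro i hi i' hi' he
      have h1 : f i = j := (Finset.mem_filter.1 hi).2
      have h2 : R (T i) (T j) := by
        rw [← h1]
        exact hR.symm (hf i)
      have h1' : f i' = j := (Finset.mem_filter.1 hi').2
      have h2' : R (T i') (T j) := by
        rw [← h1']
        exact hR.symm (hf i')
      simp only [dif_pos h2, dif_pos h2'] at he
      exact hinj _ _ _ _ _ he
  · intro i hi j hj hij
    obtain ⟨a, -, rfl⟩ := Finset.mem_image.1 hi
    obtain ⟨b, -, rfl⟩ := Finset.mem_image.1 hj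
    have h1 : R (T a) (T b) := hR.trans (hR.symm (hf a)) (hR.trans hij (hf b))
    have h2 : (Quotient.mk s a) = Quotient.mk s b := Quotient.sound h1
    change (Quotient.mk s a).out = (Quotient.mk s b).out
    rw [h2]

/-- K5: numerics -/
theorem numeric (k : ℕ) : ∃ n0, ∀ n ≥ n0, 2 ^ n * (2 * n) ^ (2 * k) ≤ (n - 2 * k - 4).factorial := by
  -- `(2 n)^(2 k) ≤ 2^n` for large `n`
  have h1 : ∃ N1 : ℕ, ∀ n ≥ N1, (2 * n) ^ (2 * k) ≤ 2 ^ n := by
    have h2 := tendsto_pow_const_div_const_pow_of_one_lt (2 * k) (r := (2 : ℝ)) (by norm_num)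
    have h3 : (0 : ℝ) < ((2 : ℝ) ^ (2 * k))⁻¹ := by positivity
    have h4 := (h2.eventually (gt_mem_nhds h3))
    obtain ⟨N, hN⟩ := Filter.eventually_atTop.1 h4
    refine ⟨N, fun n hn => ?_⟩
    have h5 : (n : ℝ) ^ (2 * k) / 2 ^ n < ((2 : ℝ) ^ (2 * k))⁻¹ := hN n hn
    rw [div_lt_iff₀ (by positivity)] at h5
    have h6 : (2 : ℝ) ^ (2 * k) * (n : ℝ) ^ (2 * k) < 2 ^ n := by
      have h7 := mul_lt_mul_of_pos_left h5 (show (0 : ℝ) < 2 ^ (2 * k) by positivity)
      rw [← mul_assoc, mul_inv_cancel₀ (by positivity), one_mul] at h7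
      exact h7
    have h8 : ((2 * n : ℕ) : ℝ) ^ (2 * k) ≤ ((2 : ℕ) : ℝ) ^ n := by
      push_cast
      rw [mul_pow]
      exact h6.le
    exact_mod_cast h8
  have h2 : ∃ N2 : ℕ, ∀ m ≥ N2, 4 ^ (2 * k + 4) * 4 ^ m ≤ m.factorial := by
    have h2 := FloorSemiring.tendsto_pow_div_factorial_atTop (4 : ℝ)
    have h3 : (0 : ℝ) < ((4 : ℝ) ^ (2 * k + 4))⁻¹ := by positivity
    have h4 := (h2.eventually (gt_mem_nhds h3))
    obtain ⟨N, hN⟩ := Filter.eventually_atTop.1 h4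
    refine ⟨N, fun n hn => ?_⟩
    have h5 : (4 : ℝ) ^ n / (n.factorial : ℝ) < ((4 : ℝ) ^ (2 * k + 4))⁻¹ := hN n hn
    have h0 : (0 : ℝ) < (n.factorial : ℝ) := by exact_mod_cast n.factorial_pos
    rw [div_lt_iff₀ h0] at h5
    have h6 : (4 : ℝ) ^ (2 * k + 4) * (4 : ℝ) ^ n < (n.factorial : ℝ) := by
      have h7 := mul_lt_mul_of_pos_left h5 (show (0 : ℝ) < 4 ^ (2 * k + 4) by positivity)
      rw [← mul_assoc, mul_inv_cancel₀ (by positivity), one_mul] at h7
      exact h7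
    exact_mod_cast h6.le
  obtain ⟨N1, hN1⟩ := h1
  obtain ⟨N2, hN2⟩ := h2
  refine ⟨N1 + N2 + 2 * k + 4, fun n hn => ?_⟩
  obtain ⟨m, rfl⟩ : ∃ m, n = m + (2 * k + 4) := ⟨n - (2 * k + 4), by omega⟩
  have h3 := hN1 (m + (2 * k + 4)) (by omega)
  have h4 := hN2 m (by omega)
  have h5 : m + (2 * k + 4) - 2 * k - 4 = m := by omega
  rw [h5]
  calc 2 ^ (m + (2 * k + 4)) * (2 * (m + (2 * k + 4))) ^ (2 * k)
      ≤ 2 ^ (m + (2 * k + 4)) * 2 ^ (m + (2 * k + 4)) := Nat.mul_le_mul_left _ h3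
    _ = 4 ^ (2 * k + 4) * 4 ^ m := by
        rw [← mul_pow, pow_add]
        ring
    _ ≤ m.factorial := h4

end Pool.Agent.H30.NZ
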