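import Pool.Agent.H30.NZ.Comb
import Pool.Agent.H30.NZ.Ops
import Pool.Agent.H30.NZ.Cross
import Pool.Agent.H30.NZ.GoodOps

/-!
# MP_63054e_co: the lift of a family, part A
-/

namespace Pool.Agent.H30.NZ

open Finset

/-! ### vertices and the new apices -/

theorem h80_vts_of {K : Cx} {m : ℕ} (h : ∀ F ∈ K, F ⊆ V m ∧ AF F) {x : ℤ} (hx : x ∈ vts K) :
    x ∈ V m := by
  obtain ⟨F, hF, hxF⟩ := mem_biUnion.1 hx
  exact (h F hF).1 hxF

theorem h80_not1 {K : Cx} {m : ℕ} (h : ∀ F ∈ K, F ⊆ V m ∧ AF F) : ((m : ℤ) + 1) ∉ vts K :=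
  fun hx => not_mem_V.1 (h80_vts_of h hx)

theorem h80_not2 {K : Cx} {m : ℕ} (h : ∀ F ∈ K, F ⊆ V m ∧ AF F) : (-((m : ℤ) + 1)) ∉ vts K :=
  fun hx => not_mem_V.2 (h80_vts_of h hx)

theorem h80_neg_vert {K : Cx} {m : ℕ} (h : ∀ F ∈ K, F ⊆ V m ∧ AF F) :
    ∀ F ∈ neg K, F ⊆ V m ∧ AF F := by
  intro F hF
  have := h _ (mem_neg.1 hF)
  exact ⟨ngs_subset_V.1 this.1, af_ngs.1 this.2⟩

theorem h80_not2c {K : Cx} {m : ℕ} (h : ∀ F ∈ K, F ⊆ V m ∧ AF F) :
    (-((m : ℤ) + 1)) ∉ vts (cone ((m : ℤ) + 1) K) := by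
  intro hx
  rcases (mem_vts_cone.1 hx).2 with h1 | h1
  · omega
  · exact h80_not2 h h1

theorem h80_cone_empty (w : ℤ) : cone w (∅ : Cx) = ∅ := by
  simp [cone]

theorem h80_neg_empty : neg (∅ : Cx) = ∅ := by
  simp [neg]

theorem h80_nn (K : Cx) : neg (neg K) = K := by
  have h : (ngs ∘ ngs) = id := by
    funext s
    simp [ngs, Finset.image_image]
  unfold neg
  rw [image_image, h, image_id]

theorem h80_bd_empty : bd (∅ : Cx) = ∅ := by
  simp [bd, ridges]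

theorem h80_lift_zero {c t : ℕ} {X : ℕ → ℕ → Cx} (hX : Fam c t X) (m : ℕ) : lift X 0 m = ∅ := by
  cases m with
  | zero => rfl
  | succ m =>
    rw [lift, hX.zero, h80_neg_empty, h80_cone_empty, h80_cone_empty, union_empty]

theorem h80_vert {c t : ℕ} {X : ℕ → ℕ → Cx} (hX : Fam c t X) {j m : ℕ} (hjt : j ≤ t + 1)
    (hm : c ≤ m) : Pure c (X j m) ∧ (∀ F ∈ X j m, F ⊆ V m ∧ AF F) ∧ PM (X j m) := by
  rcases Nat.eq_zero_or_pos j with h0 | h0
  · subst h0
    rw [hX.zero m]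
    refine ⟨fun F hF => absurd hF (notMem_empty F), fun F hF => absurd hF (notMem_empty F), ?_⟩
    intro G hG
    simp [ridges] at hG
  · exact ⟨(hX.P1 j m h0 hjt hm).1, (hX.P1 j m h0 hjt hm).2, (hX.P6 j m h0 hjt hm).pm⟩

/-- boundary of one lifting step -/
theorem h80_bd_step {c m : ℕ} {A B : Cx} (hA : Pure c A) (hAv : ∀ F ∈ A, F ⊆ V m ∧ AF F)
    (hAp : PM A) (hBp : PM B) (hBA : neg B ⊆ A) :
    bd (cone ((m : ℤ) + 1) A ∪ cone (-((m : ℤ) + 1)) (neg B)) = cone ((m : ℤ) + 1) (bd A) ∪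
      cone (-((m : ℤ) + 1)) (neg (bd B)) ∪ (A \ neg B) := by
  have hs : neg B ⊆ bd (cone ((m : ℤ) + 1) A) := by
    rw [bd_cone hA (h80_not1 hAv)]
    exact hBA.trans subset_union_left
  rw [bd_add (pure_cone hA (h80_not1 hAv)) hs (h80_not2c hAv) (pm_cone hA (h80_not1 hAv) hAp)
    (pm_neg hBp), bd_cone hA (h80_not1 hAv), bd_neg, union_sdiff_distrib]
  have h1 : cone ((m : ℤ) + 1) (bd A) \ neg B = cone ((m : ℤ) + 1) (bd A) := by
    rw [Finset.sdiff_eq_self_iff_disjoint, disjoint_right]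
    intro F hFB hF
    obtain ⟨G, _, rfl⟩ := mem_image.1 hF
    exact not_mem_V.1 ((hAv _ (hBA hFB)).1 (mem_insert_self _ _))
  rw [h1]
  ext F
  simp only [mem_union]
  tauto

theorem bd_lift {c t : ℕ} {X : ℕ → ℕ → Cx} (hX : Fam c t X) {j m : ℕ} (hj : 1 ≤ j)
    (hjt : j ≤ t + 1) (hm : c ≤ m) :
    bd (lift X j (m + 1)) = cone ((m : ℤ) + 1) (bd (X j m)) ∪
      cone (-((m : ℤ) + 1)) (neg (bd (X (j - 1) m))) ∪ (X j m \ neg (X (j - 1) m)) := by
  have h1 := h80_vert hX hjt hm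
  have h2 := h80_vert hX (j := j - 1) (by omega) hm
  exact h80_bd_step h1.1 h1.2.1 h1.2.2 h2.2.2 (hX.P2 j m hj hjt hm)

/-! ### P1 -/

theorem h80_cone_vert {K : Cx} {m : ℕ} {w : ℤ} (hw : w = (m : ℤ) + 1 ∨ w = -((m : ℤ) + 1))
    (h : ∀ F ∈ K, F ⊆ V m ∧ AF F) : ∀ F ∈ cone w K, F ⊆ V (m + 1) ∧ AF F := by
  intro F hF
  obtain ⟨G, hG, rfl⟩ := mem_image.1 hF
  have hG1 := (h G hG).1
  have hG2 := (h G hG).2
  have hwV : w ∈ V (m + 1) := by
    rw [mem_V]
    rcases hw with rfl | rfl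
    · refine ⟨by omega, ?_⟩
      rw [abs_of_nonneg (by omega)]; push_cast; omega
    · refine ⟨by omega, ?_⟩
      rw [abs_neg, abs_of_nonneg (by omega)]; push_cast; omega
  have hwn : -w ∉ V m := by
    rcases hw with rfl | rfl
    · exact not_mem_V.2
    · rw [show -(-((m : ℤ) + 1)) = (m : ℤ) + 1 by ring]; exact not_mem_V.1
  have hwn' : w ∉ V m := by
    rcases hw with rfl | rfl
    · exact not_mem_V.1
    · exact not_mem_V.2
  refine ⟨?_, ?_⟩
  · intro x hx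
    rcases mem_insert.1 hx with rfl | hx
    · exact hwV
    · exact V_mono (Nat.le_succ m) (hG1 hx)
  · intro x hx hx'
    rcases mem_insert.1 hx with rfl | hx
    · rcases mem_insert.1 hx' with h0 | h0
      · rcases hw with rfl | rfl <;> omega
      · exact hwn (hG1 h0)
    · rcases mem_insert.1 hx' with h0 | h0
      · have : x = -w := by omega
        rw [this] at hx
        exact hwn (hG1 hx)
      · exact hG2 x hx h0

theorem h80_lift_vert {c t : ℕ} {X : ℕ → ℕ → Cx} (hX : Fam c t X) {j m : ℕ} (hjt : j ≤ t + 1)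
    (hm : c + 1 ≤ m) : Pure (c + 1) (lift X j m) ∧ ∀ F ∈ lift X j m, F ⊆ V m ∧ AF F := by
  obtain ⟨m, rfl⟩ : ∃ m', m = m' + 1 := ⟨m - 1, by omega⟩
  have hm' : c ≤ m := by omega
  have h1 := h80_vert hX hjt hm'
  have h2 := h80_vert hX (j := j - 1) (by omega) hm'
  refine ⟨?_, ?_⟩
  · exact pure_union (pure_cone h1.1 (h80_not1 h1.2.1))
      (pure_cone (pure_neg h2.1) (h80_not2 (h80_neg_vert h2.2.1)))
  · intro F hF
    rcases mem_union.1 hF with hF | hF
    · exact h80_cone_vert (Or.inl rfl) h1.2.1 F hF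
    · exact h80_cone_vert (Or.inr rfl) (h80_neg_vert h2.2.1) F hF

theorem lift_P1 {c t : ℕ} {X : ℕ → ℕ → Cx} (hX : Fam c t X) : ∀ j m, 1 ≤ j → j ≤ t + 1 →
    c + 1 ≤ m → Pure (c + 1) (lift X j m) ∧ ∀ F ∈ lift X j m, F ⊆ V m ∧ AF F :=
  fun _ _ _ hjt hm => h80_lift_vert hX hjt hm

/-! ### P2 -/

theorem lift_P2 {c t : ℕ} {X : ℕ → ℕ → Cx} (hX : Fam c t X) : ∀ j m, 1 ≤ j → j ≤ t + 1 →
    c + 1 ≤ m → neg (lift X (j - 1) m) ⊆ lift X j m := by
  intro j m hj hjt hm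
  rcases Nat.lt_or_ge 1 j with h | h
  · obtain ⟨m, rfl⟩ : ∃ m', m = m' + 1 := ⟨m - 1, by omega⟩
    have hm' : c ≤ m := by omega
    have h1 := hX.P2 j m hj hjt hm'
    have h2 := hX.P2 (j - 1) m (by omega) (by omega) hm'
    have h3 : X (j - 1 - 1) m ⊆ X j m := by
      refine subset_trans ?_ h1
      rw [← neg_subset, neg_neg]
      exact h2
    simp only [lift, neg_union, neg_cone, h80_nn]
    rw [show -(-((m : ℤ) + 1)) = (m : ℤ) + 1 by ring]
    refine union_subset ?_ ((cone_subset h3).trans subset_union_left)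
    exact subset_trans (subset_refl _) subset_union_right
  · have : j - 1 = 0 := by omega
    rw [this, h80_lift_zero hX, h80_neg_empty]
    exact empty_subset _

/-! ### P3 -/

theorem h80_disj_cone {w : ℤ} {K L : Cx} (hK : w ∉ vts K) (hL : w ∉ vts L) (h : Disjoint K L) :
    Disjoint (cone w K) (cone w L) := by
  rw [disjoint_left] at *
  intro F hF hF'
  obtain ⟨G, hG, rfl⟩ := mem_image.1 hF
  obtain ⟨G', hG', he⟩ := mem_image.1 hF'
  have h1 : w ∉ G := fun hw => hK (mem_biUnion.2 ⟨G, hG, hw⟩)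
  have h2 : w ∉ G' := fun hw => hL (mem_biUnion.2 ⟨G', hG', hw⟩)
  have : G = G' := by
    rw [← erase_insert h1, ← erase_insert h2, he]
  subst this
  exact h hG hG'

theorem h80_disj_cone2 {m : ℕ} {K L : Cx} (hK : ((m : ℤ) + 1) ∉ vts K) :
    Disjoint (cone (-((m : ℤ) + 1)) K) (cone ((m : ℤ) + 1) L) := by
  rw [disjoint_left]
  intro F hF hF'
  obtain ⟨G, hG, rfl⟩ := mem_image.1 hF
  obtain ⟨G', hG', he⟩ := mem_image.1 hF'
  have h1 : ((m : ℤ) + 1) ∈ insert (-((m : ℤ) + 1)) G := by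
    rw [← he]; exact mem_insert_self _ _
  rcases mem_insert.1 h1 with h2 | h2
  · omega
  · exact hK (mem_biUnion.2 ⟨G, hG, h2⟩)

theorem lift_P3 {c t : ℕ} {X : ℕ → ℕ → Cx} (hX : Fam c t X) : ∀ j m, 1 ≤ j → j ≤ t + 1 →
    c + 1 ≤ m → Disjoint (lift X j m) (lift X (j - 1) m) := by
  intro j m hj hjt hm
  rcases Nat.lt_or_ge 1 j with h | h
  · obtain ⟨m, rfl⟩ : ∃ m', m = m' + 1 := ⟨m - 1, by omega⟩
    have hm' : c ≤ m := by omega
    have h1 := h80_vert hX hjt hm'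
    have h2 := h80_vert hX (j := j - 1) (by omega) hm'
    have h3 := h80_vert hX (j := j - 1 - 1) (by omega) hm'
    have d1 := hX.P3 j m hj hjt hm'
    have d2 := hX.P3 (j - 1) m (by omega) (by omega) hm'
    simp only [lift]
    rw [disjoint_union_left, disjoint_union_right, disjoint_union_right]
    refine ⟨⟨h80_disj_cone (h80_not1 h1.2.1) (h80_not1 h2.2.1) d1, ?_⟩, ?_, ?_⟩
    · exact (h80_disj_cone2 (h80_not1 (h80_neg_vert h3.2.1))).symm
    · exact h80_disj_cone2 (h80_not1 (h80_neg_vert h2.2.1))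
    · exact h80_disj_cone (h80_not2 (h80_neg_vert h2.2.1)) (h80_not2 (h80_neg_vert h3.2.1))
        (disjoint_neg.2 d2)
  · have : j - 1 = 0 := by omega
    rw [this, h80_lift_zero hX]
    exact disjoint_empty_right _

/-! ### P4 -/

theorem h80_erase_V {m : ℕ} {s : Finset ℤ} (hs : s ⊆ V (m + 1)) {w : ℤ}
    (hw : w = (m : ℤ) + 1 ∨ w = -((m : ℤ) + 1)) (hn : -w ∉ s) : s.erase w ⊆ V m := by
  intro x hx
  have h1 := mem_V.1 (hs (mem_of_mem_erase hx))
  have h2 := ne_of_mem_erase hx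
  have h3 : x ≠ -w := fun h => hn (h ▸ mem_of_mem_erase hx)
  rw [mem_V]
  refine ⟨h1.1, ?_⟩
  have h4 := abs_le.1 h1.2
  push_cast at h4
  rw [abs_le]
  rcases hw with rfl | rfl <;> constructor <;> omega

theorem h80_af_sub {s t : Finset ℤ} (h : s ⊆ t) (ht : AF t) : AF s :=
  fun x hx hx' => ht x (h hx) (h hx')

theorem lift_P4 {c t : ℕ} {X : ℕ → ℕ → Cx} (hX : Fam c t X) : ∀ j m, 1 ≤ j → j ≤ t + 1 →
    c + 1 ≤ m → ∀ s, s ⊆ V m → AF s → s.card + 1 ≤ j → Fc (lift X j m) s := by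
  intro j m hj hjt hm s hs haf hcard
  obtain ⟨m, rfl⟩ : ∃ m', m = m' + 1 := ⟨m - 1, by omega⟩
  have hm' : c ≤ m := by omega
  simp only [lift]
  rw [fc_union, fc_cone, fc_cone]
  by_cases hw : (-((m : ℤ) + 1)) ∈ s
  · right
    rw [fc_neg]
    have hn : -(-((m : ℤ) + 1)) ∉ s := haf _ hw
    have hpos : 0 < s.card := card_pos.2 ⟨_, hw⟩
    apply hX.P4 (j - 1) m (by omega) (by omega) hm'
    · exact ngs_subset_V.2 (h80_erase_V hs (Or.inr rfl) hn)
    · exact af_ngs.2 (h80_af_sub (erase_subset _ _) haf)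
    · have h1 : (ngs (s.erase (-((m : ℤ) + 1)))).card ≤ (s.erase (-((m : ℤ) + 1))).card :=
        card_image_le
      rw [card_erase_of_mem hw] at h1
      omega
  · left
    apply hX.P4 j m hj hjt hm'
    · exact h80_erase_V hs (Or.inl rfl) hw
    · exact h80_af_sub (erase_subset _ _) haf
    · have h1 : (s.erase ((m : ℤ) + 1)).card ≤ s.card := card_le_card (erase_subset _ _)
      omega

/-! ### P5 -/

theorem lift_P5 {c t : ℕ} {X : ℕ → ℕ → Cx} (hX : Fam c t X) : ∀ j m, 1 ≤ j → j ≤ t + 1 →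
    c + 1 ≤ m → ∀ s, Fc (lift X j m) s → s.card + j ≤ c + 1 → Fc (bd (lift X j m)) s := by
  intro j m hj hjt hm s hs hcard
  obtain ⟨m, rfl⟩ : ∃ m', m = m' + 1 := ⟨m - 1, by omega⟩
  have hm' : c ≤ m := by omega
  rw [bd_lift hX hj hjt hm', fc_union, fc_union, fc_cone, fc_cone]
  -- the part at the negative apex
  have key : ∀ u : Finset ℤ, Fc (neg (X (j - 1) m)) u → u.card + j ≤ c + 1 →
      Fc (neg (bd (X (j - 1) m))) u := by
    intro u hu hc
    rcases Nat.lt_or_ge 1 j with h | h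
    · rw [fc_neg] at hu ⊢
      apply hX.P5 (j - 1) m (by omega) (by omega) hm' _ hu
      have h1 : (ngs u).card ≤ u.card := card_image_le
      omega
    · have h0 : j - 1 = 0 := by omega
      rw [h0, hX.zero, h80_neg_empty] at hu
      obtain ⟨F, hF, _⟩ := hu
      exact absurd hF (notMem_empty F)
  simp only [lift] at hs
  rw [fc_union, fc_cone, fc_cone] at hs
  rcases hs with hs | hs
  · by_cases hw : ((m : ℤ) + 1) ∈ s
    · left; left
      apply hX.P5 j m hj hjt hm' _ hs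
      rw [card_erase_of_mem hw]
      have : 0 < s.card := card_pos.2 ⟨_, hw⟩
      omega
    · rw [erase_eq_of_notMem hw] at hs
      obtain ⟨F, hF, hsF⟩ := hs
      by_cases hFn : F ∈ neg (X (j - 1) m)
      · left; right
        exact fc_sub (erase_subset _ _) (key s ⟨F, hFn, hsF⟩ hcard)
      · right
        exact ⟨F, mem_sdiff.2 ⟨hF, hFn⟩, hsF⟩
  · left; right
    apply key _ hs
    have h1 : (s.erase (-((m : ℤ) + 1))).card ≤ s.card := card_le_card (erase_subset _ _)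
    omega

/-! ### P6 -/

theorem lift_P6 {c t : ℕ} {X : ℕ → ℕ → Cx} (hX : Fam c t X) : ∀ j m, 1 ≤ j → j ≤ t + 1 →
    c + 1 ≤ m → Good (c + 1) (lift X j m) := by
  intro j m hj hjt hm
  obtain ⟨m, rfl⟩ : ∃ m', m = m' + 1 := ⟨m - 1, by omega⟩
  have hm' : c ≤ m := by omega
  have h1 := h80_vert hX hjt hm'
  have hg : Good (c + 1) (cone ((m : ℤ) + 1) (X j m)) :=
    good_cone (hX.P6 j m hj hjt hm') (h80_not1 h1.2.1)
  simp only [lift]
  rcases Nat.lt_or_ge 1 j with h | h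
  · apply good_add hg (good_neg (hX.P6 (j - 1) m (by omega) (by omega) hm'))
    · rw [bd_cone h1.1 (h80_not1 h1.2.1)]
      exact (hX.P2 j m hj hjt hm').trans subset_union_left
    · exact h80_not2c h1.2.1
  · have h0 : j - 1 = 0 := by omega
    rw [h0, hX.zero, h80_neg_empty, h80_cone_empty, union_empty]
    exact hg

/-! ### the boundary of the lift of the lift, and P7 -/

theorem h80_lift_vert_pm {c t : ℕ} {X : ℕ → ℕ → Cx} (hX : Fam c t X) {j m : ℕ}
    (hjt : j ≤ t + 1) (hm : c + 1 ≤ m) : Pure (c + 1) (lift X j m) ∧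
      (∀ F ∈ lift X j m, F ⊆ V m ∧ AF F) ∧ PM (lift X j m) := by
  refine ⟨(h80_lift_vert hX hjt hm).1, (h80_lift_vert hX hjt hm).2, ?_⟩
  rcases Nat.eq_zero_or_pos j with h0 | h0
  · subst h0
    rw [h80_lift_zero hX]
    intro G hG
    simp [ridges] at hG
  · exact (lift_P6 hX j m h0 hjt hm).pm

theorem bd_lift2 {c t : ℕ} {X : ℕ → ℕ → Cx} (hX : Fam c t X) {j m : ℕ} (hj : 1 ≤ j)
    (hjt : j ≤ t + 1) (hm : c + 1 ≤ m) :
    bd (lift (lift X) j (m + 1)) = cone ((m : ℤ) + 1) (bd (lift X j m)) ∪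
      cone (-((m : ℤ) + 1)) (neg (bd (lift X (j - 1) m))) ∪
      (lift X j m \ neg (lift X (j - 1) m)) := by
  have h1 := h80_lift_vert_pm hX hjt hm
  have h2 := h80_lift_vert_pm hX (j := j - 1) (by omega) hm
  exact h80_bd_step h1.1 h1.2.1 h1.2.2 h2.2.2 (lift_P2 hX j m hj hjt hm)

theorem lift_P7 {c t : ℕ} {X : ℕ → ℕ → Cx} (hX : Fam c t X) : ∀ j m, 1 ≤ j → j ≤ t + 1 →
    c + 2 ≤ m → lift X j m ⊆ bd (lift (lift X) j m) ∧
      lift X (j - 1) m ⊆ bd (lift (lift X) j m) := by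
  intro j m hj hjt hm
  obtain ⟨m, rfl⟩ : ∃ m', m = m' + 1 := ⟨m - 1, by omega⟩
  have hm' : c + 1 ≤ m := by omega
  rw [bd_lift2 hX hj hjt hm']
  have p1 := hX.P7 j m hj hjt hm'
  -- facts about the index `j - 1`
  have p2 : neg (X (j - 1) m) ⊆ neg (bd (lift X (j - 1) m)) := by
    rcases Nat.lt_or_ge 1 j with h | h
    · exact neg_subset.2 (hX.P7 (j - 1) m (by omega) (by omega) hm').1
    · have h0 : j - 1 = 0 := by omega
      rw [h0, hX.zero, h80_neg_empty]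
      exact empty_subset _
  refine ⟨?_, ?_⟩
  · intro F hF
    rw [mem_union, mem_union]
    rcases mem_union.1 (show F ∈ cone ((m : ℤ) + 1) (X j m) ∪
      cone (-((m : ℤ) + 1)) (neg (X (j - 1) m)) from hF) with h | h
    · exact Or.inl (Or.inl (cone_subset p1.1 h))
    · exact Or.inl (Or.inr (cone_subset p2 h))
  · rcases Nat.lt_or_ge 1 j with h | h
    · have p3 := (hX.P7 (j - 1) m (by omega) (by omega) hm').2
      intro F hF
      rw [mem_union, mem_union]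
      rcases mem_union.1 (show F ∈ cone ((m : ℤ) + 1) (X (j - 1) m) ∪
        cone (-((m : ℤ) + 1)) (neg (X (j - 1 - 1) m)) from hF) with h | h
      · exact Or.inl (Or.inl (cone_subset p1.2 h))
      · exact Or.inl (Or.inr (cone_subset (neg_subset.2 p3) h))
    · have h0 : j - 1 = 0 := by omega
      rw [h0, h80_lift_zero hX]
      exact empty_subset _

end Pool.Agent.H30.NZ
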