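import Pool.Agent.H30.NZ.LiftA

/-!
# MP_63054e_co: the lift of a family, second part
-/

set_option autoImplicit false

namespace Pool.Agent.H30.NZ

open Finset
theorem liftB_neg_empty : neg ∅ = ∅ := by simp [neg]

theorem liftB_neg_cross (m : ℕ) : neg (cross m) = cross m := neg_cross m

theorem liftB_zero {c t : ℕ} {X : ℕ → ℕ → Cx} (hX : Fam c t X) (m : ℕ) : lift X 0 m = ∅ := by
  cases m with
  | zero => rfl
  | succ m =>
    change cone ((m : ℤ) + 1) (X 0 m) ∪ cone (-((m : ℤ) + 1)) (neg (X (0 - 1) m)) = ∅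
    rw [Nat.zero_sub, hX.zero, liftB_neg_empty]
    simp [cone]

theorem liftB_succ (X : ℕ → ℕ → Cx) (j m : ℕ) : lift X j (m + 1) =
    cone ((m : ℤ) + 1) (X j m) ∪ cone (-((m : ℤ) + 1)) (neg (X (j - 1) m)) := rfl

/-- Removing a set of facets from a union of two cones and a set without the apices. -/
theorem liftB_sdiff {a b : ℤ} {P P' R R' N : Cx} (hab : a ≠ b) (haP : a ∉ vts P)
    (haR : a ∉ vts R) (haN : a ∉ vts N) (hbP : b ∉ vts P) (hbR : b ∉ vts R) (hbN : b ∉ vts N)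
    (haP' : a ∉ vts P') (hbR' : b ∉ vts R') :
    (cone a P ∪ cone b R ∪ N) \ (cone a P' ∪ cone b R') =
      N ∪ cone b (R \ R') ∪ cone a (P \ P') := by
  have hmem : ∀ {w : ℤ} {K : Cx} {F : Finset ℤ}, F ∈ cone w K → w ∈ F := by
    intro w K F hF
    obtain ⟨G, -, rfl⟩ := mem_image.mp hF
    exact mem_insert_self _ _
  have hnot : ∀ {w v : ℤ} {K : Cx} {F : Finset ℤ}, w ≠ v → w ∉ vts K → F ∈ cone v K → w ∉ F := by
    intro w v K F hwv hw hF
    obtain ⟨G, hG, rfl⟩ := mem_image.mp hF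
    rw [mem_insert]
    rintro (h | h)
    · exact hwv h
    · exact hw (mem_biUnion.mpr ⟨G, hG, h⟩)
  have hnotN : ∀ {w : ℤ} {K : Cx} {F : Finset ℤ}, w ∉ vts K → F ∈ K → w ∉ F := by
    intro w K F hw hF h
    exact hw (mem_biUnion.mpr ⟨F, hF, h⟩)
  rw [cone_sdiff hbR hbR', cone_sdiff haP haP']
  ext F
  simp only [mem_sdiff, mem_union]
  constructor
  · rintro ⟨(h | h) | h, h2⟩
    · exact Or.inr ⟨h, fun h3 => h2 (Or.inl h3)⟩
    · exact Or.inl (Or.inr ⟨h, fun h3 => h2 (Or.inr h3)⟩)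
    · exact Or.inl (Or.inl h)
  · rintro ((h | ⟨h, h3⟩) | ⟨h, h3⟩)
    · refine ⟨Or.inr h, ?_⟩
      rintro (h4 | h4)
      · exact hnotN haN h (hmem h4)
      · exact hnotN hbN h (hmem h4)
    · refine ⟨Or.inl (Or.inr h), ?_⟩
      rintro (h4 | h4)
      · exact hnot hab haR h (hmem h4)
      · exact h3 h4
    · refine ⟨Or.inl (Or.inl h), ?_⟩
      rintro (h4 | h4)
      · exact h3 h4
      · exact hnot (Ne.symm hab) hbP h (hmem h4)

theorem liftB_vts {m : ℕ} {K : Cx} (h : ∀ F ∈ K, F ⊆ V m) {x : ℤ} (hx : x ∉ V m) : x ∉ vts K := by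
  intro h2
  obtain ⟨F, hF, h3⟩ := mem_biUnion.mp h2
  exact hx (h F hF h3)

theorem liftB_vts_neg {m : ℕ} {K : Cx} (h : ∀ F ∈ K, F ⊆ V m) {x : ℤ} (hx : x ∉ V m) :
    x ∉ vts (neg K) := by
  rw [mem_vts_neg]
  apply liftB_vts h
  rwa [neg_mem_V]

theorem liftB_vts_bd {m : ℕ} {K : Cx} (h : ∀ F ∈ K, F ⊆ V m) {x : ℤ} (hx : x ∉ V m) :
    x ∉ vts (bd K) := fun h2 => liftB_vts h hx (vts_bd h2)

theorem liftB_vts_neg_bd {m : ℕ} {K : Cx} (h : ∀ F ∈ K, F ⊆ V m) {x : ℤ} (hx : x ∉ V m) :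
    x ∉ vts (neg (bd K)) := by
  rw [mem_vts_neg]
  apply liftB_vts_bd h
  rwa [neg_mem_V]

/-- vertices of the members of a family -/
theorem liftB_XV {c t : ℕ} {X : ℕ → ℕ → Cx} (hX : Fam c t X) {j m : ℕ} (hjt : j ≤ t + 1)
    (hm : c ≤ m) : ∀ F ∈ X j m, F ⊆ V m := by
  intro F hF
  rcases Nat.eq_zero_or_pos j with rfl | hj
  · rw [hX.zero] at hF
    exact absurd hF (notMem_empty _)
  · exact ((hX.P1 j m hj hjt hm).2 F hF).1

theorem liftB_YV {c t : ℕ} {X : ℕ → ℕ → Cx} (hX : Fam c t X) {j m : ℕ} (hjt : j ≤ t + 1)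
    (hm : c + 1 ≤ m) : ∀ F ∈ lift X j m, F ⊆ V m := by
  intro F hF
  rcases Nat.eq_zero_or_pos j with rfl | hj
  · rw [liftB_zero hX] at hF
    exact absurd hF (notMem_empty _)
  · exact ((lift_P1 hX j m hj hjt hm).2 F hF).1

theorem liftB_apex (m : ℕ) : ((m : ℤ) + 1) ≠ -((m : ℤ) + 1) := by
  have : (0 : ℤ) ≤ m := Int.natCast_nonneg m
  omega

theorem liftB_neg_sub {K L : Cx} (h : K ⊆ L) : neg K ⊆ neg L := neg_subset.mpr h

/-- The shape of the complement of a member of the lift. -/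
theorem liftB_shape {c t : ℕ} {X : ℕ → ℕ → Cx} (hX : Fam c t X) {i j m : ℕ} (hj : 1 ≤ j)
    (hjt : j ≤ t + 1) (hij : i ≤ j) (hm : c + 1 ≤ m) :
    bd (lift (lift X) j (m + 1)) \ lift X i (m + 1) =
      (lift X j m \ neg (lift X (j - 1) m)) ∪
        cone (-((m : ℤ) + 1)) (neg (bd (lift X (j - 1) m) \ X (i - 1) m)) ∪
        cone ((m : ℤ) + 1) (bd (lift X j m) \ X i m) := by
  have hV := @not_mem_V m
  rw [bd_lift2 hX hj hjt hm, liftB_succ, neg_sdiff]
  have hYj := liftB_YV hX hjt hm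
  have hYj1 := liftB_YV hX (show j - 1 ≤ t + 1 by omega) hm
  have hXi := liftB_XV hX (show i ≤ t + 1 by omega) (show c ≤ m by omega)
  have hXi1 := liftB_XV hX (show i - 1 ≤ t + 1 by omega) (show c ≤ m by omega)
  have hN : ∀ F ∈ lift X j m \ neg (lift X (j - 1) m), F ⊆ V m := fun F hF =>
    hYj F (mem_sdiff.mp hF).1
  exact liftB_sdiff (liftB_apex m) (liftB_vts_bd hYj hV.1) (liftB_vts_neg_bd hYj1 hV.1)
    (liftB_vts hN hV.1) (liftB_vts_bd hYj hV.2) (liftB_vts_neg_bd hYj1 hV.2)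
    (liftB_vts hN hV.2) (liftB_vts hXi hV.1) (liftB_vts_neg hXi1 hV.2)

theorem lift_P8 {c t : ℕ} {X : ℕ → ℕ → Cx} (hX : Fam c t X) : ∀ j m, 1 ≤ j → j ≤ t + 1 →
    c + 2 ≤ m → Good (c + 1) (bd (lift (lift X) j m) \ lift X j m) := by
  intro j m' hj hjt hm'
  obtain ⟨m, rfl⟩ : ∃ m, m' = m + 1 := ⟨m' - 1, by omega⟩
  have hm : c + 1 ≤ m := by omega
  have hV := @not_mem_V m
  rw [liftB_shape hX hj hjt le_rfl hm]
  rcases Nat.eq_or_lt_of_le hj with rfl | hj2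
  · -- j = 1
    rw [Nat.sub_self, liftB_zero hX]
    have h1 : bd (∅ : Cx) = ∅ := by
      unfold bd ridges
      simp
    rw [h1, liftB_neg_empty, sdiff_empty, empty_sdiff, liftB_neg_empty]
    have h2 : cone (-((m : ℤ) + 1)) ∅ = ∅ := by simp [cone]
    rw [h2, union_empty]
    exact good_add (lift_P6 hX 1 m hj hjt hm) (hX.P8 1 m hj hjt hm) sdiff_subset
      (liftB_vts (liftB_YV hX hjt hm) hV.1)
  · have hj1 : 1 ≤ j - 1 := by omega
    have hj1t : j - 1 ≤ t + 1 := by omega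
    have hcm : c ≤ m := by omega
    have hsub : neg (X (j - 1) m) ⊆ X j m := hX.P2 j m hj hjt hcm
    have hp7 := hX.P7 j m hj hjt hm
    have h := good_pattern (c := c) (Q := lift X j m) (A := neg (lift X (j - 1) m))
      (E := neg (X (j - 1) m)) (B' := bd (lift X j m) \ X j m) (w := -((m : ℤ) + 1))
      (w' := (m : ℤ) + 1) (lift_P6 hX j m hj hjt hm)
      (good_neg (lift_P6 hX (j - 1) m hj1 hj1t hm)) (lift_P2 hX j m hj hjt hm)
      (good_neg (hX.P6 (j - 1) m hj1 hj1t hcm))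
      (by
        rw [bd_neg, ← neg_sdiff]
        exact good_neg (hX.P8 (j - 1) m hj1 hj1t hm))
      (by
        rw [bd_neg]
        exact liftB_neg_sub (hX.P7 (j - 1) m hj1 hj1t hm).1)
      (hsub.trans hp7.1) (hX.P8 j m hj hjt hm) sdiff_subset
      (disjoint_left.mpr fun F hF hE => (mem_sdiff.mp hF).2 (hsub hE))
      (liftB_vts (liftB_YV hX hjt hm) hV.2) (liftB_vts (liftB_YV hX hjt hm) hV.1)
      (liftB_apex m)
    have h2 := h.1
    rw [bd_neg, ← neg_sdiff] at h2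
    exact h2

theorem lift_P9 {c t : ℕ} {X : ℕ → ℕ → Cx} (hX : Fam c t X) : ∀ j m, 2 ≤ j → j ≤ t + 1 →
    c + 2 ≤ m → Good (c + 1) (bd (lift (lift X) j m) \ lift X (j - 1) m) := by
  intro j m' hj hjt hm'
  obtain ⟨m, rfl⟩ : ∃ m, m' = m + 1 := ⟨m' - 1, by omega⟩
  have hm : c + 1 ≤ m := by omega
  have hcm : c ≤ m := by omega
  have hV := @not_mem_V m
  have hj0 : 1 ≤ j := by omega
  have hj1 : 1 ≤ j - 1 := by omega
  have hj1t : j - 1 ≤ t + 1 := by omega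
  rw [liftB_shape hX hj0 hjt (Nat.sub_le _ _) hm]
  have hp7 := hX.P7 j m hj0 hjt hm
  rcases Nat.eq_or_lt_of_le hj with rfl | hj3
  · -- j = 2
    have h0 : X (2 - 1 - 1) m = ∅ := hX.zero m
    rw [h0, sdiff_empty]
    have h := good_pattern0 (c := c) (Q := lift X 2 m) (A := neg (lift X (2 - 1) m))
      (B' := bd (lift X 2 m) \ X (2 - 1) m) (w := -((m : ℤ) + 1))
      (w' := (m : ℤ) + 1) (lift_P6 hX 2 m hj0 hjt hm)
      (good_neg (lift_P6 hX (2 - 1) m hj1 hj1t hm)) (lift_P2 hX 2 m hj0 hjt hm)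
      (hX.P9 2 m hj hjt hm) sdiff_subset
      (liftB_vts (liftB_YV hX hjt hm) hV.2) (liftB_vts (liftB_YV hX hjt hm) hV.1)
      (liftB_apex m)
    have h2 := h.1
    rw [bd_neg] at h2
    exact h2
  · have hj2 : 1 ≤ j - 1 - 1 := by omega
    have hj2t : j - 1 - 1 ≤ t + 1 := by omega
    have hsub : neg (X (j - 1 - 1) m) ⊆ X (j - 1) m := hX.P2 (j - 1) m hj1 hj1t hcm
    have h := good_pattern (c := c) (Q := lift X j m) (A := neg (lift X (j - 1) m))
      (E := neg (X (j - 1 - 1) m)) (B' := bd (lift X j m) \ X (j - 1) m) (w := -((m : ℤ) + 1))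
      (w' := (m : ℤ) + 1) (lift_P6 hX j m hj0 hjt hm)
      (good_neg (lift_P6 hX (j - 1) m hj1 hj1t hm)) (lift_P2 hX j m hj0 hjt hm)
      (good_neg (hX.P6 (j - 1 - 1) m hj2 hj2t hcm))
      (by
        rw [bd_neg, ← neg_sdiff]
        exact good_neg (hX.P9 (j - 1) m (by omega) hj1t hm))
      (by
        rw [bd_neg]
        exact liftB_neg_sub (hX.P7 (j - 1) m hj1 hj1t hm).2)
      (hsub.trans hp7.2) (hX.P9 j m hj hjt hm) sdiff_subset
      (disjoint_left.mpr fun F hF hE => (mem_sdiff.mp hF).2 (hsub hE))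
      (liftB_vts (liftB_YV hX hjt hm) hV.2) (liftB_vts (liftB_YV hX hjt hm) hV.1)
      (liftB_apex m)
    have h2 := h.1
    rw [bd_neg, ← neg_sdiff] at h2
    exact h2

theorem lift_P10 {c t : ℕ} {X : ℕ → ℕ → Cx} (hc : 1 ≤ c) (hX : Fam c t X) : ∀ j, 1 ≤ j →
    j ≤ t + 1 → Good (c + 1) (cross (c + 1) \ lift X j (c + 1)) := by
  intro j hj hjt
  have hV := @not_mem_V c
  have hcV : ∀ F ∈ cross c, F ⊆ V c := fun F hF => (mem_cross.mp hF).1
  have hXj := liftB_XV hX hjt (le_refl c)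
  have hXj1 := liftB_XV hX (show j - 1 ≤ t + 1 by omega) (le_refl c)
  have hshape : cross (c + 1) \ lift X j (c + 1) =
      cone (-((c : ℤ) + 1)) (cross c \ neg (X (j - 1) c)) ∪
        cone ((c : ℤ) + 1) (cross c \ X j c) := by
    rw [cross_succ, liftB_succ]
    have h := liftB_sdiff (a := (c : ℤ) + 1) (b := -((c : ℤ) + 1)) (P := cross c) (P' := X j c)
      (R := cross c) (R' := neg (X (j - 1) c)) (N := ∅) (liftB_apex c) (liftB_vts hcV hV.1)
      (liftB_vts hcV hV.1) (by simp [vts]) (liftB_vts hcV hV.2) (liftB_vts hcV hV.2)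
      (by simp [vts]) (liftB_vts hXj hV.1) (liftB_vts_neg hXj1 hV.2)
    rw [union_empty, empty_union] at h
    exact h
  rw [hshape]
  have hRV : ∀ F ∈ cross c \ neg (X (j - 1) c), F ⊆ V c := fun F hF => hcV F (mem_sdiff.mp hF).1
  have hpure : Pure c (cross c \ neg (X (j - 1) c)) :=
    pure_mono sdiff_subset (pure_cross c)
  have hB : Good (c + 1) (cone (-((c : ℤ) + 1)) (cross c \ neg (X (j - 1) c))) := by
    rcases Nat.eq_or_lt_of_le hj with rfl | hj2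
    · have h0 : X (1 - 1) c = ∅ := hX.zero c
      rw [h0, liftB_neg_empty, sdiff_empty]
      exact good_cone_closed (cross_nonempty c) hc (pure_cross c) (pm_cross c) (nor_cross c)
        (bd_cross c) (liftB_vts hcV hV.2)
    · apply good_cone _ (liftB_vts hRV hV.2)
      have h1 : cross c \ neg (X (j - 1) c) = neg (cross c \ X (j - 1) c) := by
        rw [neg_sdiff, liftB_neg_cross]
      rw [h1]
      exact good_neg (hX.P10 (j - 1) (by omega) (by omega))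
  apply good_add hB (hX.P10 j hj hjt)
  · rw [bd_cone hpure (liftB_vts hRV hV.2)]
    intro F hF
    rw [mem_sdiff] at hF
    rw [mem_union, mem_sdiff]
    exact Or.inl ⟨hF.1, fun h => hF.2 (hX.P2 j c hj hjt le_rfl h)⟩
  · intro h
    rw [mem_vts_cone] at h
    rcases h.2 with h2 | h2
    · exact liftB_apex c h2
    · exact liftB_vts hRV hV.1 h2

theorem lift_fam {c t : ℕ} {X : ℕ → ℕ → Cx} (hc : 1 ≤ c) (hX : Fam c t X) :
    Fam (c + 1) t (lift X) where
  zero := liftB_zero hX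
  P1 := lift_P1 hX
  P2 := lift_P2 hX
  P3 := lift_P3 hX
  P4 := lift_P4 hX
  P5 := lift_P5 hX
  P6 := lift_P6 hX
  P7 := lift_P7 hX
  P8 := lift_P8 hX
  P9 := lift_P9 hX
  P10 := lift_P10 hc hX

end Pool.Agent.H30.NZ
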