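import Pool.Agent.H30.NZ.TopA
import Pool.Agent.H30.NZ.LiftB
import Pool.Agent.H30.NZ.Ops
import Pool.Agent.H30.NZ.Cross
import Pool.Agent.H30.NZ.Base2

/-!
# The top member of the family
-/

namespace Pool.Agent.H30.NZ

open Finset
theorem topB_mem_V {m : ℕ} {x : ℤ} : x ∈ V m ↔ x ≠ 0 ∧ |x| ≤ m := by
  unfold V
  simp only [mem_union, mem_image, mem_range]
  constructor
  · rintro (⟨i, hi, rfl⟩ | ⟨i, hi, rfl⟩)
    · constructor
      · omega
      · rw [abs_le]; constructor <;> omega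
    · constructor
      · omega
      · rw [abs_le]; constructor <;> omega
  · rintro ⟨h0, h1⟩
    rw [abs_le] at h1
    rcases lt_or_gt_of_ne h0 with h | h
    · right
      exact ⟨(-x - 1).toNat, by omega, by omega⟩
    · left
      exact ⟨(x - 1).toNat, by omega, by omega⟩

theorem topB_notMem_pos (m : ℕ) : ((m : ℤ) + 1) ∉ V m := by
  rw [topB_mem_V, abs_le]
  omega

theorem topB_notMem_neg (m : ℕ) : (-((m : ℤ) + 1)) ∉ V m := by
  rw [topB_mem_V, abs_le]
  omega

theorem topB_vts {K : Cx} {A : Finset ℤ} (h : ∀ F ∈ K, F ⊆ A) : vts K ⊆ A := by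
  intro x hx
  unfold vts at hx
  rw [mem_biUnion] at hx
  obtain ⟨F, hF, hx⟩ := hx
  exact h F hF hx

theorem topB_sph_succ (k : ℕ) (C : ℕ → Cx) (m : ℕ) (hm : 2 * k ≤ m) :
    sph k C (m + 1) = (sph k C m \ (C m ∪ neg (C m))) ∪
      (cone ((m : ℤ) + 1) (bd (C m)) ∪ cone (-((m : ℤ) + 1)) (neg (bd (C m)))) := by
  obtain ⟨r, rfl⟩ := Nat.exists_eq_add_of_le hm
  unfold sph
  rw [show 2 * k + r + 1 - 2 * k = r + 1 by omega, show 2 * k + r - 2 * k = r by omega, sphR]

theorem topB_addTop_lt {k : ℕ} {Y : ℕ → ℕ → Cx} {j : ℕ} (hj : j ≤ k) (m : ℕ) :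
    addTop k Y j m = Y j m := by
  unfold addTop
  rw [if_neg (by omega)]

theorem topB_addTop_top (k : ℕ) (Y : ℕ → ℕ → Cx) (m : ℕ) :
    addTop k Y (k + 1) m = sph k (Y k) m \ Y k m := by
  unfold addTop
  rw [if_pos rfl]

theorem topB_lift_succ (X : ℕ → ℕ → Cx) (j m : ℕ) : lift X j (m + 1) =
    cone ((m : ℤ) + 1) (X j m) ∪ cone (-((m : ℤ) + 1)) (neg (X (j - 1) m)) := rfl

theorem topB_lift_lt {k : ℕ} {Y : ℕ → ℕ → Cx} {j : ℕ} (hj : j ≤ k) (m : ℕ) :
    lift (addTop k Y) j m = lift Y j m := by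
  cases m with
  | zero => rfl
  | succ m =>
    rw [topB_lift_succ, topB_lift_succ, topB_addTop_lt hj, topB_addTop_lt (by omega : j - 1 ≤ k)]

/-- the next lift of the top member has boundary the sphere -/
theorem bd_top {t : ℕ} {X : ℕ → ℕ → Cx} (ht : 1 ≤ t) (hX : Fam (2 * t + 1) t X) {m : ℕ}
    (hm : 2 * t + 3 ≤ m) :
    bd (lift (addTop (t + 1) (lift X)) (t + 2) m) = sph (t + 1) (lift X (t + 1)) m := by
  have hS := sph_facts ht hX
  obtain ⟨n, rfl⟩ : ∃ n, m = n + 1 := ⟨m - 1, by omega⟩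
  have hn : 2 * (t + 1) ≤ n := by omega
  rw [topB_sph_succ _ _ _ hn, topB_lift_succ, show t + 2 - 1 = t + 1 by omega,
    topB_addTop_lt le_rfl, show t + 2 = t + 1 + 1 by omega, topB_addTop_top]
  set C := lift X (t + 1) n with hC
  set S := sph (t + 1) (lift X (t + 1)) n with hSdef
  have hCS : C ⊆ S := hS.sub n hn
  have hdisj : Disjoint C (neg C) := hS.disj n hn
  have hpure : Pure (2 * (t + 1)) S := hS.pure n hn
  have hvert : ∀ F ∈ S, F ⊆ V n ∧ AF F := hS.vert n hn
  have hsymm : neg S = S := hS.symm n hn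
  have hpm : PM S := hS.pm n hn
  have hclosed : bd S = ∅ := hS.closed n hn
  have hnegC : neg C ⊆ S \ C := by
    have h1 : neg C ⊆ neg S := neg_subset.mpr hCS
    rw [hsymm] at h1
    intro F hF
    rw [mem_sdiff]
    exact ⟨h1 hF, fun h => (disjoint_left.mp hdisj) h hF⟩
  have hvS : vts S ⊆ V n := topB_vts fun F hF => (hvert F hF).1
  have hvD : vts (S \ C) ⊆ V n := (vts_mono sdiff_subset).trans hvS
  have hvC : vts C ⊆ V n := (vts_mono hCS).trans hvS
  have hw1 : ((n : ℤ) + 1) ∉ vts (S \ C) := fun h => topB_notMem_pos n (hvD h)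
  have hpD : Pure (2 * (t + 1)) (S \ C) := pure_mono sdiff_subset hpure
  have hpC : Pure (2 * (t + 1)) C := pure_mono hCS hpure
  have hbdD : bd (S \ C) = bd C := by
    rw [bd_sdiff hpure hCS hpm, hclosed]
    simp
  have hbB : bd (cone ((n : ℤ) + 1) (S \ C)) = (S \ C) ∪ cone ((n : ℤ) + 1) (bd C) := by
    rw [bd_cone hpD hw1, hbdD]
  have hw2 : (-((n : ℤ) + 1)) ∉ vts (cone ((n : ℤ) + 1) (S \ C)) := by
    rw [mem_vts_cone]
    rintro ⟨-, h | h⟩
    · omega
    · exact topB_notMem_neg n (hvD h)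
  rw [bd_add (c := 2 * (t + 1)) (pure_cone hpD hw1)
    (hnegC.trans (by rw [hbB]; exact subset_union_left)) hw2 (pm_cone hpD hw1 (pm_mono sdiff_subset hpm)) (pm_neg (pm_mono hCS hpm)), hbB, bd_neg]
  ext F
  simp only [mem_union, mem_sdiff]
  constructor
  · rintro (⟨⟨h1, h2⟩ | h1, h3⟩ | h)
    · left
      exact ⟨h1, fun h => h.elim h2 h3⟩
    · right; left; exact h1
    · right; right; exact h
  · rintro (⟨h1, h2⟩ | h | h)
    · left
      exact ⟨Or.inl ⟨h1, fun h => h2 (Or.inl h)⟩, fun h => h2 (Or.inr h)⟩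
    · left
      refine ⟨Or.inr h, fun h3 => ?_⟩
      unfold cone at h
      rw [mem_image] at h
      obtain ⟨G, -, rfl⟩ := h
      have h4 := (hvert _ (sdiff_subset (hnegC h3))).1
      exact topB_notMem_pos n (h4 (mem_insert_self _ _))
    · right; exact h

theorem top_fam {t : ℕ} {X : ℕ → ℕ → Cx} (ht : 1 ≤ t) (hX : Fam (2 * t + 1) t X) :
    Fam (2 * t + 2) (t + 1) (addTop (t + 1) (lift X)) := by
  have hS := sph_facts ht hX
  have hL : Fam (2 * t + 2) t (lift X) := lift_fam (by omega) hX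
  have hcase : ∀ j, j ≤ t + 1 + 1 → j ≤ t + 1 ∨ j = t + 1 + 1 := fun j hj => by omega
  have hneg : ∀ m, 2 * t + 2 ≤ m → neg (lift X (t + 1) m) ⊆
      sph (t + 1) (lift X (t + 1)) m \ lift X (t + 1) m := by
    intro m hm
    have h1 : neg (lift X (t + 1) m) ⊆ neg (sph (t + 1) (lift X (t + 1)) m) :=
      neg_subset.mpr (hS.sub m (by omega))
    rw [hS.symm m (by omega)] at h1
    intro F hF
    rw [mem_sdiff]
    exact ⟨h1 hF, fun h => (disjoint_left.mp (hS.disj m (by omega))) h hF⟩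
  have hbd : ∀ m, 2 * t + 2 ≤ m →
      bd (sph (t + 1) (lift X (t + 1)) m \ lift X (t + 1) m) = bd (lift X (t + 1) m) := by
    intro m hm
    rw [bd_sdiff (hS.pure m (by omega)) (hS.sub m (by omega)) (hS.pm m (by omega)),
      hS.closed m (by omega)]
    simp
  have hbt : ∀ m, 2 * t + 3 ≤ m → bd (lift (addTop (t + 1) (lift X)) (t + 1 + 1) m) =
      sph (t + 1) (lift X (t + 1)) m := fun m hm => bd_top ht hX hm
  constructor
  · -- zero
    intro m
    rw [topB_addTop_lt (by omega)]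
    exact hL.zero m
  · -- P1
    intro j m h1 h2 h3
    rcases hcase j h2 with h | rfl
    · rw [topB_addTop_lt h]
      exact hL.P1 j m h1 h h3
    · rw [topB_addTop_top]
      exact ⟨pure_mono sdiff_subset (hS.pure m (by omega)), fun F hF =>
        hS.vert m (by omega) F (sdiff_subset hF)⟩
  · -- P2
    intro j m h1 h2 h3
    rcases hcase j h2 with h | rfl
    · rw [topB_addTop_lt h, topB_addTop_lt (by omega : j - 1 ≤ t + 1)]
      exact hL.P2 j m h1 h h3
    · rw [topB_addTop_top, show t + 1 + 1 - 1 = t + 1 by omega, topB_addTop_lt le_rfl]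
      exact hneg m h3
  · -- P3
    intro j m h1 h2 h3
    rcases hcase j h2 with h | rfl
    · rw [topB_addTop_lt h, topB_addTop_lt (by omega : j - 1 ≤ t + 1)]
      exact hL.P3 j m h1 h h3
    · rw [topB_addTop_top, show t + 1 + 1 - 1 = t + 1 by omega, topB_addTop_lt le_rfl]
      exact sdiff_disjoint
  · -- P4
    intro j m h1 h2 h3 s hs ha hc
    rcases hcase j h2 with h | rfl
    · rw [topB_addTop_lt h]
      exact hL.P4 j m h1 h h3 s hs ha hc
    · rw [topB_addTop_top]
      exact hS.nbr m (by omega) s hs ha (by omega)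
  · -- P5
    intro j m h1 h2 h3 s hs hc
    rcases hcase j h2 with h | rfl
    · rw [topB_addTop_lt h] at hs ⊢
      exact hL.P5 j m h1 h h3 s hs hc
    · rw [topB_addTop_top] at hs ⊢
      rw [hbd m h3]
      obtain ⟨F, hF, hsF⟩ := hs
      obtain ⟨hFV, hFA⟩ := hS.vert m (by omega) F (sdiff_subset hF)
      have hAF : AF s := fun x hx hx' => hFA x (hsF hx) (hsF hx')
      have h4 := hL.P4 (t + 1) m (by omega) le_rfl h3 s (hsF.trans hFV) hAF (by omega)
      exact hL.P5 (t + 1) m (by omega) le_rfl h3 s h4 (by omega)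
  · -- P6
    intro j m h1 h2 h3
    rcases hcase j h2 with h | rfl
    · rw [topB_addTop_lt h]
      exact hL.P6 j m h1 h h3
    · rw [topB_addTop_top]
      exact (hS.good m (by omega)).2
  · -- P7
    intro j m h1 h2 h3
    rcases hcase j h2 with h | rfl
    · rw [topB_addTop_lt h, topB_addTop_lt (by omega : j - 1 ≤ t + 1), topB_lift_lt h]
      exact hL.P7 j m h1 h h3
    · rw [topB_addTop_top, show t + 1 + 1 - 1 = t + 1 by omega, topB_addTop_lt le_rfl,
        hbt m h3]
      exact ⟨sdiff_subset, hS.sub m (by omega)⟩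
  · -- P8
    intro j m h1 h2 h3
    rcases hcase j h2 with h | rfl
    · rw [topB_addTop_lt h, topB_lift_lt h]
      exact hL.P8 j m h1 h h3
    · rw [topB_addTop_top, hbt m h3, Finset.sdiff_sdiff_eq_self (hS.sub m (by omega))]
      exact (hS.good m (by omega)).1
  · -- P9
    intro j m h1 h2 h3
    rcases hcase j h2 with h | rfl
    · rw [topB_addTop_lt (by omega : j - 1 ≤ t + 1), topB_lift_lt h]
      exact hL.P9 j m h1 h h3
    · rw [show t + 1 + 1 - 1 = t + 1 by omega, topB_addTop_lt le_rfl, hbt m h3]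
      exact (hS.good m (by omega)).2
  · -- P10
    intro j h1 h2
    rcases hcase j h2 with h | rfl
    · rw [topB_addTop_lt h]
      exact hL.P10 j h1 h
    · rw [topB_addTop_top]
      have h3 : sph (t + 1) (lift X (t + 1)) (2 * t + 2) = cross (2 * t + 2) := by
        unfold sph
        rw [show 2 * t + 2 - 2 * (t + 1) = 0 by omega]
        rfl
      have h4 := hS.sub (2 * t + 2) (by omega)
      have h5 := (hS.good (2 * t + 2) (by omega)).1
      rw [h3] at h4 ⊢
      rw [Finset.sdiff_sdiff_eq_self h4]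
      exact h5

/-- all the tower -/
theorem XX_fam {z : ℕ → ℤ} (hz : Adm z) (s : ℕ) : Fam (2 * s + 3) (s + 1) (XX z s) := by
  induction s with
  | zero => exact base_fam hz
  | succ s ih =>
    have h1 : Fam (2 * (s + 1) + 2) (s + 1 + 1) (addTop (s + 1 + 1) (lift (XX z s))) :=
      top_fam (by omega) ih
    exact lift_fam (by omega) h1

end Pool.Agent.H30.NZ
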