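import Pool.Agent.H30.NZ.Cross
import Pool.Agent.H30.NZ.LiftA
import Pool.Agent.H30.NZ.TopB

/-!
# MP_63054e_co: links in the spheres (module J1)
-/

namespace Pool.Agent.H30.NZ

open Finset
theorem h28_lk_union {K L : Cx} {v : ℤ} : lk (K ∪ L) v = lk K v ∪ lk L v := by
  unfold lk
  rw [Finset.filter_union, Finset.image_union]

theorem h28_lk_empty {K : Cx} {v : ℤ} (h : ∀ F ∈ K, v ∉ F) : lk K v = ∅ := by
  unfold lk
  rw [Finset.filter_eq_empty_iff.mpr, Finset.image_empty]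
  intro F hF
  exact h F hF

theorem h28_lk_cone {K : Cx} {v : ℤ} (h : ∀ F ∈ K, v ∉ F) : lk (cone v K) v = K := by
  unfold lk cone
  ext F
  simp only [Finset.mem_image, Finset.mem_filter]
  constructor
  · rintro ⟨G, ⟨⟨H, hH, rfl⟩, -⟩, rfl⟩
    rwa [Finset.erase_insert (h H hH)]
  · intro hF
    exact ⟨insert v F, ⟨⟨F, hF, rfl⟩, Finset.mem_insert_self _ _⟩,
      Finset.erase_insert (h F hF)⟩

theorem h28_lk_cone_ne {K : Cx} {v w : ℤ} (hvw : v ≠ w) (h : ∀ F ∈ K, v ∉ F) :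
    lk (cone w K) v = ∅ := by
  apply h28_lk_empty
  intro F hF
  unfold cone at hF
  obtain ⟨G, hG, rfl⟩ := Finset.mem_image.mp hF
  intro hv
  rcases Finset.mem_insert.mp hv with hv | hv
  · exact hvw hv
  · exact h G hG hv

theorem h28_bd_sub {K : Cx} {S : Finset ℤ} (h : ∀ F ∈ K, F ⊆ S) : ∀ G ∈ bd K, G ⊆ S := by
  intro G hG
  unfold bd ridges at hG
  obtain ⟨hG, -⟩ := Finset.mem_filter.mp hG
  obtain ⟨F, hF, hG⟩ := Finset.mem_biUnion.mp hG
  obtain ⟨x, hx, rfl⟩ := Finset.mem_image.mp hG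
  exact (Finset.erase_subset _ _).trans (h F hF)

theorem h28_neg_sub {K : Cx} {m : ℕ} (h : ∀ F ∈ K, F ⊆ V m) : ∀ G ∈ neg K, G ⊆ V m := by
  intro G hG
  unfold neg at hG
  obtain ⟨F, hF, rfl⟩ := Finset.mem_image.mp hG
  intro x hx
  unfold ngs at hx
  obtain ⟨y, hy, rfl⟩ := Finset.mem_image.mp hx
  exact neg_mem_V.mpr (h F hF hy)

theorem h28_big {m : ℕ} {x : ℤ} (hx : (m : ℤ) < |x|) : x ∉ V m := by
  intro h
  have := (mem_V.mp h).2
  omega

/-- the sphere with `m + 1` pairs -/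
theorem h28_sph_succ {k m : ℕ} {C : ℕ → Cx} (hm : 2 * k ≤ m) :
    sph k C (m + 1) = (sph k C m \ (C m ∪ neg (C m))) ∪
      (cone ((m : ℤ) + 1) (bd (C m)) ∪ cone (-((m : ℤ) + 1)) (neg (bd (C m)))) := by
  obtain ⟨r, rfl⟩ := Nat.exists_eq_add_of_le hm
  unfold sph
  have h1 : 2 * k + r + 1 - 2 * k = r + 1 := by omega
  have h2 : 2 * k + r - 2 * k = r := by omega
  rw [h1, h2]
  rfl

theorem h28_lift_sub {c t : ℕ} {X : ℕ → ℕ → Cx} (hX : Fam c t X) {j m : ℕ} (hj : 1 ≤ j)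
    (hjt : j ≤ t + 1) (hm : c ≤ m) : ∀ F ∈ X j m, F ⊆ V m :=
  fun F hF => ((hX.P1 j m hj hjt hm).2 F hF).1

theorem h28_sub' {c t : ℕ} {X : ℕ → ℕ → Cx} (hX : Fam c t X) {j m : ℕ}
    (hjt : j ≤ t + 1) (hm : c ≤ m) : ∀ F ∈ X j m, F ⊆ V m := by
  rcases Nat.eq_zero_or_pos j with rfl | hj
  · rw [hX.zero m]
    intro F hF
    simp at hF
  · exact h28_lift_sub hX hj hjt hm

/-- facets of the spheres are subsets of `V m` -/
theorem h28_sphR_sub {k : ℕ} {C : ℕ → Cx} (hC : ∀ m, 2 * k ≤ m → ∀ F ∈ C m, F ⊆ V m) (r : ℕ) :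
    ∀ F ∈ sphR k C r, F ⊆ V (2 * k + r) := by
  induction r with
  | zero =>
    intro F hF
    exact (mem_cross.mp hF).1
  | succ r ih =>
    intro F hF
    have hmono : V (2 * k + r) ⊆ V (2 * k + (r + 1)) := V_mono (by omega)
    change F ∈ (sphR k C r \ (C (2 * k + r) ∪ neg (C (2 * k + r)))) ∪
      (cone (((2 * k + r : ℕ) : ℤ) + 1) (bd (C (2 * k + r))) ∪
        cone (-(((2 * k + r : ℕ) : ℤ) + 1)) (neg (bd (C (2 * k + r))))) at hF
    have hb := h28_bd_sub (hC (2 * k + r) (by omega))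
    have hp : (((2 * k + r : ℕ) : ℤ) + 1) ∈ V (2 * k + (r + 1)) := by
      rw [mem_V]
      push_cast
      constructor
      · omega
      · rw [abs_of_nonneg (by omega)]
        omega
    rcases Finset.mem_union.mp hF with hF | hF
    · exact (ih F (Finset.mem_sdiff.mp hF).1).trans hmono
    · rcases Finset.mem_union.mp hF with hF | hF
      · unfold cone at hF
        obtain ⟨G, hG, rfl⟩ := Finset.mem_image.mp hF
        exact Finset.insert_subset hp ((hb G hG).trans hmono)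
      · unfold cone at hF
        obtain ⟨G, hG, rfl⟩ := Finset.mem_image.mp hF
        exact Finset.insert_subset (neg_mem_V.mpr hp) ((h28_neg_sub hb G hG).trans hmono)

theorem h28_sph_sub {k : ℕ} {C : ℕ → Cx} (hC : ∀ m, 2 * k ≤ m → ∀ F ∈ C m, F ⊆ V m) {m : ℕ}
    (hm : 2 * k ≤ m) : ∀ F ∈ sph k C m, F ⊆ V m := by
  have h := h28_sphR_sub hC (m - 2 * k)
  have h2 : 2 * k + (m - 2 * k) = m := by omega
  rw [h2] at h
  exact h

/-- the link of the last vertex -/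
theorem h28_lk1 {k : ℕ} {C : ℕ → Cx} (hC : ∀ m, 2 * k ≤ m → ∀ F ∈ C m, F ⊆ V m) {m : ℕ}
    (hm : 2 * k ≤ m) : lk (sph k C (m + 1)) ((m : ℤ) + 1) = bd (C m) := by
  have hnot : ((m : ℤ) + 1) ∉ V m := (not_mem_V).1
  have hb := h28_bd_sub (hC m hm)
  rw [h28_sph_succ hm, h28_lk_union, h28_lk_union, h28_lk_cone, h28_lk_cone_ne, h28_lk_empty,
    Finset.empty_union, Finset.union_empty]
  · intro F hF hx
    exact hnot (h28_sph_sub hC hm F (Finset.mem_sdiff.mp hF).1 hx)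
  · omega
  · intro F hF hx
    exact hnot (h28_neg_sub hb F hF hx)
  · intro F hF hx
    exact hnot (hb F hF hx)

/-- facets of the lift -/
theorem h28_lift_V {c t : ℕ} {X : ℕ → ℕ → Cx} (hX : Fam c t X) {j m : ℕ} (hj : 1 ≤ j)
    (hjt : j ≤ t + 1) (hm : c + 1 ≤ m) : ∀ F ∈ lift X j m, F ⊆ V m :=
  fun F hF => ((lift_P1 hX j m hj hjt hm).2 F hF).1

theorem lk_sph {t : ℕ} {X : ℕ → ℕ → Cx} (ht : 1 ≤ t) (hX : Fam (2 * t + 1) t X) {m : ℕ}
    (hm : 2 * t + 3 ≤ m) :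
    lk (lk (sph (t + 1) (lift X (t + 1)) m) m) ((m : ℤ) - 1) = bd (X (t + 1) (m - 2)) := by
  obtain ⟨n, rfl⟩ : ∃ n, m = n + 2 := ⟨m - 2, by omega⟩
  have hC : ∀ q, 2 * (t + 1) ≤ q → ∀ F ∈ lift X (t + 1) q, F ⊆ V q := by
    intro q hq
    exact h28_lift_V hX (by omega) le_rfl (by omega)
  have h1 : lk (sph (t + 1) (lift X (t + 1)) (n + 2)) ((n + 2 : ℕ) : ℤ) =
      bd (lift X (t + 1) (n + 1)) := by
    have := h28_lk1 hC (m := n + 1) (by omega)
    have e : (((n + 1 : ℕ) : ℤ) + 1) = ((n + 2 : ℕ) : ℤ) := by push_cast; ring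
    rw [e] at this
    exact this
  rw [h1, bd_lift hX (by omega) le_rfl (by omega)]
  have e1 : (((n + 2 : ℕ) : ℤ) - 1) = (n : ℤ) + 1 := by push_cast; ring
  have e2 : n + 2 - 2 = n := by omega
  rw [e1, e2]
  have hnot : ((n : ℤ) + 1) ∉ V n := (not_mem_V).1
  have hs1 := h28_sub' hX (j := t + 1) (m := n) le_rfl (by omega)
  have hs2 := h28_sub' hX (j := t + 1 - 1) (m := n) (by omega) (by omega)
  rw [h28_lk_union, h28_lk_union, h28_lk_cone, h28_lk_cone_ne, h28_lk_empty,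
    Finset.union_empty, Finset.union_empty]
  · intro F hF hx
    exact hnot (hs1 F (Finset.mem_sdiff.mp hF).1 hx)
  · omega
  · intro F hF hx
    exact hnot (h28_neg_sub (h28_bd_sub hs2) F hF hx)
  · intro F hF hx
    exact hnot (h28_bd_sub hs1 F hF hx)

theorem h28_dn2 (n r : ℕ) : dn (n + 2) (r + 2) = ((n + 2 : ℕ) : ℤ) :: (((n + 2 : ℕ) : ℤ) - 1) ::
    dn n r := by
  change ((n + 2 : ℕ) : ℤ) :: ((n + 1 : ℕ) : ℤ) :: dn n r = _
  have : ((n + 1 : ℕ) : ℤ) = ((n + 2 : ℕ) : ℤ) - 1 := by push_cast; ring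
  rw [this]

theorem lkl_SS {z : ℕ → ℤ} (hz : Adm z) {k n : ℕ} (hk : 2 ≤ k) (hn : 2 * k + 3 ≤ n) :
    lkl (SS z k n) (dn n (2 * k - 2)) = bd (GG z (n - (2 * k - 2))) := by
  obtain ⟨s, rfl⟩ : ∃ s, k = s + 2 := ⟨k - 2, by omega⟩
  clear hk
  induction s generalizing n with
  | zero =>
    obtain ⟨q, rfl⟩ : ∃ q, n = q + 2 := ⟨n - 2, by omega⟩
    have hF : Fam (2 * 1 + 1) 1 (XX z 0) := XX_fam hz 0
    have h := lk_sph (t := 1) le_rfl hF (m := q + 2) (by omega)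
    have e1 : 2 * (0 + 2) - 2 = 0 + 2 := by norm_num
    have e2 : q + 2 - (0 + 2) = q := by omega
    rw [e1, e2, h28_dn2]
    have e3 : q + 2 - 2 = q := by omega
    rw [e3] at h
    have e4 : XX z 0 (1 + 1) q = GG z q := by
      change X3 z 2 q = GG z q
      simp [X3]
    rw [e4] at h
    exact h
  | succ s ih =>
    obtain ⟨q, rfl⟩ : ∃ q, n = q + 2 := ⟨n - 2, by omega⟩
    have hF : Fam (2 * (s + 2) + 1) (s + 2) (XX z (s + 1)) := by
      have := XX_fam hz (s + 1)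
      have e : 2 * (s + 1) + 3 = 2 * (s + 2) + 1 := by ring
      rw [e] at this
      exact this
    have h := lk_sph (t := s + 2) (by omega) hF (m := q + 2) (by omega)
    have hF0 : Fam (2 * (s + 1) + 1) (s + 1) (XX z s) := by
      have := XX_fam hz s
      have e : 2 * s + 3 = 2 * (s + 1) + 1 := by ring
      rw [e] at this
      exact this
    have hb := bd_top (t := s + 1) (by omega) hF0 (m := q) (by omega)
    have e3 : q + 2 - 2 = q := by omega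
    rw [e3] at h
    have h5 : XX z (s + 1) (s + 2 + 1) q =
        lift (addTop (s + 1 + 1) (lift (XX z s))) (s + 1 + 2) q := rfl
    rw [h5, hb] at h
    have e6 : 2 * (s + 1 + 2) - 2 = (2 * (s + 2) - 2) + 2 := by omega
    rw [e6, h28_dn2]
    have e7 : q + 2 - (2 * (s + 2) - 2 + 2) = q - (2 * (s + 2) - 2) := by omega
    rw [e7]
    have e8 := ih (n := q) (by omega)
    rw [← e8]
    change lkl (lk (lk (SS z (s + 1 + 2) (q + 2)) ((q + 2 : ℕ) : ℤ)) (((q + 2 : ℕ) : ℤ) - 1))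
      (dn q (2 * (s + 2) - 2)) = _
    have e9 : SS z (s + 1 + 2) (q + 2) =
        sph (s + 2 + 1) (lift (XX z (s + 1)) (s + 2 + 1)) (q + 2) := rfl
    rw [e9, h]
    rfl

end Pool.Agent.H30.NZ
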