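import Pool.Agent.H30.NZ.Rim1
import Pool.Agent.H30.NZ.Base2

/-!
# MP_63054e_co: reconstruction from the rim
-/

namespace Pool.Agent.H30.NZ

open Finset

/-- reconstruction from the rim -/
theorem rim_rigid {z z' : ℕ → ℤ} (hz : Adm z) (hz' : Adm z') {m : ℕ} (hm : 6 ≤ m)
    (ψ : ℤ → ℤ) (hψ : Set.BijOn ψ (V m) (V m)) (hneg : ∀ x ∈ V m, ψ (-x) = -ψ x)
    (h1 : ψ (-1) = -1) (h2 : ψ (-(m : ℤ)) = -(m : ℤ))
    (he : (bd (GG z m)).image (fun F => F.image ψ) = bd (GG z' m)) :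
    ∀ i, i ≤ m → 4 ≤ i → z i = z' i := by
  refine h31_rim_rigid hz hz' hm ψ hψ hneg h1 h2 ?_
  rw [bd_GG hz (by omega), bd_GG hz' (by omega)] at he
  exact he

end Pool.Agent.H30.NZ
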