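import Pool.Agent.H30.NZ.Final1
import Pool.Agent.H30.NZ.Links
import Pool.Agent.H30.NZ.Rim
import Pool.Agent.H30.NZ.Cross

/-!
# MP_63054e_co: isomorphisms and reconstruction (`iso_inj`, `iso_class`)
-/

namespace Pool.Agent.H30.NZ

open Finset
/-- images of links -/
private theorem h29_lk_image {K : Cx} {v : ℤ} {ψ : ℤ → ℤ} {A : Finset ℤ}
    (hK : ∀ F ∈ K, F ⊆ A) (hv : v ∈ A) (hinj : Set.InjOn ψ A) (hfix : ψ v = v) :
    (lk K v).image (fun F => F.image ψ) = lk (K.image (fun F => F.image ψ)) v := by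
  have key : ∀ F ∈ K, (v ∈ F.image ψ ↔ v ∈ F) := by
    intro F hF
    constructor
    · intro h
      obtain ⟨y, hy, hyv⟩ := mem_image.1 h
      have : y = v := hinj (hK F hF hy) hv (hyv.trans hfix.symm)
      exact this ▸ hy
    · intro h
      exact mem_image.2 ⟨v, h, hfix⟩
  have key2 : ∀ F ∈ K, (F.erase v).image ψ = (F.image ψ).erase v := by
    intro F hF
    ext x
    simp only [mem_image, mem_erase]
    constructor
    · rintro ⟨y, ⟨hyv, hy⟩, rfl⟩
      refine ⟨?_, y, hy, rfl⟩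
      intro h
      exact hyv (hinj (hK F hF hy) hv (h.trans hfix.symm))
    · rintro ⟨hx, y, hy, rfl⟩
      refine ⟨y, ⟨?_, hy⟩, rfl⟩
      rintro rfl
      exact hx hfix
  ext G
  simp only [lk, mem_image, mem_filter]
  constructor
  · rintro ⟨F', ⟨F, ⟨hF, hvF⟩, rfl⟩, rfl⟩
    exact ⟨F.image ψ, ⟨⟨F, hF, rfl⟩, (key F hF).2 hvF⟩, (key2 F hF).symm⟩
  · rintro ⟨F', ⟨⟨F, hF, rfl⟩, hvF⟩, rfl⟩
    exact ⟨F.erase v, ⟨F, ⟨hF, (key F hF).1 hvF⟩, rfl⟩, key2 F hF⟩

private theorem h29_lkl_image {ψ : ℤ → ℤ} {A : Finset ℤ} (hinj : Set.InjOn ψ A) :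
    ∀ (l : List ℤ) (K : Cx), (∀ F ∈ K, F ⊆ A) → (∀ v ∈ l, v ∈ A ∧ ψ v = v) →
    (lkl K l).image (fun F => F.image ψ) = lkl (K.image (fun F => F.image ψ)) l := by
  intro l
  induction l with
  | nil => intro K _ _; rfl
  | cons v l ih =>
    intro K hK hl
    have hv := hl v (List.mem_cons_self ..)
    show (lkl (lk K v) l).image _ = lkl (lk _ v) l
    rw [ih (lk K v) ?_ (fun w hw => hl w (List.mem_cons_of_mem _ hw)),
      h29_lk_image hK hv.1 hinj hv.2]
    intro F hF
    obtain ⟨F', hF', rfl⟩ := mem_image.1 hF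
    exact (erase_subset _ _).trans (hK F' (mem_filter.1 hF').1)

private theorem h29_mem_dn {v : ℤ} : ∀ (r n : ℕ), v ∈ dn n r ↔ ∃ i < r, v = ((n - i : ℕ) : ℤ) := by
  intro r
  induction r with
  | zero => intro n; simp [dn]
  | succ r ih =>
    intro n
    simp only [dn, List.mem_cons, ih]
    constructor
    · rintro (rfl | ⟨i, hi, rfl⟩)
      · exact ⟨0, by omega, by simp⟩
      · exact ⟨i + 1, by omega, by congr 1; omega⟩
    · rintro ⟨i, hi, rfl⟩
      rcases i with _ | i
      · left; simp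
      · right; exact ⟨i, by omega, by congr 1; omega⟩

private theorem h29_mem_dwn {K : Cx} {s : Finset ℤ} : s ∈ dwn K ↔ ∃ F ∈ K, s ⊆ F := by
  simp [dwn]

private theorem h29_facet_sub {z : ℕ → ℤ} (hz : Adm z) {k n : ℕ} (hk : 2 ≤ k) (hn : 2 * k ≤ n) :
    ∀ F ∈ SS z k n, F ⊆ V n := by
  intro F hF x hx
  have h := (SS_facts hz hk hn).1.2.1
  have hxV : x ∈ Verts (dwn (SS z k n)) :=
    h29_mem_dwn.2 ⟨F, hF, singleton_subset_iff.2 hx⟩
  rw [h] at hxV
  exact mem_V.2 hxV

private theorem h29_verts {z : ℕ → ℤ} (hz : Adm z) {k n : ℕ} (hk : 2 ≤ k) (hn : 2 * k ≤ n) :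
    Verts (dwn (SS z k n)) = (V n : Set ℤ) := by
  rw [(SS_facts hz hk hn).1.2.1]
  ext x
  exact mem_V.symm

/-- the special positive vertices lie in `V n` -/
private theorem h29_dn_sub {n r : ℕ} (hr : r < n) : ∀ v ∈ dn n r, v ∈ V n := by
  intro v hv
  obtain ⟨i, hi, rfl⟩ := (h29_mem_dn r n).1 hv
  rw [mem_V]
  constructor
  · have : 0 < n - i := by omega
    exact_mod_cast this.ne'
  · rw [abs_of_nonneg (by positivity)]
    exact_mod_cast Nat.sub_le _ _

/-- K2 -/
theorem iso_inj {z z' : ℕ → ℤ} (hz : Adm z) (hz' : Adm z') {k n : ℕ} (hk : 2 ≤ k)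
    (hn : 2 * k + 6 ≤ n) (ψ : ℤ → ℤ) (hψ : Set.BijOn ψ (V n) (V n))
    (hneg : ∀ x ∈ V n, ψ (-x) = -ψ x)
    (he : (SS z k n).image (fun F => F.image ψ) = SS z' k n)
    (hfix : ∀ v ∈ dn n (2 * k - 2), ψ v = v) (h1 : ψ (-1) = -1)
    (h2 : ψ (-((n - (2 * k - 2) : ℕ) : ℤ)) = -((n - (2 * k - 2) : ℕ) : ℤ)) :
    ∀ i, i ≤ n - (2 * k - 2) → 4 ≤ i → z i = z' i := by
  have hmn : V (n - (2 * k - 2)) ⊆ V n := V_mono (Nat.sub_le _ _)
  -- the rim
  have hrim : (bd (GG z (n - (2 * k - 2)))).image (fun F => F.image ψ) =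
      bd (GG z' (n - (2 * k - 2))) := by
    rw [← lkl_SS hz hk (by omega), h29_lkl_image hψ.injOn _ _
      (h29_facet_sub hz hk (by omega))
      (fun v hv => ⟨h29_dn_sub (by omega) v hv, hfix v hv⟩), he, lkl_SS hz' hk (by omega)]
  -- outside `V m` the map is the identity
  have hout : ∀ x ∈ V n, x ∉ V (n - (2 * k - 2)) → ψ x = x := by
    intro x hx hxm
    rw [mem_V] at hx hxm
    have hx1 : ((n - (2 * k - 2) : ℕ) : ℤ) < |x| := by
      by_contra hcon
      exact hxm ⟨hx.1, not_lt.1 hcon⟩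
    have hcase : x = |x| ∨ x = -|x| := by
      rcases abs_cases x with h | h
      · left; exact h.1.symm
      · right; rw [h.1]; ring
    have hmem : |x| ∈ dn n (2 * k - 2) := by
      rw [h29_mem_dn]
      refine ⟨n - x.natAbs, ?_, ?_⟩
      · have : ((n - (2 * k - 2) : ℕ) : ℤ) < (x.natAbs : ℤ) := by
          rw [Int.natCast_natAbs]; exact hx1
        have h' : n - (2 * k - 2) < x.natAbs := by exact_mod_cast this
        have h'' : x.natAbs ≤ n := by
          have : (x.natAbs : ℤ) ≤ n := by rw [Int.natCast_natAbs]; exact hx.2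
          exact_mod_cast this
        omega
      · have h'' : x.natAbs ≤ n := by
          have : (x.natAbs : ℤ) ≤ n := by rw [Int.natCast_natAbs]; exact hx.2
          exact_mod_cast this
        rw [← Int.natCast_natAbs]
        congr 1
        omega
    have hfx := hfix _ hmem
    rcases hcase with h | h
    · rw [h]; exact hfx
    · have hV : |x| ∈ V n := h29_dn_sub (by omega) _ hmem
      rw [h, hneg _ hV, hfx]
  -- `ψ` restricts to `V m`
  have hbij : Set.BijOn ψ (V (n - (2 * k - 2))) (V (n - (2 * k - 2))) := by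
    refine ⟨?_, hψ.injOn.mono (by exact_mod_cast hmn), ?_⟩
    · intro x hx
      have hxn : x ∈ V n := hmn hx
      have hyn : ψ x ∈ V n := hψ.mapsTo hxn
      by_contra hcon
      have h := hout (ψ x) hyn hcon
      have : ψ x = x := hψ.injOn hyn hxn h
      rw [this] at hcon
      exact hcon hx
    · intro y hy
      have hyn : y ∈ V n := hmn hy
      obtain ⟨x, hx, rfl⟩ := hψ.surjOn hyn
      refine ⟨x, ?_, rfl⟩
      by_contra hcon
      rw [hout x hx hcon] at hy
      exact hcon hy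
  exact rim_rigid hz hz' (by omega) ψ hbij (fun x hx => hneg x (hmn hx)) h1 h2 hrim

/-- an isomorphism of two members commutes with the antipode and maps facets onto facets -/
private theorem h29_iso {z z0 : ℕ → ℤ} (hz : Adm z) (hz0 : Adm z0) {k n : ℕ}
    (hk : 2 ≤ k) (hn : 2 * k + 6 ≤ n) (φ : ℤ → ℤ)
    (h : Set.BijOn φ (Verts (dwn (SS z k n))) (Verts (dwn (SS z0 k n))) ∧
      (∀ s ∈ dwn (SS z k n), s.image φ ∈ dwn (SS z0 k n)) ∧
      ∀ t ∈ dwn (SS z0 k n), ∃ s ∈ dwn (SS z k n), s.image φ = t) :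
    Set.BijOn φ (V n) (V n) ∧ (∀ x ∈ V n, φ (-x) = -φ x) ∧
      (SS z k n).image (fun F => F.image φ) = SS z0 k n := by
  have hn' : 2 * k ≤ n := by omega
  obtain ⟨hb, hf, hs⟩ := h
  rw [h29_verts hz hk hn', h29_verts hz0 hk hn'] at hb
  obtain ⟨hcs, -, hnb, hpure⟩ := SS_facts hz hk hn'
  obtain ⟨hcs0, -, hnb0, hpure0⟩ := SS_facts hz0 hk hn'
  have hfs := h29_facet_sub hz hk hn'
  have hfs0 := h29_facet_sub hz0 hk hn'
  -- subsets of `V n`
  have hdsub : ∀ s ∈ dwn (SS z k n), s ⊆ V n := by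
    intro s hs
    obtain ⟨F, hF, hsF⟩ := h29_mem_dwn.1 hs
    exact hsF.trans (hfs F hF)
  refine ⟨hb, ?_, ?_⟩
  · intro x hx
    by_contra hcon
    have hnx : -x ∈ V n := neg_mem_V.2 hx
    have hx0 : x ≠ 0 := (mem_V.1 hx).1
    have hxx : x ≠ -x := by
      intro h; apply hx0; omega
    have hne : φ (-x) ≠ φ x := by
      intro h
      exact hxx (hb.injOn hnx hx h).symm
    have ha : φ x ∈ V n := hb.mapsTo hx
    have hb' : φ (-x) ∈ V n := hb.mapsTo hnx
    -- `{φ x, φ (-x)}` is antipode free, extend it to a `k`-set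
    have hAF : ∀ v ∈ ({φ x, φ (-x)} : Finset ℤ), -v ∉ ({φ x, φ (-x)} : Finset ℤ) := by
      have h1 := (mem_V.1 ha).1
      have h2 := (mem_V.1 hb').1
      intro v hv
      simp only [mem_insert, mem_singleton] at hv ⊢
      rintro (h | h) <;> rcases hv with rfl | rfl <;> omega
    have hface : ({φ x, φ (-x)} : Finset ℤ) ∈ dwn (SS z0 k n) := by
      -- all antipode-free pairs are faces
      set a := φ x with hadef
      set b := φ (-x) with hbdef
      -- the absolute values
      have hT : ∃ T : Finset ℕ, T ⊆ (Finset.Icc 1 n) \ {a.natAbs, b.natAbs} ∧ T.card = k - 2 := by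
        apply Finset.exists_subset_card_eq
        have h1 : ((Finset.Icc 1 n) \ {a.natAbs, b.natAbs}).card ≥
            (Finset.Icc 1 n).card - ({a.natAbs, b.natAbs} : Finset ℕ).card :=
          Finset.le_card_sdiff _ _
        have h2 : ({a.natAbs, b.natAbs} : Finset ℕ).card ≤ 2 := Finset.card_le_two
        rw [Nat.card_Icc] at h1
        omega
      obtain ⟨T, hTs, hTc⟩ := hT
      have hTmem : ∀ i ∈ T, 1 ≤ i ∧ i ≤ n ∧ i ≠ a.natAbs ∧ i ≠ b.natAbs := by
        intro i hi
        have := hTs hi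
        simp only [mem_sdiff, mem_Icc, mem_insert, mem_singleton, not_or] at this
        exact ⟨this.1.1, this.1.2, this.2.1, this.2.2⟩
      have hcast : Function.Injective (fun i : ℕ => (i : ℤ)) := Nat.cast_injective
      have hcard : (insert a (insert b (T.image (fun i : ℕ => (i : ℤ))))).card = k := by
        rw [card_insert_of_notMem, card_insert_of_notMem, card_image_of_injective _ hcast, hTc]
        · omega
        · intro h
          obtain ⟨i, hi, hib⟩ := mem_image.1 h
          have := hTmem i hi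
          omega
        · intro h
          rcases mem_insert.1 h with h | h
          · exact hne h.symm
          · obtain ⟨i, hi, hib⟩ := mem_image.1 h
            have := hTmem i hi
            omega
      have hmem := hnb0 (insert a (insert b (T.image (fun i : ℕ => (i : ℤ))))) ?_ ?_ hcard
      · exact hcs0.1.2 _ hmem _ (by
          intro y hy
          simp only [mem_insert, mem_singleton] at hy ⊢
          tauto)
      · intro v hv
        rcases mem_insert.1 hv with rfl | hv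
        · exact mem_V.1 ha
        rcases mem_insert.1 hv with rfl | hv
        · exact mem_V.1 hb'
        obtain ⟨i, hi, rfl⟩ := mem_image.1 hv
        have := hTmem i hi
        refine ⟨by omega, ?_⟩
        rw [abs_of_nonneg (by positivity)]
        exact_mod_cast this.2.1
      · have ha0 := (mem_V.1 ha).1
        have hb0 := (mem_V.1 hb').1
        have hab : b ≠ -a := hcon
        intro v hv hv'
        simp only [mem_insert, mem_image] at hv hv'
        rcases hv with rfl | rfl | ⟨i, hi, rfl⟩ <;> rcases hv' with h | h | ⟨j, hj, h⟩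
        · omega
        · omega
        · have := hTmem j hj; omega
        · omega
        · omega
        · have := hTmem j hj; omega
        · have := hTmem i hi; omega
        · have := hTmem i hi; omega
        · have := hTmem i hi; have := hTmem j hj; omega
    obtain ⟨s, hsd, hst⟩ := hs _ hface
    have hxs : x ∈ s := by
      have : φ x ∈ s.image φ := by rw [hst]; simp
      obtain ⟨y, hy, hyx⟩ := mem_image.1 this
      have : y = x := hb.injOn (hdsub s hsd hy) hx hyx
      exact this ▸ hy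
    have hnxs : -x ∈ s := by
      have : φ (-x) ∈ s.image φ := by rw [hst]; simp
      obtain ⟨y, hy, hyx⟩ := mem_image.1 this
      have : y = -x := hb.injOn (hdsub s hsd hy) hnx hyx
      exact this ▸ hy
    exact hcs.2.2.2 s hsd x hxs hnxs
  · ext G
    simp only [mem_image]
    constructor
    · rintro ⟨F, hF, rfl⟩
      have hFd : F ∈ dwn (SS z k n) := h29_mem_dwn.2 ⟨F, hF, Subset.refl _⟩
      obtain ⟨F0, hF0, hsub⟩ := h29_mem_dwn.1 (hf F hFd)
      have hc : (F.image φ).card = 2 * k := by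
        rw [card_image_of_injOn (hb.injOn.mono (by exact_mod_cast hfs F hF)), hpure F hF]
      have : F.image φ = F0 := eq_of_subset_of_card_le hsub (by rw [hc, hpure0 F0 hF0])
      rw [this]; exact hF0
    · intro hG
      obtain ⟨s, hsd, hst⟩ := hs G (h29_mem_dwn.2 ⟨G, hG, Subset.refl _⟩)
      obtain ⟨F, hF, hsF⟩ := h29_mem_dwn.1 hsd
      have hc : s.card = 2 * k := by
        rw [← hpure0 G hG, ← hst, card_image_of_injOn (hb.injOn.mono
          (by exact_mod_cast hdsub s hsd))]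
      have : s = F := eq_of_subset_of_card_le hsF (by rw [hc, hpure F hF])
      exact ⟨s, this ▸ hF, hst⟩

/-- K3: one isomorphism class contains few members: if two members are isomorphic to a third one
by maps which agree on the `2 k` special vertices, then they agree -/
theorem iso_class {z z' z0 : ℕ → ℤ} (hz : Adm z) (hz' : Adm z') (hz0 : Adm z0) {k n : ℕ}
    (hk : 2 ≤ k) (hn : 2 * k + 6 ≤ n) (φ φ' : ℤ → ℤ)
    (h : Set.BijOn φ (Verts (dwn (SS z k n))) (Verts (dwn (SS z0 k n))) ∧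
      (∀ s ∈ dwn (SS z k n), s.image φ ∈ dwn (SS z0 k n)) ∧
      ∀ t ∈ dwn (SS z0 k n), ∃ s ∈ dwn (SS z k n), s.image φ = t)
    (h' : Set.BijOn φ' (Verts (dwn (SS z' k n))) (Verts (dwn (SS z0 k n))) ∧
      (∀ s ∈ dwn (SS z' k n), s.image φ' ∈ dwn (SS z0 k n)) ∧
      ∀ t ∈ dwn (SS z0 k n), ∃ s ∈ dwn (SS z' k n), s.image φ' = t)
    (hag : ∀ v ∈ dn n (2 * k - 2), φ v = φ' v) (h1 : φ (-1) = φ' (-1))
    (h2 : φ (-((n - (2 * k - 2) : ℕ) : ℤ)) = φ' (-((n - (2 * k - 2) : ℕ) : ℤ))) :
    ∀ i, i ≤ n - (2 * k - 2) → 4 ≤ i → z i = z' i := by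
  have hn' : 2 * k ≤ n := by omega
  obtain ⟨hb, hneg, hF⟩ := h29_iso hz hz0 hk hn φ h
  obtain ⟨hb', hneg', hF'⟩ := h29_iso hz' hz0 hk hn φ' h'
  obtain ⟨g, hg⟩ : ∃ g : ℤ → ℤ, Set.InvOn g φ' (V n) (V n) :=
    ⟨Function.invFunOn φ' (V n), hb'.invOn_invFunOn⟩
  have hgb : Set.BijOn g (V n) (V n) :=
    (Set.bijOn_comm hg).2 hb'
  have hgl : ∀ x ∈ V n, g (φ' x) = x := fun x hx => hg.1 hx
  have hgr : ∀ y ∈ V n, φ' (g y) = y := fun y hy => hg.2 hy
  have hgneg : ∀ y ∈ V n, g (-y) = -g y := by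
    intro y hy
    have hgy : g y ∈ V n := hgb.mapsTo hy
    have h3 : φ' (-g y) = -y := by rw [hneg' _ hgy, hgr y hy]
    have h4 := hgl (-g y) (neg_mem_V.2 hgy)
    rw [h3] at h4
    exact h4
  have hψ : Set.BijOn (g ∘ φ) (V n) (V n) := hgb.comp hb
  refine iso_inj hz hz' hk hn (g ∘ φ) hψ ?_ ?_ ?_ ?_ ?_
  · intro x hx
    show g (φ (-x)) = -g (φ x)
    rw [hneg x hx, hgneg _ (hb.mapsTo hx)]
  · have hcomp : ∀ F : Finset ℤ, F.image (g ∘ φ) = (F.image φ).image g := by
      intro F; rw [image_image]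
    have hback : ∀ F ∈ SS z' k n, (F.image φ').image g = F := by
      intro F hFm
      rw [image_image]
      ext x
      simp only [mem_image, Function.comp]
      constructor
      · rintro ⟨y, hy, rfl⟩
        rw [hgl y (h29_facet_sub hz' hk hn' F hFm hy)]
        exact hy
      · intro hx
        exact ⟨x, hx, hgl x (h29_facet_sub hz' hk hn' F hFm hx)⟩
    ext G
    simp only [mem_image]
    constructor
    · rintro ⟨F, hFm, rfl⟩
      rw [hcomp]
      have h3 : F.image φ ∈ SS z0 k n := by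
        rw [← hF]; exact mem_image_of_mem _ hFm
      rw [← hF'] at h3
      obtain ⟨F', hF'm, hFF⟩ := mem_image.1 h3
      rw [← hFF, hback F' hF'm]
      exact hF'm
    · intro hG
      have h3 : G.image φ' ∈ SS z0 k n := by
        rw [← hF']; exact mem_image_of_mem _ hG
      rw [← hF] at h3
      obtain ⟨F, hFm, hFF⟩ := mem_image.1 h3
      refine ⟨F, hFm, ?_⟩
      rw [hcomp, hFF, hback G hG]
  · intro v hv
    show g (φ v) = v
    rw [hag v hv, hgl v (h29_dn_sub (by omega) v hv)]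
  · show g (φ (-1)) = -1
    rw [h1, hgl]
    rw [mem_V]
    refine ⟨by norm_num, ?_⟩
    have : (1 : ℤ) ≤ n := by exact_mod_cast (by omega : 1 ≤ n)
    simpa using this
  · show g (φ _) = _
    rw [h2, hgl]
    rw [neg_mem_V, mem_V]
    have h3 : 0 < n - (2 * k - 2) := by omega
    refine ⟨by exact_mod_cast h3.ne', ?_⟩
    rw [abs_of_nonneg (by positivity)]
    exact_mod_cast Nat.sub_le _ _

end Pool.Agent.H30.NZ
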