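import Pool.Agent.H30.NZ.Count
import Pool.Agent.H30.NZ.Final2

/-! # MP_63054e_co: final assembly -/

namespace Pool.Agent.H30.NZ

open Finset

private theorem isom_refl {D : Finset (Finset ℤ)} : Isom D D :=
  ⟨id, Set.bijOn_id _, fun s hs => by simpa using hs, fun t ht => ⟨t, ht, by simp⟩⟩

private theorem isom_symm {D D' : Finset (Finset ℤ)} (hD : IsComplex D)
    (h : Isom D D') : Isom D' D := by
  obtain ⟨φ, hb, h1, h2⟩ := h
  classical
  set ψ := Function.invFunOn φ (Verts D) with hψ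
  have hinv : Set.InvOn ψ φ (Verts D) (Verts D') := hb.invOn_invFunOn
  have hb' : Set.BijOn ψ (Verts D') (Verts D) := hinv.symm.bijOn hb.surjOn.mapsTo_invFunOn hb.mapsTo
  have key : ∀ s ∈ D, (s.image φ).image ψ = s := by
    intro s hs
    rw [Finset.image_image]
    ext x
    simp only [Finset.mem_image, Function.comp]
    constructor
    · rintro ⟨y, hy, rfl⟩
      rw [hinv.1 (hD.2 s hs {y} (by simpa using hy))]
      exact hy
    · intro hx
      exact ⟨x, hx, hinv.1 (hD.2 s hs {x} (by simpa using hx))⟩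
  refine ⟨ψ, hb', ?_, ?_⟩
  · intro t ht
    obtain ⟨s, hs, rfl⟩ := h2 t ht
    rw [key s hs]; exact hs
  · intro s hs
    exact ⟨s.image φ, h1 s hs, key s hs⟩

private theorem isom_trans {D D' D'' : Finset (Finset ℤ)} (h : Isom D D') (h' : Isom D' D'') :
    Isom D D'' := by
  obtain ⟨φ, hb, h1, h2⟩ := h
  obtain ⟨φ', hb', h1', h2'⟩ := h'
  refine ⟨φ' ∘ φ, hb'.comp hb, ?_, ?_⟩
  · intro s hs
    rw [← Finset.image_image]
    exact h1' _ (h1 s hs)
  · intro t ht
    obtain ⟨s', hs', rfl⟩ := h2' t ht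
    obtain ⟨s, hs, rfl⟩ := h2 s' hs'
    exact ⟨s, hs, by rw [Finset.image_image]⟩

private theorem length_dn (n r : ℕ) : (dn n r).length = r := by
  induction r generalizing n with
  | zero => rfl
  | succ r ih => simp [dn, ih]

private theorem mem_dn {n r : ℕ} {v : ℤ} (h : v ∈ dn n r) (hr : r < n) :
    1 ≤ v ∧ v ≤ n := by
  induction r generalizing n with
  | zero => simp [dn] at h
  | succ r ih =>
    simp only [dn, List.mem_cons] at h
    rcases h with h | h
    · subst h; omega
    · have := ih h (by omega); omega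

theorem main (k : ℕ) (hk : 2 ≤ k) : ∃ n0 : ℕ, ∀ n ≥ n0, ∃ 𝓕 : Finset (Finset (Finset ℤ)),
    (n - 2 * k - 4).factorial ≤ (2 * n) ^ (2 * k) * 𝓕.card ∧ 2 ^ n ≤ 𝓕.card ∧
    (∀ D ∈ 𝓕, IsCS n D ∧ IsCombSphere (2 * k - 1) D ∧ CSNeighborly k n D) ∧
    ∀ D ∈ 𝓕, ∀ D' ∈ 𝓕, Isom D D' → D = D' := by
  classical
  obtain ⟨n0, hn0⟩ := numeric k
  refine ⟨max n0 (2 * k + 6), fun n hn => ?_⟩
  have hn1 : n0 ≤ n := le_trans (le_max_left _ _) hn
  have hn2 : 2 * k + 6 ≤ n := le_trans (le_max_right _ _) hn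
  obtain ⟨r, hr⟩ : ∃ r, r = n - 2 * k - 4 := ⟨_, rfl⟩
  have hn0' := hn0 n hn1
  rw [← hr] at hn0' ⊢
  obtain ⟨Z, hZ, hinjZ⟩ := exists_adm r
  set T : ((i : Fin r) → Fin (i + 1)) → Finset (Finset ℤ) := fun c => dwn (SS (Z c) k n) with hT
  have hfacts : ∀ c, IsCS n (T c) ∧ IsCombSphere (2 * k - 1) (T c) ∧ CSNeighborly k n (T c) :=
    fun c => by
      obtain ⟨h1, h2, h3, -⟩ := SS_facts (hZ c) hk (by omega : 2 * k ≤ n)
      exact ⟨h1, h2, h3⟩
  have hcx : ∀ c, IsComplex (T c) := fun c => (hfacts c).1.1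
  have hvs : ∀ c, Verts (T c) = {v : ℤ | v ≠ 0 ∧ |v| ≤ (n : ℤ)} := fun c => (hfacts c).1.2.1
  set m := n - (2 * k - 2) with hm
  set L : List ℤ := dn n (2 * k - 2) ++ [-1, -(m : ℤ)] with hL
  have hLlen : L.length = 2 * k := by
    rw [hL, List.length_append, length_dn]; simp; omega
  have hLmem : ∀ v ∈ L, v ≠ 0 ∧ |v| ≤ (n : ℤ) := by
    intro v hv
    rw [hL, List.mem_append] at hv
    rcases hv with hv | hv
    · have := mem_dn hv (by omega)
      rw [abs_of_pos (by omega)]; omega
    · simp only [List.mem_cons, List.not_mem_nil, or_false] at hv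
      rcases hv with hv | hv
      · subst hv; simp; omega
      · subst hv; rw [abs_neg, abs_of_nonneg (by omega)]; omega
  -- the relation
  have hE : Equivalence (fun c c' => Isom (T c) (T c')) :=
    ⟨fun c => isom_refl, fun h => isom_symm (hcx _) h, fun h h' => isom_trans h h'⟩
  set S : Finset (Fin (2 * k) → ℤ) := Fintype.piFinset (fun _ => V n) with hS
  have hScard : S.card ≤ (2 * n) ^ (2 * k) := by
    rw [hS, Fintype.card_piFinset, Finset.prod_const, card_V]; simp
  obtain ⟨J, hJ1, hJ2⟩ := many_classes (ι := ((i : Fin r) → Fin (i + 1)))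
    (α := ((i : Fin r) → Fin (i + 1))) (β := Fin (2 * k) → ℤ) id
    (fun c c' => Isom (T c) (T c')) hE ((2 * n) ^ (2 * k)) S hScard
    (fun c c' h => fun i => (Classical.choose h) (L.getD i 0))
    (by
      intro c c' h
      rw [hS, Fintype.mem_piFinset]
      intro i
      have hsp := Classical.choose_spec h
      have hmem : L.getD i 0 ∈ L := by
        rw [List.getD_eq_getElem _ _ (by rw [hLlen]; exact i.2)]
        exact List.getElem_mem _
      have h1 : L.getD i 0 ∈ Verts (T c) := by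
        rw [hvs]; exact hLmem _ hmem
      have h2 := hsp.1.mapsTo h1
      exact mem_V.2 ((Set.ext_iff.1 (hvs c') _).1 h2))
    (by
      intro c c' c0 h h' htag
      have hsp := Classical.choose_spec h
      have hsp' := Classical.choose_spec h'
      have hag : ∀ v ∈ L, (Classical.choose h) v = (Classical.choose h') v := by
        intro v hv
        obtain ⟨i, hi, rfl⟩ := List.getElem_of_mem hv
        have := congrFun htag ⟨i, by rw [← hLlen]; exact hi⟩
        simp only at this
        rw [List.getD_eq_getElem _ _ hi] at this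
        exact this
      refine hinjZ c c' (fun i h4 hi => ?_)
      exact iso_class (hZ c) (hZ c') (hZ c0) hk hn2 _ _ hsp hsp'
        (fun v hv => hag v (by rw [hL]; exact List.mem_append_left _ hv))
        (hag _ (by simp [hL])) (hag _ (by simp [hL, hm])) i (by omega) h4)
  refine ⟨J.image T, ?_⟩
  have hTinj : ∀ c ∈ J, ∀ c' ∈ J, T c = T c' → c = c' := by
    intro c hc c' hc' h
    exact hJ2 c hc c' hc' (by show Isom (T c) (T c'); rw [h]; exact isom_refl)
  have hcard : (J.image T).card = J.card := Finset.card_image_of_injOn (fun c hc c' hc' h =>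
    hTinj c hc c' hc' h)
  have hι : Fintype.card ((i : Fin r) → Fin (i + 1)) = r.factorial := by
    rw [Fintype.card_pi]
    simp only [Fintype.card_fin]
    rw [Fin.prod_univ_eq_prod_range (fun i => i + 1) r, Finset.prod_range_add_one_eq_factorial]
  rw [hι] at hJ1
  rw [hcard]
  refine ⟨hJ1, ?_, ?_, ?_⟩
  · have h1 := le_trans hn0' hJ1
    have h2 : 2 ^ n * (2 * n) ^ (2 * k) ≤ J.card * (2 * n) ^ (2 * k) := by
      rw [mul_comm J.card]; exact h1
    exact Nat.le_of_mul_le_mul_right h2 (Nat.pow_pos (by omega))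
  · intro D hD
    obtain ⟨c, -, rfl⟩ := Finset.mem_image.1 hD
    exact hfacts c
  · intro D hD D' hD' h
    obtain ⟨c, hc, rfl⟩ := Finset.mem_image.1 hD
    obtain ⟨c', hc', rfl⟩ := Finset.mem_image.1 hD'
    rw [hJ2 c hc c' hc' h]

end Pool.Agent.H30.NZ
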