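import Pool.Agent.H30.NZ.Final1a
import Pool.Agent.H30.NZ.TopB

/-!
# MP_63054e_co: the final facts on the spheres
-/

namespace Pool.Agent.H30.NZ
open Finset

/-- K0: the final facts on `SS` -/
theorem SS_facts {z : ℕ → ℤ} (hz : Adm z) {k n : ℕ} (hk : 2 ≤ k) (hn : 2 * k ≤ n) :
    IsCS n (dwn (SS z k n)) ∧ IsCombSphere (2 * k - 1) (dwn (SS z k n)) ∧
      CSNeighborly k n (dwn (SS z k n)) ∧ Pure (2 * k) (SS z k n) := by
  obtain ⟨s, rfl⟩ : ∃ s, k = s + 2 := ⟨k - 2, by omega⟩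
  have h1 : Fam (2 * (s + 1) + 1) (s + 1) (XX z s) := XX_fam hz s
  have h2 : SphFacts (s + 2) (lift (XX z s) (s + 2)) := sph_facts (Nat.le_add_left 1 s) h1
  exact h13_core (by omega) hn h2

end Pool.Agent.H30.NZ
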