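import Pool.Agent.H30.NZ.LiftB
import Pool.Agent.H30.NZ.GoodOps
import Pool.Agent.H30.NZ.Cross

/-!
# The facts on the spheres (module TopA)
-/

namespace Pool.Agent.H30.NZ
open Finset

/-- facets of `X j m` have their vertices in `V m`, also for `j = 0` -/
private theorem h40_sub {c t : ℕ} {X : ℕ → ℕ → Cx} (hX : Fam c t X) {j m : ℕ}
    (hjt : j ≤ t + 1) (hm : c ≤ m) : ∀ F ∈ X j m, F ⊆ V m ∧ AF F := by
  intro F hF
  rcases Nat.eq_zero_or_pos j with h | h
  · rw [h, hX.zero] at hF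
    exact absurd hF (Finset.notMem_empty F)
  · exact (hX.P1 j m h hjt hm).2 F hF

private theorem h40_nv {K : Cx} {m : ℕ} (h : ∀ F ∈ K, F ⊆ V m ∧ AF F) :
    ((m : ℤ) + 1) ∉ vts K ∧ (-((m : ℤ) + 1)) ∉ vts K := by
  constructor
  · intro h1
    obtain ⟨F, hF, hx⟩ := mem_vts.1 h1
    exact not_mem_V.1 ((h F hF).1 (Finset.singleton_subset_iff.1 hx))
  · intro h1
    obtain ⟨F, hF, hx⟩ := mem_vts.1 h1
    exact not_mem_V.2 ((h F hF).1 (Finset.singleton_subset_iff.1 hx))

private theorem h40_neg {K : Cx} {m : ℕ} (h : ∀ F ∈ K, F ⊆ V m ∧ AF F) :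
    ∀ F ∈ neg K, F ⊆ V m ∧ AF F := by
  intro F hF
  rw [mem_neg] at hF
  exact ⟨ngs_subset_V.1 (h _ hF).1, af_ngs.1 (h _ hF).2⟩

private theorem h40_mem_cone {w : ℤ} {K : Cx} {F : Finset ℤ} (h : F ∈ cone w K) : w ∈ F := by
  obtain ⟨G, -, rfl⟩ := Finset.mem_image.1 h
  exact Finset.mem_insert_self _ _

private theorem h40_not_cone {K L : Cx} {m : ℕ} (h : ∀ F ∈ K, F ⊆ V m ∧ AF F) :
    Disjoint (cone ((m : ℤ) + 1) L) K ∧ Disjoint (cone (-((m : ℤ) + 1)) L) K := by
  constructor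
  · rw [Finset.disjoint_left]
    intro F h1 h2
    exact not_mem_V.1 ((h F h2).1 (h40_mem_cone h1))
  · rw [Finset.disjoint_left]
    intro F h1 h2
    exact not_mem_V.2 ((h F h2).1 (h40_mem_cone h1))

private theorem h40_cone_cone {K L : Cx} {m : ℕ}
    (h' : ∀ F ∈ L, F ⊆ V m ∧ AF F) :
    Disjoint (cone ((m : ℤ) + 1) K) (cone (-((m : ℤ) + 1)) L) := by
  rw [Finset.disjoint_left]
  intro F h1 h2
  have h3 := h40_mem_cone h1
  obtain ⟨G, hG, rfl⟩ := Finset.mem_image.1 h2
  rcases Finset.mem_insert.1 h3 with h4 | h4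
  · omega
  · exact not_mem_V.1 ((h' G hG).1 h4)

private theorem h40_disj_cone {w : ℤ} {K L : Cx} (hK : w ∉ vts K) (hL : w ∉ vts L)
    (h : Disjoint K L) : Disjoint (cone w K) (cone w L) := by
  rw [Finset.disjoint_left] at h ⊢
  intro F h1 h2
  obtain ⟨G, hG, rfl⟩ := Finset.mem_image.1 h1
  obtain ⟨G', hG', h3⟩ := Finset.mem_image.1 h2
  have h4 : w ∉ G := fun hh => hK (mem_vts.2 ⟨G, hG, Finset.singleton_subset_iff.2 hh⟩)
  have h5 : w ∉ G' := fun hh => hL (mem_vts.2 ⟨G', hG', Finset.singleton_subset_iff.2 hh⟩)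
  have h6 : G' = G := by
    have := congrArg (fun s => s.erase w) h3
    simpa only [Finset.erase_insert h4, Finset.erase_insert h5] using this
  rw [h6] at hG'
  exact h hG hG'

/-- the top members `C m` do not meet their antipodes -/
theorem disj_lift {c t : ℕ} {X : ℕ → ℕ → Cx} (hX : Fam c t X) {j m : ℕ} (hj : 1 ≤ j)
    (hjt : j ≤ t + 1) (hm : c + 1 ≤ m) : Disjoint (lift X j m) (neg (lift X j m)) := by
  obtain ⟨m, rfl⟩ : ∃ m', m = m' + 1 := ⟨m - 1, by omega⟩
  have s1 := h40_sub hX hjt (by omega : c ≤ m)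
  have s0 := h40_sub hX (by omega : j - 1 ≤ t + 1) (by omega : c ≤ m)
  have s1' := h40_neg s1
  have s0' := h40_neg s0
  have hd := hX.P3 j m hj hjt (by omega)
  unfold lift
  rw [neg_union, neg_cone, neg_cone, neg_neg, _root_.neg_neg]
  rw [Finset.disjoint_union_left, Finset.disjoint_union_right, Finset.disjoint_union_right]
  refine ⟨⟨h40_cone_cone s1', h40_disj_cone (h40_nv s1).1 (h40_nv s0).1 hd⟩,
    h40_disj_cone (h40_nv s0').2 (h40_nv s1').2 (disjoint_neg.2 hd.symm),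
    (h40_cone_cone s0').symm⟩

/-- one step of the sphere construction -/
private theorem h40_step {k : ℕ} {C : ℕ → Cx} {m : ℕ} (hm : 2 * k ≤ m) :
    sph k C (m + 1) = (sph k C m \ (C m ∪ neg (C m))) ∪
      (cone ((m : ℤ) + 1) (bd (C m)) ∪ cone (-((m : ℤ) + 1)) (neg (bd (C m)))) := by
  obtain ⟨r, rfl⟩ : ∃ r, m = 2 * k + r := ⟨m - 2 * k, by omega⟩
  unfold sph
  have h1 : 2 * k + r + 1 - 2 * k = r + 1 := by omega
  have h2 : 2 * k + r - 2 * k = r := by omega
  rw [h1, h2]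
  rfl

private theorem h40_base {k : ℕ} {C : ℕ → Cx} : sph k C (2 * k) = cross (2 * k) := by
  unfold sph
  rw [Nat.sub_self]
  rfl

private theorem h40_bd_vert {K : Cx} {m : ℕ} (h : ∀ F ∈ K, F ⊆ V m ∧ AF F) :
    ∀ F ∈ bd K, F ⊆ V m ∧ AF F := by
  intro F hF
  obtain ⟨G, hG, hFG⟩ := fc_bd (⟨F, hF, Finset.Subset.refl F⟩ : Fc (bd K) F)
  exact ⟨hFG.trans (h G hG).1, fun x hx hx' => (h G hG).2 x (hFG hx) (hFG hx')⟩

private theorem h40_cone_vert {K : Cx} {m : ℕ} (h : ∀ F ∈ K, F ⊆ V m ∧ AF F) {w : ℤ}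
    (hw : w = (m : ℤ) + 1 ∨ w = -((m : ℤ) + 1)) :
    ∀ F ∈ cone w K, F ⊆ V (m + 1) ∧ AF F := by
  intro F hF
  obtain ⟨G, hG, rfl⟩ := Finset.mem_image.1 hF
  obtain ⟨h1, h2⟩ := h G hG
  have hwV : w ∈ V (m + 1) := by
    rw [mem_V]
    push_cast
    rcases hw with rfl | rfl
    · exact ⟨by omega, by rw [abs_of_nonneg (by omega)]⟩
    · exact ⟨by omega, by rw [abs_neg, abs_of_nonneg (by omega)]⟩
  have hnw : w ∉ V m ∧ -w ∉ V m := by
    rcases hw with rfl | rfl
    · exact not_mem_V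
    · rw [_root_.neg_neg]
      exact ⟨not_mem_V.2, not_mem_V.1⟩
  have hw0 : w ≠ -w := by
    rcases hw with rfl | rfl <;> omega
  refine ⟨Finset.insert_subset hwV (h1.trans (V_mono (Nat.le_succ m))), ?_⟩
  intro x hx hx'
  rcases Finset.mem_insert.1 hx with h3 | h3
  · subst h3
    rcases Finset.mem_insert.1 hx' with h4 | h4
    · exact hw0 h4.symm
    · exact hnw.2 (h1 h4)
  · rcases Finset.mem_insert.1 hx' with h4 | h4
    · apply hnw.2
      rw [← h4, _root_.neg_neg]
      exact h1 h3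
    · exact h2 x h3 h4

section facts
variable {t : ℕ} {X : ℕ → ℕ → Cx} (ht : 1 ≤ t) (hX : Fam (2 * t + 1) t X)
include ht hX

private theorem h40_goodC {m : ℕ} (hm : 2 * (t + 1) ≤ m) :
    Good (2 * (t + 1)) (lift X (t + 1) m) :=
  lift_P6 hX (t + 1) m (by omega) le_rfl (by omega)

private theorem h40_vertC {m : ℕ} (hm : 2 * (t + 1) ≤ m) :
    ∀ F ∈ lift X (t + 1) m, F ⊆ V m ∧ AF F :=
  (lift_P1 hX (t + 1) m (by omega) le_rfl (by omega)).2

private theorem h40_sub_sph {m : ℕ} (hm : 2 * (t + 1) ≤ m) :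
    lift X (t + 1) m ⊆ sph (t + 1) (lift X (t + 1)) m := by
  rcases Nat.eq_or_lt_of_le hm with h | h
  · subst h
    rw [h40_base]
    intro F hF
    obtain ⟨h1, h2⟩ := lift_P1 hX (t + 1) (2 * (t + 1)) (by omega) le_rfl (by omega)
    exact mem_cross.2 ⟨(h2 F hF).1, (h2 F hF).2, h1 F hF⟩
  · obtain ⟨m, rfl⟩ : ∃ m', m = m' + 1 := ⟨m - 1, by omega⟩
    rw [h40_step (by omega)]
    have h7 := hX.P7 (t + 1) m (by omega) le_rfl (by omega)
    refine Finset.Subset.trans ?_ Finset.subset_union_right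
    change cone ((m : ℤ) + 1) (X (t + 1) m) ∪ cone (-((m : ℤ) + 1)) (neg (X (t + 1 - 1) m)) ⊆ _
    exact Finset.union_subset_union (cone_subset h7.1) (cone_subset (neg_subset.2 h7.2))

private theorem h40_vert {m : ℕ} (hm : 2 * (t + 1) ≤ m) :
    ∀ F ∈ sph (t + 1) (lift X (t + 1)) m, F ⊆ V m ∧ AF F := by
  induction m, hm using Nat.le_induction with
  | base =>
    rw [h40_base]
    intro F hF
    exact ⟨(mem_cross.1 hF).1, (mem_cross.1 hF).2.1⟩
  | succ m hm ih =>
    rw [h40_step hm]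
    have hb := h40_bd_vert (h40_vertC ht hX hm)
    intro F hF
    rcases Finset.mem_union.1 hF with h | h
    · have h1 := ih F (Finset.mem_sdiff.1 h).1
      exact ⟨h1.1.trans (V_mono (Nat.le_succ m)), h1.2⟩
    · rcases Finset.mem_union.1 h with h | h
      · exact h40_cone_vert hb (Or.inl rfl) F h
      · exact h40_cone_vert (h40_neg hb) (Or.inr rfl) F h

omit ht hX in
private theorem h40_symm {m : ℕ} (hm : 2 * (t + 1) ≤ m) :
    neg (sph (t + 1) (lift X (t + 1)) m) = sph (t + 1) (lift X (t + 1)) m := by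
  induction m, hm using Nat.le_induction with
  | base => rw [h40_base, neg_cross]
  | succ m hm ih =>
    rw [h40_step hm, neg_union, neg_sdiff, neg_union, neg_union, neg_cone, neg_cone, ih, neg_neg,
      neg_neg, _root_.neg_neg, Finset.union_comm (neg _) (lift X (t + 1) m),
      Finset.union_comm (cone _ _) (cone _ _)]

/-- the intermediate complex -/
private theorem h40_mid {m : ℕ} (hm : 2 * (t + 1) ≤ m) :
    sph (t + 1) (lift X (t + 1)) (m + 1) =
      (((sph (t + 1) (lift X (t + 1)) m \ lift X (t + 1) m) ∪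
        cone ((m : ℤ) + 1) (bd (lift X (t + 1) m))) \ neg (lift X (t + 1) m)) ∪
        cone (-((m : ℤ) + 1)) (bd (neg (lift X (t + 1) m))) := by
  have h1 : Disjoint (cone ((m : ℤ) + 1) (bd (lift X (t + 1) m))) (neg (lift X (t + 1) m)) :=
    (h40_not_cone (h40_neg (h40_vertC ht hX hm))).1
  rw [h40_step hm, bd_neg, Finset.union_sdiff_distrib, Finset.sdiff_eq_self_of_disjoint h1,
    sdiff_sdiff_left, Finset.union_assoc]
  rfl

private theorem h40_main {m : ℕ} (hm : 2 * (t + 1) ≤ m) :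
    Pure (2 * (t + 1)) (sph (t + 1) (lift X (t + 1)) m) ∧
    PM (sph (t + 1) (lift X (t + 1)) m) ∧ Nor (sph (t + 1) (lift X (t + 1)) m) ∧
    bd (sph (t + 1) (lift X (t + 1)) m) = ∅ := by
  induction m, hm using Nat.le_induction with
  | base =>
    rw [h40_base]
    exact ⟨pure_cross _, pm_cross _, nor_cross _, bd_cross _⟩
  | succ m hm ih =>
    obtain ⟨i1, i2, i3, i4⟩ := ih
    have hs := h40_sub_sph ht hX hm
    have gC := h40_goodC ht hX hm
    have gC' := good_neg gC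
    have vS := h40_vert ht hX hm
    have vC := h40_vertC ht hX hm
    have vC' := h40_neg vC
    have dC := disj_lift hX (j := t + 1) (m := m) (by omega) le_rfl (by omega)
    have sC' : neg (lift X (t + 1) m) ⊆ sph (t + 1) (lift X (t + 1)) m := by
      rw [← h40_symm hm]
      exact neg_subset.2 hs
    have w1 := (h40_nv vS).1
    have w2 := (h40_nv vS).2
    have pbC : Pure (2 * t + 1) (bd (lift X (t + 1) m)) := pure_bd gC.pure
    have pQ : Pure (2 * (t + 1)) ((sph (t + 1) (lift X (t + 1)) m \ lift X (t + 1) m) ∪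
        cone ((m : ℤ) + 1) (bd (lift X (t + 1) m))) :=
      pure_union (pure_mono Finset.sdiff_subset i1)
        (pure_cone pbC (h40_nv (h40_bd_vert vC)).1)
    have sub2 : neg (lift X (t + 1) m) ⊆ (sph (t + 1) (lift X (t + 1)) m \ lift X (t + 1) m) ∪
        cone ((m : ℤ) + 1) (bd (lift X (t + 1) m)) := by
      refine Finset.Subset.trans ?_ Finset.subset_union_left
      intro F hF
      exact Finset.mem_sdiff.2 ⟨sC' hF, fun hh => (Finset.disjoint_left.1 dC) hh hF⟩
    have w3 : (-((m : ℤ) + 1)) ∉ vts ((sph (t + 1) (lift X (t + 1)) m \ lift X (t + 1) m) ∪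
        cone ((m : ℤ) + 1) (bd (lift X (t + 1) m))) := by
      rw [vts_union, Finset.mem_union, mem_vts_cone]
      rintro (h | ⟨-, h | h⟩)
      · exact w2 (vts_mono Finset.sdiff_subset h)
      · omega
      · exact (h40_nv (h40_bd_vert vC)).2 h
    have pm1 := pm_rep i1 hs w1 i2 gC.bpm
    have nor1 := nor_rep i1 i2 hs w1 i3 gC.bnor
    have bd1 := bd_rep i1 hs w1 i2 gC.bpm gC.bbd
    rw [h40_mid ht hX hm]
    refine ⟨?_, pm_rep pQ sub2 w3 pm1 gC'.bpm, nor_rep pQ pm1 sub2 w3 nor1 gC'.bnor, ?_⟩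
    · exact pure_union (pure_mono Finset.sdiff_subset pQ)
        (pure_cone (pure_bd gC'.pure) (h40_nv (h40_bd_vert vC')).2)
    · rw [bd_rep pQ sub2 w3 pm1 gC'.bpm gC'.bbd, bd1, i4]

private theorem h40_subneg {m : ℕ} (hm : 2 * (t + 1) ≤ m) :
    neg (lift X (t + 1) m) ⊆ sph (t + 1) (lift X (t + 1)) m \ lift X (t + 1) m := by
  intro F hF
  refine Finset.mem_sdiff.2 ⟨?_, fun hh => (Finset.disjoint_left.1
    (disj_lift hX (j := t + 1) (m := m) (by omega) le_rfl (by omega))) hh hF⟩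
  rw [← h40_symm hm]
  exact neg_subset.2 (h40_sub_sph ht hX hm) hF

private theorem h40_fam : Fam (2 * t + 2) t (lift X) := lift_fam (by omega) hX

/-- small faces avoid `C m` -/
private theorem h40_avoid {m : ℕ} (hm : 2 * (t + 1) ≤ m) {s : Finset ℤ} (hs : s.card ≤ t + 1)
    (h : Fc (sph (t + 1) (lift X (t + 1)) m) s) :
    Fc (sph (t + 1) (lift X (t + 1)) m \ lift X (t + 1) m) s := by
  obtain ⟨F, hF, hsF⟩ := h
  by_cases hFC : F ∈ lift X (t + 1) m
  · obtain ⟨G, hG, hsG⟩ := (h40_fam ht hX).P5 (t + 1) m (by omega) le_rfl (by omega) s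
      ⟨F, hFC, hsF⟩ (by omega)
    obtain ⟨-, -, -, hcl⟩ := h40_main ht hX hm
    have h1 : (star (lift X (t + 1) m) G).card = 1 := (Finset.mem_filter.1 hG).2
    have hGr := (Finset.mem_filter.1 hG).1
    have hsub := h40_sub_sph ht hX hm
    have hGr' : G ∈ ridges (sph (t + 1) (lift X (t + 1)) m) := by
      obtain ⟨F', hF', h2⟩ := Finset.mem_biUnion.1 hGr
      exact Finset.mem_biUnion.2 ⟨F', hsub hF', h2⟩
    have h3 : (star (sph (t + 1) (lift X (t + 1)) m) G).card ≠ 1 := by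
      intro h4
      have : G ∈ bd (sph (t + 1) (lift X (t + 1)) m) := Finset.mem_filter.2 ⟨hGr', h4⟩
      rw [hcl] at this
      exact Finset.notMem_empty _ this
    have h5 : star (lift X (t + 1) m) G ⊆ star (sph (t + 1) (lift X (t + 1)) m) G :=
      Finset.filter_subset_filter _ hsub
    have h6 : star (lift X (t + 1) m) G ≠ star (sph (t + 1) (lift X (t + 1)) m) G := by
      intro h7
      rw [← h7] at h3
      exact h3 h1
    obtain ⟨F', hF', hF''⟩ := Finset.exists_of_ssubset (Finset.ssubset_iff_subset_ne.2 ⟨h5, h6⟩)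
    obtain ⟨h8, h9⟩ := Finset.mem_filter.1 hF'
    refine ⟨F', Finset.mem_sdiff.2 ⟨h8, fun hh => hF'' (Finset.mem_filter.2 ⟨hh, h9⟩)⟩,
      hsG.trans h9⟩
  · exact ⟨F, Finset.mem_sdiff.2 ⟨hF, hFC⟩, hsF⟩

private theorem h40_nbr {m : ℕ} (hm : 2 * (t + 1) ≤ m) : ∀ s, s ⊆ V m → AF s →
    s.card ≤ t + 1 → Fc (sph (t + 1) (lift X (t + 1)) m \ lift X (t + 1) m) s := by
  induction m, hm using Nat.le_induction with
  | base =>
    intro s h1 h2 h3
    apply h40_avoid ht hX le_rfl h3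
    rw [h40_base]
    exact fc_cross h1 h2
  | succ m hm ih =>
    intro s h1 h2 h3
    apply h40_avoid ht hX (by omega) h3
    have hY := h40_fam ht hX
    rw [h40_step hm]
    have hV : ∀ x ∈ s, x ≠ (m : ℤ) + 1 → x ≠ -((m : ℤ) + 1) → x ∈ V m := by
      intro x hx h4 h5
      obtain ⟨h6, h7⟩ := mem_V.1 (h1 hx)
      refine mem_V.2 ⟨h6, ?_⟩
      push_cast at h7
      rw [abs_le] at h7 ⊢
      omega
    by_cases hp : (m : ℤ) + 1 ∈ s
    · have hn : -((m : ℤ) + 1) ∉ s := h2 _ hp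
      have e1 : s.erase ((m : ℤ) + 1) ⊆ V m := by
        intro x hx
        obtain ⟨h4, h5⟩ := Finset.mem_erase.1 hx
        exact hV x h5 h4 (fun hh => hn (hh ▸ h5))
      have e2 : AF (s.erase ((m : ℤ) + 1)) := by
        intro x hx hx'
        exact h2 x (Finset.mem_of_mem_erase hx) (Finset.mem_of_mem_erase hx')
      have e3 : (s.erase ((m : ℤ) + 1)).card + 1 = s.card := Finset.card_erase_add_one hp
      have f1 := hY.P4 (t + 1) m (by omega) le_rfl (by omega) _ e1 e2 (by omega)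
      have f2 := hY.P5 (t + 1) m (by omega) le_rfl (by omega) _ f1 (by omega)
      exact fc_union.2 (Or.inr (fc_union.2 (Or.inl (fc_cone.2 f2))))
    · by_cases hn : -((m : ℤ) + 1) ∈ s
      · have e1 : s.erase (-((m : ℤ) + 1)) ⊆ V m := by
          intro x hx
          obtain ⟨h4, h5⟩ := Finset.mem_erase.1 hx
          exact hV x h5 (fun hh => hp (hh ▸ h5)) h4
        have e2 : AF (s.erase (-((m : ℤ) + 1))) := by
          intro x hx hx'
          exact h2 x (Finset.mem_of_mem_erase hx) (Finset.mem_of_mem_erase hx')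
        have e3 : (s.erase (-((m : ℤ) + 1))).card + 1 = s.card := Finset.card_erase_add_one hn
        have e4 : (ngs (s.erase (-((m : ℤ) + 1)))).card ≤ (s.erase (-((m : ℤ) + 1))).card :=
          Finset.card_image_le
        have f1 := hY.P4 (t + 1) m (by omega) le_rfl (by omega) _ (ngs_subset_V.2 e1)
          (af_ngs.2 e2) (by omega)
        have f2 := hY.P5 (t + 1) m (by omega) le_rfl (by omega) _ f1 (by omega)
        exact fc_union.2 (Or.inr (fc_union.2 (Or.inr (fc_cone.2 (fc_neg.2 f2)))))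
      · have e1 : s ⊆ V m := fun x hx =>
          hV x hx (fun hh => hp (hh ▸ hx)) (fun hh => hn (hh ▸ hx))
        obtain ⟨F, hF, hsF⟩ := ih s e1 h2 h3
        obtain ⟨hF1, hF2⟩ := Finset.mem_sdiff.1 hF
        by_cases hF3 : F ∈ neg (lift X (t + 1) m)
        · have e4 : (ngs s).card ≤ s.card := Finset.card_image_le
          have f1 : Fc (lift X (t + 1) m) (ngs s) := fc_neg.1 ⟨F, hF3, hsF⟩
          have f2 := hY.P5 (t + 1) m (by omega) le_rfl (by omega) _ f1 (by omega)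
          have f3 : Fc (neg (bd (lift X (t + 1) m))) s := fc_neg.2 f2
          refine fc_union.2 (Or.inr (fc_union.2 (Or.inr (fc_cone.2 ?_))))
          exact fc_sub (Finset.erase_subset _ _) f3
        · refine fc_union.2 (Or.inl ⟨F, Finset.mem_sdiff.2 ⟨hF1, ?_⟩, hsF⟩)
          rw [Finset.mem_union]
          rintro (hh | hh)
          · exact hF2 hh
          · exact hF3 hh

/-- the complement of the next member -/
private theorem h40_compl {m : ℕ} (hm : 2 * (t + 1) ≤ m) :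
    sph (t + 1) (lift X (t + 1)) (m + 1) \ lift X (t + 1) (m + 1) =
      ((sph (t + 1) (lift X (t + 1)) m \ lift X (t + 1) m) \ neg (lift X (t + 1) m)) ∪
        cone (-((m : ℤ) + 1)) (bd (neg (lift X (t + 1) m)) \ neg (X t m)) ∪
        cone ((m : ℤ) + 1) (bd (lift X (t + 1) m) \ X (t + 1) m) := by
  have vS := h40_vert ht hX hm
  have vb := h40_bd_vert (h40_vertC ht hX hm)
  have vb' := h40_neg vb
  have vX := h40_sub hX (le_refl (t + 1)) (by omega : 2 * t + 1 ≤ m)
  have vX0 := h40_neg (h40_sub hX (by omega : t ≤ t + 1) (by omega : 2 * t + 1 ≤ m))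
  rw [h40_step hm, bd_neg, cone_sdiff (h40_nv vb').2 (h40_nv vX0).2,
    cone_sdiff (h40_nv vb).1 (h40_nv vX).1, sdiff_sdiff_left]
  change _ \ (cone ((m : ℤ) + 1) (X (t + 1) m) ∪ cone (-((m : ℤ) + 1)) (neg (X (t + 1 - 1) m))) = _
  rw [Nat.add_sub_cancel]
  have d1 : ∀ L : Cx, Disjoint (cone ((m : ℤ) + 1) L)
      (sph (t + 1) (lift X (t + 1)) m \ (lift X (t + 1) m ∪ neg (lift X (t + 1) m))) := fun L =>
    (h40_not_cone vS).1.mono_right Finset.sdiff_subset
  have d2 : ∀ L : Cx, Disjoint (cone (-((m : ℤ) + 1)) L)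
      (sph (t + 1) (lift X (t + 1)) m \ (lift X (t + 1) m ∪ neg (lift X (t + 1) m))) := fun L =>
    (h40_not_cone vS).2.mono_right Finset.sdiff_subset
  have d3 := h40_cone_cone (K := bd (lift X (t + 1) m)) vX0
  have d4 := h40_cone_cone (K := X (t + 1) m) vb'
  have e1 := d1 (X (t + 1) m)
  have e2 := d2 (neg (X t m))
  rw [Finset.disjoint_left] at d3 d4 e1 e2
  ext F
  simp only [Finset.sup_eq_union, Finset.mem_union, Finset.mem_sdiff] at *
  constructor
  · rintro ⟨h1 | h1 | h1, h2⟩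
    · exact Or.inl (Or.inl h1)
    · exact Or.inr ⟨h1, fun hh => h2 (Or.inl hh)⟩
    · exact Or.inl (Or.inr ⟨h1, fun hh => h2 (Or.inr hh)⟩)
  · rintro ((h1 | h1) | h1)
    · refine ⟨Or.inl h1, ?_⟩
      rintro (h2 | h2)
      · exact e1 h2 h1
      · exact e2 h2 h1
    · refine ⟨Or.inr (Or.inr h1.1), ?_⟩
      rintro (h2 | h2)
      · exact d4 h2 h1.1
      · exact h1.2 h2
    · refine ⟨Or.inr (Or.inl h1.1), ?_⟩
      rintro (h2 | h2)
      · exact h1.2 h2
      · exact d3 h1.1 h2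

private theorem h40_good {m : ℕ} (hm : 2 * (t + 1) ≤ m) :
    Good (2 * (t + 1)) (sph (t + 1) (lift X (t + 1)) m \ lift X (t + 1) m) := by
  induction m, hm using Nat.le_induction with
  | base =>
    rw [h40_base]
    exact lift_P10 (by omega) hX (t + 1) (by omega) le_rfl
  | succ m hm ih =>
    have vS := h40_vert ht hX hm
    have gC := h40_goodC ht hX hm
    obtain ⟨i1, i2, -, i4⟩ := h40_main ht hX hm
    have hs := h40_sub_sph ht hX hm
    have hbd : bd (sph (t + 1) (lift X (t + 1)) m \ lift X (t + 1) m) =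
        bd (lift X (t + 1) m) := by
      rw [bd_sdiff i1 hs i2, i4, Finset.empty_sdiff, Finset.sdiff_empty, Finset.empty_union]
    have p7 := hX.P7 (t + 1) m (by omega) le_rfl (by omega)
    have p2 := hX.P2 (t + 1) m (by omega) le_rfl (by omega)
    rw [Nat.add_sub_cancel] at p7 p2
    have gE : Good (2 * t + 1) (neg (X t m)) := good_neg (hX.P6 t m ht (by omega) (by omega))
    have gE' : Good (2 * t + 1) (bd (neg (lift X (t + 1) m)) \ neg (X t m)) := by
      rw [bd_neg, ← neg_sdiff]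
      have := hX.P9 (t + 1) m (by omega) le_rfl (by omega)
      rw [Nat.add_sub_cancel] at this
      exact good_neg this
    rw [h40_compl ht hX hm]
    refine (good_pattern (c := 2 * t + 1) ih (good_neg gC) (h40_subneg ht hX hm) gE gE' ?_ ?_
      (hX.P8 (t + 1) m (by omega) le_rfl (by omega)) ?_ ?_ ?_ ?_ ?_).1
    · rw [bd_neg]
      exact neg_subset.2 p7.2
    · rw [hbd]
      exact p2.trans p7.1
    · rw [hbd]
      exact Finset.sdiff_subset
    · exact Finset.disjoint_of_subset_right p2 Finset.sdiff_disjoint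
    · exact fun h => (h40_nv vS).2 (vts_mono Finset.sdiff_subset h)
    · exact fun h => (h40_nv vS).1 (vts_mono Finset.sdiff_subset h)
    · omega

theorem sph_facts : SphFacts (t + 1) (lift X (t + 1)) where
  sub := fun m hm => h40_sub_sph ht hX hm
  disj := fun m hm => disj_lift hX (by omega) le_rfl (by omega)
  pure := fun m hm => (h40_main ht hX hm).1
  vert := fun m hm => h40_vert ht hX hm
  symm := fun m hm => h40_symm hm
  pm := fun m hm => (h40_main ht hX hm).2.1
  nor := fun m hm => (h40_main ht hX hm).2.2.1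
  closed := fun m hm => (h40_main ht hX hm).2.2.2
  nbr := fun m hm => h40_nbr ht hX hm
  good := fun m hm => ⟨h40_goodC ht hX hm, h40_good ht hX hm⟩

end facts

end Pool.Agent.H30.NZ
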