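import Pool.Agent.H30.NZ.Stmt
import Pool.Agent.H30.NZ.Cross
import Pool.Agent.H30.NZ.PL1
import Pool.Agent.H30.NZ.PL1b
import Pool.Agent.H30.NZ.Sphere
import Pool.Agent.H30.NZ.TopA

/-!
# MP_63054e_co: the final facts on the spheres
-/

namespace Pool.Agent.H30.NZ
open Finset

private theorem h13_mem_dwn {K : Cx} {s : Finset ℤ} : s ∈ dwn K ↔ Fc K s := by
  unfold dwn Fc
  rw [Finset.mem_biUnion]
  constructor
  · rintro ⟨F, hF, hs⟩
    exact ⟨F, hF, Finset.mem_powerset.1 hs⟩
  · rintro ⟨F, hF, hs⟩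
    exact ⟨F, hF, Finset.mem_powerset.2 hs⟩

private theorem h13_realization (K : Cx) : Realization (dwn K) = real K := by
  ext x
  constructor
  · rintro ⟨h0, s, hs, hz, hsum⟩
    obtain ⟨F, hF, hsF⟩ := h13_mem_dwn.1 hs
    refine ⟨h0, F, hF, fun i hi => hz i (fun h => hi (hsF h)), ?_⟩
    rw [← hsum]
    exact (Finset.sum_subset hsF (fun i _ hi => hz i hi)).symm
  · rintro ⟨h0, F, hF, hz, hsum⟩
    exact ⟨h0, F, h13_mem_dwn.2 ⟨F, hF, Finset.Subset.refl F⟩, hz, hsum⟩

/-- the vertices of the standard simplex -/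
private def h13F (d : ℕ) : Finset ℤ := (Finset.range (d + 2)).image (fun i : ℕ => (i : ℤ))

private theorem h13F_card (d : ℕ) : (h13F d).card = d + 2 := by
  unfold h13F
  rw [Finset.card_image_of_injective _ (fun a b h => by exact_mod_cast h), Finset.card_range]

private theorem h13_sb (d : ℕ) : simplexBoundary d = dwn (bsimp (h13F d)) := by
  ext s
  rw [h13_mem_dwn]
  unfold simplexBoundary bsimp Fc
  rw [Finset.mem_erase, Finset.mem_powerset]
  constructor
  · rintro ⟨hne, hs⟩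
    have h1 : ∃ x ∈ h13F d, x ∉ s := by
      by_contra h
      push Not at h
      exact hne (Finset.Subset.antisymm hs h)
    obtain ⟨x, hx, hxs⟩ := h1
    refine ⟨(h13F d).erase x, Finset.mem_image_of_mem _ hx, ?_⟩
    intro y hy
    refine Finset.mem_erase.2 ⟨?_, hs hy⟩
    rintro rfl
    exact hxs hy
  · rintro ⟨F, hF, hsF⟩
    obtain ⟨x, hx, rfl⟩ := Finset.mem_image.1 hF
    refine ⟨?_, hsF.trans (Finset.erase_subset _ _)⟩
    rintro rfl
    have h1 := hsF hx
    exact (Finset.mem_erase.1 h1).1 rfl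

private theorem h13_perm (F F' : Finset ℤ) (h : F.card = F'.card) :
    ∃ σ : Equiv.Perm ℤ, F.image σ = F' := by
  classical
  let x : Fin F.card ↪ ℤ := (F.equivFin.symm.toEmbedding).trans (Function.Embedding.subtype _)
  let y : Fin F.card ↪ ℤ := (finCongr h).toEmbedding.trans
    ((F'.equivFin.symm.toEmbedding).trans (Function.Embedding.subtype _))
  have h1 : MulAction.IsMultiplyPretransitive (Equiv.Perm ℤ) ℤ F.card :=
    Equiv.Perm.isMultiplyPretransitive ℤ F.card
  obtain ⟨σ, hσ⟩ := h1.exists_smul_eq x y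
  refine ⟨σ, ?_⟩
  have h2 : ∀ i, σ (x i) = y i := by
    intro i
    rw [← hσ]
    rfl
  have h3 : F = Finset.univ.image x := by
    ext a
    constructor
    · intro ha
      refine Finset.mem_image.2 ⟨F.equivFin ⟨a, ha⟩, Finset.mem_univ _, ?_⟩
      simp [x]
    · intro ha
      obtain ⟨i, -, rfl⟩ := Finset.mem_image.1 ha
      exact (F.equivFin.symm i).2
  have h4 : F' = Finset.univ.image y := by
    ext a
    constructor
    · intro ha
      refine Finset.mem_image.2 ⟨(finCongr h).symm (F'.equivFin ⟨a, ha⟩), Finset.mem_univ _, ?_⟩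
      simp [y]
    · intro ha
      obtain ⟨i, -, rfl⟩ := Finset.mem_image.1 ha
      exact (F'.equivFin.symm _).2
  conv_lhs => rw [h3]
  conv_rhs => rw [h4]
  rw [Finset.image_image]
  exact Finset.image_congr (fun i _ => h2 i)

private theorem h13_bsimp_image (F : Finset ℤ) (σ : Equiv.Perm ℤ) :
    (bsimp F).image (fun G => G.image σ) = bsimp (F.image σ) := by
  classical
  unfold bsimp
  ext G
  constructor
  · intro hG
    obtain ⟨G', hG', rfl⟩ := Finset.mem_image.1 hG
    obtain ⟨x, hx, rfl⟩ := Finset.mem_image.1 hG'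
    refine Finset.mem_image.2 ⟨σ x, Finset.mem_image_of_mem _ hx, ?_⟩
    exact (Finset.image_erase σ.injective F x).symm
  · intro hG
    obtain ⟨y, hy, rfl⟩ := Finset.mem_image.1 hG
    obtain ⟨x, hx, rfl⟩ := Finset.mem_image.1 hy
    refine Finset.mem_image.2 ⟨F.erase x, Finset.mem_image_of_mem _ hx, ?_⟩
    exact Finset.image_erase σ.injective F x

private theorem h13_combSphere {d : ℕ} {K : Cx} (h : IsSph (d + 1) K) :
    IsCombSphere d (dwn K) := by
  obtain ⟨F, hF, f, g, hfg⟩ := h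
  obtain ⟨σ, hσ⟩ := h13_perm F (h13F d) (by rw [hF, h13F_card])
  unfold IsCombSphere
  rw [h13_realization, h13_sb, h13_realization, ← hσ, ← h13_bsimp_image]
  exact ⟨_, _, plh_trans hfg (plh_rel σ)⟩

theorem h13_core {k n : ℕ} {C : ℕ → Cx} (hk : 1 ≤ k) (hn : 2 * k ≤ n)
    (h : SphFacts k C) : IsCS n (dwn (sph k C n)) ∧ IsCombSphere (2 * k - 1) (dwn (sph k C n)) ∧
      CSNeighborly k n (dwn (sph k C n)) ∧ Pure (2 * k) (sph k C n) := by
  classical
  have hface : ∀ s, s ⊆ V n → AF s → s.card ≤ k → Fc (sph k C n) s := by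
    intro s h1 h2 h3
    obtain ⟨F, hF, hs⟩ := h.nbr n hn s h1 h2 h3
    exact ⟨F, (Finset.mem_sdiff.1 hF).1, hs⟩
  refine ⟨⟨⟨?_, ?_⟩, ?_, ?_, ?_⟩, ?_, ?_, h.pure n hn⟩
  · rw [h13_mem_dwn]
    apply hface _ (Finset.empty_subset _)
    · intro x hx
      exact absurd hx (Finset.notMem_empty x)
    · simp
  · intro s hs t ht
    rw [h13_mem_dwn] at hs ⊢
    obtain ⟨F, hF, hsF⟩ := hs
    exact ⟨F, hF, ht.trans hsF⟩
  · ext v
    change {v} ∈ dwn (sph k C n) ↔ v ≠ 0 ∧ |v| ≤ (n : ℤ)
    rw [h13_mem_dwn]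
    constructor
    · rintro ⟨F, hF, hv⟩
      have h1 := (h.vert n hn F hF).1 (hv (Finset.mem_singleton_self v))
      exact mem_V.1 h1
    · intro hv
      apply hface
      · intro x hx
        rw [Finset.mem_singleton.1 hx]
        exact mem_V.2 hv
      · intro x hx hx'
        have h1 := Finset.mem_singleton.1 hx
        have h2 := Finset.mem_singleton.1 hx'
        have h3 := hv.1
        omega
      · rw [Finset.card_singleton]
        exact hk
  · intro s hs
    rw [h13_mem_dwn] at hs ⊢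
    obtain ⟨F, hF, hsF⟩ := hs
    refine ⟨ngs F, ?_, Finset.image_subset_image hsF⟩
    rw [← h.symm n hn]
    exact Finset.mem_image_of_mem _ hF
  · intro s hs v hv hv'
    rw [h13_mem_dwn] at hs
    obtain ⟨F, hF, hsF⟩ := hs
    exact (h.vert n hn F hF).2 v (hsF hv) (hsF hv')
  · apply h13_combSphere
    have h1 : 2 * k - 1 + 1 = 2 * k := by omega
    rw [h1]
    exact isSph_sph hk h hn
  · intro s hs1 hs2 hs3
    rw [h13_mem_dwn]
    exact hface s (fun v hv => mem_V.2 (hs1 v hv)) hs2 hs3.le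

end Pool.Agent.H30.NZ
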