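import Pool.Agent.H30.NZ.Comb

/-!
# Normality of the replacement and of the cut
-/

namespace Pool.Agent.H30.NZ
open Finset

/-- adjacency in a cone -/
theorem h40_cone_adj {D P : Cx} {w : ℤ} {s : Finset ℤ} (hn : Nor D) (hw : w ∉ vts D)
    (h1 : Fc (D.filter (fun G => insert w G ∈ P)) (s.erase w))
    (h2 : Fc (D \ D.filter (fun G => insert w G ∈ P)) (s.erase w)) :
    ∃ G ∈ D, ∃ G' ∈ D, insert w G ∈ P ∧ insert w G' ∉ P ∧ ∃ x ∈ insert w G,
      s ⊆ (insert w G).erase x ∧ (insert w G).erase x ⊆ insert w G' := by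
  obtain ⟨G, hG, G', hG', x, hx, h3, h4⟩ := hn _ _ (Finset.filter_subset _ _) h1 h2
  obtain ⟨hG1, hG2⟩ := Finset.mem_filter.1 hG
  obtain ⟨hG1', hG2'⟩ := Finset.mem_sdiff.1 hG'
  have hwG : w ∉ G := fun hh => hw (mem_vts.2 ⟨G, hG1, Finset.singleton_subset_iff.2 hh⟩)
  have hxw : x ≠ w := fun hh => hwG (hh ▸ hx)
  have e : (insert w G).erase x = insert w (G.erase x) := by
    rw [Finset.erase_insert_of_ne (Ne.symm hxw)]
  refine ⟨G, hG1, G', hG1', hG2, fun hh => hG2' (Finset.mem_filter.2 ⟨hG1', hh⟩), x,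
    Finset.mem_insert_of_mem hx, ?_, ?_⟩
  · rw [e]
    intro y hy
    by_cases hyw : y = w
    · exact hyw ▸ Finset.mem_insert_self _ _
    · exact Finset.mem_insert_of_mem (h3 (Finset.mem_erase.2 ⟨hyw, hy⟩))
  · rw [e]
    exact Finset.insert_subset_insert _ h4

/-- in a pure complex adjacency is symmetric -/
theorem h40_adj_symm {c : ℕ} {K P : Cx} {s : Finset ℤ} (hK : Pure c K) (hP : P ⊆ K)
    (h : ∃ F ∈ K \ P, ∃ F' ∈ K \ (K \ P), ∃ x ∈ F, s ⊆ F.erase x ∧ F.erase x ⊆ F') :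
    ∃ F ∈ P, ∃ F' ∈ K \ P, ∃ x ∈ F, s ⊆ F.erase x ∧ F.erase x ⊆ F' := by
  obtain ⟨F, hF, F', hF', x, hx, h3, h4⟩ := h
  rw [Finset.sdiff_sdiff_eq_self hP] at hF'
  have c1 := hK F (Finset.mem_sdiff.1 hF).1
  have c2 := hK F' (hP hF')
  have c3 := Finset.card_erase_add_one hx
  obtain ⟨y, hy1, hy2⟩ : ∃ y ∈ F', y ∉ F.erase x := by
    by_contra hc
    push Not at hc
    have := Finset.card_le_card (show F' ⊆ F.erase x from hc)
    omega
  have e : F'.erase y = F.erase x := by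
    symm
    apply Finset.eq_of_subset_of_card_le
    · intro z hz
      exact Finset.mem_erase.2 ⟨fun hh => hy2 (hh ▸ hz), h4 hz⟩
    · have := Finset.card_erase_add_one hy1
      omega
  exact ⟨F', hF', F, hF, y, hy1, by rw [e]; exact h3, by rw [e]; exact Finset.erase_subset _ _⟩

/-- the common part: a symmetric reduction -/
theorem h40_nor_red {c : ℕ} {M D : Cx} {w : ℤ} (hK : Pure c (M ∪ cone w D)) (hM : w ∉ vts M)
    (hD : w ∉ vts D) (hn : Nor D)
    (h : ∀ (s : Finset ℤ) (P : Cx), w ∉ s → P ⊆ M ∪ cone w D → Fc P s →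
      Fc ((M ∪ cone w D) \ P) s → (∀ G ∈ D, s ⊆ G → insert w G ∉ P) →
      ∃ F ∈ P, ∃ F' ∈ (M ∪ cone w D) \ P, ∃ x ∈ F, s ⊆ F.erase x ∧ F.erase x ⊆ F') :
    Nor (M ∪ cone w D) := by
  intro s P hP h1 h2
  have hc : ∀ G ∈ D, insert w G ∈ M ∪ cone w D := fun G hG =>
    Finset.mem_union_right _ (Finset.mem_image_of_mem _ hG)
  -- facets over a set containing w come from the cone
  have hcone : ∀ F ∈ M ∪ cone w D, w ∈ s → s ⊆ F → ∃ G ∈ D, F = insert w G := by
    intro F hF hws hsF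
    rcases Finset.mem_union.1 hF with hh | hh
    · exact absurd (mem_vts.2 ⟨F, hh, Finset.singleton_subset_iff.2 (hsF hws)⟩) hM
    · obtain ⟨G, hG, rfl⟩ := Finset.mem_image.1 hh
      exact ⟨G, hG, rfl⟩
  have her : ∀ G, s ⊆ insert w G → s.erase w ⊆ G := by
    intro G hG y hy
    obtain ⟨hy1, hy2⟩ := Finset.mem_erase.1 hy
    exact (Finset.mem_insert.1 (hG hy2)).resolve_left hy1
  by_cases hsp : Fc (D.filter (fun G => insert w G ∈ P)) (s.erase w) ∧
      Fc (D \ D.filter (fun G => insert w G ∈ P)) (s.erase w)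
  · obtain ⟨G, hG, G', hG', h3, h4, x, hx, h5, h6⟩ := h40_cone_adj hn hD hsp.1 hsp.2
    exact ⟨_, h3, _, Finset.mem_sdiff.2 ⟨hc G' hG', h4⟩, x, hx, h5, h6⟩
  · by_cases hws : w ∈ s
    · exfalso
      apply hsp
      obtain ⟨F, hF, hsF⟩ := h1
      obtain ⟨F', hF', hsF'⟩ := h2
      obtain ⟨hF1, hF2⟩ := Finset.mem_sdiff.1 hF'
      obtain ⟨G, hG, rfl⟩ := hcone F (hP hF) hws hsF
      obtain ⟨G', hG', rfl⟩ := hcone F' hF1 hws hsF'
      exact ⟨⟨G, Finset.mem_filter.2 ⟨hG, hF⟩, her G hsF⟩, ⟨G', Finset.mem_sdiff.2 ⟨hG',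
        fun hh => hF2 (Finset.mem_filter.1 hh).2⟩, her G' hsF'⟩⟩
    · have e : s.erase w = s := Finset.erase_eq_of_notMem hws
      rw [e, not_and_or] at hsp
      rcases hsp with hsp | hsp
      · apply h s P hws hP h1 h2
        intro G hG hsG hh
        exact hsp ⟨G, Finset.mem_filter.2 ⟨hG, hh⟩, hsG⟩
      · apply h40_adj_symm hK hP
        apply h s ((M ∪ cone w D) \ P) hws Finset.sdiff_subset h2
        · rwa [Finset.sdiff_sdiff_eq_self hP]
        · intro G hG hsG hh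
          exact hsp ⟨G, Finset.mem_sdiff.2 ⟨hG, fun h7 =>
            (Finset.mem_sdiff.1 hh).2 (Finset.mem_filter.1 h7).2⟩, hsG⟩

theorem nor_rep {c : ℕ} {Q A : Cx} {w : ℤ} (hQ : Pure c Q) (hpm : PM Q) (hA : A ⊆ Q)
    (hw : w ∉ vts Q) (h1 : Nor Q) (h2 : Nor (bd A)) : Nor ((Q \ A) ∪ cone w (bd A)) := by
  have hwA : w ∉ vts (bd A) := fun hh => hw (vts_mono hA (vts_bd hh))
  have hK : Pure c ((Q \ A) ∪ cone w (bd A)) := by
    intro F hF
    rcases Finset.mem_union.1 hF with hh | hh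
    · exact hQ F (Finset.mem_sdiff.1 hh).1
    · obtain ⟨R, hR, rfl⟩ := Finset.mem_image.1 hh
      have hwR : w ∉ R := fun h3 => hwA (mem_vts.2 ⟨R, hR, Finset.singleton_subset_iff.2 h3⟩)
      obtain ⟨F1, hF1, h4⟩ := Finset.mem_biUnion.1 (Finset.mem_filter.1 hR).1
      obtain ⟨x, hx, rfl⟩ := Finset.mem_image.1 h4
      rw [Finset.card_insert_of_notMem hwR, Finset.card_erase_add_one hx]
      exact hQ F1 (hA hF1)
  apply h40_nor_red hK (fun hh => hw (vts_mono Finset.sdiff_subset hh)) hwA h2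
  intro s P hws hP hPs hPs' hno
  set P0 := P.filter (fun F => s ⊆ F) with hP0
  have p0 : ∀ F ∈ P0, F ∈ Q \ A := by
    intro F hF
    obtain ⟨hF1, hF2⟩ := Finset.mem_filter.1 hF
    rcases Finset.mem_union.1 (hP hF1) with hh | hh
    · exact hh
    · obtain ⟨R, hR, rfl⟩ := Finset.mem_image.1 hh
      exfalso
      refine hno R hR ?_ hF1
      intro y hy
      exact (Finset.mem_insert.1 (hF2 hy)).resolve_left (fun h3 => hws (h3 ▸ hy))
  have p0Q : P0 ⊆ Q := fun F hF => (Finset.mem_sdiff.1 (p0 F hF)).1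
  have f0 : Fc P0 s := by
    obtain ⟨F, hF, hsF⟩ := hPs
    exact ⟨F, Finset.mem_filter.2 ⟨hF, hsF⟩, hsF⟩
  by_cases f1 : Fc (Q \ P0) s
  · obtain ⟨F, hF, F', hF', x, hx, h3, h4⟩ := h1 s P0 p0Q f0 f1
    obtain ⟨hF1, hF2⟩ := Finset.mem_filter.1 hF
    obtain ⟨hF1', hF2'⟩ := Finset.mem_sdiff.1 hF'
    have hnP : F' ∉ P := fun hh => hF2' (Finset.mem_filter.2 ⟨hh, h3.trans h4⟩)
    by_cases hA' : F' ∈ A
    · -- the ridge is in the boundary of A
      have hFA : F ∉ A := (Finset.mem_sdiff.1 (p0 F hF)).2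
      have hne : F ≠ F' := fun hh => hFA (hh ▸ hA')
      have c1 := hQ F (p0Q hF)
      have c2 := hQ F' hF1'
      have c3 := Finset.card_erase_add_one hx
      obtain ⟨y, hy1, hy2⟩ : ∃ y ∈ F', y ∉ F.erase x := by
        by_contra hc
        push Not at hc
        have := Finset.card_le_card (show F' ⊆ F.erase x from hc)
        omega
      have e : F'.erase y = F.erase x := by
        symm
        apply Finset.eq_of_subset_of_card_le
        · intro z hz
          exact Finset.mem_erase.2 ⟨fun hh => hy2 (hh ▸ hz), h4 hz⟩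
        · have := Finset.card_erase_add_one hy1
          omega
      have rQ : F.erase x ∈ ridges Q :=
        Finset.mem_biUnion.2 ⟨F, p0Q hF, Finset.mem_image_of_mem _ hx⟩
      have rA : F.erase x ∈ ridges A :=
        Finset.mem_biUnion.2 ⟨F', hA', Finset.mem_image.2 ⟨y, hy1, e⟩⟩
      have sQ : ({F, F'} : Cx) ⊆ star Q (F.erase x) := by
        intro H hH
        rcases Finset.mem_insert.1 hH with hh | hh
        · rw [hh]
          exact Finset.mem_filter.2 ⟨p0Q hF, Finset.erase_subset _ _⟩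
        · rw [Finset.mem_singleton.1 hh]
          exact Finset.mem_filter.2 ⟨hF1', h4⟩
      have sQ' : star Q (F.erase x) = {F, F'} := by
        symm
        apply Finset.eq_of_subset_of_card_le sQ
        rw [Finset.card_pair hne]
        exact hpm _ rQ
      have sA : star A (F.erase x) = {F'} := by
        apply Finset.Subset.antisymm
        · intro H hH
          obtain ⟨hH1, hH2⟩ := Finset.mem_filter.1 hH
          have : H ∈ star Q (F.erase x) := Finset.mem_filter.2 ⟨hA hH1, hH2⟩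
          rw [sQ'] at this
          rcases Finset.mem_insert.1 this with hh | hh
          · exact absurd (hh ▸ hH1) hFA
          · exact hh
        · intro H hH
          rw [Finset.mem_singleton.1 hH]
          exact Finset.mem_filter.2 ⟨hA', h4⟩
      have hb : F.erase x ∈ bd A :=
        Finset.mem_filter.2 ⟨rA, by rw [sA, Finset.card_singleton]⟩
      exact ⟨F, hF1, insert w (F.erase x), Finset.mem_sdiff.2 ⟨Finset.mem_union_right _
        (Finset.mem_image_of_mem _ hb), hno _ hb h3⟩, x, hx, h3, Finset.subset_insert _ _⟩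
    · exact ⟨F, hF1, F', Finset.mem_sdiff.2 ⟨Finset.mem_union_left _
        (Finset.mem_sdiff.2 ⟨hF1', hA'⟩), hnP⟩, x, hx, h3, h4⟩
  · exfalso
    have all : ∀ F ∈ Q, s ⊆ F → F ∈ P0 := by
      intro F hF hsF
      by_contra hh
      exact f1 ⟨F, Finset.mem_sdiff.2 ⟨hF, hh⟩, hsF⟩
    obtain ⟨H, hH, hsH⟩ := hPs'
    obtain ⟨hH1, hH2⟩ := Finset.mem_sdiff.1 hH
    rcases Finset.mem_union.1 hH1 with hh | hh
    · exact hH2 (Finset.mem_filter.1 (all H (Finset.mem_sdiff.1 hh).1 hsH)).1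
    · obtain ⟨R, hR, rfl⟩ := Finset.mem_image.1 hh
      have hsR : s ⊆ R := by
        intro y hy
        exact (Finset.mem_insert.1 (hsH hy)).resolve_left (fun h3 => hws (h3 ▸ hy))
      obtain ⟨F, hF, hRF⟩ := fc_bd (⟨R, hR, Finset.Subset.refl R⟩ : Fc (bd A) R)
      exact (Finset.mem_sdiff.1 (p0 F (all F (hA hF) (hsR.trans hRF)))).2 hF

theorem nor_cut {c : ℕ} {N E E' : Cx} {w : ℤ} (hQ : Pure (c + 1) (N ∪ cone w (E ∪ E')))
    (hpm : PM (N ∪ cone w (E ∪ E'))) (hn : Nor (N ∪ cone w (E ∪ E')))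
    (hE' : Nor E')
    (hE : E ⊆ bd (N ∪ cone w (E ∪ E'))) (hw : w ∉ vts N) (hw' : w ∉ vts (E ∪ E')) :
    Nor (N ∪ cone w E') := by
  have sub : N ∪ cone w E' ⊆ N ∪ cone w (E ∪ E') :=
    Finset.union_subset_union_right (cone_subset Finset.subset_union_right)
  have hK : Pure (c + 1) (N ∪ cone w E') := pure_mono sub hQ
  apply h40_nor_red hK hw (fun hh => hw' (vts_mono Finset.subset_union_right hh)) hE'
  intro s P hws hP hPs hPs' hno
  set P0 := P.filter (fun F => s ⊆ F) with hP0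
  have p0 : ∀ F ∈ P0, F ∈ N := by
    intro F hF
    obtain ⟨hF1, hF2⟩ := Finset.mem_filter.1 hF
    rcases Finset.mem_union.1 (hP hF1) with hh | hh
    · exact hh
    · obtain ⟨R, hR, rfl⟩ := Finset.mem_image.1 hh
      exfalso
      refine hno R hR ?_ hF1
      intro y hy
      exact (Finset.mem_insert.1 (hF2 hy)).resolve_left (fun h3 => hws (h3 ▸ hy))
  have p0Q : P0 ⊆ N ∪ cone w (E ∪ E') := fun F hF => Finset.mem_union_left _ (p0 F hF)
  have f0 : Fc P0 s := by
    obtain ⟨F, hF, hsF⟩ := hPs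
    exact ⟨F, Finset.mem_filter.2 ⟨hF, hsF⟩, hsF⟩
  have f1 : Fc ((N ∪ cone w (E ∪ E')) \ P0) s := by
    obtain ⟨H, hH, hsH⟩ := hPs'
    obtain ⟨hH1, hH2⟩ := Finset.mem_sdiff.1 hH
    exact ⟨H, Finset.mem_sdiff.2 ⟨sub hH1, fun hh => hH2 (Finset.mem_filter.1 hh).1⟩, hsH⟩
  obtain ⟨F, hF, F', hF', x, hx, h3, h4⟩ := hn s P0 p0Q f0 f1
  obtain ⟨hF1, hF2⟩ := Finset.mem_filter.1 hF
  obtain ⟨hF1', hF2'⟩ := Finset.mem_sdiff.1 hF'
  have hnP : F' ∉ P := fun hh => hF2' (Finset.mem_filter.2 ⟨hh, h3.trans h4⟩)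
  by_cases hK' : F' ∈ N ∪ cone w E'
  · exact ⟨F, hF1, F', Finset.mem_sdiff.2 ⟨hK', hnP⟩, x, hx, h3, h4⟩
  · exfalso
    have hF'E : ∃ G ∈ E, F' = insert w G := by
      rcases Finset.mem_union.1 hF1' with hh | hh
      · exact absurd (Finset.mem_union_left _ hh) hK'
      · obtain ⟨G, hG, rfl⟩ := Finset.mem_image.1 hh
        rcases Finset.mem_union.1 hG with h5 | h5
        · exact ⟨G, h5, rfl⟩
        · exact absurd (Finset.mem_union_right _ (Finset.mem_image_of_mem _ h5)) hK'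
    obtain ⟨G, hG, rfl⟩ := hF'E
    have hwF : w ∉ F := fun hh => hw (mem_vts.2 ⟨F, p0 F hF, Finset.singleton_subset_iff.2 hh⟩)
    have hwG : w ∉ G := fun hh => hw' (mem_vts.2 ⟨G, Finset.mem_union_left _ hG,
      Finset.singleton_subset_iff.2 hh⟩)
    have c1 := hQ F (p0Q hF)
    have c2 := hQ _ hF1'
    rw [Finset.card_insert_of_notMem hwG] at c2
    have c3 := Finset.card_erase_add_one hx
    have e : F.erase x = G := by
      apply Finset.eq_of_subset_of_card_le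
      · intro y hy
        exact (Finset.mem_insert.1 (h4 hy)).resolve_left
          (fun h5 => hwF (h5 ▸ Finset.mem_of_mem_erase hy))
      · omega
    have h6 := (Finset.mem_filter.1 (hE hG)).2
    have h7 : ({F, insert w G} : Cx) ⊆ star (N ∪ cone w (E ∪ E')) G := by
      intro H hH
      rcases Finset.mem_insert.1 hH with hh | hh
      · rw [hh]
        exact Finset.mem_filter.2 ⟨p0Q hF, by rw [← e]; exact Finset.erase_subset _ _⟩
      · rw [Finset.mem_singleton.1 hh]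
        exact Finset.mem_filter.2 ⟨hF1', Finset.subset_insert _ _⟩
    have h8 : F ≠ insert w G := fun hh => hwF (hh ▸ Finset.mem_insert_self _ _)
    have h9 := Finset.card_le_card h7
    rw [Finset.card_pair h8, h6] at h9
    omega

end Pool.Agent.H30.NZ
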