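import Pool.Agent.H30.NZ.Base1

/-!
# MP_63054e_co: reconstruction from the rim
-/

namespace Pool.Agent.H30.NZ

open Finset

theorem h31_nxt_tail {x : ℤ} {l : List ℤ} : nxt x l ∈ l.tail ∨ nxt x l = 0 := by
  induction l with
  | nil => right; rfl
  | cons b l ih =>
    by_cases hb : x = b
    · subst hb
      cases l with
      | nil => right; rfl
      | cons c l => left; rw [h31_nxt_cons_self]; simp
    · rw [h31_nxt_cons_ne hb]
      rcases ih with ih | ih
      · left; exact List.mem_of_mem_tail ih
      · right; exact ih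

theorem h31_nxt_inj {x p q : ℤ} {l : List ℤ} (hl : l.Nodup) (h00 : (0 : ℤ) ∉ l) (hx : x ∈ l)
    (hp : nxt p l = x) (hq : nxt q l = x) : p = q := by
  have hx0 : x ≠ 0 := fun h => h00 (h ▸ hx)
  have key : ∀ (l : List ℤ), l.Nodup → ∀ p q : ℤ, nxt p l = x → nxt q l = x → p = q := by
    intro l
    induction l with
    | nil => intro _ p q hp _; exact absurd hp.symm hx0
    | cons b l ih =>
      intro hl p q hp hq
      have hl' := (List.nodup_cons.1 hl).2
      -- the crossed case
      have hcr : ∀ r : ℤ, r ≠ b → nxt b (b :: l) = x → nxt r (b :: l) = x → False := by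
        intro r hr h1 h2
        rw [h31_nxt_cons_ne hr] at h2
        cases l with
        | nil => exact hx0 h2.symm
        | cons c l =>
          rw [h31_nxt_cons_self] at h1
          subst h1
          rcases h31_nxt_tail (x := r) (l := c :: l) with h3 | h3
          · rw [h2] at h3
            exact (List.nodup_cons.1 hl').1 h3
          · exact hx0 (h2 ▸ h3)
      by_cases h1 : p = b
      · by_cases h2 : q = b
        · rw [h1, h2]
        · subst h1
          exact (hcr q h2 hp hq).elim
      · by_cases h2 : q = b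
        · subst h2
          exact (hcr p h1 hq hp).elim
        · rw [h31_nxt_cons_ne h1] at hp
          rw [h31_nxt_cons_ne h2] at hq
          exact ih hl' p q hp hq
  exact key l hl p q hp hq

theorem h31_edge_cases {l : List ℤ} (hl : l.Nodup) {e : Finset ℤ} (he : e ∈ edges l) {x : ℤ}
    (hx : x ∈ e) : (∃ p, nxt p l = x ∧ e = {p, x}) ∨ e = {x, nxt x l} := by
  induction l with
  | nil => simp [edges] at he
  | cons a l ih =>
    cases l with
    | nil => simp [edges] at he
    | cons b l =>
      have hnd := List.nodup_cons.1 hl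
      rw [edges, mem_insert] at he
      rcases he with he | he
      · subst he
        rw [mem_insert, mem_singleton] at hx
        rcases hx with hx | hx
        · right
          rw [hx, h31_nxt_cons_self]
        · left
          exact ⟨a, by rw [h31_nxt_cons_self, hx], by rw [hx]⟩
      · have hne : ∀ y ∈ e, y ≠ a := by
          intro y hy h
          exact hnd.1 (h ▸ h31_mem_of_edges he hy)
        rcases ih hnd.2 he with ⟨p, h1, h2⟩ | h1
        · left
          refine ⟨p, ?_, h2⟩
          rw [h31_nxt_cons_ne (hne p (by rw [h2]; simp)), h1]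
        · right
          rw [h31_nxt_cons_ne (hne x hx)]
          exact h1

theorem h31_edges_eq {l l' : List ℤ} {a : ℤ} (hl : (a :: l).Nodup) (hl' : (a :: l').Nodup)
    (h : edges (a :: l) = edges (a :: l')) : l = l' := by
  induction l generalizing a l' with
  | nil =>
    cases l' with
    | nil => rfl
    | cons b l' =>
      exfalso
      have h1 : ({a, b} : Finset ℤ) ∈ edges [a] := by
        rw [h, edges]
        exact mem_insert_self _ _
      simp [edges] at h1
  | cons b l ih =>
    cases l' with
    | nil =>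
      exfalso
      have h1 : ({a, b} : Finset ℤ) ∈ edges [a] := by
        rw [← h, edges]
        exact mem_insert_self _ _
      simp [edges] at h1
    | cons b' l' =>
      have hnd := List.nodup_cons.1 hl
      have hnd' := List.nodup_cons.1 hl'
      have hab : b ≠ a := fun h => hnd.1 (by simp [h])
      have h1 : ({a, b} : Finset ℤ) ∈ edges (a :: b' :: l') := by
        rw [← h, edges]
        exact mem_insert_self _ _
      have hno : ∀ (c : ℤ) (e : Finset ℤ), e ∈ edges (b :: l) → e ≠ {a, c} := by
        intro c e he hc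
        exact hnd.1 (h31_mem_of_edges he (by rw [hc]; simp))
      have hno' : ∀ (c : ℤ) (e : Finset ℤ), e ∈ edges (b' :: l') → e ≠ {a, c} := by
        intro c e he hc
        exact hnd'.1 (h31_mem_of_edges he (by rw [hc]; simp))
      rw [edges, mem_insert] at h1
      have hbb : b = b' := by
        rcases h1 with h1 | h1
        · have h2 : b ∈ ({a, b'} : Finset ℤ) := by rw [← h1]; simp
          rw [mem_insert, mem_singleton] at h2
          rcases h2 with h2 | h2
          · exact absurd h2 hab
          · exact h2
        · exact absurd rfl (hno' b _ h1)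
      subst hbb
      congr 1
      apply ih hnd.2 hnd'.2
      rw [edges, edges] at h
      ext e
      constructor
      · intro he
        have h2 : e ∈ insert ({a, b} : Finset ℤ) (edges (b :: l')) := by
          rw [← h]; exact mem_insert_of_mem he
        rcases mem_insert.1 h2 with h2 | h2
        · exact absurd h2 (hno b e he)
        · exact h2
      · intro he
        have h2 : e ∈ insert ({a, b} : Finset ℤ) (edges (b :: l)) := by
          rw [h]; exact mem_insert_of_mem he
        rcases mem_insert.1 h2 with h2 | h2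
        · exact absurd h2 (hno' b e he)
        · exact h2

theorem h31_erase_insAfter {a y : ℤ} {l : List ℤ} (h : a ∈ l) (hy : y ∉ l) :
    (insAfter a y l).erase y = l := by
  induction l with
  | nil => simp at h
  | cons b l ih =>
    rw [List.mem_cons, not_or] at hy
    have hyb : ¬ (b == y) = true := by
      rw [beq_iff_eq]
      exact fun h => hy.1 h.symm
    rw [insAfter]
    split
    · rw [List.erase_cons_tail hyb, List.erase_cons_head]
    · rename_i hb
      have h1 : a ∈ l := by
        rcases List.mem_cons.1 h with h | h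
        · exact absurd h.symm hb
        · exact h
      rw [List.erase_cons_tail hyb, ih h1 hy.2]

theorem h31_insAfter_inj {a b y : ℤ} {l : List ℤ} (ha : a ∈ l) (hb : b ∈ l) (hy : y ∉ l)
    (h : insAfter a y l = insAfter b y l) : a = b := by
  have h1 := h31_nxt_insAfter_self (y := y) ha
  by_contra hab
  have hay : a ≠ y := fun h => hy (h ▸ ha)
  rw [h, h31_nxt_insAfter_ne hab hay] at h1
  rcases h31_nxt_tail (x := a) (l := l) with h2 | h2
  · rw [h1] at h2
    exact hy (List.mem_of_mem_tail h2)
  · -- `a` is the last element and `y = 0`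
    rw [h1] at h2
    have h3 : ∀ l : List ℤ, a ∈ l → (0 : ℤ) ∉ l → b ∈ l → insAfter a 0 l = insAfter b 0 l →
        False := by
      intro l
      induction l with
      | nil => intro h; simp at h
      | cons c l ih =>
        intro ha h0 hb h
        rw [List.mem_cons, not_or] at h0
        rw [insAfter, insAfter] at h
        by_cases hca : c = a
        · have hcb : c ≠ b := fun h => hab (hca ▸ h)
          rw [if_pos hca, if_neg hcb, List.cons_inj_right] at h
          have hb' : b ∈ l := by
            rcases List.mem_cons.1 hb with h | h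
            · exact absurd h.symm hcb
            · exact h
          cases l with
          | nil => simp at hb'
          | cons d l =>
            rw [insAfter] at h
            split at h
            · exact h0.2 (by simp [(List.cons.inj h).1])
            · exact h0.2 (by simp [(List.cons.inj h).1])
        · by_cases hcb : c = b
          · rw [if_neg hca, if_pos hcb, List.cons_inj_right] at h
            have ha' : a ∈ l := by
              rcases List.mem_cons.1 ha with h | h
              · exact absurd h.symm hca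
              · exact h
            cases l with
            | nil => simp at ha'
            | cons d l =>
              rw [insAfter] at h
              split at h
              · exact h0.2 (by simp [(List.cons.inj h).1])
              · exact h0.2 (by simp [(List.cons.inj h).1])
          · rw [if_neg hca, if_neg hcb, List.cons_inj_right] at h
            have ha' : a ∈ l := by
              rcases List.mem_cons.1 ha with h | h
              · exact absurd h.symm hca
              · exact h
            have hb' : b ∈ l := by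
              rcases List.mem_cons.1 hb with h | h
              · exact absurd h.symm hcb
              · exact h
            exact ih ha' h0.2 hb' h
    subst h2
    exact h3 l ha hy hb h

/-- the negative block -/
theorem h31_nxt_neg {z : ℕ → ℤ} (hz : Adm z) {m : ℕ} (hm : 3 ≤ m) :
    ∀ i : ℕ, 3 ≤ i → i ≤ m → nxt (-(i : ℤ)) (pth z m) = -((i : ℤ) - 1) := by
  induction m, hm using Nat.le_induction with
  | base =>
    intro i h1 h2
    obtain rfl : i = 3 := by omega
    rfl
  | succ m hm ih =>
    intro i h1 h2
    have hm1 : 4 ≤ m + 1 := by omega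
    obtain ⟨hz1, hz2, hz3, hz4⟩ := h31_z_mem hz hm1
    simp only [Nat.add_sub_cancel] at hz1 hz2
    obtain ⟨hnd, hmem, _⟩ := pth_basic hz hm
    have hA : z (m + 1) ∈ pth z m := (hmem _).2 ⟨hz1, hz2⟩
    have hC : (-1 : ℤ) ∈ pth z m := by
      rw [hmem, h31_mem_V]
      refine ⟨⟨by norm_num, ?_⟩, by omega⟩
      norm_num
      omega
    rw [pth_succ z hm1]
    simp only [Nat.add_sub_cancel]
    push_cast
    rcases Nat.lt_or_ge i (m + 1) with h3 | h3
    · have h4 : (-(i : ℤ)) ≠ z (m + 1) := by
        obtain ⟨h4, h5, h6⟩ := hz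
        rcases Nat.lt_or_ge m 4 with h | h
        · obtain rfl : m = 3 := by omega
          rw [h4]
          omega
        rcases Nat.lt_or_ge m 5 with h' | h'
        · obtain rfl : m = 4 := by omega
          rw [h5]
          omega
        · have := (h6 (m + 1) (by omega)).1
          omega
      rw [h31_nxt_insAfter_ne (by omega) (by omega), h31_nxt_insAfter_ne h4 (by omega),
        ih i h1 (by omega)]
    · obtain rfl : i = m + 1 := by omega
      push_cast
      rw [h31_nxt_insAfter_new ((h31_mem_insAfter hA).2 (Or.inr hC)) (by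
        rw [h31_mem_insAfter hA, hmem, h31_mem_V, abs_neg, abs_le]
        rintro (h | ⟨⟨h4, h5⟩, h6⟩)
        · omega
        · omega), h31_nxt_insAfter_ne (Ne.symm hz4) (by omega), (neg_edge hz hm).2]
      ring

/-- the lists determine the sequences -/
theorem h31_pth_inj {z z' : ℕ → ℤ} (hz : Adm z) (hz' : Adm z') {m : ℕ} (hm : 3 ≤ m)
    (h : pth z m = pth z' m) : ∀ i, i ≤ m → 4 ≤ i → z i = z' i := by
  induction m, hm using Nat.le_induction with
  | base => intro i h1 h2; omega
  | succ m hm ih =>
    have hm1 : 4 ≤ m + 1 := by omega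
    have facts : ∀ z : ℕ → ℤ, Adm z → z (m + 1) ∈ pth z m ∧ (m : ℤ) ∉ pth z m ∧
        (-1 : ℤ) ∈ insAfter (z (m + 1)) (m : ℤ) (pth z m) ∧
        (-((m : ℤ) + 1)) ∉ insAfter (z (m + 1)) (m : ℤ) (pth z m) := by
      intro z hz
      obtain ⟨hz1, hz2, hz3, hz4⟩ := h31_z_mem hz hm1
      simp only [Nat.add_sub_cancel] at hz1 hz2
      obtain ⟨hnd, hmem, _⟩ := pth_basic hz hm
      have hA : z (m + 1) ∈ pth z m := (hmem _).2 ⟨hz1, hz2⟩
      have hC : (-1 : ℤ) ∈ pth z m := by
        rw [hmem, h31_mem_V]
        refine ⟨⟨by norm_num, ?_⟩, by omega⟩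
        norm_num
        omega
      refine ⟨hA, ?_, (h31_mem_insAfter hA).2 (Or.inr hC), ?_⟩
      · rw [hmem]
        rintro ⟨_, h⟩
        exact h rfl
      · rw [h31_mem_insAfter hA, hmem, h31_mem_V, abs_neg, abs_le]
        rintro (h | ⟨⟨h4, h5⟩, h6⟩)
        · omega
        · omega
    obtain ⟨a1, a2, a3, a4⟩ := facts z hz
    obtain ⟨b1, b2, b3, b4⟩ := facts z' hz'
    have e : ∀ z : ℕ → ℤ, pth z (m + 1) =
        insAfter (-1) (-((m : ℤ) + 1)) (insAfter (z (m + 1)) (m : ℤ) (pth z m)) := by
      intro z
      rw [pth_succ z hm1]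
      simp only [Nat.add_sub_cancel]
      push_cast
      congr 2
      ring
    rw [e z, e z'] at h
    have h1 : (insAfter (-1) (-((m : ℤ) + 1)) (insAfter (z (m + 1)) (m : ℤ) (pth z m))).erase
        (-((m : ℤ) + 1)) = (insAfter (-1) (-((m : ℤ) + 1))
          (insAfter (z' (m + 1)) (m : ℤ) (pth z' m))).erase (-((m : ℤ) + 1)) := by rw [h]
    rw [h31_erase_insAfter a3 a4, h31_erase_insAfter b3 b4] at h1
    have h2 : (insAfter (z (m + 1)) (m : ℤ) (pth z m)).erase (m : ℤ) =
        (insAfter (z' (m + 1)) (m : ℤ) (pth z' m)).erase (m : ℤ) := by rw [h1]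
    rw [h31_erase_insAfter a1 a2, h31_erase_insAfter b1 b2] at h2
    rw [← h2] at h1 b1
    have h3 := h31_insAfter_inj a1 b1 a2 h1
    intro i hi1 hi2
    rcases Nat.lt_or_ge i (m + 1) with h4 | h4
    · exact ih h2 i (by omega) hi2
    · obtain rfl : i = m + 1 := by omega
      exact h3

/-- the rim -/
def h31Rim (z : ℕ → ℤ) (m : ℕ) : Cx := edges (pth z m) ∪ {{1, (m : ℤ)}, {(m : ℤ), 2}}

theorem h31_rim_neg {z : ℕ → ℤ} {m : ℕ} {e : Finset ℤ} (he : e ∈ h31Rim z m) {x : ℤ}
    (hx : x ∈ e) (hx0 : x < 0) : e ∈ edges (pth z m) := by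
  unfold h31Rim at he
  rw [mem_union, mem_insert, mem_singleton] at he
  rcases he with he | he | he
  · exact he
  · subst he
    rw [mem_insert, mem_singleton] at hx
    omega
  · subst he
    rw [mem_insert, mem_singleton] at hx
    omega

theorem h31_rim_step {z z' : ℕ → ℤ} (hz : Adm z) (hz' : Adm z') {m : ℕ} (hm : 6 ≤ m)
    (ψ : ℤ → ℤ) (hψ : Set.InjOn ψ (V m))
    (he : (h31Rim z m).image (fun F => F.image ψ) = h31Rim z' m) {i : ℕ} (hi : 3 ≤ i)
    (him : i ≤ m) {p : ℤ} (hp : p ∈ V m) (hnp : nxt p (pth z' m) = -(i : ℤ)) (hψp : ψ p = p)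
    (hψi : ψ (-(i : ℤ)) = -(i : ℤ)) (hpi : p ≠ -((i : ℤ) - 1)) :
    ψ (-((i : ℤ) - 1)) = -((i : ℤ) - 1) := by
  have hm3 : 3 ≤ m := by omega
  have hiV : (-(i : ℤ)) ∈ V m := by
    rw [h31_mem_V, abs_neg]
    refine ⟨by omega, ?_⟩
    rw [Nat.abs_cast]
    omega
  have hiV' : (-((i : ℤ) - 1)) ∈ V m := by
    rw [h31_mem_V, abs_neg, abs_le]
    omega
  have hin : ∀ z : ℕ → ℤ, Adm z → (-((i : ℤ) - 1)) ∈ pth z m := by
    intro z hz
    rw [(pth_basic hz hm3).2.1]
    exact ⟨hiV', by omega⟩
  have h1 : ({-(i : ℤ), -((i : ℤ) - 1)} : Finset ℤ) ∈ h31Rim z m := by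
    unfold h31Rim
    rw [mem_union]
    left
    have h2 := h31_edge_nxt (a := -(i : ℤ)) (l := pth z m) (h31_zero_notMem hz hm3) (by
      rw [h31_nxt_neg hz hm3 i hi him]
      exact hin z hz)
    rwa [h31_nxt_neg hz hm3 i hi him] at h2
  have h2 : ({-(i : ℤ), ψ (-((i : ℤ) - 1))} : Finset ℤ) ∈ h31Rim z' m := by
    rw [← he, mem_image]
    refine ⟨_, h1, ?_⟩
    rw [image_insert, image_singleton, hψi]
  have h3 : ({-(i : ℤ), ψ (-((i : ℤ) - 1))} : Finset ℤ) ∈ edges (pth z' m) :=
    h31_rim_neg h2 (x := -(i : ℤ)) (mem_insert_self _ _) (by omega)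
  have hne : ψ (-((i : ℤ) - 1)) ≠ -(i : ℤ) := by
    intro h
    have h4 := hψ hiV' hiV (by rw [h, hψi])
    omega
  have hne' : ψ (-((i : ℤ) - 1)) ≠ p := by
    intro h
    exact hpi (hψ hp hiV' (by rw [h, hψp]))
  have hnd' := (pth_basic hz' hm3).1
  have hiP : (-(i : ℤ)) ∈ pth z' m := by
    rw [(pth_basic hz' hm3).2.1]
    exact ⟨hiV, by omega⟩
  rcases h31_edge_cases hnd' h3 (x := -(i : ℤ)) (mem_insert_self _ _) with ⟨q, h4, h5⟩ | h4
  · have h6 : q = p := h31_nxt_inj hnd' (h31_zero_notMem hz' hm3) hiP h4 hnp
    subst h6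
    have h7 : ψ (-((i : ℤ) - 1)) ∈ ({q, -(i : ℤ)} : Finset ℤ) := by
      rw [← h5]
      simp
    rw [mem_insert, mem_singleton] at h7
    rcases h7 with h7 | h7
    · exact absurd h7 hne'
    · exact absurd h7 hne
  · rw [h31_nxt_neg hz' hm3 i hi him] at h4
    have h7 : ψ (-((i : ℤ) - 1)) ∈ ({-(i : ℤ), -((i : ℤ) - 1)} : Finset ℤ) := by
      rw [← h4]
      simp
    rw [mem_insert, mem_singleton] at h7
    rcases h7 with h7 | h7
    · exact absurd h7 hne
    · exact h7

theorem h31_rim_rigid {z z' : ℕ → ℤ} (hz : Adm z) (hz' : Adm z') {m : ℕ} (hm : 6 ≤ m)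
    (ψ : ℤ → ℤ) (hψ : Set.BijOn ψ (V m) (V m)) (hneg : ∀ x ∈ V m, ψ (-x) = -ψ x)
    (h1 : ψ (-1) = -1) (h2 : ψ (-(m : ℤ)) = -(m : ℤ))
    (he : (h31Rim z m).image (fun F => F.image ψ) = h31Rim z' m) :
    ∀ i, i ≤ m → 4 ≤ i → z i = z' i := by
  have hm3 : 3 ≤ m := by omega
  have hinj := hψ.injOn
  have key : ∀ k : ℕ, k + 2 ≤ m → ψ (-(((m - k : ℕ)) : ℤ)) = -((m - k : ℕ) : ℤ) := by
    intro k
    induction k using Nat.strong_induction_on with
    | _ k ih =>
      intro hk
      rcases k with _ | k
      · simpa using h2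
      · have h3 : ((m - (k + 1) : ℕ) : ℤ) = ((m - k : ℕ) : ℤ) - 1 := by omega
        rw [h3]
        rcases k with _ | k
        · refine h31_rim_step hz hz' hm ψ hinj he (i := m - 0) (by omega) (by omega) (p := -1)
            ?_ ?_ h1 (by simpa using h2) (by omega)
          · rw [h31_mem_V]
            refine ⟨by norm_num, ?_⟩
            norm_num
            omega
          · rw [(neg_edge hz' hm3).2]
            simp
        · refine h31_rim_step hz hz' hm ψ hinj he (i := m - (k + 1)) (by omega) (by omega)
            (p := -((m - k : ℕ) : ℤ)) ?_ ?_ (ih k (by omega) (by omega))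
            (ih (k + 1) (by omega) (by omega)) (by omega)
          · rw [h31_mem_V, abs_neg, Nat.abs_cast]
            omega
          · rw [h31_nxt_neg hz' hm3 (m - k) (by omega) (by omega)]
            omega
  have hfix : ∀ x ∈ V m, ψ x = x := by
    have hn : ∀ x ∈ V m, x < 0 → ψ x = x := by
      intro x hx h0
      rw [h31_mem_V, abs_le] at hx
      rcases eq_or_ne x (-1) with h3 | h3
      · rw [h3, h1]
      · have h4 := key (m - (-x).toNat) (by omega)
        have h5 : -((m - (m - (-x).toNat) : ℕ) : ℤ) = x := by omega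
        rwa [h5] at h4
    intro x hx
    have hx' := hx
    rw [h31_mem_V, abs_le] at hx'
    rcases lt_or_gt_of_ne hx'.1 with h | h
    · exact hn x hx h
    · have hx2 : -x ∈ V m := by
        rw [h31_mem_V, abs_neg, abs_le]
        omega
      have h3 := hneg x hx
      rw [hn (-x) hx2 (by omega)] at h3
      omega
  have hsub : ∀ e ∈ h31Rim z m, e ⊆ V m := by
    intro e he' x hx
    unfold h31Rim at he'
    rw [mem_union, mem_insert, mem_singleton] at he'
    rcases he' with he' | he' | he'
    · exact (((pth_basic hz hm3).2.1 x).1 (h31_mem_of_edges he' hx)).1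
    · subst he'
      rw [mem_insert, mem_singleton] at hx
      rw [h31_mem_V, abs_le]
      omega
    · subst he'
      rw [mem_insert, mem_singleton] at hx
      rw [h31_mem_V, abs_le]
      omega
  have heq : h31Rim z m = h31Rim z' m := by
    rw [← he]
    symm
    calc (h31Rim z m).image (fun F => F.image ψ) = (h31Rim z m).image id := by
          apply image_congr
          intro F hF
          have hF' : F ⊆ V m := hsub F (by exact_mod_cast hF)
          simp only [id]
          calc F.image ψ = F.image id := by
                apply image_congr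
                intro x hx
                exact hfix x (hF' (by exact_mod_cast hx))
            _ = F := image_id
      _ = h31Rim z m := image_id
  have hed : ∀ z : ℕ → ℤ, Adm z → edges (pth z m) = (h31Rim z m).filter (fun e => (m : ℤ) ∉ e) := by
    intro z hz
    ext e
    unfold h31Rim
    rw [mem_filter, mem_union, mem_insert, mem_singleton]
    constructor
    · intro h
      refine ⟨Or.inl h, fun hme => ?_⟩
      exact (((pth_basic hz hm3).2.1 _).1 (h31_mem_of_edges h hme)).2 rfl
    · rintro ⟨h | h | h, h'⟩
      · exact h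
      · exact absurd (by rw [h]; simp) h'
      · exact absurd (by rw [h]; simp) h'
  have hee : edges (pth z m) = edges (pth z' m) := by
    rw [hed z hz, hed z' hz', heq]
  apply h31_pth_inj hz hz' hm3
  obtain ⟨hnd, _, l, hl⟩ := pth_basic hz hm3
  obtain ⟨hnd', _, l', hl'⟩ := pth_basic hz' hm3
  rw [hl, hl'] at hee
  rw [hl] at hnd
  rw [hl'] at hnd'
  rw [hl, hl', h31_edges_eq hnd hnd' hee]

end Pool.Agent.H30.NZ
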